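import Mathlib
import Pool.Agent.Work.MP_500150_lc.H8.Orbit

set_option autoImplicit false

/-!
# Locality of the computability of the Mandelbrot set: definitions

`P n c` is the critical orbit (`P 0 c = 0`, `P (n + 1) c = (P n c) ^ 2 + c`), `MM` the Mandelbrot set,
`dM` the distance to it (all from `H8/Orbit.lean`).
-/

namespace Pool.Agent.Work.MP_500150_lc.LC

open Metric Set Filter Topology Pool.MP_500150_lc.H8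

/-- The iterates of `z ↦ z ^ 2 + c`. -/
noncomputable def fi (n : ℕ) (c z : ℂ) : ℂ := (fun w : ℂ => w ^ 2 + c)^[n] z

/-- The fixed point with the larger multiplier. -/
noncomputable def bet (c : ℂ) : ℂ := (1 + (1 - 4 * c) ^ (1 / 2 : ℂ)) / 2

/-- The critical orbit of `c₀` lands at the repelling fixed point `bet c₀` at time `l`. -/
structure Mis (c₀ : ℂ) (l : ℕ) : Prop where
  slit : 1 - 4 * c₀ ∈ Complex.slitPlane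
  pos : 1 ≤ l
  land : P l c₀ = bet c₀

/-! ### Families -/

/-- The homotopy from the identity (`s = 0`) to `J` (`s = 1`). -/
noncomputable def Js (J : ℂ × ℂ → ℂ) (s lam X : ℂ) : ℂ := X + s * (J (lam, X) - X)

/-- The critical orbit of `X ↦ lam + Js(X) ^ 2`. For `s = 0` it is `P i lam`. -/
noncomputable def OX (J : ℂ × ℂ → ℂ) (s lam : ℂ) : ℕ → ℂ
  | 0 => 0
  | i + 1 => lam + (Js J s lam (OX J s lam i)) ^ 2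

/-- Families close to the quadratic family, of size `w`. -/
structure Fam (w : ℝ) (J : ℂ × ℂ → ℂ) : Prop where
  big : 20 ≤ w
  an : AnalyticOnNhd ℂ J (ball 0 (w / 2) ×ˢ ball 0 (2 * w))
  near : ∀ lam X : ℂ, ‖lam‖ < w / 2 → ‖X‖ < 2 * w → ‖J (lam, X) - X‖ ≤ ‖X‖ / 100

/-- The pairs `(lam, s)` for which the critical orbit leaves the disc of radius `w / 2` at time `N` and
is then in the annulus `w / 2 < |X| < 3 w / 2`. -/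
def ES (w : ℝ) (J : ℂ × ℂ → ℂ) (N : ℕ) : Set (ℂ × ℂ) :=
  {q | ‖q.1‖ < w / 2 ∧ ‖q.2‖ < 3 ∧ (∀ i, 1 ≤ i → i < N → ‖OX J q.2 q.1 i‖ < w / 2) ∧
    w / 2 < ‖OX J q.2 q.1 N‖ ∧ ‖OX J q.2 q.1 N‖ < 3 * w / 2}

/-- Holomorphic motions `h 1, …, h N` over the disc of radius `ε` with `h N = b` constant. -/
structure Mot (w : ℝ) (N : ℕ) (b : ℂ) (ε : ℝ) (h : ℕ → ℂ → ℂ) : Prop where
  an : ∀ i, 1 ≤ i → i ≤ N → DifferentiableOn ℂ (h i) (ball 0 ε)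
  bd : ∀ i, 1 ≤ i → i < N → ∀ t ∈ ball (0 : ℂ) ε, ‖h i t‖ < w / 2
  top : ∀ t ∈ ball (0 : ℂ) ε, h N t = b
  inj : ∀ i k, 1 ≤ i → i < k → k ≤ N → ∀ t ∈ ball (0 : ℂ) ε, h i t ≠ h k t

/-- `h'` is a lift of the motion `h`. -/
def Lif (J : ℂ × ℂ → ℂ) (s : ℂ) (N : ℕ) (ε : ℝ) (h h' : ℕ → ℂ → ℂ) : Prop :=
  ∀ i, 1 ≤ i → i < N → ∀ t ∈ ball (0 : ℂ) ε, h (i + 1) t = h 1 t + (Js J s (h 1 t) (h' i t)) ^ 2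

/-! ### Small copies -/

/-- The map `y ↦ a⁻¹ f_c^(p-1) (c + a² (y - lam))`, `c = cn lam`, `a = a lam`. -/
noncomputable def JJ (p : ℕ) (cn a : ℂ → ℂ) (q : ℂ × ℂ) : ℂ :=
  fi (p - 1) (cn q.1) (cn q.1 + (a q.1) ^ 2 * (q.2 - q.1)) / a q.1

/-- Small copies near `c₀`: scales `α n`, geometric in `n`; for each large `n` a period `p`, parameters
`cn lam` and scales `a lam` for `|lam| < κ / |α n|`. -/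
structure CopyAt (c₀ : ℂ) (κ C ε ε₁ : ℝ) (n : ℕ) (α : ℂ) (p : ℕ) (cn a : ℂ → ℂ) : Prop where
  one_le : 1 ≤ p
  dc : DifferentiableOn ℂ cn (ball 0 (κ / ‖α‖))
  da : DifferentiableOn ℂ a (ball 0 (κ / ‖α‖))
  near : ∀ lam ∈ ball (0 : ℂ) (κ / ‖α‖), ‖cn lam - c₀‖ ≤ ε
  scale : ∀ lam ∈ ball (0 : ℂ) (κ / ‖α‖), ‖a lam - α‖ ≤ ‖α‖ / 100
  lip : ∀ lam ∈ ball (0 : ℂ) (κ / ‖α‖), ∀ lam' ∈ ball (0 : ℂ) (κ / ‖α‖),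
    ‖lam - lam'‖ ≤ C ^ (n + 1) * ‖cn lam - cn lam'‖
  quad : ∀ lam ∈ ball (0 : ℂ) (κ / ‖α‖), ∀ y ∈ ball (0 : ℂ) (4 * κ / ‖α‖),
    ‖JJ p cn a (lam, y) - y‖ ≤ ‖y‖ / 100
  equi : ∀ lam ∈ ball (0 : ℂ) (κ / ‖α‖), ∀ w ∈ ball (0 : ℂ) (4 * κ / ‖α‖),
    ∀ w' ∈ ball (0 : ℂ) (4 * κ / ‖α‖), ‖w - w'‖ ≤ ε₁ / ‖α‖ →
    ‖a lam * JJ p cn a (lam, w) - a 0 * JJ p cn a (0, w')‖ ≤ ε

/-- The inverse branches `U k` of the first return to a neighbourhood of `0`: `fi (m₀ + k) c` maps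
`c + U k (c, x)` to `x`. -/
structure VK (c₀ : ℂ) (ρ C τ : ℝ) (m₀ : ℕ) (D : ℂ → ℂ) (U : ℕ → ℂ × ℂ → ℂ) : Prop where
  rho : 0 < ρ
  rho1 : ρ ≤ 1
  one_le : 1 ≤ C
  tau : 1 < τ
  dD : DifferentiableOn ℂ D (ball c₀ ρ)
  D0 : D c₀ = 0
  Dn : ¬ ∀ᶠ c in 𝓝 c₀, D c = 0
  slit : ∀ c ∈ ball c₀ ρ, 1 - 4 * c ∈ Complex.slitPlane ∧ τ ≤ ‖2 * bet c‖
  an : ∀ k, AnalyticOnNhd ℂ (U k) (ball c₀ ρ ×ˢ ball 0 ρ)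
  ret : ∀ k, ∀ c ∈ ball c₀ ρ, ∀ x ∈ ball (0 : ℂ) ρ, fi (m₀ + k) c (c + U k (c, x)) = x
  bd : ∀ k, ∀ c ∈ ball c₀ ρ, ∀ x ∈ ball (0 : ℂ) ρ, ‖(2 * bet c) ^ k * (U k (c, x) - U k (c, 0))‖ ≤ C
  der : ∀ k, ∀ c ∈ ball c₀ ρ, 1 / C ≤ ‖(2 * bet c) ^ k * deriv (fun x => U k (c, x)) 0‖ ∧
    ‖(2 * bet c) ^ k * deriv (fun x => U k (c, x)) 0‖ ≤ C
  val : ∀ k, ∀ c ∈ ball c₀ ρ, 1 / C ≤ ‖(2 * bet c) ^ k * (U k (c, 0) + D c)‖ ∧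
    ‖(2 * bet c) ^ k * (U k (c, 0) + D c)‖ ≤ C

/-- The derivative of `U k (c, ·)` at `0`. -/
noncomputable def AU (U : ℕ → ℂ × ℂ → ℂ) (k : ℕ) (c : ℂ) : ℂ := deriv (fun x => U k (c, x)) 0

/-- There are small copies near `c₀`. -/
def Copies (c₀ : ℂ) : Prop :=
  ∃ (κ C τ : ℝ) (α : ℕ → ℂ), 0 < κ ∧ κ ≤ 1 ∧ 1 ≤ C ∧ 1 < τ ∧
    (∀ n, α n ≠ 0 ∧ ‖α n‖ ≤ C / τ ^ n ∧ ‖α n‖ ≤ C * ‖α (n + 1)‖ ∧ 1 / C ^ (n + 1) ≤ ‖α n‖) ∧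
    ∀ ε : ℝ, 0 < ε → ∃ ε₁ : ℝ, 0 < ε₁ ∧ ∃ n₀ : ℕ, ∀ n, n₀ ≤ n → ∃ (p : ℕ) (cn a : ℂ → ℂ),
      CopyAt c₀ κ C ε ε₁ n (α n) p cn a

/-- A copy prepared for the transfer. -/
structure TgtAt (c₀ W b : ℂ) (C e ε : ℝ) (n p : ℕ) (cn a : ℂ → ℂ) : Prop where
  one_le : 1 ≤ p
  fam : Fam ‖b‖ (JJ p cn a)
  dc : DifferentiableOn ℂ cn (ball 0 (‖b‖ / 2))
  ne : ∀ lam ∈ ball (0 : ℂ) (‖b‖ / 2), a lam ≠ 0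
  near : ∀ lam ∈ ball (0 : ℂ) (‖b‖ / 2), ‖cn lam - c₀‖ ≤ ε
  lip : ∀ lam ∈ ball (0 : ℂ) (‖b‖ / 2), ∀ lam' ∈ ball (0 : ℂ) (‖b‖ / 2),
    ‖lam - lam'‖ ≤ C ^ (n + 1) * ‖cn lam - cn lam'‖
  equi : ∀ lam ∈ ball (0 : ℂ) (‖b‖ / 2), ∀ v : ℂ, ‖v - b‖ ≤ e * ‖b‖ →
    ‖a lam * JJ p cn a (lam, v) - W‖ ≤ ε

end Pool.Agent.Work.MP_500150_lc.LC
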