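import Mathlib
import Pool.Agent.Work.MP_500150_lc.LC.Defs

set_option autoImplicit false

/-!
# Locality of the computability of the Mandelbrot set: statements of the items

Every docstring contains a complete proof. Notation: `z_n(c) = P n c`, `M = MM`, `d = dM`,
`f_c(z) = z ^ 2 + c`, `β = bet c`, `B(x, r) = ball x r`.
-/

namespace Pool.Agent.Work.MP_500150_lc.LC

open Metric Set Filter Topology MeasureTheory Pool.MP_500150_lc.H8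

/-! ## A. Misiurewicz parameters are dense in the boundary -/

/-- BET. `bet c = (1 + r) / 2` with `r ^ 2 = 1 - 4 c`, so `bet c ^ 2 + c = bet c`. If `1 - 4 c` is in the slit
plane then `Re r > 0` (principal root: `|arg| < π / 2`), so `|2 bet c| = |1 + r| > 1`, and `bet` is
differentiable. `bet 0 = 1`; `|c| ≤ 4` gives `|bet c| ≤ (1 + √17) / 2 ≤ 3`. -/
def S_BET : Prop :=
  (∀ c : ℂ, bet c ^ 2 + c = bet c) ∧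
  (∀ c : ℂ, 1 - 4 * c ∈ Complex.slitPlane → 1 < ‖2 * bet c‖ ∧ DifferentiableAt ℂ bet c) ∧
  bet 0 = 1 ∧ ∀ c : ℂ, ‖c‖ ≤ 4 → ‖bet c‖ ≤ 3

/-- FIP. Simple facts on the iterates. `P n c = fi n c 0`, `P (n + 1) c = fi n c c`, `fi (m + n) c z =
fi m c (fi n c z)`, `(c, z) ↦ fi n c z` is analytic (a polynomial). -/
def S_FIP : Prop :=
  (∀ n c, P n c = fi n c 0) ∧ (∀ n c, P (n + 1) c = fi n c c) ∧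
  (∀ m n c z, fi (m + n) c z = fi m c (fi n c z)) ∧
  (∀ n, AnalyticOnNhd ℂ (fun q : ℂ × ℂ => fi n q.1 q.2) univ) ∧
  (∀ n c z, fi (n + 1) c z = fi n c (z ^ 2 + c)) ∧ (∀ n c z, fi (n + 1) c z = (fi n c z) ^ 2 + c)

/-- MBD. If the critical orbit lands at `bet c₀` then `c₀ ∈ M` (else `|P n c₀| → ∞`, `esc_large`), so
`|c₀| ≤ 2`, `|bet c₀| ≤ 2`; and `P i c₀ ≠ 0` for `i ≥ 1`: otherwise `P (i k) c₀ = 0` for all `k`, but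
`P n c₀ = bet c₀ ≠ 0` for `n ≥ l` (induction, `bet ^ 2 + c₀ = bet`). Uses BET. -/
def S_MBD : Prop :=
  ∀ (c₀ : ℂ) (l : ℕ), Mis c₀ l → c₀ ∈ MM ∧ ‖c₀‖ ≤ 2 ∧ ‖bet c₀‖ ≤ 2 ∧ (∀ i, 1 ≤ i → P i c₀ ≠ 0) ∧
    ∀ n, l ≤ n → P n c₀ = bet c₀

/-- NID. `P l c = bet c` is not an identity near `c₀`: both sides are analytic on the connected open set
`{1 - 4 c ∈ slitPlane}` (star shaped with respect to `0`), so it would hold at `c = 0`, where `P l 0 = 0`,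
`bet 0 = 1`. (`AnalyticOnNhd.eqOn_of_preconnected_of_eventuallyEq`.) -/
def S_NID : Prop :=
  ∀ (c₀ : ℂ) (l : ℕ), Mis c₀ l → ¬ ∀ᶠ c in 𝓝 c₀, P l c = bet c

/-- FRO. An open set which meets the boundary of `M` meets it in a point with `1 - 4 c` in the slit plane.
`1 - 4 c` is not in the slit plane iff `c = x` real, `x ≥ 1/4`. A real `x > 1/4` is not in `M`:
`z_{n+1} - z_n = (z_n - 1/2) ^ 2 + x - 1/4 ≥ x - 1/4`, unbounded. A real `x ∈ [0, 1/4]` is in `M`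
(`0 ≤ z_n ≤ 1/2`). If `1/4 ∈ U ∩ ∂M`: take `e ∉ M` in a disc `B(1/4, ρ) ⊆ U`, and, `M` being closed, with
`Im e ≠ 0`; take `m = 1/4 - ρ/2` (or `0` if `ρ` is large; take `ρ ≤ 1/4`). The segment from `m` to `e` is
connected, meets `M` and its complement, so it meets `frontier M`
(`IsPreconnected.inter_frontier_nonempty`); all its points have `Im ≠ 0`, except `m < 1/4`. -/
def S_FRO : Prop :=
  ∀ U : Set ℂ, IsOpen U → (U ∩ frontier MM).Nonempty →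
    ∃ c ∈ U, c ∈ frontier MM ∧ 1 - 4 * c ∈ Complex.slitPlane

/-- GRZ. If `|c| ≤ 2`, `|z| > 2`, write `|z| = u + 1/u`, `u > 1`; then `|f_c^n(z)| ≥ u^(2^n) + u^(-2^n)` by
induction (`(v + 1/v)^2 - 2 = v^2 + 1/v^2`, and `x ↦ x^2 - 2` is increasing). -/
def S_GRZ : Prop :=
  ∀ c z : ℂ, ‖c‖ ≤ 2 → 2 < ‖z‖ → ∃ g : ℝ, 0 < g ∧ ∀ n : ℕ, Real.exp (g * 2 ^ n) ≤ ‖fi n c z‖

/-- GRW. If `c ∉ M` then `|z_n(c)| ≥ exp(g 2^n)` for `n ≥ n₁`: by `esc_large` (`K = {c}`) there is `n₁` with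
`|z_n| ≥ 4 + |c|` for `n ≥ n₁`; then `|z_{n+1}| ≥ |z_n|^2 - |c| ≥ |z_n|^2 - |z_n| ≥ (3/4)|z_n|^2`, so
`(3/4)|z_{n₁+j}| ≥ ((3/4)|z_{n₁}|)^(2^j) ≥ 3^(2^j)`. -/
def S_GRW : Prop :=
  ∀ c : ℂ, c ∉ MM → ∃ g : ℝ, 0 < g ∧ ∃ n₁ : ℕ, ∀ n, n₁ ≤ n → Real.exp (g * 2 ^ n) ≤ ‖P n c‖

/-- SHK. Harnack's inequality with the sharp constant. `f = exp h`, `Re h > 0` (`exists_log` of `H8/Harnack`); the map
`φ = (h - h(x)) / (h + conj h(x))` sends `B(x, R)` to the unit disc and `x` to `0`, so `|φ(y)| ≤ t` (Schwarz), and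
`h(y) = (h(x) + φ conj h(x)) / (1 - φ)`, `Re h(y) = Re h(x) (1 - |φ|²) / |1 - φ|² ≤ Re h(x) (1 + t) / (1 - t)`. -/
def S_SHK : Prop :=
  ∀ (f : ℂ → ℂ) (x y : ℂ) (R t : ℝ), 0 < R → 0 ≤ t → t < 1 → DifferentiableOn ℂ f (ball x R) →
    (∀ z ∈ ball x R, 1 < ‖f z‖) → ‖y - x‖ ≤ t * R →
    Real.log ‖f y‖ ≤ (1 + t) / (1 - t) * Real.log ‖f x‖

/-- ANA. One zero-free function on a circle, constants independent of `k` and `u`. Let `ρ = |x₁ - x₀| < R`, `S` the circle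
of radius `ρ` about `x₀`, `h = 2^(-k) log |u|`, `f = exp((C + 1) 2^k) / u`, so `|f| > 1` on `B(x₀, 4R)` and
`log |f| = 2^k H`, `H = C + 1 - h > 0`, `H(x₁) ≤ C + 1 - g`.
(i) The average of `h` over `S` is `h(x₀) ≤ C 2^(-k)`: `AnalyticOnNhd.circleAverage_log_norm_of_ne_zero`.
(ii) For `x ∈ S`: `H(x) ≤ 2 H(x₀)` (SHK with centre `x₀`, radius `4R`, `t = 1/3`), `H(x₀) ≤ 2 H(x₁)` (SHK with centre `x₁`,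
radius `3R`, `t = 1/3`), so `H(x) ≤ 4 (C + 1)` and `h ≥ -C'`, `C' = 4 (C + 1)`.
(iii) For `t ∈ (0, 1/3)` with `(1 + t) (C + 1 - g) ≤ (1 - t) (C + 1 - g / 2)` (if `C + 1 - g ≤ 0` there is no such `u`; take
`t = 1/6`): for `|x - x₁| ≤ 3 t R`, `H(x) ≤ C + 1 - g/2` (SHK on `B(x₁, 3R)`), `h(x) ≥ g / 2`. The set of `θ ∈ (0, 2π]` with
`|circleMap x₀ ρ θ - x₁| ≤ 3 t R` contains an interval of length `min(t, 1)`, say: `x₁ = circleMap x₀ ρ θ₁` with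
`θ₁ ∈ (0, 2π]`, `|circleMap θ - circleMap θ₁| ≤ ρ |θ - θ₁|`; take the `θ ∈ (0, 2π]` with `|θ - θ₁| ≤ t`. -/
def S_ANA : Prop :=
  ∀ (x₀ x₁ : ℂ) (R C g : ℝ), 0 < R → 0 ≤ C → 0 < g → x₁ ∈ ball x₀ R → x₁ ≠ x₀ →
    ∃ C' a : ℝ, 0 < C' ∧ 0 < a ∧ ∀ (k : ℕ) (u : ℂ → ℂ), DifferentiableOn ℂ u (ball x₀ (4 * R)) →
      (∀ x ∈ ball x₀ (4 * R), u x ≠ 0 ∧ ‖u x‖ ≤ Real.exp (C * 2 ^ k)) → ‖u x₀‖ ≤ Real.exp C →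
      Real.exp (g * 2 ^ k) ≤ ‖u x₁‖ →
      (∀ θ : ℝ, -C' ≤ Real.log ‖u (circleMap x₀ ‖x₁ - x₀‖ θ)‖ / 2 ^ k) ∧
      Continuous (fun θ : ℝ => Real.log ‖u (circleMap x₀ ‖x₁ - x₀‖ θ)‖ / 2 ^ k) ∧
      ∫ θ in (0 : ℝ)..(2 * Real.pi), Real.log ‖u (circleMap x₀ ‖x₁ - x₀‖ θ)‖ / 2 ^ k ≤
        2 * Real.pi * C / 2 ^ k ∧
      ENNReal.ofReal a ≤ volume {θ : ℝ | θ ∈ Ioc 0 (2 * Real.pi) ∧
        g / 2 ≤ Real.log ‖u (circleMap x₀ ‖x₁ - x₀‖ θ)‖ / 2 ^ k}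

/-- MEA. Measure theory: `∫ (-h)^+ = ∫ h^+ - ∫ h ≥ a g / 2 - b`, and `(-h)^+ ≤ C'` everywhere, `(-h)^+ ≤ η` outside the set
`T = {θ ∈ (0, 2π] | h θ ≤ -η}`, so `a g / 2 - b ≤ C' |T| + 2π η`. -/
def S_MEA : Prop :=
  ∀ (h : ℝ → ℝ) (C' a g b η : ℝ), Continuous h → 0 < C' → 0 < a → 0 < g → 0 < η → (∀ θ, -C' ≤ h θ) →
    ∫ θ in (0 : ℝ)..(2 * Real.pi), h θ ≤ b →
    ENNReal.ofReal a ≤ volume {θ : ℝ | θ ∈ Ioc 0 (2 * Real.pi) ∧ g / 2 ≤ h θ} →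
    ENNReal.ofReal ((a * g / 2 - b - 2 * Real.pi * η) / C') ≤
      volume {θ : ℝ | θ ∈ Ioc 0 (2 * Real.pi) ∧ h θ ≤ -η}

/-- ND1. Zero-free functions which are large at one point are very small on a large part of a circle. `C', a` from ANA,
MEA with `b = 2π C / 2^k ≤ a g / 8` for `k ≥ k₂`, `η = a g / (16 π)`, so `s₀ = a g / (4 C')`. `h ≤ -η` iff
`‖u‖ ≤ exp(-η 2^k)`. Uses ANA, MEA. -/
def S_ND1 : Prop :=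
  ∀ (x₀ x₁ : ℂ) (R C g : ℝ) (u : ℕ → ℂ → ℂ) (k₁ : ℕ), 0 < R → 0 ≤ C → 0 < g → x₁ ∈ ball x₀ R → x₁ ≠ x₀ →
    (∀ k, DifferentiableOn ℂ (u k) (ball x₀ (4 * R))) →
    (∀ k, ∀ x ∈ ball x₀ (4 * R), u k x ≠ 0 ∧ ‖u k x‖ ≤ Real.exp (C * 2 ^ k)) →
    (∀ k, ‖u k x₀‖ ≤ Real.exp C) → (∀ k, k₁ ≤ k → Real.exp (g * 2 ^ k) ≤ ‖u k x₁‖) →
    ∃ η C' s₀ : ℝ, 0 < η ∧ 0 < C' ∧ 0 < s₀ ∧ ∃ k₂ : ℕ, ∀ k, k₂ ≤ k →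
      ENNReal.ofReal s₀ ≤ volume {θ : ℝ | θ ∈ Ioc 0 (2 * Real.pi) ∧
        ‖u k (circleMap x₀ ‖x₁ - x₀‖ θ)‖ ≤ Real.exp (-η * 2 ^ k)} ∧
      ∀ θ : ℝ, Real.exp (-C' * 2 ^ k) ≤ ‖u k (circleMap x₀ ‖x₁ - x₀‖ θ)‖

/-- ND. Pigeonhole on ND1: subsets of `(0, 2π]` of measure `≥ s₀`; if `M + 1 > 2π / s₀` of them cannot be
pairwise disjoint. Uses ND1. The point `x` lies on the circle, inside `B(x₀, R)`. -/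
def S_ND : Prop :=
  ∀ (x₀ x₁ : ℂ) (R C g : ℝ) (u : ℕ → ℂ → ℂ) (k₁ : ℕ), 0 < R → 0 ≤ C → 0 < g → x₁ ∈ ball x₀ R → x₁ ≠ x₀ →
    (∀ k, DifferentiableOn ℂ (u k) (ball x₀ (4 * R))) →
    (∀ k, ∀ x ∈ ball x₀ (4 * R), u k x ≠ 0 ∧ ‖u k x‖ ≤ Real.exp (C * 2 ^ k)) →
    (∀ k, ‖u k x₀‖ ≤ Real.exp C) → (∀ k, k₁ ≤ k → Real.exp (g * 2 ^ k) ≤ ‖u k x₁‖) →
    ∃ η C' : ℝ, 0 < η ∧ 0 < C' ∧ ∃ M k₂ : ℕ, ∀ f : ℕ → ℕ, StrictMono f → k₂ ≤ f 0 →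
      ∃ i j : ℕ, i < j ∧ j ≤ M ∧ ∃ x ∈ ball x₀ R,
        ‖u (f i) x‖ ≤ Real.exp (-η * 2 ^ f i) ∧ ‖u (f j) x‖ ≤ Real.exp (-η * 2 ^ f j) ∧
        Real.exp (-C' * 2 ^ f i) ≤ ‖u (f i) x‖

/-- MIS. Misiurewicz parameters in every open set that meets `∂M`. By FRO take `c* ∈ U ∩ ∂M` with
`1 - 4 c*` in the slit plane, and `R > 0` such that the closed disc of radius `4 R` about `c*` is in `U`, in
`{1 - 4 c ∈ slitPlane}` and in `|c| ≤ 4` (`|c*| ≤ 2`); by compactness `|2 bet c| ≥ κ₀ > 1` there. Put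
`u_n(c) = P (n + 1) c - bet c`. If some `u_n` has a zero in `B(c*, 4R)` we are done (`l = n + 1`). Suppose
not. Upper bounds: `upper4`, `|P n c| ≤ 3^(2^n)`; at `c*`: `|u_n| ≤ 2 + 3`. Take `c₁ ∈ B(c*, R)` outside `M`
(`c* ∈ frontier M`), `c₁ ≠ c*`; GRW gives the lower bound at `c₁` (a smaller `g`). Apply ND: `η, C', M, k₂`.
Identity: `u_{n+1} = u_n (u_n + 2 bet c)`. Put `r₀ = κ₀ - 1`, `B = 6 + r₀`. If `|u_n(c)| B^J ≤ r₀` then for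
`j ≤ J`: `|u_n| ≤ |u_{n+j}| ≤ |u_n| B^j` (induction). Take `q` with `η 2^q > C'` and `k` so large that
`exp(-η 2^k) B^(M q) ≤ r₀`, `k ≥ k₂`, and `f i = k + i q`. ND gives `i < j ≤ M`, `x`; with `n = f i`,
`n' = f j`, `q ≤ n' - n ≤ M q`: `exp(-C' 2^n) ≤ |u_n| ≤ |u_{n'}| ≤ exp(-η 2^{n'}) ≤ exp(-η 2^q 2^n)`,
contradiction. Uses BET, FRO, GRW, ND. -/
def S_MIS : Prop :=
  ∀ U : Set ℂ, IsOpen U → (U ∩ frontier MM).Nonempty → ∃ c₀ ∈ U, ∃ l : ℕ, Mis c₀ l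

/-- REP. Near a repelling fixed point there are points with large orbits: otherwise all `f_c^j` are bounded
by `2` on `B(β, r)`, but their derivatives at `β` are `(2β)^j`; Cauchy's estimate. -/
def S_REP : Prop :=
  ∀ c β : ℂ, β ^ 2 + c = β → 1 < ‖2 * β‖ → ∀ r : ℝ, 0 < r → ∃ x ∈ ball β r, ∃ j : ℕ, 2 < ‖fi j c x‖

/-- CHN. Homoclinic points: `0` is in the forward orbit of points close to `β = bet c₀`. Apply ND to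
`u_k(x) = fi k c₀ x`, `x₀ = β`, `R = r / 4` (w.l.o.g. `r ≤ 1`), if no `u_k` has a zero in `B(β, 4R)`.
Upper bound: `|x| ≤ 3`, `|c₀| ≤ 2` give `|fi k c₀ x| ≤ 4^(2^k)`; at `β`: `|β| ≤ 2`. Lower bound at some
`x₁ ∈ B(β, R)`: REP, then GRZ (shift of the index: smaller `g`). ND with `f i = k + i`: for `n = f i`,
`n' = f j`, `1 ≤ n' - n ≤ M` there is `x` with `|u_n(x)| ≤ exp(-η 2^n)`, `|u_{n'}(x)| ≤ exp(-η 2^{n'})`. But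
`|fi j c₀ y - P j c₀| ≤ 5^j |y| ^ 2` for `j ≥ 1`, `|y| ≤ 1` as long as `5^j |y|^2 ≤ 1` (`|P j c₀| ≤ 2`), so for `k` large
`u_{n'}(x)` is within `5^M exp(-η 2^k)` of `P (n' - n) c₀`, and `|P m c₀| ≥ δ > 0` for all `m ≥ 1` (finitely
many values, none is `0`, MBD): contradiction. So `fi k c₀ x = 0` for some `k`, some `x ∈ B(β, r)`; take the
least `k` for this `x`; `k ≥ 1` if `r < |β|` (take `r` smaller: `|β| > 1/2`). Uses BET, MBD, GRZ, REP, ND. -/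
def S_CHN : Prop :=
  ∀ (c₀ : ℂ) (l : ℕ), Mis c₀ l → ∀ r : ℝ, 0 < r →
    ∃ x₀ ∈ ball (bet c₀) r, ∃ k₀ : ℕ, 1 ≤ k₀ ∧ fi k₀ c₀ x₀ = 0 ∧ ∀ i, i < k₀ → fi i c₀ x₀ ≠ 0

/-- WST. Escaping points near `0`: `z ↦ fi l c₀ z` is a nonconstant polynomial with `0 ↦ bet c₀`, so (open
mapping, `AnalyticAt.eventually_constant_or_nhds_le_map_nhds`) it maps `B(0, r)` onto a neighbourhood of
`bet c₀`, which contains `x` with `2 < |fi j c₀ x|` (REP) and then `3 < |fi j' c₀ x|` (GRZ). It is not constant: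
`|fi l c₀ z| → ∞` as `z → ∞` (or GRZ). `x ≠ 0` since the orbit of `0` is bounded by `2`. Uses BET, MBD, REP,
GRZ. -/
def S_WST : Prop :=
  ∀ (c₀ : ℂ) (l : ℕ), Mis c₀ l → ∀ r : ℝ, 0 < r → ∃ x : ℂ, ‖x‖ < r ∧ x ≠ 0 ∧ ∃ j : ℕ, 3 < ‖fi j c₀ x‖

/-! ## B. Small copies -/

/-- INV. Functions close to the identity. `|F' - 1| ≤ (R/8) / (R/2) = 1/4` on `B(0, R/2)` (Cauchy), so
`|F x - F x' - (x - x')| ≤ |x - x'| / 4` there. For `|y| < R/4` the map `x ↦ y - (F x - x)` is a contraction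
of the closed disc of radius `3R/8`; its fixed point `G y` is the limit of the iterates, which are
holomorphic in `y` and converge uniformly (`TendstoLocallyUniformlyOn.differentiableOn`). -/
def S_INV : Prop :=
  ∀ (F : ℂ → ℂ) (R : ℝ), 0 < R → DifferentiableOn ℂ F (ball 0 R) →
    (∀ x ∈ ball (0 : ℂ) R, ‖F x - x‖ ≤ R / 8) →
    (∀ x ∈ ball (0 : ℂ) (R / 2), ∀ x' ∈ ball (0 : ℂ) (R / 2),
      ‖F x - F x' - (x - x')‖ ≤ ‖x - x'‖ / 4) ∧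
    ∃ G : ℂ → ℂ, DifferentiableOn ℂ G (ball 0 (R / 4)) ∧
      ∀ y ∈ ball (0 : ℂ) (R / 4), G y ∈ ball (0 : ℂ) (R / 2) ∧ F (G y) = y

/-- BRA. Inverse branches along an orbit which avoids `0`. Induction on `m`: for one step near `ζ ≠ 0`
take `(c, x) ↦ ζ ((x - c) / ζ ^ 2) ^ (1/2)` (principal power near `1`). `G` is the composition. The derivative
in `x` is not zero since `fi m c (G (c, x)) = x`. -/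
def S_BRA : Prop :=
  ∀ (c₀ ζ : ℂ) (m : ℕ), (∀ i, i < m → fi i c₀ ζ ≠ 0) →
    ∃ (ρ : ℝ) (G : ℂ × ℂ → ℂ), 0 < ρ ∧
      AnalyticOnNhd ℂ G (ball c₀ ρ ×ˢ ball (fi m c₀ ζ) ρ) ∧ G (c₀, fi m c₀ ζ) = ζ ∧
      (∀ c ∈ ball c₀ ρ, ∀ x ∈ ball (fi m c₀ ζ) ρ, fi m c (G (c, x)) = x ∧
        deriv (fun x => G (c, x)) x ≠ 0)

/-- LIP. Inverse branches are bi-Lipschitz in `x` on a smaller bidisc: `∂G/∂x` is continuous and not `0` at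
`(c₀, y₀)`, so `|∂G/∂x - A| ≤ |A| / 2` nearby, `A = ∂G/∂x (c₀, y₀)`; integrate along segments. -/
def S_LIP : Prop :=
  ∀ (c₀ y₀ : ℂ) (ρ : ℝ) (G : ℂ × ℂ → ℂ), 0 < ρ → AnalyticOnNhd ℂ G (ball c₀ ρ ×ˢ ball y₀ ρ) →
    deriv (fun x => G (c₀, x)) y₀ ≠ 0 → ∀ δ : ℝ, 0 < δ →
    ∃ (ρ' C : ℝ), 0 < ρ' ∧ ρ' ≤ ρ ∧ 1 ≤ C ∧
      ∀ c ∈ ball c₀ ρ', ∀ x ∈ ball y₀ ρ', ∀ x' ∈ ball y₀ ρ',
        ‖G (c, x) - G (c₀, y₀)‖ < δ ∧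
        ‖x - x'‖ / C ≤ ‖G (c, x) - G (c, x')‖ ∧ ‖G (c, x) - G (c, x')‖ ≤ C * ‖x - x'‖

/-- CTR. The inverse branch `g` of `f_c` at the repelling fixed point, on a domain where it is a contraction.
`g (c, x) = β₀ ((x - c) / β₀ ^ 2) ^ (1/2)`, `β₀ = bet c₀`. Take `τ` with `1 < τ < |2 β₀|`; for `ρ₁` small and then
`ρ` small: `|g (c, x) - β₀| < (|2 β₀| - τ) / 2`, so `|g (c, x) + g (c, x')| ≥ τ`, and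
`x - x' = (g - g')(g + g')` gives `|g - g'| ≤ |x - x'| / τ`; `bet c ∈ B(β₀, ρ₁ (1 - 1/τ) / 4)` and
`g (c, bet c) = bet c` (both near `β₀`, with the same square), so `g` maps `B(β₀, ρ₁)` into itself. -/
def S_CTR : Prop :=
  ∀ (c₀ : ℂ) (l : ℕ), Mis c₀ l → ∀ δ : ℝ, 0 < δ →
    ∃ (ρ ρ₁ τ : ℝ) (g : ℂ × ℂ → ℂ), 0 < ρ ∧ 0 < ρ₁ ∧ ρ₁ ≤ δ ∧ 1 < τ ∧
      AnalyticOnNhd ℂ g (ball c₀ ρ ×ˢ ball (bet c₀) ρ₁) ∧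
      ∀ c ∈ ball c₀ ρ, 1 - 4 * c ∈ Complex.slitPlane ∧ τ ≤ ‖2 * bet c‖ ∧ bet c ∈ ball (bet c₀) ρ₁ ∧
        g (c, bet c) = bet c ∧
        ∀ x ∈ ball (bet c₀) ρ₁, g (c, x) ∈ ball (bet c₀) ρ₁ ∧ g (c, x) ^ 2 + c = x ∧
          ∀ x' ∈ ball (bet c₀) ρ₁, τ ≤ ‖g (c, x) + g (c, x')‖

/-- KOE. Koenigs' estimate. `g = g(c, ·)` maps `D` into itself and `x - x' = (g x - g x')(g x + g x')`,
`|g x + g x'| ≥ τ > 1`, `β ∈ D` is a fixed point, `μ = 2 β`, `D` has diameter at most `2`. So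
`|g^i x - β| ≤ τ^(-i)` and
`μ^k (g^k x - g^k x') = (x - x') ∏_{i=1}^k μ / (g^i x + g^i x')`; each factor `μ / (g^i x + g^i x')` differs from
`1` by at most `4 τ^(-i) / τ`, and its absolute value is between `|μ| / A` and `|μ| / τ` if `D ⊆ {|x| ≤ A / 2}`;
so the product is between two positive constants that depend only on `τ` and `A`. -/
def S_KOE : Prop :=
  ∀ τ A : ℝ, 1 < τ → 1 ≤ A → ∃ C : ℝ, 1 ≤ C ∧ ∀ (D : Set ℂ) (g : ℂ → ℂ) (β : ℂ) , β ∈ D → g β = β →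
    (∀ x ∈ D, ‖x‖ ≤ A / 2 ∧ ‖x - β‖ ≤ 1 ∧ g x ∈ D) →
    (∀ x ∈ D, ∀ x' ∈ D, τ ≤ ‖g x + g x'‖ ∧ x - x' = (g x - g x') * (g x + g x')) →
    ∀ (k : ℕ), ∀ x ∈ D, ∀ x' ∈ D,
      ‖x - x'‖ / C ≤ ‖(2 * β) ^ k * (g^[k] x - g^[k] x')‖ ∧
      ‖(2 * β) ^ k * (g^[k] x - g^[k] x')‖ ≤ C * ‖x - x'‖

/-- VKA. Choice of the inverse branches `g`, `G`, `H`. `β₀ = bet c₀`. `H` from BRA (`ζ = c₀`, `m = l - 1`,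
`fi (l - 1) c₀ c₀ = P l c₀ = β₀`; `fi i c₀ c₀ = P (i + 1) c₀ ≠ 0` by MBD), on `B(c₀, ρ_H) × B(β₀, ρ_H)`, bi-Lipschitz by LIP
(smaller `ρ_H`). CTR with `δ = min(ρ_H, 1/2)`: `g, ρ₁, τ`. `x₀, k₀` from CHN with `r = ρ₁ / 2`; `G` from BRA (`ζ = x₀`, `m = k₀`,
`fi k₀ c₀ x₀ = 0`), bi-Lipschitz and with values within `ρ₁ / 2` of `x₀` by LIP (`y₀ = 0`, `δ = ρ₁ / 2`), so with values in
`B(β₀, ρ₁)`. `x₀ ≠ β₀` (`fi k₀ c₀ β₀ = β₀ ≠ 0`), so `|G(c, 0) - bet c|` is bounded below near `c₀` (continuity of `G` at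
`(c₀, 0)` and of `bet`). Take `ρ` the minimum of all radii (and further smaller), `C` the maximum of all constants.
Uses BET, FIP, MBD, CHN, BRA, LIP, CTR. -/
def S_VKA : Prop :=
  ∀ (c₀ : ℂ) (l : ℕ), Mis c₀ l → ∃ (ρ ρ₁ C τ : ℝ) (k₀ : ℕ) (g G H : ℂ × ℂ → ℂ), 0 < ρ ∧ ρ ≤ 1 ∧ 0 < ρ₁ ∧
    ρ₁ ≤ 1 / 2 ∧ 1 ≤ C ∧ 1 < τ ∧
    AnalyticOnNhd ℂ g (ball c₀ ρ ×ˢ ball (bet c₀) ρ₁) ∧
    AnalyticOnNhd ℂ G (ball c₀ ρ ×ˢ ball 0 ρ) ∧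
    AnalyticOnNhd ℂ H (ball c₀ ρ ×ˢ ball (bet c₀) ρ₁) ∧ H (c₀, bet c₀) = c₀ ∧
    ∀ c ∈ ball c₀ ρ,
      (1 - 4 * c ∈ Complex.slitPlane ∧ τ ≤ ‖2 * bet c‖ ∧ bet c ∈ ball (bet c₀) ρ₁ ∧
        g (c, bet c) = bet c ∧
        ∀ x ∈ ball (bet c₀) ρ₁, g (c, x) ∈ ball (bet c₀) ρ₁ ∧ g (c, x) ^ 2 + c = x ∧
          ∀ x' ∈ ball (bet c₀) ρ₁, τ ≤ ‖g (c, x) + g (c, x')‖) ∧
      (∀ x ∈ ball (0 : ℂ) ρ, G (c, x) ∈ ball (bet c₀) ρ₁ ∧ fi k₀ c (G (c, x)) = x ∧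
        ∀ x' ∈ ball (0 : ℂ) ρ, ‖x - x'‖ / C ≤ ‖G (c, x) - G (c, x')‖ ∧
          ‖G (c, x) - G (c, x')‖ ≤ C * ‖x - x'‖) ∧
      (∀ x ∈ ball (bet c₀) ρ₁, fi (l - 1) c (H (c, x)) = x ∧
        ∀ x' ∈ ball (bet c₀) ρ₁, ‖x - x'‖ / C ≤ ‖H (c, x) - H (c, x')‖ ∧
          ‖H (c, x) - H (c, x')‖ ≤ C * ‖x - x'‖) ∧
      1 / C ≤ ‖G (c, 0) - bet c‖

/-- VKK. The inverse branches `U k` of the first return to a neighbourhood of `0`, all on one bidisc. Data from VKA. Put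
`g_c = g(c, ·)`, `U k (c, x) = H(c, g_c^k(G(c, x))) - c`, `D(c) = c - H(c, bet c)`, `m₀ = l - 1 + k₀`.
ret: `fi (l - 1) c` maps `H(c, y)` to `y = g_c^k(G(c, x))`, `fi k c` maps this to `G(c, x)` (`g² + c = x`), `fi k₀ c` maps it
to `x` (FIP). bd, der: KOE with `D = ball β₀ ρ₁`, `β = bet c`, `A = 8` (`|β₀| ≤ 2` by MBD) and the Lipschitz bounds of `H` and `G`:
`|(2 bet c)^k (U k (c, x) - U k (c, x'))|` is between `|x - x'| / C'` and `C' |x - x'|`; so also for the derivative (limit of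
difference quotients). val: `U k (c, 0) + D(c) = H(c, g_c^k(G(c, 0))) - H(c, g_c^k(bet c))`, and
`1/C ≤ |G(c, 0) - bet c| ≤ 1`. `D(c₀) = 0` since `H(c₀, β₀) = c₀`; if `D = 0` near `c₀` then `c = H(c, bet c)`, so
`P l c = fi (l - 1) c c = bet c`, near `c₀`, contradiction to NID. Uses FIP, MBD, NID, KOE, VKA, BET. -/
def S_VKK : Prop :=
  ∀ (c₀ : ℂ) (l : ℕ), Mis c₀ l → ∃ (ρ C τ : ℝ) (m₀ : ℕ) (D : ℂ → ℂ) (U : ℕ → ℂ × ℂ → ℂ),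
    VK c₀ ρ C τ m₀ D U

/-- ROO. A holomorphic coordinate `s` with `D(cs(s)) = s^m`. `D(c) = (c - c₀)^m D₁(c)`, `D₁(c₀) ≠ 0`, `m ≥ 1`
(order of the zero, `AnalyticAt.exists_eventuallyEq_pow_smul_nonzero_iff`); `s(c) = (c - c₀) D₂(c)`,
`D₂ ^ m = D₁` near `c₀` (exponential of `log / m`), `s'(c₀) = D₂(c₀) ≠ 0`; `cs` is the local inverse
(`HasStrictDerivAt.localInverse`, analytic), bi-Lipschitz on a small disc. -/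
def S_ROO : Prop :=
  ∀ (c₀ : ℂ) (ρ : ℝ) (D : ℂ → ℂ), 0 < ρ → DifferentiableOn ℂ D (ball c₀ ρ) → D c₀ = 0 →
    (¬ ∀ᶠ c in 𝓝 c₀, D c = 0) →
    ∃ (m : ℕ) (r C : ℝ) (cs : ℂ → ℂ), 1 ≤ m ∧ 0 < r ∧ 1 ≤ C ∧ DifferentiableOn ℂ cs (ball 0 r) ∧ cs 0 = c₀ ∧
      ∀ s ∈ ball (0 : ℂ) r, cs s ∈ ball c₀ ρ ∧ D (cs s) = s ^ m ∧
        ∀ s' ∈ ball (0 : ℂ) r, ‖s - s'‖ / C ≤ ‖cs s - cs s'‖ ∧ ‖cs s - cs s'‖ ≤ C * ‖s - s'‖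

/-- NRM. The normalised inverse branches `b(c, x) = (U(c, x) - U(c, 0)) / U_x(c, 0)`. They depend only on
`V = (2 bet c)^k (U(c, x) - U(c, 0))`: `b = V / V_x(c, 0)`, `|V| ≤ C`, `|V_x(c, 0)| ≥ 1/C`, so `|b| ≤ C^2` on
`B(c₀, ρ) × B(0, ρ)`; `b(c, 0) = 0`, `b_x(c, 0) = 1`, Cauchy's estimates in `x` (second order) and in `c`.
The constant `C'` depends only on `ρ` and `C`. -/
def S_NRM : Prop :=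
  ∀ ρ C : ℝ, 0 < ρ → ρ ≤ 1 → 1 ≤ C → ∃ C' : ℝ, 1 ≤ C' ∧
    ∀ (c₀ : ℂ) (mu : ℂ → ℂ) (U : ℂ × ℂ → ℂ), (∀ c ∈ ball c₀ ρ, mu c ≠ 0) →
      AnalyticOnNhd ℂ U (ball c₀ ρ ×ˢ ball 0 ρ) →
      (∀ c ∈ ball c₀ ρ, (∀ x ∈ ball (0 : ℂ) ρ, ‖mu c * (U (c, x) - U (c, 0))‖ ≤ C) ∧
        1 / C ≤ ‖mu c * deriv (fun x => U (c, x)) 0‖) →
      DifferentiableOn ℂ (fun c => deriv (fun x => U (c, x)) 0) (ball c₀ ρ) ∧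
      ∀ c ∈ ball c₀ (ρ / 2), ∀ x ∈ ball (0 : ℂ) (ρ / 2),
        ‖(U (c, x) - U (c, 0)) / deriv (fun x => U (c, x)) 0 - x‖ ≤ C' * ‖x‖ ^ 2 ∧
        ∀ c' ∈ ball c₀ (ρ / 2),
          ‖(U (c, x) - U (c, 0)) / deriv (fun x => U (c, x)) 0 -
            (U (c', x) - U (c', 0)) / deriv (fun x => U (c', x)) 0‖ ≤ C' * ‖c - c'‖

/-- QUO. Quotients of uniformly bounded functions multiplied by powers: let `v` be holomorphic on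
`B(c₀, ρ)`, `1/C ≤ |v| ≤ C`, and `μ = 2 bet c`. Then
`|(μ(c₀)/μ(c))^k v(c) / v(c₀) - 1| ≤ C' (k + 1) |c - c₀|` for `|c - c₀| ≤ 1 / (C' (k + 1))`: Cauchy for `v`, and
`|μ(c₀)/μ(c) - 1| ≤ C₂ |c - c₀|`, `|(1 + x)^k - 1| ≤ 2 k |x|` for `k |x| ≤ 1/2`. -/
def S_QUO : Prop :=
  ∀ (c₀ : ℂ) (ρ C : ℝ), 0 < ρ → ρ ≤ 1 → 1 ≤ C → (∀ c ∈ ball c₀ ρ, 1 - 4 * c ∈ Complex.slitPlane) →
    ∃ C' : ℝ, 1 ≤ C' ∧ ∀ (v : ℂ → ℂ) (k : ℕ), DifferentiableOn ℂ v (ball c₀ ρ) →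
      (∀ c ∈ ball c₀ ρ, 1 / C ≤ ‖v c‖ ∧ ‖v c‖ ≤ C) →
      ∀ c : ℂ, ‖c - c₀‖ ≤ 1 / (C' * (k + 1)) →
        c ∈ ball c₀ ρ ∧
        ‖(2 * bet c₀) ^ k / (2 * bet c) ^ k * (v c / v c₀) - 1‖ ≤ C' * (k + 1) * ‖c - c₀‖ ∧
        ‖(2 * bet c) ^ k / (2 * bet c₀) ^ k * (v c₀ / v c) - 1‖ ≤ C' * (k + 1) * ‖c - c₀‖

/-- EST. The parameters of the copies: estimates. Data from VK, `μ(c) = 2 bet c`, `μ₀ = μ(c₀)`, `A = AU U n`,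
`α = A(c₀)`, `Θ(c) = μ(c)^n (U n (c, 0) + D c)`, `Θ₀ = Θ(c₀)`; `m, r, cs` from ROO, `σ` an `m`-th root of `Θ₀ / μ₀^n`,
`L = m Θ₀ / (α² μ₀^n)`. `|μ₀| ≤ 6` (BET). `|σ|^m ≤ C / τ^n` is small, `|σ| ≥ 1 / (C 6^n)`. For `|x| < 1` put `c = cs(σ e^x)`; then
`|c - c₀| ≤ C e |σ|`, `D(c) = σ^m e^(m x) = Θ₀ μ₀^(-n) e^(m x)`, so
`-U n (c, 0) / (A(c)² L) = (1/m) (α / A(c))² (e^(m x) - (μ₀ / μ(c))^n Θ(c) / Θ₀)`. QUO for `v = Θ` and for `v = μ^n A` (both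
differentiable, NRM or analyticity): `(μ₀/μ(c))^n Θ(c)/Θ₀`, `A(c)/α`, `α/A(c)` are within `C' (n + 1) |c - c₀|` of `1`, and
`(n + 1) |σ| → 0` (`|σ| ≤ (C / τ^n)^(1/m)`). Uses BET, ROO, NRM, QUO. -/
def S_EST : Prop :=
  ∀ (c₀ : ℂ) (ρ C τ : ℝ) (m₀ : ℕ) (D : ℂ → ℂ) (U : ℕ → ℂ × ℂ → ℂ), ‖c₀‖ ≤ 4 → VK c₀ ρ C τ m₀ D U →
    ∃ (m : ℕ) (r C' : ℝ) (cs : ℂ → ℂ), 1 ≤ m ∧ 0 < r ∧ 1 ≤ C' ∧ DifferentiableOn ℂ cs (ball 0 r) ∧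
      (∀ s ∈ ball (0 : ℂ) r, cs s ∈ ball c₀ ρ ∧
        ∀ s' ∈ ball (0 : ℂ) r, ‖s - s'‖ ≤ C' * ‖cs s - cs s'‖) ∧
      ∀ ε : ℝ, 0 < ε → ∃ n₀ : ℕ, ∀ n, n₀ ≤ n → ∃ σ L : ℂ, 1 / C' ^ (n + 1) ≤ ‖σ‖ ∧ L ≠ 0 ∧
        1 / C' ≤ ‖AU U n c₀ * L‖ ∧ ‖AU U n c₀ * L‖ ≤ C' ∧
        ∀ x ∈ ball (0 : ℂ) 1, σ * Complex.exp x ∈ ball (0 : ℂ) r ∧ ‖cs (σ * Complex.exp x) - c₀‖ ≤ ε ∧
          ‖AU U n (cs (σ * Complex.exp x)) - AU U n c₀‖ ≤ ε * ‖AU U n c₀‖ ∧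
          ‖-U n (cs (σ * Complex.exp x), 0) / (AU U n (cs (σ * Complex.exp x)) ^ 2 * L) -
            (Complex.exp (m * x) - 1) / m‖ ≤ ε

/-- PAR. The parameters of the copies. Let `F(x) = -U n (c, 0) / (A(c)² L)`, `c = cs(σ e^x)` (EST), `κ₁ = 1 / (16 m)`; then
`|(e^(m x) - 1)/m - x| ≤ m |x|² ≤ κ₁ / 16` on `B(0, κ₁)`, so for large `n` `|F(x) - x| ≤ κ₁ / 8` there. INV: `G` on
`B(0, κ₁/4)`, `F(G y) = y`, `|G y - G y'| ≥ (4/5) |y - y'|`. Put `κ = κ₁ / (4 C')`, so `|lam| < κ / |α|` gives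
`|lam / L| < κ₁ / 4`; `cn(lam) = cs(σ exp(G(lam / L)))`, `a(lam) = A(cn lam)`. `F(G(lam/L)) = lam / L` is
`U n (cn lam, 0) = -lam a²`. lip: `C' |cn lam - cn lam'| ≥ |σ| |e^G - e^(G')| ≥ |σ| |G - G'| / 4`
`≥ |σ| |lam - lam'| / (5 |L|)`, and `|L| ≤ C' / |α| ≤ C' C 6^n`. `A ≠ 0` by `VK.der`. Uses BET, EST, INV, NRM. -/
def S_PAR : Prop :=
  ∀ (c₀ : ℂ) (ρ C τ : ℝ) (m₀ : ℕ) (D : ℂ → ℂ) (U : ℕ → ℂ × ℂ → ℂ), ‖c₀‖ ≤ 4 → VK c₀ ρ C τ m₀ D U →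
    ∃ κ C' : ℝ, 0 < κ ∧ κ ≤ 1 ∧ 1 ≤ C' ∧ ∀ ε : ℝ, 0 < ε → ∃ n₀ : ℕ, ∀ n, n₀ ≤ n → ∃ cn a : ℂ → ℂ,
      DifferentiableOn ℂ cn (ball 0 (κ / ‖AU U n c₀‖)) ∧
      DifferentiableOn ℂ a (ball 0 (κ / ‖AU U n c₀‖)) ∧
      ∀ lam ∈ ball (0 : ℂ) (κ / ‖AU U n c₀‖), cn lam ∈ ball c₀ ρ ∧ ‖cn lam - c₀‖ ≤ ε ∧
        ‖a lam - AU U n c₀‖ ≤ ε * ‖AU U n c₀‖ ∧ a lam = AU U n (cn lam) ∧
        U n (cn lam, 0) = -lam * (a lam) ^ 2 ∧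
        ∀ lam' ∈ ball (0 : ℂ) (κ / ‖AU U n c₀‖), ‖lam - lam'‖ ≤ C' ^ (n + 1) * ‖cn lam - cn lam'‖

/-- QDR. Inversion of two maps tangent to the identity. Let `R = min(r, 1 / (8 C))`; INV on `B(0, R)` for `b` and `b'`
(`C R² ≤ R / 8`): `3/4 |x - x'| ≤ |b x - b x'|` on `B(0, R/2)`, and `b x = y` has a solution for `|y| < R / 4`. `b 0 = 0`, so
`|x| ≤ 4/3 |y|`, `|x - y| ≤ C |x|² ≤ |y| / 100` if `|y| < κ ≤ 1 / (178 C)`. And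
`3/4 |x - x'| ≤ |b x - b x'| ≤ |y - y'| + |b' x' - b x'|`. Uses INV. -/
def S_QDR : Prop :=
  ∀ r C : ℝ, 0 < r → r ≤ 1 → 1 ≤ C → ∃ κ : ℝ, 0 < κ ∧ ∀ (b b' : ℂ → ℂ) (d : ℝ),
    DifferentiableOn ℂ b (ball 0 r) → DifferentiableOn ℂ b' (ball 0 r) →
    (∀ x ∈ ball (0 : ℂ) r, ‖b x - x‖ ≤ C * ‖x‖ ^ 2 ∧ ‖b' x - x‖ ≤ C * ‖x‖ ^ 2 ∧ ‖b x - b' x‖ ≤ d) →
    ∀ y y' : ℂ, ‖y‖ < κ → ‖y'‖ < κ → ∃ x ∈ ball (0 : ℂ) r, ∃ x' ∈ ball (0 : ℂ) r, b x = y ∧ b' x' = y' ∧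
      ‖x - y‖ ≤ ‖y‖ / 100 ∧ ‖x - x'‖ ≤ 2 * ‖y - y'‖ + 2 * d

/-- COP. There are small copies near a Misiurewicz parameter. Data from VKK and PAR, `α n = AU U n c₀`; bounds for `|α n|`
from `VK.der` (`|α n|` is between `|μ₀|^(-n) / C` and `C |μ₀|^(-n)`, `τ ≤ |μ₀| ≤ 6`; `|c₀| ≤ 2` by MBD). NRM with
`mu c = (2 bet c)^n`: `b_c(x) = (U n (c, x) - U n (c, 0)) / A(c)` satisfies the hypotheses of QDR on `B(0, ρ/2)` for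
`c, c' ∈ B(c₀, ρ/2)`, with `d = C' |c - c'|`. Take `κ` at most that of PAR and with `5 κ ≤ κ_QDR`; `p = m₀ + n + 1`. Let `c = cn lam`,
`a = a lam`, `|y| < 4κ/|α|`, so `|a y| ≤ 4.04 κ`. With `x` from QDR, `b_c(x) = a y`: `U n (c, x) = -lam a² + a² y = a² (y - lam)`, so
`fi (p - 1) c (c + a² (y - lam)) = x` and `JJ p cn a (lam, y) = x / a`; quad: `|x / a - y| = |x - a y| / |a| ≤ |y| / 100`.
equi: with `x, x'` for `(c, a w)` and `(c', a' w')`, `c' = cn 0`, `a' = a 0`: the difference is `x - x'`, at most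
`2 |a w - a' w'| + 2 C' |c - c'|`, and `|a w - a' w'| ≤ |a - a'| |w| + |a'| |w - w'| ≤ 2 ε' 4 κ + 1.01 ε₁` (`ε'` the `ε` of PAR;
note that QDR gives the same `x` for all choices: `x` is determined by `fi (p - 1) c (c + a² (y - lam)) = x`).
Uses BET, FIP, MBD, VKK, NRM, PAR, QDR. -/
def S_COP : Prop := ∀ (c₀ : ℂ) (l : ℕ), Mis c₀ l → Copies c₀

end Pool.Agent.Work.MP_500150_lc.LC
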