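import Mathlib
import Pool.Agent.Work.MP_500150_lc.LC.Stmts

set_option autoImplicit false

/-!
# Item ANA: one zero-free function on a circle
-/

namespace Pool.Agent.Work.MP_500150_lc.LC

open Metric Set Filter Topology MeasureTheory Pool.MP_500150_lc.H8

namespace I_ANA

/-- The reciprocal function. -/
noncomputable def fr (A : ℝ) (u : ℂ → ℂ) (x : ℂ) : ℂ := (Real.exp A : ℂ) / u x

theorem norm_fr (A : ℝ) (u : ℂ → ℂ) (x : ℂ) : ‖fr A u x‖ = Real.exp A / ‖u x‖ := by
  unfold fr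
  rw [norm_div, Complex.norm_real, Real.norm_of_nonneg (Real.exp_pos _).le]

theorem log_fr {A : ℝ} {u : ℂ → ℂ} {x : ℂ} (hx : u x ≠ 0) :
    Real.log ‖fr A u x‖ = A - Real.log ‖u x‖ := by
  rw [norm_fr, Real.log_div (Real.exp_pos _).ne' (norm_ne_zero_iff.2 hx), Real.log_exp]

/-- Harnack's inequality for the reciprocal. -/
theorem har (hS : S_SHK) {A B : ℝ} (hAB : B < A) {u : ℂ → ℂ} {x y : ℂ} {R t : ℝ} (hR : 0 < R)
    (ht0 : 0 ≤ t) (ht1 : t < 1) (hu : DifferentiableOn ℂ u (ball x R))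
    (hu2 : ∀ z ∈ ball x R, u z ≠ 0 ∧ ‖u z‖ ≤ Real.exp B) (hy : ‖y - x‖ ≤ t * R) :
    A - Real.log ‖u y‖ ≤ (1 + t) / (1 - t) * (A - Real.log ‖u x‖) := by
  have hx0 : x ∈ ball x R := mem_ball_self hR
  have hy0 : y ∈ ball x R := by
    rw [mem_ball, dist_eq_norm]
    nlinarith
  have h1 := hS (fr A u) x y R t hR ht0 ht1
    (by
      unfold fr
      exact (differentiableOn_const _).div hu (fun z hz => (hu2 z hz).1))
    (by
      intro z hz
      obtain ⟨h2, h3⟩ := hu2 z hz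
      rw [norm_fr, one_lt_div (norm_pos_iff.2 h2)]
      exact h3.trans_lt (Real.exp_lt_exp.2 hAB)) hy
  rwa [log_fr (hu2 x hx0).1, log_fr (hu2 y hy0).1] at h1

end I_ANA

open I_ANA in
theorem ANA_pf (hSHK : S_SHK) : S_ANA := by
  intro x₀ x₁ R C g hR hC hg hx₁ hne
  obtain ⟨ρ, hρ⟩ : ∃ ρ, ρ = ‖x₁ - x₀‖ := ⟨_, rfl⟩
  have hρ0 : 0 < ρ := by rw [hρ]; exact norm_pos_iff.2 (sub_ne_zero.2 hne)
  have hρR : ρ < R := by rw [hρ, ← dist_eq_norm]; exact hx₁
  obtain ⟨t, ht⟩ : ∃ t, t = min (1 / 6) (g / (4 * (C + 1))) := ⟨_, rfl⟩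
  have ht0 : 0 < t := by rw [ht]; exact lt_min (by norm_num) (by positivity)
  have ht6 : t ≤ 1 / 6 := by rw [ht]; exact min_le_left _ _
  have htg : t * (4 * (C + 1)) ≤ g := by
    have h1 : t ≤ g / (4 * (C + 1)) := by rw [ht]; exact min_le_right _ _
    rwa [le_div_iff₀ (by positivity)] at h1
  refine ⟨4 * (C + 1), t, by positivity, ht0, ?_⟩
  intro k u hu hu2 hux₀ hux₁
  rw [← hρ]
  obtain ⟨K, hK⟩ : ∃ K : ℝ, K = 2 ^ k := ⟨_, rfl⟩
  rw [← hK] at hux₁ hu2 ⊢
  have hK1 : 1 ≤ K := by rw [hK]; exact one_le_pow₀ (by norm_num)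
  have hK0 : 0 < K := by linarith
  obtain ⟨A, hA⟩ : ∃ A, A = (C + 1) * K := ⟨_, rfl⟩
  have hBA : C * K < A := by rw [hA]; nlinarith
  have hx₀b : x₀ ∈ ball x₀ (4 * R) := mem_ball_self (by positivity)
  have hx₁b : x₁ ∈ ball x₀ (4 * R) := by
    rw [mem_ball, dist_eq_norm, ← hρ]
    linarith
  have hsub3 : ball x₁ (3 * R) ⊆ ball x₀ (4 * R) := by
    apply ball_subset_ball'
    rw [dist_eq_norm, ← hρ]
    linarith
  -- the value at x₁
  have hlx₁ : g * K ≤ Real.log ‖u x₁‖ := by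
    rw [← Real.log_exp (g * K)]
    exact Real.log_le_log (Real.exp_pos _) hux₁
  have hHx₁0 : 0 ≤ A - Real.log ‖u x₁‖ := by
    have h1 : Real.log ‖u x₁‖ ≤ C * K := by
      rw [← Real.log_exp (C * K)]
      exact Real.log_le_log (norm_pos_iff.2 (hu2 x₁ hx₁b).1) (hu2 x₁ hx₁b).2
    linarith
  have hcirc : ∀ θ : ℝ, ‖circleMap x₀ ρ θ - x₀‖ = ρ := by
    intro θ
    have h1 := circleMap_mem_sphere x₀ hρ0.le θ
    rwa [mem_sphere, dist_eq_norm] at h1
  have hcircb : ∀ θ : ℝ, circleMap x₀ ρ θ ∈ ball x₀ (4 * R) := by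
    intro θ
    rw [mem_ball, dist_eq_norm, hcirc]
    linarith
  have hcont : Continuous (fun θ : ℝ => Real.log ‖u (circleMap x₀ ρ θ)‖ / K) := by
    apply Continuous.div_const
    apply Continuous.log
    · apply Continuous.norm
      exact hu.continuousOn.comp_continuous (continuous_circleMap x₀ ρ) hcircb
    · intro θ
      exact norm_ne_zero_iff.2 (hu2 _ (hcircb θ)).1
  refine ⟨?_, hcont, ?_, ?_⟩
  · intro θ
    have h1 := har hSHK hBA (x := x₀) (y := circleMap x₀ ρ θ) (R := 4 * R) (t := 1 / 3)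
      (by positivity) (by norm_num) (by norm_num) hu hu2 (by rw [hcirc]; linarith)
    have h2 := har hSHK hBA (x := x₁) (y := x₀) (R := 3 * R) (t := 1 / 3)
      (by positivity) (by norm_num) (by norm_num) (hu.mono hsub3)
      (fun z hz => hu2 z (hsub3 hz)) (by rw [norm_sub_rev, ← hρ]; linarith)
    have h3 : (1 + 1 / 3 : ℝ) / (1 - 1 / 3) = 2 := by norm_num
    rw [h3] at h1 h2
    rw [le_div_iff₀ hK0]
    have h4 : 0 ≤ g * K := by positivity
    have h5 : A = C * K + K := by rw [hA]; ring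
    have h6 : 0 ≤ C * K := by positivity
    linarith
  · have h1 : Real.circleAverage (Real.log ‖u ·‖) x₀ ρ = Real.log ‖u x₀‖ := by
      apply AnalyticOnNhd.circleAverage_log_norm_of_ne_zero
      · rw [abs_of_pos hρ0]
        refine (hu.analyticOnNhd isOpen_ball).mono ?_
        exact closedBall_subset_ball (by linarith)
      · rw [abs_of_pos hρ0]
        intro z hz
        exact (hu2 z (closedBall_subset_ball (by linarith) hz)).1
    rw [Real.circleAverage_def, smul_eq_mul] at h1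
    have h2 : ∫ θ in (0 : ℝ)..(2 * Real.pi), Real.log ‖u (circleMap x₀ ρ θ)‖ =
        2 * Real.pi * Real.log ‖u x₀‖ := by
      rw [← h1, ← mul_assoc, mul_inv_cancel₀ (by positivity), one_mul]
    rw [intervalIntegral.integral_div, h2]
    have h3 : Real.log ‖u x₀‖ ≤ C := by
      rw [← Real.log_exp C]
      exact Real.log_le_log (norm_pos_iff.2 (hu2 x₀ hx₀b).1) hux₀
    apply div_le_div_of_nonneg_right _ hK0.le
    exact mul_le_mul_of_nonneg_left h3 (by positivity)
  · -- the values near x₁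
    have hnear : ∀ x, ‖x - x₁‖ ≤ t * (3 * R) → g / 2 ≤ Real.log ‖u x‖ / K := by
      intro x hx
      have h1 := har hSHK hBA (x := x₁) (y := x) (R := 3 * R) (t := t)
        (by positivity) ht0.le (by linarith) (hu.mono hsub3)
        (fun z hz => hu2 z (hsub3 hz)) hx
      have h2 : (1 + t) / (1 - t) * (A - Real.log ‖u x₁‖) ≤ A - g / 2 * K := by
        rw [div_mul_eq_mul_div, div_le_iff₀ (by linarith)]
        have h3 : (1 + t) * (A - Real.log ‖u x₁‖) ≤ (1 + t) * (A - g * K) :=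
          mul_le_mul_of_nonneg_left (by linarith) (by linarith)
        refine h3.trans ?_
        have h4 : t * (4 * A) ≤ g * K := by
          have h5 : t * (4 * A) = t * (4 * (C + 1)) * K := by rw [hA]; ring
          rw [h5]
          exact mul_le_mul_of_nonneg_right htg hK0.le
        have h6 : 0 ≤ t * (g * K) := by positivity
        nlinarith
      rw [le_div_iff₀ hK0]
      linarith
    obtain ⟨θ₁, hθ₁, hθ₁x⟩ : ∃ θ₁ ∈ Ioc (0 : ℝ) (2 * Real.pi), circleMap x₀ ρ θ₁ = x₁ := by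
      have h1 : x₁ ∈ sphere x₀ |ρ| := by
        rw [mem_sphere, dist_eq_norm, ← hρ, abs_of_pos hρ0]
      rw [← image_circleMap_Ioc] at h1
      exact h1
    have hLip : ∀ θ : ℝ, |θ - θ₁| ≤ t → g / 2 ≤ Real.log ‖u (circleMap x₀ ρ θ)‖ / K := by
      intro θ hθ
      apply hnear
      have h1 := (lipschitzWith_circleMap x₀ ρ).dist_le_mul θ θ₁
      rw [hθ₁x, dist_eq_norm, Real.dist_eq, Real.coe_nnabs, abs_of_pos hρ0] at h1
      refine h1.trans ?_
      have h2 : ρ * |θ - θ₁| ≤ R * t := mul_le_mul hρR.le hθ (abs_nonneg _) hR.le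
      have h3 : 0 ≤ R * t := by positivity
      linarith
    have hpi := Real.pi_gt_three
    by_cases hc : t ≤ θ₁
    · have h1 : volume (Ioc (θ₁ - t) θ₁) = ENNReal.ofReal t := by
        rw [Real.volume_Ioc]
        congr 1
        ring
      rw [← h1]
      apply measure_mono
      intro θ hθ
      refine ⟨⟨by linarith [hθ.1], hθ.2.trans hθ₁.2⟩, hLip θ ?_⟩
      rw [abs_le]
      constructor <;> linarith [hθ.1, hθ.2]
    · push Not at hc
      have h1 : volume (Icc θ₁ (θ₁ + t)) = ENNReal.ofReal t := by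
        rw [Real.volume_Icc]
        congr 1
        ring
      rw [← h1]
      apply measure_mono
      intro θ hθ
      refine ⟨⟨hθ₁.1.trans_le hθ.1, by linarith [hθ.2]⟩, hLip θ ?_⟩
      rw [abs_le]
      constructor <;> linarith [hθ.1, hθ.2]

end Pool.Agent.Work.MP_500150_lc.LC
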