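import Mathlib
import Pool.Agent.Work.MP_500150_lc.LC.Stmts

set_option autoImplicit false

/-!
# Locality of the computability of the Mandelbrot set: families, sections, transfer

Notation for a family `Fam w J` and a parameter `(lam, s)`: `X_i = OX J s lam i`, so `X_0 = 0`, `X_1 = lam`
(`J (lam, 0) = 0` by `Fam.near`) and `X_{i+1} = lam + Js(X_i) ^ 2`; `|Js(X) - X| ≤ 3 |X| / 100` for `|s| < 3`.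
-/

namespace Pool.Agent.Work.MP_500150_lc.LC

open Metric Set Filter Topology Pool.MP_500150_lc.H8

/-! ## C. Transversality -/

/-- OXZ. For `s = 0` the orbit is the critical orbit of the quadratic family; `X_1 = lam` for every `s` in a
family; the identity is a family. -/
def S_OXZ : Prop :=
  (∀ (J : ℂ × ℂ → ℂ) (lam : ℂ) (i : ℕ), OX J 0 lam i = P i lam) ∧
  (∀ (w : ℝ) (J : ℂ × ℂ → ℂ), Fam w J → ∀ s lam : ℂ, ‖lam‖ < w / 2 → OX J s lam 1 = lam) ∧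
  (∀ w : ℝ, 20 ≤ w → Fam w (fun q : ℂ × ℂ => q.2)) ∧
  (∀ (w : ℝ) (J : ℂ × ℂ → ℂ), Fam w J → ∀ s lam X : ℂ, ‖s‖ < 3 → ‖lam‖ < w / 2 → ‖X‖ < 2 * w →
    ‖Js J s lam X - X‖ ≤ 3 / 100 * ‖X‖)

/-- CNF. Confinement. For `1 ≤ i < N`: `|Js(X_i)|^2 ≤ |X_{i+1}| + |lam| < 2 w` and `|Js(X_i)| ≥ 0.97 |X_i|`, so
`|X_i| ≤ √(2w) / 0.97 ≤ 0.33 w` (`w ≥ 20`). Uses OXZ. -/
def S_CNF : Prop :=
  ∀ (w : ℝ) (J : ℂ × ℂ → ℂ) (N : ℕ), Fam w J → 2 ≤ N → ∀ q ∈ ES w J N,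
    ∀ i, 1 ≤ i → i < N → ‖OX J q.2 q.1 i‖ ≤ 33 / 100 * w

/-- ANX. `ES` is open and the `X_i` are analytic on it: at a point of `ES`, by induction on `i ≤ N`, `X_i` is
analytic, since `J` is analytic at `(lam, X_{i-1})` (for `i = 1`: at `(lam, 0)`); openness: the conditions are strict inequalities for functions continuous at the point. -/
def S_ANX : Prop :=
  ∀ (w : ℝ) (J : ℂ × ℂ → ℂ) (N : ℕ), Fam w J → 2 ≤ N → IsOpen (ES w J N) ∧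
    ∀ i, i ≤ N → AnalyticOnNhd ℂ (fun q : ℂ × ℂ => OX J q.2 q.1 i) (ES w J N)

/-- JSI. `Js` is close to the identity in `X`: `e = Js - X` is bounded by `0.06 w` on `|X| < 2w`, so
`|e'| ≤ 0.06` on `|X| < w` (Cauchy). Uses OXZ. -/
def S_JSI : Prop :=
  ∀ (w : ℝ) (J : ℂ × ℂ → ℂ), Fam w J → ∀ s lam : ℂ, ‖s‖ < 3 → ‖lam‖ < w / 2 →
    (∀ X X' : ℂ, ‖X‖ < w → ‖X'‖ < w → ‖Js J s lam X - Js J s lam X' - (X - X')‖ ≤ ‖X - X'‖ / 10) ∧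
    ∀ X : ℂ, ‖X‖ < w → deriv (fun X => Js J s lam X) X ≠ 0

/-- LVE. Solving `Js(X) = y` with holomorphic parameters: `X ↦ y(t) - (Js(X) - X)` is a contraction (JSI) of
the disc `|X| ≤ √(2w) / 0.97 ≤ 0.33 w`; the iterates from `0` are holomorphic in `t` and converge uniformly.
Uses OXZ, JSI. -/
def S_LVE : Prop :=
  ∀ (w : ℝ) (J : ℂ × ℂ → ℂ), Fam w J → ∀ (s : ℂ) (ε : ℝ) (lam y : ℂ → ℂ), ‖s‖ < 3 → 0 < ε →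
    DifferentiableOn ℂ lam (ball 0 ε) → DifferentiableOn ℂ y (ball 0 ε) →
    (∀ t ∈ ball (0 : ℂ) ε, ‖lam t‖ < w / 2 ∧ ‖y t‖ ^ 2 ≤ 2 * w) →
    ∃ X : ℂ → ℂ, DifferentiableOn ℂ X (ball 0 ε) ∧
      ∀ t ∈ ball (0 : ℂ) ε, ‖X t‖ ≤ 33 / 100 * w ∧ Js J s (lam t) (X t) = y t

/-- LFT. Motions lift. For `1 ≤ i < N`: `h (i+1) - h 1` has no zero on the disc, so it has a holomorphic square
root `y_i` (`exists_log`), with `y_i(0) = Js(z_i)` for a suitable sign; `|y_i|^2 ≤ 3w/2 + w/2`. LVE gives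
`h' i` with `Js(h' i) = y_i`, `|h' i| ≤ 0.33 w < w/2`; `h' i 0 = z_i` by the injectivity in JSI; `h' N = b`.
Injectivity: if `h' i t = h' k t`, `i < k < N`, then `y_i^2 = y_k^2`, `h (i+1) t = h (k+1) t`; if `k = N`:
`|h' i t| < w/2 < |b|`. Uses OXZ, JSI, LVE. -/
def S_LFT : Prop :=
  ∀ (w : ℝ) (J : ℂ × ℂ → ℂ), Fam w J → ∀ (s b : ℂ) (N : ℕ) (ε : ℝ), ‖s‖ < 3 → 2 ≤ N → 0 < ε →
    w / 2 < ‖b‖ → ‖b‖ < 3 * w / 2 → ∀ h : ℕ → ℂ → ℂ, Mot w N b ε h → ∀ z : ℕ → ℂ,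
    (∀ i, 1 ≤ i → i < N → ‖z i‖ < w / 2 ∧ h (i + 1) 0 = h 1 0 + (Js J s (h 1 0) (z i)) ^ 2) →
    ∃ h' : ℕ → ℂ → ℂ, Mot w N b ε h' ∧ Lif J s N ε h h' ∧ ∀ i, 1 ≤ i → i < N → h' i 0 = z i

/-- ITR. The sequence of lifts of the motion `h 0 i t = X_i(lam + t)` (`i < N`), `h 0 N t = X_N(lam)`.
The `X_i = X_i(lam)`, `1 ≤ i ≤ N`, are distinct: `X_i = X_k`, `i < k`, gives `X_{i+N-k} = X_N`, but
`|X_j| < w/2 < |X_N|` for `1 ≤ j < N`. So `h 0` is a motion for small `ε` (continuity; `|h 0 i t| < w/2 < |b|`).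
Then lift with `z i = X_i` and iterate (LFT). Uses OXZ, ANX, LFT. -/
def S_ITR : Prop :=
  ∀ (w : ℝ) (J : ℂ × ℂ → ℂ) (N : ℕ), Fam w J → 2 ≤ N → ∀ q ∈ ES w J N,
    ∃ (ε : ℝ) (h : ℕ → ℕ → ℂ → ℂ), 0 < ε ∧ (∀ t ∈ ball (0 : ℂ) ε, (q.1 + t, q.2) ∈ ES w J N) ∧
      (∀ i, 1 ≤ i → i < N → ∀ t ∈ ball (0 : ℂ) ε, h 0 i t = OX J q.2 (q.1 + t) i) ∧
      (∀ k, Mot w N (OX J q.2 q.1 N) ε (h k)) ∧ (∀ k, Lif J q.2 N ε (h k) (h (k + 1))) ∧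
      ∀ k i, 1 ≤ i → i < N → h k i 0 = OX J q.2 q.1 i

/-- ORD. `X_N` is not locally constant in `lam`. Let `A` be the set of `lam'`, `|lam'| < w/2`, with
`(lam', s) ∈ ES` and `X_N = b` near `lam'`. `A` is open. It is closed in `|lam'| < w/2`: at a limit point
`lam'`, inductively `X_i(lam')` is the limit of the `X_i`, `|X_i(lam')| ≤ 0.33 w` (CNF), `X_N(lam') = b`, so
`(lam', s) ∈ ES`, and `X_N = b` near `lam'` by the identity theorem on a disc in the (open) slice of `ES`. If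
`A` were not empty it would be the whole disc, but `|lam'| ≤ 0.33 w` on `A` (CNF, `i = 1`). Uses OXZ, CNF,
ANX. -/
def S_ORD : Prop :=
  ∀ (w : ℝ) (J : ℂ × ℂ → ℂ) (N : ℕ), Fam w J → 2 ≤ N → ∀ q ∈ ES w J N,
    ¬ ∀ᶠ lam in 𝓝 q.1, OX J q.2 lam N = OX J q.2 q.1 N

/-- COE. Bound for a Taylor coefficient: `φ(t) / t^m → e` means that `e` is the `m`-th coefficient (the lower
ones vanish); Cauchy on `|t| = ε / 2`. (`φ(t) / t^m`, with the value `e` at `0`, is holomorphic: removable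
singularity; maximum principle.) -/
def S_COE : Prop :=
  ∀ (φ : ℂ → ℂ) (ε B : ℝ) (m : ℕ) (e : ℂ), 0 < ε → DifferentiableOn ℂ φ (ball 0 ε) →
    (∀ t ∈ ball (0 : ℂ) ε, ‖φ t‖ ≤ B) → Tendsto (fun t => φ t / t ^ m) (𝓝[≠] 0) (𝓝 e) →
    ‖e‖ ≤ B * (2 / ε) ^ m

/-- STP. Linearisation. Strict differentiability: `Q(a₁, b₁) - Q(a₂, b₂) = L(1,0)(a₁ - a₂) + L(0,1)(b₁ - b₂)
+ o(|a₁ - a₂| + |b₁ - b₂|)`. Divide by `t^m`; since `L(0,1) ≠ 0` first `(b₁ - b₂) / t^m` is bounded, then the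
limit follows. -/
def S_STP : Prop :=
  ∀ (Q : ℂ × ℂ → ℂ) (L : ℂ × ℂ →L[ℂ] ℂ) (x z : ℂ) (m : ℕ) (a₁ a₂ b₁ b₂ : ℂ → ℂ) (A V : ℂ),
    HasStrictFDerivAt Q L (x, z) → L (0, 1) ≠ 0 →
    Tendsto a₁ (𝓝[≠] 0) (𝓝 x) → Tendsto a₂ (𝓝[≠] 0) (𝓝 x) →
    Tendsto b₁ (𝓝[≠] 0) (𝓝 z) → Tendsto b₂ (𝓝[≠] 0) (𝓝 z) →
    Tendsto (fun t => (a₁ t - a₂ t) / t ^ m) (𝓝[≠] 0) (𝓝 A) →
    Tendsto (fun t => (Q (a₁ t, b₁ t) - Q (a₂ t, b₂ t)) / t ^ m) (𝓝[≠] 0) (𝓝 V) →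
    Tendsto (fun t => (b₁ t - b₂ t) / t ^ m) (𝓝[≠] 0) (𝓝 ((V - L (1, 0) * A) / L (0, 1)))

/-- DER. The chain rule along the orbit. `X_1 = lam` near the point. `X_{i+1} = Q(lam, X_i)`,
`Q(l, X) = l + Js(l, X)^2`, is holomorphic near `(lam, X_i)`, hence strictly differentiable;
`L(0,1) = 2 Js(X_i) ∂Js/∂X ≠ 0`: JSI, and `|Js(X_i)| ≥ 0.97 |X_i|`, `X_i ≠ 0` (`X_i = 0`, `1 ≤ i < N`, gives
`X_{i+j} = X_j`, so `X_N = X_{N-i}`, but `|X_{N-i}| < w/2 < |X_N|`). Uses OXZ, ANX, JSI. -/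
def S_DER : Prop :=
  ∀ (w : ℝ) (J : ℂ × ℂ → ℂ) (N : ℕ), Fam w J → 2 ≤ N → ∀ q ∈ ES w J N,
    deriv (fun l => OX J q.2 l 1) q.1 = 1 ∧ ∀ i, 1 ≤ i → i < N → ∃ L : ℂ × ℂ →L[ℂ] ℂ,
      HasStrictFDerivAt (fun p : ℂ × ℂ => p.1 + (Js J q.2 p.1 p.2) ^ 2) L (q.1, OX J q.2 q.1 i) ∧
      L (0, 1) ≠ 0 ∧
      deriv (fun l => OX J q.2 l (i + 1)) q.1 =
        L (1, 0) + L (0, 1) * deriv (fun l => OX J q.2 l i) q.1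

/-- TRA. Transversality. Suppose the derivative of `X_N` at `lam` is `0`. `X_N(lam + t) - b` is holomorphic at
`t = 0` and not identically `0` (ORD), so `(X_N(lam + t) - b) / t^m → A ≠ 0` for some `m ≥ 1`. Take `h` from
ITR and write `X_i(t) = X_i(lam + t)`. Claim: for all `k` and `1 ≤ i < N`, `(h k i t - X_i(t)) / t^m → e k i`, with
`e 0 i = 0` and, putting `e k N = -A`, `L_i(0,1) e (k+1) i = e k (i+1) - L_i(1,0) e k 1` (`L_i` from DER): STP with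
`a₁ = h k 1`, `a₂ = lam + t`, `b₁ = h (k+1) i`, `b₂ = X_i(t)`: `Q(a₁, b₁) = h k (i+1) t` (Lif), `Q(a₂, b₂) = X_{i+1}(t)`,
and `h k N t - X_N(t) = b - X_N(t)`. Let `ℓ_1 = 1`, `ℓ_{i+1} = ℓ_i / L_i(0,1)`, `S_k = ∑_{1≤i<N} ℓ_i e k i`. From DER,
`ℓ_{i+1} X'_{i+1} = ℓ_i X'_i + ℓ_{i+1} L_i(1,0)` (`X'_i` the derivative at `lam`), so
`0 = ℓ_N X'_N = 1 + ∑_{1≤i<N} ℓ_{i+1} L_i(1,0)`; hence
`S_{k+1} = ∑_{1≤i<N} ℓ_{i+1} (e k (i+1) - L_i(1,0) e k 1) = S_k - e k 1 - ℓ_N A + e k 1 = S_k - ℓ_N A`.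
So `|S_k| → ∞`; but `|e k i| ≤ w (2/ε)^m` by COE. Contradiction. Uses OXZ, ANX, ITR, ORD, COE, STP, DER. -/
def S_TRA : Prop :=
  ∀ (w : ℝ) (J : ℂ × ℂ → ℂ) (N : ℕ), Fam w J → 2 ≤ N → ∀ q ∈ ES w J N,
    deriv (fun l => OX J q.2 l N) q.1 ≠ 0

/-! ## D. Sections and transfer -/

/-- SCV. Global sections of a proper local homeomorphism over a convex open set. Let `E` be the subtype of the `q ∈ Ω` with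
`F q ∈ B` and `p : E → B` the restriction of `F`. `p` is a local homeomorphism (inverse function theorem,
`HasStrictFDerivAt.toOpenPartialHomeomorph`, `E` is open in `ℂ × ℂ`), proper (preimages of compact sets are compact), hence
closed, with finite fibres (a compact fibre of a local homeomorphism is finite). So `p` is a covering:
`IsClosedMap.isCoveringMapOn_of_isLocalHomeomorphOn` (with `s = univ`; there is also the version `IsCoveringMapOn.existsUnique_continuousMap_lifts`). `B` is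
convex and open, hence (as a subtype) simply connected (contractible) and locally path connected, and the identity of `B` lifts:
`IsCoveringMap.existsUnique_continuousMap_lifts`. The lift is a continuous right inverse of `F`, so it is differentiable
(`HasFDerivAt.of_local_left_inverse` applied to `F` at `s q`). Extend by `0` outside `B`. -/
def S_SCV : Prop :=
  ∀ (B Ω : Set (ℂ × ℂ)) (F : ℂ × ℂ → ℂ × ℂ) (q₀ : ℂ × ℂ), IsOpen B → Convex ℝ B → IsOpen Ω →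
    (∀ q ∈ Ω, ∃ L : (ℂ × ℂ) ≃L[ℂ] (ℂ × ℂ), HasStrictFDerivAt F (L : (ℂ × ℂ) →L[ℂ] (ℂ × ℂ)) q) →
    (∀ K ⊆ B, IsCompact K → IsCompact (Ω ∩ F ⁻¹' K)) → q₀ ∈ Ω → F q₀ ∈ B →
    ∃ s : ℂ × ℂ → ℂ × ℂ, DifferentiableOn ℂ s B ∧ s (F q₀) = q₀ ∧ ∀ q ∈ B, s q ∈ Ω ∧ F (s q) = q

/-- SEC. Sections. SCV for `B = ball b (w/2) ×ˢ ball 0 3` (in the annulus since `|b| = w`), `Ω = ES w J N` (open, ANX),
`F(lam, s) = (X_N, s)`, `q₀ = (lam₀, 0)`. The strict derivative of `F` is `(M, snd)` with `M (1, 0) = ∂X_N/∂lam ≠ 0` (TRA), so it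
is invertible. Properness: let `K ⊆ B` be compact; on the preimage `|lam| ≤ 0.33 w` (CNF with `i = 1`, `X_1 = lam`) and
`(X_N, s) ∈ K`; a limit `(lam, s)` of points of the preimage has inductively `|X_i| ≤ 0.33 w` for `1 ≤ i < N` (the `X_i` are
continuous where the previous ones are `< 2 w`), and `(X_N, s) ∈ K`, so it is in the preimage: closed and bounded.
Uses OXZ, CNF, ANX, TRA, SCV. -/
def S_SEC : Prop :=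
  ∀ (w : ℝ) (J : ℂ × ℂ → ℂ) (N : ℕ) (b lam₀ : ℂ), Fam w J → 2 ≤ N → ‖b‖ = w →
    (lam₀, 0) ∈ ES w J N → OX J 0 lam₀ N = b →
    ∃ Λ : ℂ × ℂ → ℂ, DifferentiableOn ℂ Λ (ball b (w / 2) ×ˢ ball 0 3) ∧ Λ (b, 0) = lam₀ ∧
      ∀ q ∈ ball b (w / 2) ×ˢ ball (0 : ℂ) 3, (Λ q, q.2) ∈ ES w J N ∧ OX J q.2 (Λ q) N = q.1

/-- HAK. Harnack's inequality for zero-free functions bounded by `1`: `g = exp h`, `Re h < 0` (`exists_log`);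
`φ = (h - h(0)) / (h + conj h(0))` maps `B(0, 3)` to the unit disc, `φ(0) = 0`, so `|φ(1)| ≤ 1/3` (Schwarz) and
`-Re h(1) ≤ 2 (-Re h(0))`. -/
def S_HAK : Prop :=
  ∀ g : ℂ → ℂ, DifferentiableOn ℂ g (ball 0 3) → (∀ s ∈ ball (0 : ℂ) 3, g s ≠ 0 ∧ ‖g s‖ < 1) →
    ‖g 0‖ ^ 2 ≤ ‖g 1‖

/-- TRF. Transfer from `s = 0` to `s = 1`. `Λ` from SEC. For `|v - b| = e w` put
`g(s) = (Λ(v, s) - Λ(b, s)) / w`: `|g| < 1`, `g ≠ 0` (`X_N` would be `v` and `b`), `|g(0)| ≥ ϱ / w`: otherwise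
`|P N (Λ(v, 0)) - b| < e w`, but `P N (Λ(v, 0)) = v`. HAK: `|Λ(v, 1) - Λ(b, 1)| ≥ ϱ² / w`. By
`DiffContOnCl.ball_subset_image_closedBall` the closed disc `|v - b| ≤ e w` is mapped by `Λ(·, 1)` onto a set that
contains `B(Λ(b, 1), ϱ² / (2w))`. Uses OXZ, SEC, HAK. -/
def S_TRF : Prop :=
  ∀ (w : ℝ) (J : ℂ × ℂ → ℂ) (N : ℕ) (b lam₀ : ℂ) (e ϱ : ℝ), Fam w J → 2 ≤ N → ‖b‖ = w →
    (lam₀, 0) ∈ ES w J N → P N lam₀ = b → 0 < e → e ≤ 1 / 4 → 0 < ϱ →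
    (∀ c : ℂ, ‖c - lam₀‖ < ϱ → ‖P N c - b‖ < e * w) →
    ∃ lam₁ : ℂ, ∀ lam : ℂ, ‖lam - lam₁‖ < ϱ ^ 2 / (2 * w) →
      (lam, 1) ∈ ES w J N ∧ ‖OX J 1 lam N - b‖ ≤ e * w

/-! ## E. The main theorem -/

/-- DWN. If `|P N c| = w ≥ 20` and `|c| ≤ 4` then `|P i c| < w / 2` for `i < N`: downward induction,
`|P i c|² ≤ |P (i+1) c| + 4 ≤ w + 4`, `√(w + 4) ≤ w` and `√(w + 4) < w / 2`. -/
def S_DWN : Prop :=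
  ∀ (c : ℂ) (N : ℕ), ‖c‖ ≤ 4 → 20 ≤ ‖P N c‖ → ∀ i, i < N → ‖P i c‖ < ‖P N c‖ / 2

/-- LRG. `log |z² + c| = 2 log |z| + log |1 + c / z²|`, `|c / z²| ≤ 5/400`; induction on `j` (the orbit stays
`≥ 20`). -/
def S_LRG : Prop :=
  ∀ (c : ℂ) (n : ℕ), ‖c‖ ≤ 5 → 20 ≤ ‖P n c‖ → ∀ j : ℕ, 20 ≤ ‖P (n + j) c‖ ∧
    |Real.log ‖P (n + j) c‖ - 2 ^ j * Real.log ‖P n c‖| ≤ 2 ^ j / 50

/-- INB. Inverse branches of `P N` over large discs: SEC for the family `J (lam, X) = X`, `w = |P N c₁|`,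
`s = 0` (`(c₁, 0) ∈ ES` by DWN; `N ≥ 2` since `|c₁| ≤ 4`). Uses OXZ, SEC, DWN. -/
def S_INB : Prop :=
  ∀ (c₁ : ℂ) (N : ℕ), ‖c₁‖ ≤ 4 → 20 ≤ ‖P N c₁‖ →
    ∃ Λ : ℂ → ℂ, DifferentiableOn ℂ Λ (ball (P N c₁) (‖P N c₁‖ / 2)) ∧ Λ (P N c₁) = c₁ ∧
      ∀ v ∈ ball (P N c₁) (‖P N c₁‖ / 2), ‖Λ v‖ < ‖P N c₁‖ / 2 ∧ P N (Λ v) = v

/-- EXA. Logarithmic coordinates. `E(v) = log v + ∑_{q<i} 2^(-q-1) log(1 + Λ(v) / P (N + q) (Λ v)²)`, with a branch of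
`log v` on the disc (`log b + Log(v / b)`, `|v/b - 1| < 1/2`) and principal logarithms elsewhere; then
`P (N + i) (Λ v) = exp(2^i E(v))` by induction on `i` (`P (m + 1) c = P m c ^ 2 (1 + c / P m c ^ 2)`). For `|v - b| < |b|/2`:
`|Λ(v) / v²| ≤ (|b|/2) / (|b|²/4) = 2/|b| ≤ 1/10`; `|P (N + 1) (Λ v)| ≥ (|b|/2)(|b|/2 - 1) ≥ 90`, the orbit grows, and
`|Λ / P (N + q)²| ≤ 1/810` for `q ≥ 1`. So `|E - log v| ≤ 0.06` on `B(b, |b|/2)`, the derivative of the difference is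
`≤ 0.24/|b|` on `B(b, |b|/4)` (Cauchy) and `|1/v - 1/b| ≤ 0.12/|b|` on `B(b, |b|/10)`; so `|E' - 1/b| ≤ 0.36/|b|` and
`|E(v) - E(b)| ≥ 0.6 |v - b| / |b|` on `B(b, |b|/10)`. -/
def S_EXA : Prop :=
  ∀ (b : ℂ) (N i : ℕ) (Λ : ℂ → ℂ), 20 ≤ ‖b‖ → DifferentiableOn ℂ Λ (ball b (‖b‖ / 2)) →
    (∀ v ∈ ball b (‖b‖ / 2), ‖Λ v‖ < ‖b‖ / 2 ∧ P N (Λ v) = v) →
    ∃ E : ℂ → ℂ, DifferentiableOn ℂ E (ball b (‖b‖ / 2)) ∧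
      (∀ v ∈ ball b (‖b‖ / 2), P (N + i) (Λ v) = Complex.exp (2 ^ i * E v)) ∧
      ∀ v ∈ ball b (‖b‖ / 10), 3 / 5 * ‖v - b‖ / ‖b‖ ≤ ‖E v - E b‖

/-- EXQ. Expansion. Let `b = P N c₁`, `|b| ≤ 20² + 3`, `Λ` from INB; `|Λ'| ≤ 2` on `B(b, |b|/4)` (Cauchy), so
`|Λ(v) - c₁| ≤ δ/4` for `|v - b| ≤ δ/8`. `E` from EXA. With `DiffContOnCl.ball_subset_image_closedBall` (radius
`δ/8`): the image of the closed disc under `E` contains `B(E(b), 0.0375 δ / |b|)`, and `0.0375 / 403 ≥ 1/12000`. Given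
`W`, the number `log W + 2π i n`, `n ∈ ℤ` suitable, is within `|log|W| - log|P (N+i) c₁|| + π < 2^i δ / 12000` of
`2^i E(b)` (`|exp(2^i E(b))| = |P (N + i) c₁|`). Uses INB, EXA. -/
def S_EXQ : Prop :=
  ∀ (c₁ : ℂ) (N : ℕ), ‖c₁‖ ≤ 3 → 20 ≤ ‖P N c₁‖ → (∀ i, i < N → ‖P i c₁‖ < 20) →
    ∀ δ : ℝ, 0 < δ → δ ≤ 1 → ∀ (i : ℕ) (W : ℂ), W ≠ 0 →
    |Real.log ‖W‖ - Real.log ‖P (N + i) c₁‖| ≤ 2 ^ i * δ / 12000 - 4 →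
    ∃ c' : ℂ, ‖c' - c₁‖ ≤ δ / 4 ∧ P (N + i) c' = W

/-- SPR. Separation. Let `ω = |P N c₁|`, `|c - c₁| ≤ δ/8`. For large `m`, `|P m| > 1` on the compact disc
`|c' - c₁| ≤ δ/2` (`esc_large`), so `harnack` on `B(c, 3δ/8)` gives `log |P m c| ≤ 2 log |P m c₁|`. By LRG (at `c₁`, and at
`c` if `|P N c| ≥ 20`): `log |P N c| - 1/50 ≤ 2 (log ω + 1/50)`, so `|P N c| ≤ 2 ω²`. Schwarz' lemma for `P N - P N c₁` on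
`B(c₁, δ/8)` (bounded by `2 ω² + ω ≤ 2.05 ω²`): `|P N c - P N c₁| ≤ 16.4 ω² |c - c₁| / δ`. Uses LRG. -/
def S_SPR : Prop :=
  ∀ (c₁ : ℂ) (δ : ℝ) (N : ℕ), ‖c₁‖ ≤ 4 → 0 < δ → δ ≤ 1 → (∀ c : ℂ, ‖c - c₁‖ < δ → c ∉ MM) →
    20 ≤ ‖P N c₁‖ → ∀ e : ℝ, 0 < e → e ≤ 1 → ∀ c : ℂ, ‖c - c₁‖ < e * δ / (32 * ‖P N c₁‖) →
    ‖P N c - P N c₁‖ < e * ‖P N c₁‖

/-- ORB. The critical orbit of `f_c`, `c = cn lam`, at the multiples of `p`. `i = 1`: `X_1 = lam` and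
`a JJ(lam, lam) = fi (p - 1) c c = P p c`. Step: `P (p (i+1)) c = fi p c (P (p i) c) = fi (p-1) c ((a JJ(lam, X_i))² + c)`
and `X_{i+1} = lam + JJ(lam, X_i)²`. Uses FIP. -/
def S_ORB : Prop :=
  ∀ (p : ℕ) (cn a : ℂ → ℂ) (lam : ℂ), 1 ≤ p → a lam ≠ 0 → JJ p cn a (lam, 0) = 0 → ∀ i, 1 ≤ i →
    P (p * i) (cn lam) = a lam * JJ p cn a (lam, OX (JJ p cn a) 1 lam i)

/-- TGA. The copies prepared for the transfer. `κ, C₀, τ, α` from `Copies c₀`. Given `W, ε`: let `ε' = min(ε, |W|/100)`,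
`ε₁, n₁` from `Copies` for `ε'`; `e = min(1/4, ε₁)`. For `n ≥ n₁` let `p, cn, a` be the copy, `J = JJ p cn a`. INV on
`B(0, 4κ/|α n|)` for `J(0, ·)` (`|J(0, y) - y| ≤ |y|/100`) gives `b = bs n` with `J(0, b) = W / a(0)`: `|W / a(0)| ≤ κ/|α|`
(`|W| < κ/8`, `|a(0)| ≥ 0.99 |α|`), `b ∈ B(0, 2κ/|α|)`, `|b - W/a(0)| ≤ |b|/100`, so `|b|` is between `0.97 |W/α|` and
`1.04 |W/α|`; `|b| ≥ 20` for large `n`; ratio and growth of `|b|` from those of `|α n|`. `Fam |b| J`: for the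
domain `|lam| < |b|/2 ≤ κ/|α|`, `|X| < 2|b| ≤ 4κ/|α|`; `near` is `CopyAt.quad`, `an`: `cn` and `a` are analytic, `a ≠ 0` by `scale`,
FIP. equi: `|v - b| ≤ e |b| ≤ ε₁ (1.04/8) κ/|α| ≤ ε₁/|α|`, `CopyAt.equi` with `w = v`, `w' = b`, and `a(0) J(0, b) = W`. For
`n < n₁` put `bs n = 1`, say. Uses INV, FIP. -/
def S_TGA : Prop :=
  ∀ c₀ : ℂ, Copies c₀ → ∃ κ : ℝ, 0 < κ ∧ κ ≤ 1 ∧ ∀ W : ℂ, W ≠ 0 → ‖W‖ < κ / 8 → ∀ ε : ℝ, 0 < ε →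
    ∃ (C e τ : ℝ) (n₀ : ℕ) (bs : ℕ → ℂ), 1 ≤ C ∧ 0 < e ∧ e ≤ 1 / 4 ∧ 1 < τ ∧
      (∀ n, n₀ ≤ n → 20 ≤ ‖bs n‖ ∧ ‖bs (n + 1)‖ ≤ C * ‖bs n‖ ∧ τ ^ n ≤ C * ‖bs n‖) ∧
      ∀ n, n₀ ≤ n → ∃ (p : ℕ) (cn a : ℂ → ℂ), TgtAt c₀ W (bs n) C e ε n p cn a

/-- TGT. The transfer into `U`. `κ` from TGA; `W ≠ 0`, `|W| < κ/8`, `3 < |fi j c₀ W|` (WST);
`0 < ε ≤ 1` such that `|c - c₀| ≤ ε`, `|x - W| ≤ ε` imply `3 < |fi j c x|` (continuity) and `c ∈ U`. `C, e, τ, n₀, bs` from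
TGA. Given `n, N, lam₀, ϱ`: `b = bs n`, `J = JJ p cn a`; `N ≥ 2` (`|P 1 lam₀| ≤ 4 < 20`),
`(lam₀, 0) ∈ ES |b| J N` (DWN, OXZ), TRF gives `lam₁`; for `|lam - lam₁| < ϱ₂ = ϱ²/(2|b|)`: `v = X_N(lam)` at `s = 1` satisfies
`|v - b| ≤ e |b|`, so by ORB (`JJ p cn a (lam, 0) = 0` by `Fam.near`) and `TgtAt.equi` `|P (p N) (cn lam) - W| ≤ ε`, and
`|cn lam - c₀| ≤ ε`, so `cn lam ∈ U`, `|P (p N + j)(cn lam)| > 3`, `cn lam ∉ M` (FIP). Put `c' = cn lam₁`, `N' = p N`;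
`|P N' c'| ≤ |W| + ε ≤ 3`. By `lip` and `DiffContOnCl.ball_subset_image_closedBall` (radius `ϱ₂/2`) `cn` maps the disc
`|lam - lam₁| ≤ ϱ₂/2` onto a set containing `B(c', ϱ₂/(4 C^(n+1)))`, so `d(c') ≥ ϱ₂/(4 C^(n+1)) = ϱ²/(8 |b| C^(n+1))`.
Uses FIP, WST, OXZ, TRF, DWN, ORB, TGA. -/
def S_TGT : Prop :=
  ∀ (c₀ : ℂ) (l : ℕ) (U : Set ℂ), Mis c₀ l → Copies c₀ → IsOpen U → c₀ ∈ U →
    ∃ (C e τ : ℝ) (n₀ : ℕ) (bs : ℕ → ℂ), 1 ≤ C ∧ 0 < e ∧ e ≤ 1 / 4 ∧ 1 < τ ∧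
      (∀ n, n₀ ≤ n → 20 ≤ ‖bs n‖ ∧ ‖bs (n + 1)‖ ≤ C * ‖bs n‖ ∧ τ ^ n ≤ C * ‖bs n‖) ∧
      ∀ n, n₀ ≤ n → ∀ (N : ℕ) (lam₀ : ℂ) (ϱ : ℝ), ‖lam₀‖ ≤ 4 → P N lam₀ = bs n → 0 < ϱ → ϱ ≤ 1 →
        (∀ c : ℂ, ‖c - lam₀‖ < ϱ → ‖P N c - bs n‖ < e * ‖bs n‖) →
        ∃ c' ∈ U, ∃ N' : ℕ, N ≤ N' ∧ ‖P N' c'‖ ≤ 3 ∧ ϱ ^ 2 / (8 * ‖bs n‖ * C ^ (n + 1)) ≤ dM c'

/-- NUM. `B ≤ exp(14 K 2^k)`, `n log τ ≤ log(C B)`, so `C^(n+1) ≤ exp(K₁ 2^k)` with `K₁` depending on `C, τ, K`; the right side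
is `9 e² / (8 · 128² · 4^k · B³ · C^(n+1))`, at least `exp(-K₂ 2^k)`, and `2^(-C' 2^k) < exp(-K₂ 2^k)` if `C' log 2 > K₂`
(`k ≤ 2^k`, `1 ≤ 2^k`). -/
def S_NUM : Prop :=
  ∀ (C e τ K : ℝ), 1 ≤ C → 0 < e → 1 < τ → 1 ≤ K → ∃ C' : ℕ, ∀ (k n : ℕ) (B : ℝ), 1 ≤ B →
    B ≤ Real.exp (14 * K * 2 ^ k) → τ ^ n ≤ C * B →
    (1 : ℝ) / 2 ^ (C' * 2 ^ k) < (3 * e * (1 / 2 ^ k) / (128 * B)) ^ 2 / (8 * B * C ^ (n + 1))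

/-- COR. The quantitative form. `c₀ ∈ U`, `l` from MIS; COP; TGT: `C, e, τ, n₀, bs`. Let `δ = 2^(-k)`, `c₁ = c` with
`δ < d(c)`, `|P N c| ≤ 3`. If `|c| > 3` then `N = 0` (`growth`): take any `c' ∈ U` outside `M`, `N' = 0` (this fixes a lower
bound for the constant). If `|c| ≤ 3`: let `N₁` be the first index with `|P N₁ c| ≥ 20` (`c ∉ M`); `N < N₁` by LRG.
Let `i` be the least number with `2^i δ ≥ K`, where `K/12000 - 4 ≥ log C` and `K ≥ log |bs n₀|`, `K ≥ 1`; so `2^i ≤ 2 K 2^k`.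
`log |P (N₁+i) c| ≥ 2^i (log 20 - 1/50) ≥ 2^i ≥ log |bs n₀|`; let `n ≥ n₀` be maximal with
`log |bs n| ≤ log |P (N₁+i) c|` (`|bs n| → ∞`); then the difference is `≤ log C ≤ 2^i δ/12000 - 4`. EXQ: `c₂` with
`|c₂ - c| ≤ δ/4`, `P (N₁+i) c₂ = bs n`. The disc of radius `3δ/4` about `c₂` has no point of `M`; SPR (with `3δ/4`, `|c₂| ≤ 4`) gives
the hypothesis of TGT with `ϱ = 3 e δ / (128 |bs n|)`. TGT: `c' ∈ U`, `N' ≥ N₁ + i ≥ N`,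
`d(c') ≥ ϱ² / (8 |bs n| C^(n+1))`. Numbers: `|P N₁ c| ≤ 403`, `|bs n| ≤ |P (N₁+i) c| ≤ exp(2^i (log 403 + 1/50)) ≤ exp(14 K 2^k)`
(`log 403 ≤ 6.1`); `τ^n ≤ C |bs n|`; NUM with `B = |bs n|`. Uses MIS, COP, TGT, EXQ, SPR, LRG, NUM. -/
def S_COR : Prop :=
  ∀ U : Set ℂ, IsOpen U → (U ∩ frontier MM).Nonempty → ∃ C : ℕ, ∀ (k N : ℕ) (c : ℂ),
    1 / 2 ^ k < dM c → ‖P N c‖ ≤ 3 →
    ∃ c' ∈ U, ∃ N' : ℕ, N ≤ N' ∧ 1 / 2 ^ (C * 2 ^ k) < dM c' ∧ ‖P N' c'‖ ≤ 3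

end Pool.Agent.Work.MP_500150_lc.LC
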