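import Mathlib
import Pool.Agent.Work.MP_500150_lc.LC.StmtsC

set_option autoImplicit false

/-!
Block LC of MP_500150_lc, item ANX: `ES` is open, the `X_i` are analytic on it.
-/

namespace Pool.Agent.Work.MP_500150_lc.LC

open Metric Set Filter Topology MeasureTheory Pool.MP_500150_lc.H8

namespace I_ANX

theorem anAt {w : ℝ} {J : ℂ × ℂ → ℂ} {N : ℕ} (hF : Fam w J) {q₀ : ℂ × ℂ} (hq : q₀ ∈ ES w J N) :
    ∀ i, i ≤ N → AnalyticAt ℂ (fun q : ℂ × ℂ => OX J q.2 q.1 i) q₀ := by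
  intro i
  induction i with
  | zero => intro _; exact analyticAt_const
  | succ i ih =>
    intro hi
    have hX := ih (by omega)
    have hw : (0 : ℝ) < w := by linarith [hF.big]
    have hmem : (q₀.1, OX J q₀.2 q₀.1 i) ∈ ball (0 : ℂ) (w / 2) ×ˢ ball (0 : ℂ) (2 * w) := by
      refine ⟨by simpa using hq.1, ?_⟩
      rcases Nat.eq_zero_or_pos i with h0 | h0
      · subst h0
        have : OX J q₀.2 q₀.1 0 = 0 := rfl
        simp only [this, mem_ball, dist_self]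
        positivity
      · have := hq.2.2.1 i h0 (by omega)
        simp only [mem_ball, dist_zero_right]
        linarith
    have hJ : AnalyticAt ℂ J (q₀.1, OX J q₀.2 q₀.1 i) := hF.an _ hmem
    have hg : AnalyticAt ℂ (fun q : ℂ × ℂ => (q.1, OX J q.2 q.1 i)) q₀ :=
      analyticAt_fst.prod hX
    have hJg : AnalyticAt ℂ (fun q : ℂ × ℂ => J (q.1, OX J q.2 q.1 i)) q₀ :=
      AnalyticAt.comp' (g := J) (f := fun q : ℂ × ℂ => (q.1, OX J q.2 q.1 i)) hJ hg
    have hJs : AnalyticAt ℂ (fun q : ℂ × ℂ => Js J q.2 q.1 (OX J q.2 q.1 i)) q₀ := by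
      have := hX.add (analyticAt_snd.mul (hJg.sub hX))
      exact this
    have := analyticAt_fst.add (hJs.pow 2)
    exact this

end I_ANX

theorem ANX_pf : S_ANX := by
  intro w J N hF _
  refine ⟨?_, fun i hi q hq => I_ANX.anAt hF hq i hi⟩
  rw [isOpen_iff_mem_nhds]
  intro q hq
  have hc : ∀ i, i ≤ N → ContinuousAt (fun q : ℂ × ℂ => ‖OX J q.2 q.1 i‖) q := fun i hi =>
    (I_ANX.anAt hF hq i hi).continuousAt.norm
  have h1 : ∀ᶠ p : ℂ × ℂ in 𝓝 q, ‖p.1‖ < w / 2 :=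
    (continuous_fst.norm.continuousAt).eventually_lt continuousAt_const hq.1
  have h2 : ∀ᶠ p : ℂ × ℂ in 𝓝 q, ‖p.2‖ < 3 :=
    (continuous_snd.norm.continuousAt).eventually_lt continuousAt_const hq.2.1
  have h3 : ∀ᶠ p : ℂ × ℂ in 𝓝 q, ∀ i ∈ Finset.range N, 1 ≤ i → ‖OX J p.2 p.1 i‖ < w / 2 := by
    rw [Filter.eventually_all_finset]
    intro i hi
    have hiN : i < N := Finset.mem_range.1 hi
    by_cases h0 : 1 ≤ i
    · filter_upwards [(hc i hiN.le).eventually_lt continuousAt_const (hq.2.2.1 i h0 hiN)] with p hp _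
      exact hp
    · exact Filter.Eventually.of_forall fun p h => absurd h h0
  have h4 : ∀ᶠ p : ℂ × ℂ in 𝓝 q, w / 2 < ‖OX J p.2 p.1 N‖ :=
    continuousAt_const.eventually_lt (hc N le_rfl) hq.2.2.2.1
  have h5 : ∀ᶠ p : ℂ × ℂ in 𝓝 q, ‖OX J p.2 p.1 N‖ < 3 * w / 2 :=
    (hc N le_rfl).eventually_lt continuousAt_const hq.2.2.2.2
  filter_upwards [h1, h2, h3, h4, h5] with p a1 a2 a3 a4 a5
  exact ⟨a1, a2, fun i hi hiN => a3 i (Finset.mem_range.2 hiN) hi, a4, a5⟩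

end Pool.Agent.Work.MP_500150_lc.LC
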