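import Mathlib
import Pool.Agent.Work.MP_500150_lc.LC.Stmts

set_option autoImplicit false

/-! Item BET: the fixed point with the larger multiplier. -/

namespace Pool.Agent.Work.MP_500150_lc.LC

open Metric Set Filter Topology MeasureTheory Pool.MP_500150_lc.H8

namespace I_BET

theorem sq_root (z : ℂ) : (z ^ (1 / 2 : ℂ)) ^ 2 = z := by
  have h := Complex.cpow_nat_inv_pow z (n := 2) two_ne_zero
  have e : (1 / 2 : ℂ) = ((2 : ℕ) : ℂ)⁻¹ := by norm_num
  rw [e]
  exact h

theorem re_pos {z : ℂ} (hz : z ∈ Complex.slitPlane) : 0 < (z ^ (1 / 2 : ℂ)).re := by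
  have h0 : z ≠ 0 := Complex.slitPlane_ne_zero hz
  rw [Complex.cpow_def_of_ne_zero h0, Complex.exp_re]
  refine mul_pos (Real.exp_pos _) ?_
  have him : (Complex.log z * (1 / 2 : ℂ)).im = z.arg / 2 := by
    rw [Complex.mul_im, Complex.log_im]
    simp
    ring
  rw [him]
  have h1 : z.arg < Real.pi := lt_of_le_of_ne (Complex.arg_le_pi z)
    (Complex.mem_slitPlane_iff_arg.1 hz).1
  have h2 := Complex.neg_pi_lt_arg z
  exact Real.cos_pos_of_mem_Ioo ⟨by linarith, by linarith⟩

end I_BET

open I_BET in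
theorem BET_pf : S_BET := by
  refine ⟨?_, ?_, ?_, ?_⟩
  · intro c
    have h := sq_root (1 - 4 * c)
    unfold bet
    linear_combination (1 / 4 : ℂ) * h
  · intro c hc
    constructor
    · have h1 : 2 * bet c = 1 + (1 - 4 * c) ^ (1 / 2 : ℂ) := by
        unfold bet
        ring
      rw [h1]
      have h2 := Complex.re_le_norm (1 + (1 - 4 * c) ^ (1 / 2 : ℂ))
      have h3 := re_pos hc
      rw [Complex.add_re, Complex.one_re] at h2
      linarith
    · unfold bet
      have h1 : DifferentiableAt ℂ (fun c : ℂ => 1 - 4 * c) c := by fun_prop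
      have h2 : DifferentiableAt ℂ (fun c : ℂ => (1 - 4 * c) ^ (1 / 2 : ℂ)) c :=
        h1.cpow (differentiableAt_const _) hc
      exact (h2.const_add 1).div_const 2
  · unfold bet
    norm_num
  · intro c hc
    have h := sq_root (1 - 4 * c)
    set r : ℂ := (1 - 4 * c) ^ (1 / 2 : ℂ) with hr
    have h1 : ‖r‖ ^ 2 ≤ 17 := by
      rw [← norm_pow, h]
      have h2 := norm_sub_le (1 : ℂ) (4 * c)
      rw [norm_one, norm_mul, Complex.norm_ofNat] at h2
      linarith
    have h2 : ‖r‖ ≤ 5 := by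
      nlinarith [norm_nonneg r]
    have h3 : bet c = (1 + r) / 2 := rfl
    rw [h3, norm_div, Complex.norm_ofNat]
    have h4 := norm_add_le (1 : ℂ) r
    rw [norm_one] at h4
    linarith

end Pool.Agent.Work.MP_500150_lc.LC
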