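import Mathlib
import Pool.Agent.Work.MP_500150_lc.LC.StmtsC
import Pool.Agent.Work.MP_500150_lc.H8.Sep
import Pool.Agent.Work.MP_500150_lc.H8.Maj

set_option autoImplicit false

/-!
# Locality of the computability of the Mandelbrot set: computability

`CompM` (`H8/Neck`) is the computability of the distance function of `M` in the form of the problem; `Sq n x y` (`H8/Sep`) the
dyadic square `{z | x/2^n - 4 ≤ re z ≤ (x+1)/2^n - 4, y/2^n - 4 ≤ im z ≤ (y+1)/2^n - 4}`; `wrongsIn` (`H8/Maj`) the set of the wrong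
pixels of a block.
-/

namespace Pool.Agent.Work.MP_500150_lc.LC

open Metric Set Filter Topology Pool.MP_500150_lc.H8

/-- `m k` bounds the escape times of the points of `U` at distance more than `2^(-k)` from `M`. -/
def TimeOn (U : Set ℂ) (m : ℕ → ℕ) : Prop :=
  ∀ (k : ℕ), ∀ c ∈ U, 1 / 2 ^ k < dM c → ∀ n, m k ≤ n → 3 < ‖P n c‖

/-- The distance to `M` is computable on `U`: the definition of `CompM` for the dyadic points of `U`. -/
def CompOn (U : Set ℂ) : Prop :=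
  ∃ F : ℕ × ℕ × ℕ × ℕ × ℕ → ℕ × ℕ, Computable F ∧ ∀ a b c d n : ℕ,
    Complex.mk (((a : ℝ) - b) / 2 ^ n) (((c : ℝ) - d) / 2 ^ n) ∈ U →
    |(((F (a, b, c, d, n)).1 : ℝ) - (F (a, b, c, d, n)).2) / 2 ^ n -
      dM (Complex.mk (((a : ℝ) - b) / 2 ^ n) (((c : ℝ) - d) / 2 ^ n))| ≤ 1 / 2 ^ n

/-- A computably enumerable set of squares between, on `U`. -/
def SandOn (U : Set ℂ) : Prop :=
  ∃ p : ℕ × ℕ × ℕ → Prop, REPred p ∧ ∀ n x y, Sq n x y ⊆ U →
    (Sq n x y ⊆ MM → p (x, y, n)) ∧ (p (x, y, n) → (Sq n x y ∩ MM).Nonempty)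

/-- Computable pictures in which more than half of the pixels of every block inside `U` are right. -/
def MajOn (U : Set ℂ) : Prop :=
  ∃ (f : ℕ × ℕ × ℕ → ℕ) (ρ : ℕ → ℕ), Computable f ∧ Computable ρ ∧
    ∀ k, k ≤ ρ k ∧ ∀ X < 8 * 2 ^ k, ∀ Y < 8 * 2 ^ k, Sq k X Y ⊆ U →
      2 * (wrongsIn f (ρ k) k X Y).card < 4 ^ (ρ k - k)

/-- The interior of the `3 × 3` block of squares of level `n` with lower left square `(a, b)`. -/
def Box (n a b : ℕ) : Set ℂ :=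
  {z : ℂ | (a : ℝ) / 2 ^ n - 4 < z.re ∧ z.re < ((a : ℝ) + 3) / 2 ^ n - 4 ∧
    (b : ℝ) / 2 ^ n - 4 < z.im ∧ z.im < ((b : ℝ) + 3) / 2 ^ n - 4}

/-- The square `(x, y)` of level `L` is inside the block. -/
def InBox (n a b L x y : ℕ) : Prop :=
  n ≤ L ∧ a * 2 ^ (L - n) ≤ x ∧ x < (a + 3) * 2 ^ (L - n) ∧ b * 2 ^ (L - n) ≤ y ∧
    y < (b + 3) * 2 ^ (L - n)

/-- BLK. Choose `r` with `B(c, r) ⊆ U`, `n` with `5 / 2^n ≤ r`; `a = ⌊(re c + 4) 2^n⌋ - 1`, `b = ⌊(im c + 4) 2^n⌋ - 1`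
(`|re c|, |im c| ≤ 2`, so `(re c + 4) 2^n ≥ 2`). The closed block has diameter `3 √2 / 2^n < 5 / 2^n` and contains `c`. A point `z`
of the box is in the square `x = ⌊(re z + 4) 2^L⌋`, `y = ⌊(im z + 4) 2^L⌋` of level `L`. -/
def S_BLK : Prop :=
  ∀ U : Set ℂ, IsOpen U → ∀ c ∈ U, c ∈ MM → ∃ n a b : ℕ, c ∈ Box n a b ∧ IsOpen (Box n a b) ∧
    a + 3 ≤ 8 * 2 ^ n ∧ b + 3 ≤ 8 * 2 ^ n ∧ (∀ L x y, InBox n a b L x y → Sq L x y ⊆ U) ∧
    ∀ L (z : ℂ), n ≤ L → z ∈ Box n a b → ∃ x y, InBox n a b L x y ∧ z ∈ Sq L x y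

/-- LSE. Sandwich on `U` gives escape times on an open `V` which meets the boundary. `c ∈ U ∩ frontier M`, BLK:
`n₀, a, b`, `V = Box n₀ a b`. `e` from `re_stage` for `p`; put `e'((x, y, n), s) = e((x, y, n), s) || decide ¬ InBox n₀ a b n x y`
(primitive recursive, monotone in `s`), `p'` the corresponding predicate: `p' (x, y, n) ↔ p (x, y, n) ∨ ¬ InBox n₀ a b n x y`.
`exists_SC` for `e', p'` (if `Sq n x y ⊆ M` then `p'`: inside the block it is `⊆ U`): `∃ N, SC e' K N` for every `K`; `pSC` and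
`Computable.find` give a computable `N(K)`. Put `K(k) = max k n₀`, `m k = N(K(k)) + 4`. For `w ∈ V`, `1/2^k < d(w)`: let
`L = K + 3`, `(x, y)` the square of level `L` with `InBox` and `w ∈ Sq L x y` (BLK); `x < 8 * 2^L` since `a + 3 ≤ 8 * 2^n₀`.
`SC` gives `ET x y L N`, and then `3 < ‖P n w‖` for `n ≥ N + 4` (`test_mem`, `big_iff`, `time_of_near`: as in the
proof of `time_of_SC`; the square has diameter at most `√2 / 2^L ≤ 1 / 2^k / 4`), or `e' = true`, so `p (x, y, L)`,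
`Sq L x y ∩ M ≠ ∅` and `d(w) ≤ 1 / 2^k / 4`, a contradiction. Uses BLK. -/
def S_LSE : Prop :=
  ∀ U : Set ℂ, IsOpen U → (U ∩ frontier MM).Nonempty → SandOn U →
    ∃ V : Set ℂ, IsOpen V ∧ (V ∩ frontier MM).Nonempty ∧ ∃ m : ℕ → ℕ, Computable m ∧ TimeOn V m

/-- LMA. Majority pictures on `U` give escape times on `V = Box n₀ a b` (BLK for `c ∈ U ∩ frontier M`). Let
`f'(x, y, n) = f (x, y, n)` if `InBox n₀ a b n x y` and `0` otherwise (computable). For `n₀ ≤ K ≤ n = ρ K` and a block `(X, Y)` of level `K`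
outside (`¬ InBox n₀ a b K X Y`) all its pixels are outside and `badsIn f' n K X Y N` is empty (`Bad` needs `f ≠ 0`); for a block inside
`f' = f` on its pixels and `wrongsIn f' = wrongsIn f`. As in `comp_of_maj`: with `K(k) = max k n₀ + 3` there is `N` with
`viols f' (ρ K) K N ≤ 0` (`exists_all_big`, `badsIn_le` for the blocks inside), a computable choice `N(k)` by
`Computable.find` (`cviols`), `m k = N(k) + 4`. For `w ∈ V`, `1/2^k < d(w)`: the block `(X, Y)` of level `K` with `InBox` and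
`w ∈ Sq K X Y` (BLK); `badsIn f'` is less than half of it, `wrongsIn f'` too, so there is a pixel which is neither; the proof
of `time_of_badsIn` for this block (it uses the two counts only for this block) gives `3 < ‖P n w‖` for `n ≥ N + 4`
(`time_of_near`). Uses BLK. -/
def S_LMA : Prop :=
  ∀ U : Set ℂ, IsOpen U → (U ∩ frontier MM).Nonempty → MajOn U →
    ∃ V : Set ℂ, IsOpen V ∧ (V ∩ frontier MM).Nonempty ∧ ∃ m : ℕ → ℕ, Computable m ∧ TimeOn V m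

/-- LDI. The proof of `sep_of_comp` for squares inside `U`: `p (x, y, n)` says that
`F (8x+4, 4*2^(n+3), 8y+4, 4*2^(n+3), n+3)` is at most `2` (`.1 ≤ .2 + 2`); the centre of the square is in `U`. -/
def S_LDI : Prop := ∀ U : Set ℂ, CompOn U → SandOn U

/-- TIM. From `sep_of_comp`, `re_stage`, `exists_SC`, `pSC`, `time_of_SC` (as in `comp_of_sep`): a computable `m₁` with
`3 < ‖P (m₁ k) w‖` if `1/2^k < d(w)`. Then `3 < ‖P n w‖` for `n ≥ max(m₁ k, 1)`: if `|w| ≤ 3` then `|z| > 3` gives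
`|z² + w| ≥ |z|² - 3 > 3` for the next one; if `|w| > 3`: `growth`, `growth'`, all `|P n w| ≥ |w| > 3` for `n ≥ 1`. -/
def S_TIM : Prop := CompM → ∃ m : ℕ → ℕ, Computable m ∧ TimeOn univ m

/-- GLO. `m' k = m (C * 2^k)` with `C` from COR; `comp_of_time`: if `1/2^k < d(w)` and `‖P (m' k) w‖ ≤ 3` then COR gives
`c' ∈ U`, `N' ≥ m (C * 2^k)`, `1/2^(C * 2^k) < d(c')`, `‖P N' c'‖ ≤ 3`, a contradiction to `TimeOn U m`. Uses COR. -/
def S_GLO : Prop :=
  ∀ U : Set ℂ, IsOpen U → (U ∩ frontier MM).Nonempty → ∀ m : ℕ → ℕ, Computable m → TimeOn U m → CompM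

/-- FIN. The theorem. (1) → (2): the same `F`. (2) → (4): LDI. (4) → (1): LSE, GLO for `V`. (1) → (3): TIM. (3) → (1): GLO.
(1) → (5): `comp_iff_maj`. (5) → (1): LMA, GLO for `V`. Uses COR, LSE, LMA, LDI, TIM, GLO. -/
def S_FIN : Prop :=
  ∀ U : Set ℂ, IsOpen U → (U ∩ frontier MM).Nonempty →
    (∃ C : ℕ, ∀ (k N : ℕ) (c : ℂ), 1 / 2 ^ k < dM c → ‖P N c‖ ≤ 3 →
      ∃ c' ∈ U, ∃ N' : ℕ, N ≤ N' ∧ 1 / 2 ^ (C * 2 ^ k) < dM c' ∧ ‖P N' c'‖ ≤ 3) ∧
    (CompM ↔ CompOn U) ∧ (CompM ↔ ∃ m : ℕ → ℕ, Computable m ∧ TimeOn U m) ∧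
    (CompM ↔ SandOn U) ∧ (CompM ↔ MajOn U)

end Pool.Agent.Work.MP_500150_lc.LC
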