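import Mathlib
import Pool.Agent.Work.MP_500150_lc.LC.StmtsF

set_option autoImplicit false

/-!
# MP_500150_lc, block LC, item BLK: blocks of squares
-/

namespace Pool.Agent.Work.MP_500150_lc.LC

open Metric Set Filter Topology MeasureTheory Pool.MP_500150_lc.H8

namespace I_BLK

theorem co (n : ℕ) (u : ℝ) (h1 : -2 ≤ u) (h2 : u ≤ 2) : ∃ a : ℕ,
    ((a : ℝ) + 1) / 2 ^ n - 4 ≤ u ∧ u < ((a : ℝ) + 2) / 2 ^ n - 4 ∧ a + 3 ≤ 8 * 2 ^ n := by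
  have hp : (0 : ℝ) < 2 ^ n := by positivity
  have hp1 : (1 : ℝ) ≤ 2 ^ n := one_le_pow₀ (by norm_num)
  have hpos : 0 ≤ (u + 4) * 2 ^ n := mul_nonneg (by linarith) hp.le
  have hm2 : 2 ≤ ⌊(u + 4) * 2 ^ n⌋₊ := by
    apply Nat.le_floor
    push_cast
    nlinarith
  have hf1 := Nat.floor_le hpos
  have hf2 := Nat.lt_floor_add_one ((u + 4) * 2 ^ n)
  obtain ⟨a, ha⟩ : ∃ a : ℕ, ⌊(u + 4) * 2 ^ n⌋₊ = a + 1 := ⟨_, (Nat.sub_add_cancel (by omega)).symm⟩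
  rw [ha] at hf1 hf2
  push_cast at hf1 hf2
  refine ⟨a, ?_, ?_, ?_⟩
  · rw [sub_le_iff_le_add, div_le_iff₀ hp]
    linarith
  · rw [lt_sub_iff_add_lt, lt_div_iff₀ hp]
    linarith
  · have h3 : ((a : ℝ) + 1) ≤ 6 * 2 ^ n := by nlinarith
    have h4 : ((a + 1 : ℕ) : ℝ) ≤ ((6 * 2 ^ n : ℕ) : ℝ) := by
      push_cast
      exact h3
    have h5 : a + 1 ≤ 6 * 2 ^ n := by exact_mod_cast h4
    have h6 : 1 ≤ 2 ^ n := Nat.one_le_two_pow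
    omega

theorem sub (n L a x : ℕ) (v : ℝ) (hL : n ≤ L) (h1 : a * 2 ^ (L - n) ≤ x)
    (h2 : x < (a + 3) * 2 ^ (L - n)) (h3 : (x : ℝ) / 2 ^ L - 4 ≤ v)
    (h4 : v ≤ ((x : ℝ) + 1) / 2 ^ L - 4) :
    (a : ℝ) / 2 ^ n - 4 ≤ v ∧ v ≤ ((a : ℝ) + 3) / 2 ^ n - 4 := by
  obtain ⟨k, rfl⟩ := Nat.exists_eq_add_of_le hL
  rw [Nat.add_sub_cancel_left] at h1 h2
  have hn : (0 : ℝ) < 2 ^ n := by positivity
  have hk : (0 : ℝ) < 2 ^ k := by positivity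
  have hnk : (0 : ℝ) < 2 ^ (n + k) := by positivity
  have h1' : (a : ℝ) * 2 ^ k ≤ x := by exact_mod_cast h1
  have h2' : (x : ℝ) + 1 ≤ ((a : ℝ) + 3) * 2 ^ k := by exact_mod_cast h2
  have e1 : (a : ℝ) / 2 ^ n ≤ (x : ℝ) / 2 ^ (n + k) := by
    rw [div_le_div_iff₀ hn hnk, pow_add]
    nlinarith
  have e2 : ((x : ℝ) + 1) / 2 ^ (n + k) ≤ ((a : ℝ) + 3) / 2 ^ n := by
    rw [div_le_div_iff₀ hnk hn, pow_add]
    nlinarith
  exact ⟨by linarith, by linarith⟩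

theorem lvl (n L a : ℕ) (v : ℝ) (hL : n ≤ L) (h1 : (a : ℝ) / 2 ^ n - 4 < v)
    (h2 : v < ((a : ℝ) + 3) / 2 ^ n - 4) : ∃ x : ℕ, a * 2 ^ (L - n) ≤ x ∧
    x < (a + 3) * 2 ^ (L - n) ∧ (x : ℝ) / 2 ^ L - 4 ≤ v ∧ v ≤ ((x : ℝ) + 1) / 2 ^ L - 4 := by
  obtain ⟨k, rfl⟩ := Nat.exists_eq_add_of_le hL
  rw [Nat.add_sub_cancel_left]
  have hn : (0 : ℝ) < 2 ^ n := by positivity
  have hk : (0 : ℝ) < 2 ^ k := by positivity
  have hnk : (0 : ℝ) < 2 ^ (n + k) := by positivity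
  have h1' : (a : ℝ) < (v + 4) * 2 ^ n := by
    rw [← div_lt_iff₀ hn]
    linarith
  have h2' : (v + 4) * 2 ^ n < (a : ℝ) + 3 := by
    rw [← lt_div_iff₀ hn]
    linarith
  have h1'' : (a : ℝ) * 2 ^ k < (v + 4) * 2 ^ (n + k) := by
    rw [pow_add, ← mul_assoc]
    exact mul_lt_mul_of_pos_right h1' hk
  have h2'' : (v + 4) * 2 ^ (n + k) < ((a : ℝ) + 3) * 2 ^ k := by
    rw [pow_add, ← mul_assoc]
    exact mul_lt_mul_of_pos_right h2' hk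
  have hpos : 0 ≤ (v + 4) * 2 ^ (n + k) := le_trans (by positivity) h1''.le
  have hf1 := Nat.floor_le hpos
  have hf2 := Nat.lt_floor_add_one ((v + 4) * 2 ^ (n + k))
  refine ⟨⌊(v + 4) * 2 ^ (n + k)⌋₊, ?_, ?_, ?_, ?_⟩
  · apply Nat.le_floor
    push_cast
    exact h1''.le
  · have : ((⌊(v + 4) * 2 ^ (n + k)⌋₊ : ℕ) : ℝ) < (((a + 3) * 2 ^ k : ℕ) : ℝ) := by
      push_cast
      exact lt_of_le_of_lt hf1 h2''
    exact_mod_cast this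
  · rw [sub_le_iff_le_add, div_le_iff₀ hnk]
    exact hf1
  · rw [le_sub_iff_add_le, le_div_iff₀ hnk]
    exact hf2.le

theorem isOpen_Box (n a b : ℕ) : IsOpen (Box n a b) := by
  have h1 : IsOpen {z : ℂ | (a : ℝ) / 2 ^ n - 4 < z.re} :=
    isOpen_lt continuous_const Complex.continuous_re
  have h2 : IsOpen {z : ℂ | z.re < ((a : ℝ) + 3) / 2 ^ n - 4} :=
    isOpen_lt Complex.continuous_re continuous_const
  have h3 : IsOpen {z : ℂ | (b : ℝ) / 2 ^ n - 4 < z.im} :=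
    isOpen_lt continuous_const Complex.continuous_im
  have h4 : IsOpen {z : ℂ | z.im < ((b : ℝ) + 3) / 2 ^ n - 4} :=
    isOpen_lt Complex.continuous_im continuous_const
  exact h1.inter (h2.inter (h3.inter h4))

end I_BLK

open I_BLK in
theorem BLK_pf : S_BLK := by
  intro U hU c hc hcM
  obtain ⟨r, hr, hball⟩ := Metric.isOpen_iff.mp hU c hc
  obtain ⟨n, hn⟩ := exists_pow_lt_of_lt_one (show (0 : ℝ) < r / 5 by positivity)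
    (show (1 / 2 : ℝ) < 1 by norm_num)
  have hp : (0 : ℝ) < 2 ^ n := by positivity
  have hn' : 5 / 2 ^ n < r := by
    rw [one_div, inv_pow] at hn
    have : 5 / (2 : ℝ) ^ n = 5 * (2 ^ n)⁻¹ := div_eq_mul_inv _ _
    rw [this]
    linarith
  have hc2 : ‖c‖ ≤ 2 := by
    have h1 := mem_MM.mp hcM 1
    have e : P 1 c = c := by
      simp [P]
    rwa [e] at h1
  have hre := abs_le.mp ((Complex.abs_re_le_norm c).trans hc2)
  have him := abs_le.mp ((Complex.abs_im_le_norm c).trans hc2)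
  obtain ⟨a, ha1, ha2, ha3⟩ := co n c.re hre.1 hre.2
  obtain ⟨b, hb1, hb2, hb3⟩ := co n c.im him.1 him.2
  have ex : ∀ a : ℝ, (a + 1) / 2 ^ n = a / 2 ^ n + 1 / 2 ^ n := fun a => add_div _ _ _
  have ex2 : ∀ a : ℝ, (a + 2) / 2 ^ n = a / 2 ^ n + 2 / 2 ^ n := fun a => add_div _ _ _
  have ex3 : ∀ a : ℝ, (a + 3) / 2 ^ n = a / 2 ^ n + 3 / 2 ^ n := fun a => add_div _ _ _
  have ip : (0 : ℝ) < 1 / 2 ^ n := by positivity
  have i2 : (2 : ℝ) / 2 ^ n = 2 * (1 / 2 ^ n) := by ring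
  have i3 : (3 : ℝ) / 2 ^ n = 3 * (1 / 2 ^ n) := by ring
  have i5 : (5 : ℝ) / 2 ^ n = 5 * (1 / 2 ^ n) := by ring
  rw [ex] at ha1 hb1
  rw [ex2, i2] at ha2 hb2
  rw [i5] at hn'
  refine ⟨n, a, b, ⟨by linarith, by rw [ex3, i3]; linarith, by linarith,
    by rw [ex3, i3]; linarith⟩, isOpen_Box n a b, ha3, hb3, ?_, ?_⟩
  · rintro L x y ⟨hL, hx1, hx2, hy1, hy2⟩ z ⟨hz1, hz2, hz3, hz4⟩
    apply hball
    obtain ⟨s1, s2⟩ := sub n L a x z.re hL hx1 hx2 hz1 hz2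
    obtain ⟨s3, s4⟩ := sub n L b y z.im hL hy1 hy2 hz3 hz4
    rw [ex3, i3] at s2 s4
    rw [mem_ball, dist_eq_norm]
    refine (Complex.norm_le_abs_re_add_abs_im (z - c)).trans_lt ?_
    rw [Complex.sub_re, Complex.sub_im]
    have t1 : |z.re - c.re| ≤ 2 * (1 / 2 ^ n) := abs_le.mpr ⟨by linarith, by linarith⟩
    have t2 : |z.im - c.im| ≤ 2 * (1 / 2 ^ n) := abs_le.mpr ⟨by linarith, by linarith⟩
    linarith
  · rintro L z hL ⟨hz1, hz2, hz3, hz4⟩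
    obtain ⟨x, x1, x2, x3, x4⟩ := lvl n L a z.re hL hz1 hz2
    obtain ⟨y, y1, y2, y3, y4⟩ := lvl n L b z.im hL hz3 hz4
    exact ⟨x, y, ⟨hL, x1, x2, y1, y2⟩, x3, x4, y3, y4⟩

end Pool.Agent.Work.MP_500150_lc.LC
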