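import Mathlib
import Pool.Agent.Work.MP_500150_lc.LC.Stmts

set_option autoImplicit false

/-!
Block LC of MP_500150_lc, item BRA: inverse branches along an orbit.
-/

namespace Pool.Agent.Work.MP_500150_lc.LC

open Metric Set Filter Topology MeasureTheory Pool.MP_500150_lc.H8

namespace I_BRA

theorem fi_zero (c z : ℂ) : fi 0 c z = z := rfl

theorem fi_succ (n : ℕ) (c z : ℂ) : fi (n + 1) c z = (fi n c z) ^ 2 + c := by
  simp only [fi, Function.iterate_succ_apply']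

theorem fi_diff (n : ℕ) (c : ℂ) : Differentiable ℂ (fun z => fi n c z) := by
  induction n with
  | zero => exact differentiable_id
  | succ n ih =>
    have h : (fun z => fi (n + 1) c z) = fun z => (fi n c z) ^ 2 + c := by
      funext z
      exact fi_succ n c z
    rw [h]
    exact (ih.pow 2).add_const c

/-- One step. -/
theorem step (c₀ y : ℂ) (hy : y ≠ 0) : ∃ g : ℂ × ℂ → ℂ,
    AnalyticAt ℂ g (c₀, y ^ 2 + c₀) ∧ g (c₀, y ^ 2 + c₀) = y ∧ ∀ q : ℂ × ℂ, (g q) ^ 2 + q.1 = q.2 := by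
  have hy2 : y ^ 2 ≠ 0 := pow_ne_zero 2 hy
  refine ⟨fun q => y * ((q.2 - q.1) / y ^ 2) ^ ((2 : ℕ) : ℂ)⁻¹, ?_, ?_, ?_⟩
  · have hb : AnalyticAt ℂ (fun q : ℂ × ℂ => (q.2 - q.1) / y ^ 2) (c₀, y ^ 2 + c₀) := by
      exact (analyticAt_snd.sub analyticAt_fst).div analyticAt_const hy2
    refine analyticAt_const.mul (hb.cpow analyticAt_const ?_)
    have h1 : ((y ^ 2 + c₀ - c₀) / y ^ 2 : ℂ) = 1 := by
      rw [add_sub_cancel_right, div_self hy2]
    show ((y ^ 2 + c₀ - c₀) / y ^ 2 : ℂ) ∈ Complex.slitPlane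
    rw [h1]
    exact Complex.one_mem_slitPlane
  · show y * ((y ^ 2 + c₀ - c₀) / y ^ 2) ^ ((2 : ℕ) : ℂ)⁻¹ = y
    rw [add_sub_cancel_right, div_self hy2, Complex.one_cpow, mul_one]
  · intro q
    show (y * ((q.2 - q.1) / y ^ 2) ^ ((2 : ℕ) : ℂ)⁻¹) ^ 2 + q.1 = q.2
    rw [mul_pow, Complex.cpow_nat_inv_pow _ two_ne_zero, mul_div_cancel₀ _ hy2]
    ring

theorem germ (c₀ ζ : ℂ) (m : ℕ) (h : ∀ i, i < m → fi i c₀ ζ ≠ 0) :
    ∃ G : ℂ × ℂ → ℂ, AnalyticAt ℂ G (c₀, fi m c₀ ζ) ∧ G (c₀, fi m c₀ ζ) = ζ ∧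
      ∀ᶠ q in 𝓝 (c₀, fi m c₀ ζ), fi m q.1 (G q) = q.2 := by
  induction m with
  | zero =>
    exact ⟨fun q => q.2, analyticAt_snd, rfl, Eventually.of_forall fun q => rfl⟩
  | succ m ih =>
    obtain ⟨G, h1, h2, h3⟩ := ih fun i hi => h i (by omega)
    obtain ⟨g, g1, g2, g3⟩ := step c₀ (fi m c₀ ζ) (h m (by omega))
    have hs : fi (m + 1) c₀ ζ = (fi m c₀ ζ) ^ 2 + c₀ := fi_succ m c₀ ζ
    rw [hs]
    have hpair : AnalyticAt ℂ (fun q : ℂ × ℂ => (q.1, g q)) (c₀, (fi m c₀ ζ) ^ 2 + c₀) :=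
      analyticAt_fst.prod g1
    refine ⟨fun q => G (q.1, g q), ?_, ?_, ?_⟩
    · exact AnalyticAt.fun_comp (g := G) (by rw [g2]; exact h1) hpair
    · show G (c₀, g (c₀, (fi m c₀ ζ) ^ 2 + c₀)) = ζ
      rw [g2, h2]
    · have ht : Tendsto (fun q : ℂ × ℂ => (q.1, g q)) (𝓝 (c₀, (fi m c₀ ζ) ^ 2 + c₀))
          (𝓝 (c₀, fi m c₀ ζ)) := by
        have := hpair.continuousAt.tendsto
        rwa [g2] at this
      filter_upwards [ht.eventually h3] with q hq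
      rw [fi_succ, hq, g3]

end I_BRA

open I_BRA

theorem BRA_pf : S_BRA := by
  intro c₀ ζ m h
  obtain ⟨G, h1, h2, h3⟩ := germ c₀ ζ m h
  have h4 : ∀ᶠ q in 𝓝 (c₀, fi m c₀ ζ), AnalyticAt ℂ G q ∧ fi m q.1 (G q) = q.2 :=
    h1.eventually_analyticAt.and h3
  obtain ⟨ρ, hρ, hball⟩ := Metric.eventually_nhds_iff_ball.1 h4
  have hmem : ∀ c ∈ ball c₀ ρ, ∀ x ∈ ball (fi m c₀ ζ) ρ,
      AnalyticAt ℂ G (c, x) ∧ fi m c (G (c, x)) = x := by
    intro c hc x hx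
    refine hball (c, x) ?_
    rw [← ball_prod_same]
    exact ⟨hc, hx⟩
  refine ⟨ρ, G, hρ, fun q hq => (hmem q.1 hq.1 q.2 hq.2).1, h2, fun c hc x hx => ?_⟩
  refine ⟨(hmem c hc x hx).2, fun hder => ?_⟩
  have hd : DifferentiableAt ℂ (fun x => G (c, x)) x := by
    have h5 : DifferentiableAt ℂ G (c, x) := (hmem c hc x hx).1.differentiableAt
    exact h5.comp x ((differentiableAt_const c).prodMk differentiableAt_id)
  have h5 : HasDerivAt (fun x => G (c, x)) 0 x := by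
    rw [← hder]
    exact hd.hasDerivAt
  have h6 : HasDerivAt (fun z => fi m c z) (deriv (fun z => fi m c z) (G (c, x))) (G (c, x)) :=
    ((fi_diff m c) _).hasDerivAt
  have h7 := h6.comp x h5
  have h8 : (fun x' : ℂ => x') =ᶠ[𝓝 x] (fun z => fi m c z) ∘ (fun x => G (c, x)) := by
    filter_upwards [isOpen_ball.mem_nhds hx] with x' hx'
    exact ((hmem c hc x' hx').2).symm
  have h9 := (h7.congr_of_eventuallyEq h8).unique (hasDerivAt_id x)
  simp at h9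

end Pool.Agent.Work.MP_500150_lc.LC
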