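import Mathlib
import Pool.Agent.Work.MP_500150_lc.LC.Stmts

set_option autoImplicit false

/-!
# CHN: homoclinic points
-/

namespace Pool.Agent.Work.MP_500150_lc.LC

open Metric Set Filter Topology MeasureTheory Pool.MP_500150_lc.H8

namespace I_CHN

theorem fi_zero (c z : ℂ) : fi 0 c z = z := rfl

theorem fi_succ (n : ℕ) (c z : ℂ) : fi (n + 1) c z = (fi n c z) ^ 2 + c := by
  unfold fi
  rw [Function.iterate_succ_apply']

theorem fi_add (m n : ℕ) (c z : ℂ) : fi (m + n) c z = fi m c (fi n c z) := by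
  unfold fi
  rw [Function.iterate_add_apply]

theorem fi_fix {c β : ℂ} (h : β ^ 2 + c = β) (n : ℕ) : fi n c β = β := by
  induction n with
  | zero => rfl
  | succ n ih => rw [fi_succ, ih, h]

theorem diff_fi (n : ℕ) (c : ℂ) : Differentiable ℂ (fi n c) := by
  induction n with
  | zero => exact differentiable_id
  | succ n ih =>
    have : fi (n + 1) c = fun z => (fi n c z) ^ 2 + c := funext fun z => fi_succ n c z
    rw [this]
    exact (ih.pow 2).add_const c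

theorem upper_fi {c z : ℂ} (hc : ‖c‖ ≤ 2) (hz : ‖z‖ ≤ 3) (n : ℕ) :
    ‖fi n c z‖ ≤ 4 ^ (2 ^ n) - 1 := by
  induction n with
  | zero =>
    rw [fi_zero]
    norm_num
    linarith
  | succ n ih =>
    rw [fi_succ]
    have h0 : (0 : ℝ) ≤ ‖fi n c z‖ := norm_nonneg _
    have h1 : ‖(fi n c z) ^ 2 + c‖ ≤ ‖fi n c z‖ ^ 2 + 2 := by
      refine (norm_add_le _ _).trans ?_
      rw [norm_pow]
      linarith
    have h2 : (4 : ℝ) ^ (2 ^ (n + 1)) = (4 ^ (2 ^ n)) ^ 2 := by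
      rw [← pow_mul, pow_succ]
    have h3 : (4 : ℝ) ≤ 4 ^ (2 ^ n) := by
      calc (4 : ℝ) = 4 ^ 1 := by norm_num
        _ ≤ 4 ^ (2 ^ n) := pow_le_pow_right₀ (by norm_num) (Nat.one_le_two_pow)
    rw [h2]
    nlinarith

theorem upper_exp {c z : ℂ} (hc : ‖c‖ ≤ 2) (hz : ‖z‖ ≤ 3) (n : ℕ) :
    ‖fi n c z‖ ≤ Real.exp (2 * 2 ^ n) := by
  have h1 := upper_fi hc hz n
  have h2 : (4 : ℝ) ≤ Real.exp 2 := by
    have := Real.add_one_le_exp (1 : ℝ)
    have h3 : Real.exp 2 = Real.exp 1 * Real.exp 1 := by rw [← Real.exp_add]; norm_num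
    rw [h3]
    nlinarith
  have h4 : Real.exp (2 * 2 ^ n) = (Real.exp 2) ^ (2 ^ n) := by
    rw [← Real.exp_nat_mul]
    congr 1
    push_cast
    ring
  rw [h4]
  have h5 : (4 : ℝ) ^ (2 ^ n) ≤ (Real.exp 2) ^ (2 ^ n) := pow_le_pow_left₀ (by norm_num) h2 _
  linarith

/-- closeness of the orbit of a small point to the critical orbit -/
theorem close_crit {c y : ℂ} (hM : ∀ n, ‖P n c‖ ≤ 2) (d : ℕ) (hy : (5 : ℝ) ^ d * ‖y‖ ^ 2 ≤ 1) :
    ‖fi (d + 1) c y - P (d + 1) c‖ ≤ 5 ^ d * ‖y‖ ^ 2 := by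
  induction d with
  | zero =>
    rw [fi_succ, fi_zero, P_one]
    simp
  | succ d ih =>
    have h1 : (5 : ℝ) ^ d * ‖y‖ ^ 2 ≤ 5 ^ (d + 1) * ‖y‖ ^ 2 := by
      apply mul_le_mul_of_nonneg_right _ (by positivity)
      exact pow_le_pow_right₀ (by norm_num) (Nat.le_succ d)
    have ih' := ih (h1.trans hy)
    set e := fi (d + 1) c y - P (d + 1) c with he
    have h2 : fi (d + 1 + 1) c y - P (d + 1 + 1) c = e * (e + 2 * P (d + 1) c) := by
      rw [fi_succ, P_succ, he]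
      ring
    rw [h2, norm_mul]
    have h3 : ‖e + 2 * P (d + 1) c‖ ≤ 5 := by
      refine (norm_add_le _ _).trans ?_
      rw [norm_mul]
      have := hM (d + 1)
      have h4 : ‖(2 : ℂ)‖ = 2 := by norm_num
      rw [h4]
      have h5 : ‖e‖ ≤ 1 := ih'.trans (h1.trans hy)
      linarith
    calc ‖e‖ * ‖e + 2 * P (d + 1) c‖ ≤ (5 ^ d * ‖y‖ ^ 2) * 5 :=
          mul_le_mul ih' h3 (norm_nonneg _) (by positivity)
      _ = 5 ^ (d + 1) * ‖y‖ ^ 2 := by ring

end I_CHN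

open I_CHN in
theorem CHN_pf (hBET : S_BET) (hMBD : S_MBD) (hGRZ : S_GRZ) (hREP : S_REP) (hND : S_ND) :
    S_CHN := by
  intro c₀ l hMis r hr
  obtain ⟨hfix, hmul, -, -⟩ := hBET
  obtain ⟨hMM, hc₀, hβ, hPne, -⟩ := hMBD c₀ l hMis
  have hM : ∀ n, ‖P n c₀‖ ≤ 2 := mem_MM.1 hMM
  have hf : bet c₀ ^ 2 + c₀ = bet c₀ := hfix c₀
  have hmu : 1 < ‖2 * bet c₀‖ := (hmul c₀ hMis.slit).1
  have hβ2 : 1 / 2 < ‖bet c₀‖ := by
    rw [norm_mul] at hmu
    have h4 : ‖(2 : ℂ)‖ = 2 := by norm_num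
    rw [h4] at hmu
    linarith
  set β := bet c₀ with hβdef
  set r' := min r (1 / 2) with hr'
  have hr'0 : 0 < r' := lt_min hr (by norm_num)
  have hr'1 : r' ≤ 1 / 2 := min_le_right _ _
  have hr'2 : r' ≤ r := min_le_left _ _
  -- a zero exists
  have key : ∃ x ∈ ball β r', ∃ k, fi k c₀ x = 0 := by
    by_contra hno
    push Not at hno
    set R := r' / 4 with hR
    have hR0 : 0 < R := by positivity
    have h4R : 4 * R = r' := by rw [hR]; ring
    obtain ⟨x₁, hx₁, j, hj⟩ := hREP c₀ β hf hmu R hR0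
    have hx₁ne : x₁ ≠ β := by
      rintro rfl
      rw [fi_fix hf] at hj
      linarith
    obtain ⟨g, hg, hgn⟩ := hGRZ c₀ (fi j c₀ x₁) hc₀ hj
    have hg' : 0 < g / 2 ^ j := by positivity
    have hball3 : ∀ x ∈ ball β (4 * R), ‖x‖ ≤ 3 := by
      intro x hx
      rw [mem_ball, dist_eq_norm] at hx
      have : ‖x‖ ≤ ‖x - β‖ + ‖β‖ := by
        calc ‖x‖ = ‖(x - β) + β‖ := by rw [sub_add_cancel]
          _ ≤ _ := norm_add_le _ _
      rw [h4R] at hx
      linarith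
    obtain ⟨η, C', hη, hC', M, k₂, hfin⟩ := hND β x₁ R 2 (g / 2 ^ j) (fun k => fi k c₀) j hR0
      (by norm_num) hg' hx₁ hx₁ne (fun k => (diff_fi k c₀).differentiableOn)
      (fun k x hx => ⟨hno x (by rwa [h4R] at hx) k, upper_exp hc₀ (hball3 x hx) k⟩)
      (fun k => by
        change ‖fi k c₀ β‖ ≤ _
        rw [fi_fix hf]
        have := Real.add_one_le_exp (2 : ℝ)
        linarith)
      (fun k hk => by
        obtain ⟨m, rfl⟩ := Nat.exists_eq_add_of_le hk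
        change _ ≤ ‖fi (j + m) c₀ x₁‖
        rw [add_comm j m, fi_add]
        have := hgn m
        have h5 : g / 2 ^ j * 2 ^ (m + j) = g * 2 ^ m := by
          rw [pow_add]
          field_simp
        rw [h5]
        exact this)
    -- the lower bound for the critical orbit
    obtain ⟨δ, hδ, hδM⟩ : ∃ δ : ℝ, 0 < δ ∧ ∀ d, 1 ≤ d → d ≤ M → δ ≤ ‖P d c₀‖ := by
      clear hfin
      induction M with
      | zero => exact ⟨1, one_pos, fun d h1 h2 => by omega⟩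
      | succ M ih =>
        obtain ⟨δ, hδ, h⟩ := ih
        have hp : 0 < ‖P (M + 1) c₀‖ := norm_pos_iff.2 (hPne (M + 1) (by omega))
        refine ⟨min δ ‖P (M + 1) c₀‖, lt_min hδ hp, fun d h1 h2 => ?_⟩
        rcases Nat.lt_or_ge d (M + 1) with h3 | h3
        · exact (min_le_left _ _).trans (h d h1 (by omega))
        · have : d = M + 1 := by omega
          rw [this]
          exact min_le_right _ _
    -- the choice of k
    have hlim : Tendsto (fun k : ℕ => (1 + (5 : ℝ) ^ M) * Real.exp (-η * 2 ^ k)) atTop (𝓝 0) := by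
      have h1 : Tendsto (fun k : ℕ => -η * (2 : ℝ) ^ k) atTop atBot := by
        have := tendsto_pow_atTop_atTop_of_one_lt (show (1 : ℝ) < 2 by norm_num)
        exact this.const_mul_atTop_of_neg (by linarith)
      have h2 := (Real.tendsto_exp_atBot.comp h1).const_mul (1 + (5 : ℝ) ^ M)
      simpa using h2
    have hev : ∀ᶠ k : ℕ in atTop, (1 + (5 : ℝ) ^ M) * Real.exp (-η * 2 ^ k) < min δ 1 :=
      hlim.eventually_lt_const (lt_min hδ one_pos)
    obtain ⟨k, hk, hk₂⟩ := (hev.and (eventually_ge_atTop k₂)).exists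
    obtain ⟨a, b, hab, hbM, x, -, hxa, hxb, -⟩ := hfin (fun i => k + i)
      (fun i i' h => Nat.add_lt_add_left h k) (by simpa using hk₂)
    set E := Real.exp (-η * 2 ^ k) with hE
    have hE0 : 0 < E := Real.exp_pos _
    have hmono : ∀ i : ℕ, Real.exp (-η * 2 ^ (k + i)) ≤ E := by
      intro i
      apply Real.exp_le_exp.2
      have h1 : (2 : ℝ) ^ k ≤ 2 ^ (k + i) := pow_le_pow_right₀ (by norm_num) (Nat.le_add_right _ _)
      nlinarith
    have hy : ‖fi (k + a) c₀ x‖ ≤ E := hxa.trans (hmono a)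
    have hy' : ‖fi (k + b) c₀ x‖ ≤ E := hxb.trans (hmono b)
    obtain ⟨d, hd⟩ : ∃ d, b = a + (d + 1) := ⟨b - a - 1, by omega⟩
    have hdM : d + 1 ≤ M := by omega
    have hE1 : E < 1 := by
      have h1 : (1 + (5 : ℝ) ^ M) * E < 1 := hk.trans_le (min_le_right _ _)
      have h2 : (0 : ℝ) < 5 ^ M := by positivity
      nlinarith
    have hpow : (5 : ℝ) ^ d ≤ 5 ^ M := pow_le_pow_right₀ (by norm_num) (by omega)
    have hsq : ‖fi (k + a) c₀ x‖ ^ 2 ≤ E := by
      have h0 : (0 : ℝ) ≤ ‖fi (k + a) c₀ x‖ := norm_nonneg _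
      nlinarith
    have hbig : (5 : ℝ) ^ d * ‖fi (k + a) c₀ x‖ ^ 2 ≤ 5 ^ M * E :=
      mul_le_mul hpow hsq (by positivity) (by positivity)
    have h5E : (5 : ℝ) ^ M * E < 1 := by
      have h1 : (1 + (5 : ℝ) ^ M) * E < 1 := hk.trans_le (min_le_right _ _)
      nlinarith
    have hcl := close_crit hM d (y := fi (k + a) c₀ x) (hbig.trans h5E.le)
    have hcomp : fi (k + b) c₀ x = fi (d + 1) c₀ (fi (k + a) c₀ x) := by
      rw [← fi_add]
      congr 1
      omega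
    rw [← hcomp] at hcl
    have hPd : δ ≤ ‖P (d + 1) c₀‖ := hδM (d + 1) (by omega) hdM
    have hfinal : ‖P (d + 1) c₀‖ ≤ E + 5 ^ M * E := by
      calc ‖P (d + 1) c₀‖ = ‖fi (k + b) c₀ x - (fi (k + b) c₀ x - P (d + 1) c₀)‖ := by
            rw [sub_sub_cancel]
        _ ≤ ‖fi (k + b) c₀ x‖ + ‖fi (k + b) c₀ x - P (d + 1) c₀‖ := norm_sub_le _ _
        _ ≤ E + 5 ^ M * E := add_le_add hy' (hcl.trans hbig)
    have h1 : (1 + (5 : ℝ) ^ M) * E < δ := hk.trans_le (min_le_left _ _)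
    nlinarith
  obtain ⟨x, hx, hex⟩ := key
  classical
  refine ⟨x, ball_subset_ball hr'2 hx, Nat.find hex, ?_, Nat.find_spec hex, fun i hi =>
    Nat.find_min hex hi⟩
  rw [Nat.one_le_iff_ne_zero]
  intro h0
  have h1 := Nat.find_spec hex
  rw [h0, fi_zero] at h1
  rw [h1, mem_ball, dist_eq_norm, zero_sub, norm_neg] at hx
  linarith

end Pool.Agent.Work.MP_500150_lc.LC
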