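import Mathlib
import Pool.Agent.Work.MP_500150_lc.LC.StmtsC

/-!
# Locality of the computability of the Mandelbrot set: item CNF (confinement)
-/

set_option autoImplicit false

namespace Pool.Agent.Work.MP_500150_lc.LC

open Metric Set Filter Topology MeasureTheory Pool.MP_500150_lc.H8

theorem CNF_pf (hOXZ : S_OXZ) : S_CNF := by
  obtain ⟨-, -, -, hJs⟩ := hOXZ
  intro w J N hF hN q hq i hi1 hiN
  obtain ⟨hlam, hs, hsmall, -, hbig⟩ := hq
  have hw : 20 ≤ w := hF.big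
  have hXi : ‖OX J q.2 q.1 i‖ < w / 2 := hsmall i hi1 hiN
  have hXi1 : ‖OX J q.2 q.1 (i + 1)‖ < 3 * w / 2 := by
    rcases Nat.lt_or_ge (i + 1) N with h | h
    · have := hsmall (i + 1) (by omega) h
      linarith
    · have e : i + 1 = N := by omega
      rw [e]
      exact hbig
  have hJ := hJs w J hF q.2 q.1 (OX J q.2 q.1 i) hs hlam (by linarith)
  have hrec : OX J q.2 q.1 (i + 1) = q.1 + (Js J q.2 q.1 (OX J q.2 q.1 i)) ^ 2 := rfl
  by_contra hcon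
  push Not at hcon
  have h1 : ‖Js J q.2 q.1 (OX J q.2 q.1 i)‖ ^ 2 ≤ ‖OX J q.2 q.1 (i + 1)‖ + ‖q.1‖ := by
    have e : (Js J q.2 q.1 (OX J q.2 q.1 i)) ^ 2 = OX J q.2 q.1 (i + 1) - q.1 := by
      rw [hrec]
      ring
    rw [← norm_pow, e]
    exact norm_sub_le _ _
  have h2 : ‖OX J q.2 q.1 i‖ - ‖Js J q.2 q.1 (OX J q.2 q.1 i)‖ ≤
      3 / 100 * ‖OX J q.2 q.1 i‖ := by
    refine le_trans ?_ hJ
    rw [← norm_neg (Js J q.2 q.1 (OX J q.2 q.1 i) - OX J q.2 q.1 i), neg_sub]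
    exact norm_sub_norm_le _ _
  have h3 : 97 / 100 * (33 / 100 * w) ≤ ‖Js J q.2 q.1 (OX J q.2 q.1 i)‖ := by linarith
  have h4 : (97 / 100 * (33 / 100 * w)) ^ 2 ≤ ‖Js J q.2 q.1 (OX J q.2 q.1 i)‖ ^ 2 :=
    pow_le_pow_left₀ (by positivity) h3 2
  nlinarith

end Pool.Agent.Work.MP_500150_lc.LC
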