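import Mathlib
import Pool.Agent.Work.MP_500150_lc.LC.StmtsC

/-!
# Block [500150 LC], item COE: bound for a Taylor coefficient
-/

set_option autoImplicit false

namespace Pool.Agent.Work.MP_500150_lc.LC

open Metric Set Filter Topology MeasureTheory Pool.MP_500150_lc.H8

theorem COE_pf : S_COE := by
  intro φ ε B m e hε hφ hB hlim
  classical
  set g : ℂ → ℂ := Function.update (fun t => φ t / t ^ m) 0 e with hg
  have hne : ∀ t, t ≠ 0 → g t = φ t / t ^ m := fun t ht => by
    rw [hg, Function.update_of_ne ht]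
  have hg0 : g 0 = e := by rw [hg, Function.update_self]
  have hopen : IsOpen (ball (0 : ℂ) ε) := isOpen_ball
  have h0 : (0 : ℂ) ∈ ball (0 : ℂ) ε := mem_ball_self hε
  have hcont : ContinuousAt g 0 := by
    rw [hg, continuousAt_update_same]
    exact hlim
  have hdiff : DifferentiableOn ℂ g (ball (0 : ℂ) ε) := by
    refine (Complex.differentiableOn_compl_singleton_and_continuousAt_iff
      (hopen.mem_nhds h0)).1 ⟨?_, hcont⟩
    have h1 : DifferentiableOn ℂ (fun t => φ t / t ^ m) (ball (0 : ℂ) ε \ {0}) := by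
      refine (hφ.mono diff_subset).div (differentiable_pow m).differentiableOn ?_
      intro t ht
      exact pow_ne_zero _ ht.2
    exact h1.congr fun t ht => hne t ht.2
  have hr : 0 < ε / 2 := half_pos hε
  have hsub : closedBall (0 : ℂ) (ε / 2) ⊆ ball (0 : ℂ) ε := closedBall_subset_ball (half_lt_self hε)
  have hdc : DiffContOnCl ℂ g (ball (0 : ℂ) (ε / 2)) :=
    (hdiff.mono hsub).diffContOnCl_ball subset_rfl
  have h2 := Complex.norm_le_of_forall_mem_frontier_norm_le (U := ball (0 : ℂ) (ε / 2))
    isBounded_ball hdc (C := B * (2 / ε) ^ m) ?_ (z := 0) (subset_closure (mem_ball_self hr))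
  · rwa [hg0] at h2
  · intro t ht
    rw [frontier_ball _ hr.ne', mem_sphere_zero_iff_norm] at ht
    have ht0 : t ≠ 0 := by
      intro h
      rw [h, norm_zero] at ht
      exact hr.ne ht
    rw [hne t ht0, norm_div, norm_pow, ht, div_eq_mul_inv, ← inv_pow, inv_div]
    refine mul_le_mul_of_nonneg_right (hB t ?_) (by positivity)
    apply hsub
    rw [mem_closedBall_zero_iff, ht]

end Pool.Agent.Work.MP_500150_lc.LC
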