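import Mathlib
import Pool.Agent.Work.MP_500150_lc.LC.Stmts

set_option autoImplicit false

/-! Item COP: there are small copies near a Misiurewicz parameter. -/

namespace Pool.Agent.Work.MP_500150_lc.LC

open Metric Set Filter Topology MeasureTheory Pool.MP_500150_lc.H8

namespace I_COP

/-- bounds for the scales -/
theorem scales {c₀ : ℂ} {ρ C τ : ℝ} {m₀ : ℕ} {D : ℂ → ℂ} {U : ℕ → ℂ × ℂ → ℂ}
    (h : VK c₀ ρ C τ m₀ D U) (hb : ‖bet c₀‖ ≤ 2) {K : ℝ} (hK : 4 * C ^ 2 ≤ K) (n : ℕ) :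
    AU U n c₀ ≠ 0 ∧ ‖AU U n c₀‖ ≤ K / τ ^ n ∧ ‖AU U n c₀‖ ≤ K * ‖AU U (n + 1) c₀‖ ∧
      1 / K ^ (n + 1) ≤ ‖AU U n c₀‖ := by
  have hρ := h.rho
  have hC := h.one_le
  have hτ := h.tau
  have hc : c₀ ∈ ball c₀ ρ := mem_ball_self hρ
  have hC0 : (0 : ℝ) < C := by linarith
  have hCK : C ≤ K := by nlinarith
  set m : ℝ := ‖2 * bet c₀‖ with hm
  have hm1 : τ ≤ m := (h.slit c₀ hc).2
  have hm0 : 0 < m := by linarith
  have hm4 : m ≤ 4 := by
    rw [hm, norm_mul, Complex.norm_ofNat]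
    linarith
  have lo : ∀ k, 1 / C ≤ m ^ k * ‖AU U k c₀‖ := by
    intro k
    have := (h.der k c₀ hc).1
    rwa [norm_mul, norm_pow] at this
  have hi : ∀ k, m ^ k * ‖AU U k c₀‖ ≤ C := by
    intro k
    have := (h.der k c₀ hc).2
    rwa [norm_mul, norm_pow] at this
  have hpos : ∀ k, 0 < ‖AU U k c₀‖ := by
    intro k
    have h1 : 0 < m ^ k * ‖AU U k c₀‖ := lt_of_lt_of_le (by positivity) (lo k)
    exact pos_of_mul_pos_right h1 (by positivity)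
  have hK1 : 1 ≤ K := by linarith
  refine ⟨norm_pos_iff.1 (hpos n), ?_, ?_, ?_⟩
  · rw [le_div_iff₀ (by positivity)]
    have h1 : τ ^ n ≤ m ^ n := pow_le_pow_left₀ (by linarith) hm1 n
    calc ‖AU U n c₀‖ * τ ^ n ≤ ‖AU U n c₀‖ * m ^ n :=
          mul_le_mul_of_nonneg_left h1 (norm_nonneg _)
      _ = m ^ n * ‖AU U n c₀‖ := mul_comm _ _
      _ ≤ C := hi n
      _ ≤ K := hCK
  · have h1 := hi n
    have h2 := lo (n + 1)
    have hmn : 0 < m ^ n := by positivity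
    have h3 : m ^ n * ‖AU U n c₀‖ ≤ C ^ 2 * (m ^ (n + 1) * ‖AU U (n + 1) c₀‖) := by
      calc m ^ n * ‖AU U n c₀‖ ≤ C := h1
        _ = C ^ 2 * (1 / C) := by field_simp
        _ ≤ C ^ 2 * (m ^ (n + 1) * ‖AU U (n + 1) c₀‖) :=
          mul_le_mul_of_nonneg_left h2 (by positivity)
    have h4 : m ^ n * ‖AU U n c₀‖ ≤ m ^ n * (C ^ 2 * m * ‖AU U (n + 1) c₀‖) := by
      calc m ^ n * ‖AU U n c₀‖ ≤ C ^ 2 * (m ^ (n + 1) * ‖AU U (n + 1) c₀‖) := h3
        _ = m ^ n * (C ^ 2 * m * ‖AU U (n + 1) c₀‖) := by ring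
    have h5 := le_of_mul_le_mul_left h4 hmn
    refine h5.trans (mul_le_mul_of_nonneg_right ?_ (norm_nonneg _))
    nlinarith [sq_nonneg C]
  · rw [div_le_iff₀ (by positivity)]
    have h1 := lo n
    have h2 : m ^ n ≤ K ^ n := by
      refine pow_le_pow_left₀ hm0.le ?_ n
      nlinarith
    rw [div_le_iff₀ hC0] at h1
    calc (1 : ℝ) ≤ m ^ n * ‖AU U n c₀‖ * C := h1
      _ = ‖AU U n c₀‖ * (m ^ n * C) := by ring
      _ ≤ ‖AU U n c₀‖ * (K ^ n * K) := by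
        refine mul_le_mul_of_nonneg_left ?_ (norm_nonneg _)
        exact mul_le_mul h2 hCK hC0.le (by positivity)
      _ = ‖AU U n c₀‖ * K ^ (n + 1) := by rw [pow_succ]

end I_COP

open I_COP in
theorem COP_pf (hMBD : S_MBD) (hVKK : S_VKK) (hNRM : S_NRM) (hPAR : S_PAR) (hQDR : S_QDR) :
    S_COP := by
  intro c₀ l hM
  obtain ⟨-, hc2, hb2, -, -⟩ := hMBD c₀ l hM
  obtain ⟨ρ, C₁, τ, m₀, D, U, hVK⟩ := hVKK c₀ l hM
  have hρ := hVK.rho
  have hρ1 := hVK.rho1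
  have hC₁ := hVK.one_le
  have hτ := hVK.tau
  obtain ⟨κP, C₂, hκP, hκP1, hC₂, hpar⟩ := hPAR c₀ ρ C₁ τ m₀ D U (by linarith) hVK
  obtain ⟨C₃, hC₃, hnrm⟩ := hNRM ρ C₁ hρ hρ1 hC₁
  obtain ⟨κQ, hκQ, hqdr⟩ := hQDR (ρ / 2) C₃ (by linarith) (by linarith) hC₃
  -- the constants
  set κ : ℝ := min κP (κQ / 5) with hκ
  have hκ0 : 0 < κ := lt_min hκP (by positivity)
  have hκleP : κ ≤ κP := min_le_left _ _
  have hκleQ : κ ≤ κQ / 5 := min_le_right _ _
  have hκ1 : κ ≤ 1 := hκleP.trans hκP1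
  set C : ℝ := max (4 * C₁ ^ 2) C₂ with hC
  have hC4 : 4 * C₁ ^ 2 ≤ C := le_max_left _ _
  have hCC₂ : C₂ ≤ C := le_max_right _ _
  refine ⟨κ, C, τ, fun n => AU U n c₀, hκ0, hκ1, hC₂.trans hCC₂, hτ,
    fun n => scales hVK hb2 hC4 n, ?_⟩
  intro ε hε
  set e : ℝ := min (min ε (ρ / 4)) (min (1 / 100) (ε / (32 + 8 * C₃))) with he
  have he0 : 0 < e := by
    refine lt_min (lt_min hε (by positivity)) (lt_min (by norm_num) ?_)
    exact div_pos hε (by linarith)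
  have he1 : e ≤ ε := (min_le_left _ _).trans (min_le_left _ _)
  have he2 : e ≤ ρ / 4 := (min_le_left _ _).trans (min_le_right _ _)
  have he3 : e ≤ 1 / 100 := (min_le_right _ _).trans (min_le_left _ _)
  have he4 : e * (32 + 8 * C₃) ≤ ε := by
    have : e ≤ ε / (32 + 8 * C₃) := (min_le_right _ _).trans (min_le_right _ _)
    rwa [le_div_iff₀ (by linarith)] at this
  obtain ⟨n₀, hn₀⟩ := hpar e he0
  refine ⟨ε / 8, by positivity, n₀, fun n hn => ?_⟩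
  obtain ⟨cn, a, hdc, hda, hall⟩ := hn₀ n hn
  set α : ℂ := AU U n c₀ with hα
  have hα0 : 0 < ‖α‖ := norm_pos_iff.2 (scales hVK hb2 hC4 n).1
  have hsub : ball (0 : ℂ) (κ / ‖α‖) ⊆ ball (0 : ℂ) (κP / ‖α‖) :=
    ball_subset_ball (by gcongr)
  -- normalised inverse branches
  have hmu : ∀ c ∈ ball c₀ ρ, (2 * bet c) ^ n ≠ 0 := by
    intro c hc
    have h1 := (hVK.slit c hc).2
    exact pow_ne_zero _ (norm_pos_iff.1 (by linarith))
  obtain ⟨-, hnb⟩ := hnrm c₀ (fun c => (2 * bet c) ^ n) (U n) hmu (hVK.an n)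
    (fun c hc => ⟨fun x hx => hVK.bd n c hc x hx, (hVK.der n c hc).1⟩)
  have hdiff : ∀ c ∈ ball c₀ ρ, DifferentiableOn ℂ (fun x : ℂ =>
      (U n (c, x) - U n (c, 0)) / deriv (fun x => U n (c, x)) 0) (ball 0 (ρ / 2)) := by
    intro c hc x hx
    have hx' : x ∈ ball (0 : ℂ) ρ := ball_subset_ball (by linarith) hx
    have h1 : DifferentiableAt ℂ (U n) (c, x) := (hVK.an n (c, x) ⟨hc, hx'⟩).differentiableAt
    have h2 : DifferentiableAt ℂ (fun x : ℂ => U n (c, x)) x :=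
      h1.comp x ((differentiableAt_const c).prodMk differentiableAt_id)
    exact ((h2.sub_const _).div_const _).differentiableWithinAt
  have key : ∀ lam ∈ ball (0 : ℂ) (κ / ‖α‖), ∀ lam' ∈ ball (0 : ℂ) (κ / ‖α‖),
      ∀ y ∈ ball (0 : ℂ) (4 * κ / ‖α‖), ∀ y' ∈ ball (0 : ℂ) (4 * κ / ‖α‖),
      ∃ x x' : ℂ, fi (m₀ + n) (cn lam) (cn lam + (a lam) ^ 2 * (y - lam)) = x ∧
        fi (m₀ + n) (cn lam') (cn lam' + (a lam') ^ 2 * (y' - lam')) = x' ∧
        ‖x - a lam * y‖ ≤ ‖a lam * y‖ / 100 ∧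
        ‖x - x'‖ ≤ 2 * ‖a lam * y - a lam' * y'‖ + 2 * (C₃ * ‖cn lam - cn lam'‖) := by
    intro lam hlam lam' hlam' y hy y' hy'
    obtain ⟨hcρ, hcn, han, haA, hU0, -⟩ := hall lam (hsub hlam)
    obtain ⟨hcρ', hcn', han', haA', hU0', -⟩ := hall lam' (hsub hlam')
    have hc : cn lam ∈ ball c₀ (ρ / 2) := by
      rw [mem_ball, dist_eq_norm]
      linarith
    have hc' : cn lam' ∈ ball c₀ (ρ / 2) := by
      rw [mem_ball, dist_eq_norm]
      linarith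
    have hsmall : ∀ (lam : ℂ), ‖a lam - α‖ ≤ e * ‖α‖ → ∀ y ∈ ball (0 : ℂ) (4 * κ / ‖α‖),
        ‖a lam * y‖ < κQ := by
      intro lam han y hy
      rw [mem_ball, dist_zero_right, lt_div_iff₀ hα0] at hy
      have h1 : ‖a lam‖ ≤ 101 / 100 * ‖α‖ := by
        have h2 : ‖a lam‖ ≤ ‖a lam - α‖ + ‖α‖ := by
          simpa using norm_add_le (a lam - α) α
        nlinarith
      rw [norm_mul]
      have h3 : ‖a lam‖ * ‖y‖ ≤ 101 / 100 * ‖α‖ * ‖y‖ :=
        mul_le_mul_of_nonneg_right h1 (norm_nonneg _)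
      nlinarith [norm_nonneg y]
    obtain ⟨x, hx, x', hx', hbx, hbx', hxy, hxx⟩ := hqdr
      (fun x : ℂ => (U n (cn lam, x) - U n (cn lam, 0)) / deriv (fun x => U n (cn lam, x)) 0)
      (fun x : ℂ => (U n (cn lam', x) - U n (cn lam', 0)) / deriv (fun x => U n (cn lam', x)) 0)
      (C₃ * ‖cn lam - cn lam'‖) (hdiff _ hcρ) (hdiff _ hcρ')
      (fun x hx => ⟨(hnb _ hc x hx).1, (hnb _ hc' x hx).1, (hnb _ hc x hx).2 _ hc'⟩)
      (a lam * y) (a lam' * y') (hsmall lam han y hy) (hsmall lam' han' y' hy')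
    have hsolve : ∀ (lam y x : ℂ), cn lam ∈ ball c₀ ρ → a lam = AU U n (cn lam) →
        U n (cn lam, 0) = -lam * (a lam) ^ 2 → x ∈ ball (0 : ℂ) (ρ / 2) → a lam ≠ 0 →
        (U n (cn lam, x) - U n (cn lam, 0)) / deriv (fun x => U n (cn lam, x)) 0 = a lam * y →
        fi (m₀ + n) (cn lam) (cn lam + (a lam) ^ 2 * (y - lam)) = x := by
      intro lam y x hcρ haA hU0 hx ha0 hb
      have h1 : deriv (fun x => U n (cn lam, x)) 0 = a lam := haA.symm
      rw [h1, div_eq_iff ha0, hU0] at hb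
      have h2 : (a lam) ^ 2 * (y - lam) = U n (cn lam, x) := by
        linear_combination -hb
      rw [h2]
      exact hVK.ret n _ hcρ x (ball_subset_ball (by linarith) hx)
    have hne : ∀ lam : ℂ, ‖a lam - α‖ ≤ e * ‖α‖ → a lam ≠ 0 := by
      intro lam han h0
      rw [h0, zero_sub, norm_neg] at han
      nlinarith
    exact ⟨x, x', hsolve lam y x hcρ haA hU0 hx (hne lam han) hbx,
      hsolve lam' y' x' hcρ' haA' hU0' hx' (hne lam' han') hbx', hxy, hxx⟩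
  have hscale : ∀ lam ∈ ball (0 : ℂ) (κ / ‖α‖), ‖a lam - α‖ ≤ e * ‖α‖ := fun lam hlam =>
    (hall lam (hsub hlam)).2.2.1
  have hne : ∀ lam ∈ ball (0 : ℂ) (κ / ‖α‖), a lam ≠ 0 := by
    intro lam hlam h0
    have := hscale lam hlam
    rw [h0, zero_sub, norm_neg] at this
    nlinarith
  have h00 : (0 : ℂ) ∈ ball (0 : ℂ) (κ / ‖α‖) := mem_ball_self (by positivity)
  have hJJ : ∀ lam y : ℂ, JJ (m₀ + n + 1) cn a (lam, y) =
      fi (m₀ + n) (cn lam) (cn lam + (a lam) ^ 2 * (y - lam)) / a lam := fun lam y => by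
    simp [JJ]
  refine ⟨m₀ + n + 1, cn, a, ?_, hdc.mono hsub, hda.mono hsub, ?_, ?_, ?_, ?_, ?_⟩
  · omega
  · intro lam hlam
    exact (hall lam (hsub hlam)).2.1.trans he1
  · intro lam hlam
    have := hscale lam hlam
    nlinarith
  · intro lam hlam lam' hlam'
    refine ((hall lam (hsub hlam)).2.2.2.2.2 lam' (hsub hlam')).trans ?_
    refine mul_le_mul_of_nonneg_right ?_ (norm_nonneg _)
    exact pow_le_pow_left₀ (by linarith) hCC₂ _
  · intro lam hlam y hy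
    obtain ⟨x, x', hx, -, hxy, -⟩ := key lam hlam lam hlam y hy y hy
    have ha := hne lam hlam
    have ha' : 0 < ‖a lam‖ := norm_pos_iff.2 ha
    rw [hJJ, hx]
    have h1 : x / a lam - y = (x - a lam * y) / a lam := by
      field_simp
    rw [h1, norm_div, div_le_iff₀ ha']
    rw [norm_mul] at hxy
    linarith
  · intro lam hlam w hw w' hw' hww
    obtain ⟨x, x', hx, hx', -, hxx⟩ := key lam hlam 0 h00 w hw w' hw'
    have ha := hne lam hlam
    have ha0 := hne 0 h00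
    rw [hJJ, hJJ, hx, hx', mul_div_cancel₀ _ ha, mul_div_cancel₀ _ ha0]
    have h1 : ‖cn lam - cn 0‖ ≤ 2 * e := by
      have h2 := (hall lam (hsub hlam)).2.1
      have h3 := (hall 0 (hsub h00)).2.1
      have h4 : cn lam - cn 0 = (cn lam - c₀) - (cn 0 - c₀) := by ring
      rw [h4]
      exact (norm_sub_le _ _).trans (by linarith)
    have h2 : ‖a lam - a 0‖ ≤ 2 * e * ‖α‖ := by
      have h2 := hscale lam hlam
      have h3 := hscale 0 h00
      have h4 : a lam - a 0 = (a lam - α) - (a 0 - α) := by ring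
      rw [h4]
      exact (norm_sub_le _ _).trans (by linarith)
    have h3 : ‖a 0‖ ≤ 2 * ‖α‖ := by
      have h2 : ‖a 0‖ ≤ ‖a 0 - α‖ + ‖α‖ := by
        simpa using norm_add_le (a 0 - α) α
      have h3 := hscale 0 h00
      nlinarith
    have h4 : ‖a lam * w - a 0 * w'‖ ≤ 8 * e + ε / 4 := by
      have h5 : a lam * w - a 0 * w' = (a lam - a 0) * w + a 0 * (w - w') := by ring
      rw [h5]
      refine (norm_add_le _ _).trans ?_
      rw [norm_mul, norm_mul]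
      rw [mem_ball, dist_zero_right, lt_div_iff₀ hα0] at hw
      rw [le_div_iff₀ hα0] at hww
      have h6 : ‖a lam - a 0‖ * ‖w‖ ≤ 2 * e * ‖α‖ * ‖w‖ :=
        mul_le_mul_of_nonneg_right h2 (norm_nonneg _)
      have h7 : ‖a 0‖ * ‖w - w'‖ ≤ 2 * ‖α‖ * ‖w - w'‖ :=
        mul_le_mul_of_nonneg_right h3 (norm_nonneg _)
      have h8 : e * (‖w‖ * ‖α‖) ≤ e * 4 := by
        refine mul_le_mul_of_nonneg_left ?_ he0.le
        linarith
      nlinarith
    have h9 : C₃ * ‖cn lam - cn 0‖ ≤ C₃ * (2 * e) :=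
      mul_le_mul_of_nonneg_left h1 (by linarith)
    calc ‖x - x'‖ ≤ 2 * ‖a lam * w - a 0 * w'‖ + 2 * (C₃ * ‖cn lam - cn 0‖) := hxx
      _ ≤ 2 * (8 * e + ε / 4) + 2 * (C₃ * (2 * e)) := by linarith
      _ = (e * (32 + 8 * C₃)) / 2 + ε / 2 := by ring
      _ ≤ ε := by linarith

end Pool.Agent.Work.MP_500150_lc.LC
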