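import Mathlib
import Pool.Agent.Work.MP_500150_lc.LC.Stmts

set_option autoImplicit false

/-!
# CTR: the contracting inverse branch at the repelling fixed point
-/

namespace Pool.Agent.Work.MP_500150_lc.LC

open Metric Set Filter Topology MeasureTheory Pool.MP_500150_lc.H8

namespace I_CTR

/-- the inverse branch -/
noncomputable def br (b : ℂ) (q : ℂ × ℂ) : ℂ := b * ((q.2 - q.1) / b ^ 2) ^ (((2 : ℕ) : ℂ)⁻¹)

theorem br_sq {b : ℂ} (hb : b ≠ 0) (q : ℂ × ℂ) : (br b q) ^ 2 + q.1 = q.2 := by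
  unfold br
  rw [mul_pow, Complex.cpow_nat_inv_pow _ two_ne_zero, mul_div_cancel₀ _ (pow_ne_zero 2 hb)]
  ring

theorem br_an {b : ℂ} {q : ℂ × ℂ} (hq : (q.2 - q.1) / b ^ 2 ∈ Complex.slitPlane) :
    AnalyticAt ℂ (br b) q := by
  unfold br
  have h1 : AnalyticAt ℂ (fun q : ℂ × ℂ => (q.2 - q.1) / b ^ 2) q :=
    (analyticAt_snd.sub analyticAt_fst).div_const
  exact analyticAt_const.mul (h1.cpow analyticAt_const hq)

theorem br_self {b c : ℂ} (hb : b ≠ 0) (h : b ^ 2 + c = b) : br b (c, b) = b := by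
  unfold br
  have h1 : b - c = b ^ 2 := by linear_combination -h
  simp only [h1, div_self (pow_ne_zero 2 hb), Complex.one_cpow, mul_one]

end I_CTR

open I_CTR in
theorem CTR_pf (hBET : S_BET) : S_CTR := by
  intro c₀ l hMis δ hδ
  obtain ⟨hfix, hmul, -, -⟩ := hBET
  obtain ⟨hmu, hdiff⟩ := hmul c₀ hMis.slit
  have hf := hfix c₀
  set β := bet c₀ with hβdef
  have hn2 : ‖(2 : ℂ)‖ = 2 := by norm_num
  have hβ2 : 1 < 2 * ‖β‖ := by
    rw [norm_mul, hn2] at hmu
    exact hmu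
  have hβ0 : β ≠ 0 := by
    intro h
    rw [h, norm_zero] at hβ2
    linarith
  obtain ⟨τ, hτ1, hτ2⟩ := exists_between hβ2
  set e := (2 * ‖β‖ - τ) / 2 with he
  have he0 : 0 < e := by rw [he]; linarith
  -- the neighbourhood for the branch
  have hq0 : (β - c₀) / β ^ 2 ∈ Complex.slitPlane := by
    have h1 : β - c₀ = β ^ 2 := by linear_combination -hf
    rw [h1, div_self (pow_ne_zero 2 hβ0)]
    exact Complex.one_mem_slitPlane
  have hcont0 : ContinuousAt (br β) (c₀, β) := (br_an (q := (c₀, β)) hq0).continuousAt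
  have hev1 : ∀ᶠ q : ℂ × ℂ in 𝓝 (c₀, β), ‖br β q - β‖ < e := by
    have h1 : ContinuousAt (fun q => ‖br β q - β‖) (c₀, β) := (hcont0.sub continuousAt_const).norm
    have h2 : ‖br β (c₀, β) - β‖ < e := by
      rw [br_self hβ0 hf, sub_self, norm_zero]
      exact he0
    exact h1.eventually_lt continuousAt_const h2
  have hev2 : ∀ᶠ q : ℂ × ℂ in 𝓝 (c₀, β), (q.2 - q.1) / β ^ 2 ∈ Complex.slitPlane := by
    have h1 : ContinuousAt (fun q : ℂ × ℂ => (q.2 - q.1) / β ^ 2) (c₀, β) := by fun_prop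
    exact h1.eventually_mem (Complex.isOpen_slitPlane.mem_nhds hq0)
  obtain ⟨r, hr0, hr⟩ := Metric.eventually_nhds_iff_ball.1 (hev1.and hev2)
  have hr' : ∀ c ∈ ball c₀ r, ∀ x ∈ ball β r, ‖br β (c, x) - β‖ < e ∧
      (x - c) / β ^ 2 ∈ Complex.slitPlane := by
    intro c hc x hx
    apply hr (c, x)
    rw [← ball_prod_same]
    exact ⟨hc, hx⟩
  set ρ₁ := min (min δ r) (1 / 2) with hρ₁
  have hρ₁0 : 0 < ρ₁ := lt_min (lt_min hδ hr0) (by norm_num)
  have hρ₁δ : ρ₁ ≤ δ := (min_le_left _ _).trans (min_le_left _ _)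
  have hρ₁r : ρ₁ ≤ r := (min_le_left _ _).trans (min_le_right _ _)
  have hρ₁h : ρ₁ ≤ 1 / 2 := min_le_right _ _
  have hτ0 : 0 < τ := by linarith
  have hτi : 0 < 1 - 1 / τ := by
    have : 1 / τ < 1 := by rw [div_lt_one hτ0]; exact hτ1
    linarith
  set κ := min (ρ₁ * (1 - 1 / τ) / 2) e with hκ
  have hκ0 : 0 < κ := lt_min (by positivity) he0
  have hκ1 : κ ≤ ρ₁ * (1 - 1 / τ) / 2 := min_le_left _ _
  have hκe : κ ≤ e := min_le_right _ _
  have hev3 : ∀ᶠ c in 𝓝 c₀, ‖bet c - β‖ < κ := by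
    have h1 : ContinuousAt (fun c => ‖bet c - β‖) c₀ :=
      (hdiff.continuousAt.sub continuousAt_const).norm
    have h2 : ‖bet c₀ - β‖ < κ := by
      rw [← hβdef, sub_self, norm_zero]
      exact hκ0
    exact h1.eventually_lt continuousAt_const h2
  have hev4 : ∀ᶠ c in 𝓝 c₀, 1 - 4 * c ∈ Complex.slitPlane := by
    have h1 : ContinuousAt (fun c : ℂ => 1 - 4 * c) c₀ := by fun_prop
    exact h1.eventually_mem (Complex.isOpen_slitPlane.mem_nhds hMis.slit)
  obtain ⟨s, hs0, hs⟩ := Metric.eventually_nhds_iff_ball.1 (hev3.and hev4)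
  have hκρ : κ < ρ₁ := by
    have h1 : (1 - 1 / τ) / 2 < 1 := by
      have : 0 < 1 / τ := by positivity
      linarith
    calc κ ≤ ρ₁ * (1 - 1 / τ) / 2 := hκ1
      _ = ρ₁ * ((1 - 1 / τ) / 2) := by ring
      _ < ρ₁ * 1 := mul_lt_mul_of_pos_left h1 hρ₁0
      _ = ρ₁ := mul_one _
  refine ⟨min s r, ρ₁, τ, br β, lt_min hs0 hr0, hρ₁0, hρ₁δ, hτ1, ?_, ?_⟩
  · rintro ⟨c, x⟩ ⟨hc, hx⟩
    exact br_an (hr' c (ball_subset_ball (min_le_right _ _) hc) x
      (ball_subset_ball hρ₁r hx)).2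
  · intro c hc
    have hcr : c ∈ ball c₀ r := ball_subset_ball (min_le_right _ _) hc
    obtain ⟨hbc, hslit⟩ := hs c (ball_subset_ball (min_le_left _ _) hc)
    have hbβ : bet c ∈ ball β ρ₁ := by
      rw [mem_ball, dist_eq_norm]
      exact hbc.trans hκρ
    have hsum : ∀ x ∈ ball β ρ₁, ∀ x' ∈ ball β ρ₁, τ ≤ ‖br β (c, x) + br β (c, x')‖ := by
      intro x hx x' hx'
      have h1 := (hr' c hcr x (ball_subset_ball hρ₁r hx)).1
      have h2 := (hr' c hcr x' (ball_subset_ball hρ₁r hx')).1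
      have h3 : ‖(2 : ℂ) * β‖ ≤ ‖br β (c, x) + br β (c, x')‖ +
          (‖br β (c, x) - β‖ + ‖br β (c, x') - β‖) := by
        have h4 : (2 : ℂ) * β = (br β (c, x) + br β (c, x')) -
            ((br β (c, x) - β) + (br β (c, x') - β)) := by ring
        calc ‖(2 : ℂ) * β‖ = ‖(br β (c, x) + br β (c, x')) -
            ((br β (c, x) - β) + (br β (c, x') - β))‖ := by rw [← h4]
          _ ≤ ‖br β (c, x) + br β (c, x')‖ + ‖(br β (c, x) - β) + (br β (c, x') - β)‖ :=
              norm_sub_le _ _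
          _ ≤ _ := by gcongr; exact norm_add_le _ _
      rw [norm_mul, hn2] at h3
      have : 2 * ‖β‖ = τ + 2 * e := by rw [he]; ring
      linarith
    have hgb : br β (c, bet c) = bet c := by
      have h1 : br β (c, bet c) ^ 2 + c = bet c := br_sq hβ0 (c, bet c)
      have h2 := hfix c
      have h3 : (br β (c, bet c) - bet c) * (br β (c, bet c) + bet c) = 0 := by
        linear_combination h1 - h2
      rcases mul_eq_zero.1 h3 with h4 | h4
      · exact sub_eq_zero.1 h4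
      · exfalso
        have h5 := (hr' c hcr (bet c) (ball_subset_ball hρ₁r hbβ)).1
        have h6 : (2 : ℂ) * β = (br β (c, bet c) + bet c) - (br β (c, bet c) - β) -
            (bet c - β) := by ring
        have h7 : ‖(2 : ℂ) * β‖ ≤ ‖br β (c, bet c) - β‖ + ‖bet c - β‖ := by
          calc ‖(2 : ℂ) * β‖ = ‖-(br β (c, bet c) - β) - (bet c - β)‖ := by
                rw [h6, h4, zero_sub]
            _ ≤ ‖-(br β (c, bet c) - β)‖ + ‖bet c - β‖ := norm_sub_le _ _
            _ = _ := by rw [norm_neg]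
        rw [norm_mul, hn2] at h7
        have h8 : 2 * ‖β‖ = τ + 2 * e := by rw [he]; ring
        linarith
    refine ⟨hslit, ?_, hbβ, hgb, fun x hx => ⟨?_, br_sq hβ0 (c, x), hsum x hx⟩⟩
    · have h1 : ‖(2 : ℂ) * β‖ ≤ ‖2 * bet c‖ + 2 * ‖bet c - β‖ := by
        have h4 : (2 : ℂ) * β = 2 * bet c - 2 * (bet c - β) := by ring
        calc ‖(2 : ℂ) * β‖ = ‖2 * bet c - 2 * (bet c - β)‖ := by rw [← h4]
          _ ≤ ‖2 * bet c‖ + ‖2 * (bet c - β)‖ := norm_sub_le _ _
          _ = _ := by rw [norm_mul 2 (bet c - β), hn2]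
      rw [norm_mul 2 β, hn2] at h1
      have h8 : 2 * ‖β‖ = τ + 2 * e := by rw [he]; ring
      linarith
    · -- contraction
      have h1 : br β (c, x) ^ 2 + c = x := br_sq hβ0 (c, x)
      have h2 := hfix c
      have h3 : x - bet c = (br β (c, x) - bet c) * (br β (c, x) + br β (c, bet c)) := by
        rw [hgb]
        linear_combination -h1 + h2
      have h4 : τ * ‖br β (c, x) - bet c‖ ≤ ‖x - bet c‖ := by
        rw [h3, norm_mul, mul_comm]
        exact mul_le_mul_of_nonneg_left (hsum x hx (bet c) hbβ) (norm_nonneg _)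
      have h5 : ‖x - bet c‖ ≤ ‖x - β‖ + ‖bet c - β‖ := by
        calc ‖x - bet c‖ = ‖(x - β) - (bet c - β)‖ := by rw [sub_sub_sub_cancel_right]
          _ ≤ _ := norm_sub_le _ _
      have h6 : ‖br β (c, x) - β‖ ≤ ‖br β (c, x) - bet c‖ + ‖bet c - β‖ := by
        calc ‖br β (c, x) - β‖ = ‖(br β (c, x) - bet c) + (bet c - β)‖ := by
              rw [sub_add_sub_cancel]
          _ ≤ _ := norm_add_le _ _
      rw [mem_ball, dist_eq_norm] at hx ⊢
      have h7 : ‖br β (c, x) - bet c‖ ≤ (‖x - β‖ + ‖bet c - β‖) / τ := by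
        rw [le_div_iff₀ hτ0]
        linarith
      have h8 : (‖x - β‖ + ‖bet c - β‖) / τ < (ρ₁ + κ) / τ := by
        apply div_lt_div_of_pos_right _ hτ0
        linarith
      have h9 : (ρ₁ + κ) / τ + κ ≤ ρ₁ := by
        have h10 : 1 / τ ≤ 1 := by rw [div_le_one hτ0]; exact hτ1.le
        have h11 : (ρ₁ + κ) / τ = ρ₁ * (1 / τ) + κ * (1 / τ) := by ring
        have h12 : κ * (1 / τ) ≤ κ * 1 := mul_le_mul_of_nonneg_left h10 hκ0.le
        rw [h11]
        have h13 : ρ₁ * (1 - 1 / τ) / 2 = (ρ₁ - ρ₁ * (1 / τ)) / 2 := by ring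
        rw [h13] at hκ1
        linarith
      linarith

end Pool.Agent.Work.MP_500150_lc.LC
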