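import Mathlib
import Pool.Agent.Work.MP_500150_lc.LC.StmtsC

set_option autoImplicit false

/-! Item DER: the chain rule along the orbit. -/

namespace Pool.Agent.Work.MP_500150_lc.LC

open Metric Set Filter Topology MeasureTheory Pool.MP_500150_lc.H8

namespace I_DER

theorem OX_succ (J : ℂ × ℂ → ℂ) (s lam : ℂ) (i : ℕ) :
    OX J s lam (i + 1) = lam + (Js J s lam (OX J s lam i)) ^ 2 := rfl

/-- after a return to `0` the orbit is periodic -/
theorem OX_add {J : ℂ × ℂ → ℂ} {s lam : ℂ} {i : ℕ} (h : OX J s lam i = 0) (j : ℕ) :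
    OX J s lam (i + j) = OX J s lam j := by
  induction j with
  | zero => rw [add_zero, h]; rfl
  | succ j ih => rw [← add_assoc, OX_succ, OX_succ, ih]

theorem OX_ne {w : ℝ} {J : ℂ × ℂ → ℂ} {N : ℕ} {q : ℂ × ℂ} (hq : q ∈ ES w J N) {i : ℕ}
    (hi : 1 ≤ i) (hiN : i < N) : OX J q.2 q.1 i ≠ 0 := by
  intro h
  obtain ⟨-, -, h1, h2, -⟩ := hq
  have h3 := OX_add h (N - i)
  rw [Nat.add_sub_of_le hiN.le] at h3
  have h4 := h1 (N - i) (by omega) (by omega)
  rw [h3] at h2
  linarith

end I_DER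

open I_DER in
theorem DER_pf (hOXZ : S_OXZ) (hANX : S_ANX) (hJSI : S_JSI) : S_DER := by
  intro w J N hF hN q hq
  obtain ⟨lam, s⟩ := q
  have hq' := hq
  obtain ⟨hlam, hs, h1, h2, h3⟩ := hq'
  simp only at hlam hs h1 h2 h3 ⊢
  have hw := hF.big
  refine ⟨?_, ?_⟩
  · have e : (fun l => OX J s l 1) =ᶠ[𝓝 lam] id := by
      have hn : {l : ℂ | ‖l‖ < w / 2} ∈ 𝓝 lam :=
        (isOpen_lt continuous_norm continuous_const).mem_nhds hlam
      filter_upwards [hn] with l hl
      exact hOXZ.2.1 w J hF s l hl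
    rw [e.deriv_eq, deriv_id]
  · intro i hi hiN
    have hXi := h1 i hi hiN
    set X : ℂ := OX J s lam i with hX
    have hX0 : X ≠ 0 := OX_ne hq hi hiN
    have hJan : AnalyticAt ℂ J (lam, X) := by
      refine hF.an _ ⟨?_, ?_⟩
      · rw [mem_ball, dist_zero_right]; exact hlam
      · rw [mem_ball, dist_zero_right]; linarith
    have hfst : AnalyticAt ℂ (fun p : ℂ × ℂ => p.1) (lam, X) := analyticAt_fst
    have hsnd : AnalyticAt ℂ (fun p : ℂ × ℂ => p.2) (lam, X) := analyticAt_snd
    have hQan : AnalyticAt ℂ (fun p : ℂ × ℂ => p.1 + (Js J s p.1 p.2) ^ 2) (lam, X) := by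
      have e : AnalyticAt ℂ (fun p : ℂ × ℂ => Js J s p.1 p.2) (lam, X) := by
        unfold Js
        exact hsnd.add (analyticAt_const.mul (hJan.sub hsnd))
      exact hfst.add (e.pow 2)
    have hstr := hQan.hasStrictFDerivAt
    set L := fderiv ℂ (fun p : ℂ × ℂ => p.1 + (Js J s p.1 p.2) ^ 2) (lam, X) with hL
    refine ⟨L, hstr, ?_, ?_⟩
    · -- the partial derivative in `X`
      have e1 : HasDerivAt (fun x : ℂ => ((lam, x) : ℂ × ℂ)) (0, 1) X :=
        (hasDerivAt_const X lam).prodMk (hasDerivAt_id X)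
      have e2 : HasDerivAt (fun x : ℂ => lam + (Js J s lam x) ^ 2) (L (0, 1)) X :=
        hstr.hasFDerivAt.comp_hasDerivAt X e1
      have hd : deriv (fun x => Js J s lam x) X ≠ 0 :=
        (hJSI w J hF s lam hs hlam).2 X (by linarith)
      have hdiff : DifferentiableAt ℂ (fun x => Js J s lam x) X :=
        differentiableAt_of_deriv_ne_zero hd
      have e3 := ((hdiff.hasDerivAt.pow 2).const_add lam)
      have e4 := e2.unique e3
      rw [e4]
      have hJs : Js J s lam X ≠ 0 := by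
        intro h0
        have h4 := hOXZ.2.2.2 w J hF s lam X hs hlam (by linarith)
        rw [h0, zero_sub, norm_neg] at h4
        have h5 : 0 < ‖X‖ := norm_pos_iff.2 hX0
        linarith
      simp only [Nat.cast_ofNat]
      have h6 : (Js J s lam X) ^ (2 - 1) ≠ 0 := pow_ne_zero _ hJs
      exact mul_ne_zero (mul_ne_zero two_ne_zero h6) hd
    · have hXan : DifferentiableAt ℂ (fun l : ℂ => OX J s l i) lam := by
        have e1 := ((hANX w J N hF hN).2 i hiN.le (lam, s) hq).differentiableAt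
        have e2 : DifferentiableAt ℂ (fun l : ℂ => ((l, s) : ℂ × ℂ)) lam :=
          differentiableAt_fun_id.prodMk (differentiableAt_const s)
        exact DifferentiableAt.comp (f := fun l : ℂ => ((l, s) : ℂ × ℂ)) lam e1 e2
      have e1 : HasDerivAt (fun l : ℂ => ((l, OX J s l i) : ℂ × ℂ))
          (1, deriv (fun l => OX J s l i) lam) lam :=
        (hasDerivAt_id lam).prodMk hXan.hasDerivAt
      have e2 : HasDerivAt (fun l : ℂ => l + (Js J s l (OX J s l i)) ^ 2)
          (L (1, deriv (fun l => OX J s l i) lam)) lam :=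
        HasFDerivAt.comp_hasDerivAt (f := fun l : ℂ => ((l, OX J s l i) : ℂ × ℂ)) lam
          hstr.hasFDerivAt e1
      have e3 : deriv (fun l => OX J s l (i + 1)) lam = L (1, deriv (fun l => OX J s l i) lam) :=
        e2.deriv
      rw [e3]
      have e4 : ((1, deriv (fun l => OX J s l i) lam) : ℂ × ℂ) =
          (1, 0) + deriv (fun l => OX J s l i) lam • ((0, 1) : ℂ × ℂ) := by
        simp
      rw [e4, map_add, map_smul, smul_eq_mul]
      ring

end Pool.Agent.Work.MP_500150_lc.LC
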