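import Mathlib
import Pool.Agent.Work.MP_500150_lc.LC.StmtsC

set_option autoImplicit false

/-! Item DWN: downward induction. -/

namespace Pool.Agent.Work.MP_500150_lc.LC

open Metric Set Filter Topology MeasureTheory Pool.MP_500150_lc.H8

theorem DWN_pf : S_DWN := by
  intro c N hc hw
  have step : ∀ i : ℕ, ‖P (i + 1) c‖ ≤ ‖P N c‖ → ‖P i c‖ < ‖P N c‖ / 2 := by
    intro i hi
    have h1 : ‖P i c‖ ^ 2 - ‖c‖ ≤ ‖P (i + 1) c‖ := by
      rw [P_succ, ← norm_pow]
      have := norm_sub_norm_le (P i c ^ 2) (-c)
      rw [norm_neg, sub_neg_eq_add] at this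
      exact this
    by_contra h2
    push Not at h2
    nlinarith
  have key : ∀ k i : ℕ, i + k + 1 = N → ‖P i c‖ < ‖P N c‖ / 2 := by
    intro k
    induction k with
    | zero =>
      intro i hi
      refine step i ?_
      rw [← hi, add_zero]
    | succ k ih =>
      intro i hi
      refine step i ?_
      have := ih (i + 1) (by omega)
      linarith
  intro i hi
  exact key (N - i - 1) i (by omega)

end Pool.Agent.Work.MP_500150_lc.LC
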