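import Mathlib
import Pool.Agent.Work.MP_500150_lc.LC.Stmts

set_option autoImplicit false

/-! Item EST: estimates for the parameters of the copies. -/

namespace Pool.Agent.Work.MP_500150_lc.LC

open Metric Set Filter Topology MeasureTheory Pool.MP_500150_lc.H8

namespace I_EST

theorem alg {u v E : ℂ} {δ K : ℝ} (hu : ‖u - 1‖ ≤ δ) (hv : ‖v - 1‖ ≤ δ) (hE : ‖E‖ ≤ K)
    (hδ : δ ≤ 1) : ‖u ^ 2 * (E - v) - (E - 1)‖ ≤ (3 * K + 7) * δ := by
  have hδ0 : 0 ≤ δ := (norm_nonneg _).trans hu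
  have hK : 0 ≤ K := (norm_nonneg _).trans hE
  have e : u ^ 2 * (E - v) - (E - 1) = ((u - 1) * (u - 1 + 2)) * (E - 1) - u ^ 2 * (v - 1) := by
    ring
  have h1 : ‖u - 1 + 2‖ ≤ 3 := by
    have := norm_add_le (u - 1) (2 : ℂ)
    have h2 : ‖(2 : ℂ)‖ = 2 := by simp
    linarith
  have h2 : ‖E - 1‖ ≤ K + 1 := by
    have := norm_sub_le E (1 : ℂ)
    have h2 : ‖(1 : ℂ)‖ = 1 := by simp
    linarith
  have h3 : ‖u‖ ≤ 2 := by
    have := norm_add_le (u - 1) (1 : ℂ)
    have h2 : ‖(1 : ℂ)‖ = 1 := by simp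
    have h4 : u - 1 + 1 = u := by ring
    rw [h4] at this
    linarith
  rw [e]
  have h4 : ‖(u - 1) * (u - 1 + 2) * (E - 1)‖ ≤ δ * 3 * (K + 1) := by
    rw [norm_mul, norm_mul]
    gcongr
  have h5 : ‖u ^ 2 * (v - 1)‖ ≤ 2 ^ 2 * δ := by
    rw [norm_mul, norm_pow]
    gcongr
  calc _ ≤ ‖(u - 1) * (u - 1 + 2) * (E - 1)‖ + ‖u ^ 2 * (v - 1)‖ := norm_sub_le _ _
    _ ≤ δ * 3 * (K + 1) + 2 ^ 2 * δ := add_le_add h4 h5
    _ = (3 * K + 7) * δ := by ring

theorem lim (m : ℕ) {C τ η : ℝ} (hτ : 1 < τ) (hC : 1 ≤ C) (hη : 0 < η) :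
    ∃ n₀ : ℕ, ∀ n : ℕ, n₀ ≤ n → ∀ s : ℝ, 0 ≤ s → s ^ m ≤ C / τ ^ n → (n + 1) * s < η := by
  have h := (tendsto_pow_const_div_const_pow_of_one_lt m hτ).comp (tendsto_add_atTop_nat 1)
  have hτ0 : 0 < τ := by linarith
  have hC0 : 0 < C := by linarith
  have hpos : 0 < η ^ m / (C * τ) := by positivity
  obtain ⟨n₀, hn₀⟩ := (h.eventually (gt_mem_nhds hpos)).exists_forall_of_atTop
  refine ⟨n₀, fun n hn s hs hs1 => ?_⟩
  have h1 := hn₀ n hn
  simp only [Function.comp_apply, Nat.cast_add, Nat.cast_one] at h1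
  rw [lt_div_iff₀ (by positivity)] at h1
  refine lt_of_pow_lt_pow_left₀ m hη.le ?_
  calc (((n : ℝ) + 1) * s) ^ m = ((n : ℝ) + 1) ^ m * s ^ m := mul_pow _ _ _
    _ ≤ ((n : ℝ) + 1) ^ m * (C / τ ^ n) := by gcongr
    _ = ((n : ℝ) + 1) ^ m / τ ^ (n + 1) * (C * τ) := by
        field_simp
        exact pow_succ _ _
    _ < η ^ m := h1

end I_EST

theorem EST_pf (hBET : S_BET) (hROO : S_ROO) (hNRM : S_NRM) (hQUO : S_QUO) : S_EST := by
  intro c₀ ρ C τ m₀ D U hc₀ h
  obtain ⟨m, r, C₁, cs, hm, hr, hC₁, hcs, hcs0, hcs1⟩ := hROO c₀ ρ D h.rho h.dD h.D0 h.Dn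
  obtain ⟨C₂, hC₂, hQ⟩ := hQUO c₀ ρ C h.rho h.rho1 h.one_le fun c hc => (h.slit c hc).1
  obtain ⟨C₃, -, hN⟩ := hNRM ρ C h.rho h.rho1 h.one_le
  have hC := h.one_le
  have hτ := h.tau
  have hm0 : (m : ℂ) ≠ 0 := by
    have : m ≠ 0 := by omega
    exact_mod_cast this
  have hm1 : (1 : ℝ) ≤ m := by exact_mod_cast hm
  have hcc : c₀ ∈ ball c₀ ρ := mem_ball_self h.rho
  have h0 : (0 : ℂ) ∈ ball (0 : ℂ) ρ := mem_ball_self h.rho
  -- multipliers
  have hmu : ∀ c ∈ ball c₀ ρ, 2 * bet c ≠ 0 := fun c hc h1 => by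
    have := (h.slit c hc).2
    rw [h1, norm_zero] at this
    linarith
  have hmu6 : ‖2 * bet c₀‖ ≤ 6 := by
    have := hBET.2.2.2 c₀ hc₀
    rw [norm_mul]
    have h2 : ‖(2 : ℂ)‖ = 2 := by simp
    rw [h2]
    linarith
  have hbd : DifferentiableOn ℂ bet (ball c₀ ρ) := fun c hc =>
    (hBET.2.1 c (h.slit c hc).1).2.differentiableWithinAt
  have hmd : ∀ n : ℕ, DifferentiableOn ℂ (fun c => (2 * bet c) ^ n) (ball c₀ ρ) := fun n =>
    (hbd.const_mul 2).pow n
  have hU0 : ∀ n : ℕ, DifferentiableOn ℂ (fun c => U n (c, 0)) (ball c₀ ρ) := fun n c hc => by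
    have h1 : DifferentiableAt ℂ (U n) (c, 0) := (h.an n (c, 0) ⟨hc, h0⟩).differentiableAt
    have h2 : DifferentiableAt ℂ (fun c : ℂ => ((c, 0) : ℂ × ℂ)) c := by fun_prop
    exact (h1.comp c h2).differentiableWithinAt
  have hAd : ∀ n : ℕ, DifferentiableOn ℂ (AU U n) (ball c₀ ρ) := fun n =>
    (hN c₀ (fun c => (2 * bet c) ^ n) (U n) (fun c hc => pow_ne_zero _ (hmu c hc)) (h.an n)
      fun c hc => ⟨fun x hx => h.bd n c hc x hx, (h.der n c hc).1⟩).1
  set e1 : ℝ := Real.exp 1 with he1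
  have he : 1 ≤ e1 := Real.one_le_exp (by norm_num)
  refine ⟨m, r, max C₁ (max (6 * C) (m * C ^ 2)), cs, hm, hr, le_max_of_le_left hC₁, hcs,
    fun s hs => ⟨(hcs1 s hs).1, fun s' hs' => ?_⟩, fun ε hε => ?_⟩
  · have h1 := ((hcs1 s hs).2.2 s' hs').1
    rw [div_le_iff₀ (by linarith)] at h1
    calc ‖s - s'‖ ≤ ‖cs s - cs s'‖ * C₁ := h1
      _ = C₁ * ‖cs s - cs s'‖ := mul_comm _ _
      _ ≤ _ := by gcongr; exact le_max_left _ _
  · set K : ℝ := C₁ * C₂ * e1 * (3 * e1 ^ m + 7) with hK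
    have hK7 : 1 ≤ 3 * e1 ^ m + 7 := by
      have : 0 ≤ e1 ^ m := by positivity
      linarith
    have hK1 : 1 ≤ C₁ * C₂ := one_le_mul_of_one_le_of_one_le hC₁ hC₂
    have hK2 : 1 ≤ C₁ * C₂ * e1 := one_le_mul_of_one_le_of_one_le hK1 he
    have hK3 : 1 ≤ K := one_le_mul_of_one_le_of_one_le hK2 hK7
    set ζ : ℝ := min ε (min 1 r) with hζ
    have hζ0 : 0 < ζ := lt_min hε (lt_min one_pos hr)
    have hη : 0 < ζ / K := by positivity
    obtain ⟨n₀, hn₀⟩ := I_EST.lim m hτ hC hη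
    refine ⟨n₀, fun n hn => ?_⟩
    set Θ₀ : ℂ := (2 * bet c₀) ^ n * (U n (c₀, 0) + D c₀) with hΘ₀
    set α : ℂ := AU U n c₀ with hα
    have hv := h.val n c₀ hcc
    have hd : 1 / C ≤ ‖(2 * bet c₀) ^ n * α‖ ∧ ‖(2 * bet c₀) ^ n * α‖ ≤ C := h.der n c₀ hcc
    have hμ0 : (2 * bet c₀) ^ n ≠ 0 := pow_ne_zero _ (hmu c₀ hcc)
    have hC0 : 0 < C := by linarith
    have hΘ0 : Θ₀ ≠ 0 := by
      intro h1
      have := hv.1
      rw [← hΘ₀, h1, norm_zero] at this
      have h2 : 0 < 1 / C := by positivity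
      linarith
    have hα0 : α ≠ 0 := by
      intro h1
      have := hd.1
      rw [h1, mul_zero, norm_zero] at this
      have h2 : 0 < 1 / C := by positivity
      linarith
    obtain ⟨σ, hσ⟩ := IsAlgClosed.exists_pow_nat_eq (Θ₀ / (2 * bet c₀) ^ n) (n := m) (by omega)
    have hσn : ‖σ‖ ^ m = ‖Θ₀‖ / ‖2 * bet c₀‖ ^ n := by
      rw [← norm_pow, hσ, norm_div, norm_pow]
    have hτn : τ ^ n ≤ ‖2 * bet c₀‖ ^ n := by
      have := (h.slit c₀ hcc).2
      gcongr
    have hτ0 : 0 < τ := by linarith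
    have hσ1 : ‖σ‖ ^ m ≤ C / τ ^ n := by
      rw [hσn]
      have := hv.2
      rw [← hΘ₀] at this
      gcongr
    have hσ2 := hn₀ n hn ‖σ‖ (norm_nonneg _) hσ1
    have hσ3 : ‖σ‖ < ζ / K := by
      have : ‖σ‖ ≤ ((n : ℝ) + 1) * ‖σ‖ := by
        have h1 : (0 : ℝ) ≤ (n : ℝ) * ‖σ‖ := by positivity
        linarith
      linarith
    have hμpos : 0 < ‖2 * bet c₀‖ := norm_pos_iff.2 (hmu c₀ hcc)
    refine ⟨σ, m * Θ₀ / (α ^ 2 * (2 * bet c₀) ^ n), ?_, ?_, ?_, ?_, ?_⟩
    · -- lower bound for σ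
      have hbig : 1 ≤ max C₁ (max (6 * C) (m * C ^ 2)) := le_max_of_le_left hC₁
      rcases le_or_gt 1 ‖σ‖ with h1 | h1
      · refine le_trans ?_ h1
        rw [div_le_one (by positivity)]
        exact one_le_pow₀ hbig
      · have h2 : ‖σ‖ ^ m ≤ ‖σ‖ := pow_le_of_le_one (norm_nonneg _) h1.le (by omega)
        refine le_trans ?_ h2
        rw [hσn]
        have h3 : 1 / C ≤ ‖Θ₀‖ := by
          have := hv.1
          rwa [← hΘ₀] at this
        have h4 : ‖2 * bet c₀‖ ^ n ≤ 6 ^ n := by gcongr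
        calc 1 / (max C₁ (max (6 * C) (m * C ^ 2))) ^ (n + 1) ≤ 1 / (6 * C) ^ (n + 1) := by
              gcongr
              exact (le_max_left _ _).trans (le_max_right _ _)
          _ ≤ 1 / (6 ^ n * C) := by
              gcongr
              rw [mul_pow, pow_succ, pow_succ]
              have h5 : (1 : ℝ) ≤ C ^ n := one_le_pow₀ hC
              have h6 : (0 : ℝ) < 6 ^ n := by positivity
              nlinarith [mul_le_mul_of_nonneg_left h5 (by positivity : (0 : ℝ) ≤ 6 ^ n * C)]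
          _ = 1 / C / 6 ^ n := by field_simp
          _ ≤ ‖Θ₀‖ / ‖2 * bet c₀‖ ^ n := by gcongr
    · exact div_ne_zero (mul_ne_zero hm0 hΘ0) (mul_ne_zero (pow_ne_zero _ hα0) hμ0)
    · have e : α * (m * Θ₀ / (α ^ 2 * (2 * bet c₀) ^ n)) = m * Θ₀ / ((2 * bet c₀) ^ n * α) := by
        field_simp
      have e2 : ‖(m : ℂ)‖ = m := by simp
      rw [e, norm_div, norm_mul, e2]
      have h3 : 1 / C ≤ ‖Θ₀‖ := by
        have := hv.1
        rwa [← hΘ₀] at this
      have h4 : 0 < ‖(2 * bet c₀) ^ n * α‖ := norm_pos_iff.2 (mul_ne_zero hμ0 hα0)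
      have h7 : 1 ≤ max C₁ (max (6 * C) (m * C ^ 2)) := le_max_of_le_left hC₁
      calc 1 / max C₁ (max (6 * C) (m * C ^ 2)) ≤ 1 / (m * C ^ 2) := by
            gcongr
            exact (le_max_right _ _).trans (le_max_right _ _)
        _ ≤ 1 / C ^ 2 := by
            gcongr
            have : 0 < C ^ 2 := by positivity
            nlinarith
        _ ≤ m * (1 / C) / C := by
            rw [div_le_div_iff₀ (by positivity) (by positivity)]
            have h5 : m * (1 / C) * C ^ 2 = m * C := by field_simp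
            rw [h5]
            nlinarith
        _ ≤ m * ‖Θ₀‖ / ‖(2 * bet c₀) ^ n * α‖ := by
            gcongr
            exact hd.2
    · have e : α * (m * Θ₀ / (α ^ 2 * (2 * bet c₀) ^ n)) = m * Θ₀ / ((2 * bet c₀) ^ n * α) := by
        field_simp
      have e2 : ‖(m : ℂ)‖ = m := by simp
      rw [e, norm_div, norm_mul, e2]
      have h3 : ‖Θ₀‖ ≤ C := hv.2
      have h6 : 0 < 1 / C := by positivity
      calc m * ‖Θ₀‖ / ‖(2 * bet c₀) ^ n * α‖ ≤ m * C / (1 / C) := by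
            gcongr
            exact hd.1
        _ = m * C ^ 2 := by field_simp
        _ ≤ _ := (le_max_right _ _).trans (le_max_right _ _)
    · intro x hx
      have hx1 : ‖x‖ < 1 := mem_ball_zero_iff.1 hx
      have hre : x.re ≤ 1 := (Complex.re_le_norm x).trans hx1.le
      have hex : ‖Complex.exp x‖ ≤ e1 := by
        rw [Complex.norm_exp]
        exact Real.exp_le_exp.2 hre
      have hs : ‖σ * Complex.exp x‖ ≤ ‖σ‖ * e1 := by
        rw [norm_mul]
        gcongr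
      have hζK : ζ / K * K = ζ := div_mul_cancel₀ _ (by positivity)
      have hζ1 : ζ ≤ 1 := (min_le_right _ _).trans (min_le_left _ _)
      have hζr : ζ ≤ r := (min_le_right _ _).trans (min_le_right _ _)
      have hζε : ζ ≤ ε := min_le_left _ _
      have hsr : ‖σ * Complex.exp x‖ < r := by
        have h1 : ‖σ‖ * e1 < ζ / K * e1 := by gcongr
        have h2 : ζ / K * e1 ≤ ζ / K * K := by
          gcongr
          calc e1 ≤ (C₁ * C₂) * e1 := le_mul_of_one_le_left (by linarith) hK1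
            _ ≤ K := le_mul_of_one_le_right (by positivity) hK7
        linarith
      have hsb : σ * Complex.exp x ∈ ball (0 : ℂ) r := mem_ball_zero_iff.2 hsr
      set c : ℂ := cs (σ * Complex.exp x) with hc
      have hcb : c ∈ ball c₀ ρ := (hcs1 _ hsb).1
      have hcn : ‖c - c₀‖ ≤ C₁ * (‖σ‖ * e1) := by
        have h1 := ((hcs1 _ hsb).2.2 0 (mem_ball_self hr)).2
        rw [hcs0, sub_zero] at h1
        exact h1.trans (by gcongr)
      -- δ
      set δ : ℝ := C₂ * (n + 1) * ‖c - c₀‖ with hδ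
      have hn1 : (0 : ℝ) < (n : ℝ) + 1 := by positivity
      have hδ1 : (3 * e1 ^ m + 7) * δ ≤ ζ := by
        calc (3 * e1 ^ m + 7) * δ ≤ (3 * e1 ^ m + 7) * (C₂ * (n + 1) * (C₁ * (‖σ‖ * e1))) := by
              rw [hδ]
              gcongr
          _ = (((n : ℝ) + 1) * ‖σ‖) * K := by rw [hK]; ring
          _ ≤ ζ / K * K := by gcongr
          _ = ζ := hζK
      have hδ0 : 0 ≤ δ := by positivity
      have hδ2 : δ ≤ ζ := le_trans (le_mul_of_one_le_left hδ0 hK7) hδ1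
      have hcq : ‖c - c₀‖ ≤ 1 / (C₂ * (n + 1)) := by
        rw [le_div_iff₀ (by positivity)]
        calc ‖c - c₀‖ * (C₂ * (n + 1)) = δ := by rw [hδ]; ring
          _ ≤ 1 := hδ2.trans hζ1
      have hcε : ‖c - c₀‖ ≤ ε := by
        have h1 : (1 : ℝ) ≤ C₂ * (n + 1) := by
          have : (0 : ℝ) ≤ (n : ℝ) := by positivity
          nlinarith
        have h2 : ‖c - c₀‖ ≤ δ := le_mul_of_one_le_left (norm_nonneg _) h1
        linarith
      -- QUO for Θ
      have q1 := (hQ (fun c => (2 * bet c) ^ n * (U n (c, 0) + D c)) n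
        ((hmd n).mul ((hU0 n).add h.dD)) (fun c hc => h.val n c hc) c hcq).2.1
      -- QUO for A
      have q2 := hQ (fun c => (2 * bet c) ^ n * AU U n c) n ((hmd n).mul (hAd n))
        (fun c hc => h.der n c hc) c hcq
      have hμc : (2 * bet c) ^ n ≠ 0 := pow_ne_zero _ (hmu c hcb)
      have hAc : AU U n c ≠ 0 := by
        intro h1
        have := (h.der n c hcb).1
        have h3 : deriv (fun x => U n (c, x)) 0 = 0 := h1
        rw [h3, mul_zero, norm_zero] at this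
        have h2 : 0 < 1 / C := by positivity
        linarith
      have q3 := q2.2.1
      have q4 := q2.2.2
      have e3 : (2 * bet c₀) ^ n / (2 * bet c) ^ n *
          ((2 * bet c) ^ n * AU U n c / ((2 * bet c₀) ^ n * AU U n c₀)) = AU U n c / α := by
        rw [← hα]
        field_simp
      have e4 : (2 * bet c) ^ n / (2 * bet c₀) ^ n *
          ((2 * bet c₀) ^ n * AU U n c₀ / ((2 * bet c) ^ n * AU U n c)) = α / AU U n c := by
        rw [← hα]
        field_simp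
      rw [e3] at q3
      rw [e4] at q4
      refine ⟨hsb, hcε, ?_, ?_⟩
      · have e5 : AU U n c - α = (AU U n c / α - 1) * α := by
          field_simp
        rw [e5, norm_mul]
        have : ‖AU U n c / α - 1‖ ≤ ε := by
          calc _ ≤ δ := q3
            _ ≤ ε := hδ2.trans hζε
        gcongr
      · have hDc : D c = Θ₀ / (2 * bet c₀) ^ n * Complex.exp (m * x) := by
          have h1 := (hcs1 _ hsb).2.1
          rw [← hc] at h1
          rw [h1, mul_pow, hσ, ← Complex.exp_nat_mul]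
        set q : ℂ := (2 * bet c₀) ^ n / (2 * bet c) ^ n *
          ((2 * bet c) ^ n * (U n (c, 0) + D c) / Θ₀) with hq
        have e6 : U n (c, 0) = q * Θ₀ / (2 * bet c₀) ^ n - D c := by
          rw [hq]
          field_simp
          ring
        have e7 : -U n (c, 0) / (AU U n c ^ 2 * (m * Θ₀ / (α ^ 2 * (2 * bet c₀) ^ n))) =
            ((α / AU U n c) ^ 2 * (Complex.exp (m * x) - q)) / m := by
          rw [e6, hDc]
          field_simp
          ring
        rw [e7, ← sub_div, norm_div]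
        have e2 : ‖(m : ℂ)‖ = m := by simp
        rw [e2]
        have hEx : ‖Complex.exp (m * x)‖ ≤ e1 ^ m := by
          rw [Complex.exp_nat_mul, norm_pow]
          gcongr
        have h9 := I_EST.alg q4 q1 hEx (hδ2.trans hζ1)
        calc _ ≤ (3 * e1 ^ m + 7) * δ / m := by gcongr
          _ ≤ (3 * e1 ^ m + 7) * δ := div_le_self (by positivity) hm1
          _ ≤ ε := hδ1.trans hζε

end Pool.Agent.Work.MP_500150_lc.LC
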