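import Mathlib
import Pool.Agent.Work.MP_500150_lc.LC.StmtsC

set_option autoImplicit false

/-!
# Locality of the computability of the Mandelbrot set: item EXA (logarithmic coordinates)
-/

namespace Pool.Agent.Work.MP_500150_lc.LC

open Metric Set Filter Topology MeasureTheory Pool.MP_500150_lc.H8

namespace I_EXA

variable {b : ℂ} {N : ℕ} {Λ : ℂ → ℂ}

theorem low_v (_hb : 20 ≤ ‖b‖) {v : ℂ} (hv : v ∈ ball b (‖b‖ / 2)) : ‖b‖ / 2 < ‖v‖ := by
  rw [mem_ball, dist_eq_norm] at hv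
  have h := norm_sub_norm_le b v
  rw [norm_sub_rev] at h
  linarith

/-- The orbit is large. -/
theorem low_P (hb : 20 ≤ ‖b‖) {v : ℂ} (hv : v ∈ ball b (‖b‖ / 2)) (h1 : ‖Λ v‖ < ‖b‖ / 2)
    (h2 : P N (Λ v) = v) (q : ℕ) : 9 * (‖b‖ / 2) ≤ ‖P (N + (q + 1)) (Λ v)‖ := by
  have hstep : ∀ m : ℕ, ‖P m (Λ v)‖ ^ 2 - ‖Λ v‖ ≤ ‖P (m + 1) (Λ v)‖ := by
    intro m
    rw [P_succ, ← norm_pow]
    have := norm_sub_norm_le (P m (Λ v) ^ 2) (-(Λ v))
    rw [norm_neg, sub_neg_eq_add] at this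
    exact this
  induction q with
  | zero =>
    have h3 := hstep N
    rw [h2] at h3
    have h4 := low_v hb hv
    rw [zero_add]
    nlinarith
  | succ q ih =>
    have h3 := hstep (N + (q + 1))
    have h4 : N + (q + 1 + 1) = N + (q + 1) + 1 := rfl
    rw [h4]
    nlinarith

theorem quo (hb : 20 ≤ ‖b‖) {v : ℂ} (hv : v ∈ ball b (‖b‖ / 2)) (h1 : ‖Λ v‖ < ‖b‖ / 2)
    (h2 : P N (Λ v) = v) (q : ℕ) : P (N + q) (Λ v) ≠ 0 ∧
      ‖Λ v / P (N + q) (Λ v) ^ 2‖ ≤ if q = 0 then 1 / 10 else 1 / 810 := by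
  rcases q with _ | q
  · have h3 := low_v hb hv
    rw [add_zero, h2, if_pos rfl]
    have h4 : 0 < ‖v‖ := by linarith
    refine ⟨norm_pos_iff.1 h4, ?_⟩
    rw [norm_div, norm_pow, div_le_div_iff₀ (by positivity) (by norm_num)]
    nlinarith
  · have h3 := low_P hb hv h1 h2 q
    have h4 : 0 < ‖P (N + (q + 1)) (Λ v)‖ := by linarith
    rw [if_neg (by omega)]
    refine ⟨norm_pos_iff.1 h4, ?_⟩
    rw [norm_div, norm_pow, div_le_div_iff₀ (by positivity) (by norm_num)]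
    nlinarith

theorem quo_le (hb : 20 ≤ ‖b‖) {v : ℂ} (hv : v ∈ ball b (‖b‖ / 2)) (h1 : ‖Λ v‖ < ‖b‖ / 2)
    (h2 : P N (Λ v) = v) (q : ℕ) : ‖Λ v / P (N + q) (Λ v) ^ 2‖ ≤ 1 / 10 := by
  refine (quo hb hv h1 h2 q).2.trans ?_
  split_ifs <;> norm_num

/-- The correction terms. -/
noncomputable def sq (N : ℕ) (Λ : ℂ → ℂ) (q : ℕ) (v : ℂ) : ℂ :=
  (1 / 2) ^ (q + 1) * Complex.log (1 + Λ v / P (N + q) (Λ v) ^ 2)

/-- The sum of the correction terms. -/
noncomputable def Ds (N : ℕ) (Λ : ℂ → ℂ) (i : ℕ) (v : ℂ) : ℂ := ∑ q ∈ Finset.range i, sq N Λ q v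

theorem sq_diff (hb : 20 ≤ ‖b‖) (hd : DifferentiableOn ℂ Λ (ball b (‖b‖ / 2)))
    (h : ∀ v ∈ ball b (‖b‖ / 2), ‖Λ v‖ < ‖b‖ / 2 ∧ P N (Λ v) = v) (q : ℕ) :
    DifferentiableOn ℂ (sq N Λ q) (ball b (‖b‖ / 2)) := by
  unfold sq
  refine DifferentiableOn.const_mul (DifferentiableOn.clog ?_ ?_) _
  · refine DifferentiableOn.const_add _ (DifferentiableOn.div hd ?_ ?_)
    · exact ((differentiable_P (N + q)).comp_differentiableOn hd).pow 2
    · intro v hv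
      exact pow_ne_zero 2 (quo hb hv (h v hv).1 (h v hv).2 q).1
  · intro v hv
    exact Complex.mem_slitPlane_of_norm_lt_one
      (lt_of_le_of_lt (quo_le hb hv (h v hv).1 (h v hv).2 q) (by norm_num))

theorem sq_bound (hb : 20 ≤ ‖b‖) {v : ℂ} (hv : v ∈ ball b (‖b‖ / 2)) (h1 : ‖Λ v‖ < ‖b‖ / 2)
    (h2 : P N (Λ v) = v) (q : ℕ) :
    ‖sq N Λ q v‖ ≤ (1 / 2) ^ (q + 1) / 540 + if q = 0 then 3 / 40 else 0 := by
  have h3 := Complex.norm_log_one_add_half_le_self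
    ((quo_le hb hv h1 h2 q).trans (by norm_num : (1 / 10 : ℝ) ≤ 1 / 2))
  have h4 := (quo hb hv h1 h2 q).2
  unfold sq
  rw [norm_mul, norm_pow]
  have h5 : ‖(1 / 2 : ℂ)‖ = 1 / 2 := by norm_num
  rw [h5]
  rcases q with _ | q
  · rw [if_pos rfl] at h4 ⊢
    norm_num
    norm_num at h3 h4
    linarith
  · rw [if_neg (by omega)] at h4 ⊢
    have h6 : (0 : ℝ) < (1 / 2) ^ (q + 1 + 1) := by positivity
    rw [add_zero, div_eq_mul_inv]
    apply mul_le_mul_of_nonneg_left _ h6.le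
    linarith

theorem geom_sum (i : ℕ) : ∑ q ∈ Finset.range i, (1 / 2 : ℝ) ^ (q + 1) ≤ 1 := by
  have h : ∀ i : ℕ, ∑ q ∈ Finset.range i, (1 / 2 : ℝ) ^ (q + 1) = 1 - (1 / 2) ^ i := by
    intro i
    induction i with
    | zero => simp
    | succ i ih =>
      rw [Finset.sum_range_succ, ih, pow_succ]
      ring
  rw [h]
  have : (0 : ℝ) ≤ (1 / 2) ^ i := by positivity
  linarith

theorem Ds_bound (hb : 20 ≤ ‖b‖) {v : ℂ} (hv : v ∈ ball b (‖b‖ / 2)) (h1 : ‖Λ v‖ < ‖b‖ / 2)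
    (h2 : P N (Λ v) = v) (i : ℕ) : ‖Ds N Λ i v‖ ≤ 8 / 100 := by
  unfold Ds
  refine (norm_sum_le _ _).trans ?_
  refine (Finset.sum_le_sum fun q _ => sq_bound hb hv h1 h2 q).trans ?_
  rw [Finset.sum_add_distrib, ← Finset.sum_div]
  have h3 := geom_sum i
  have h4 : ∑ q ∈ Finset.range i, (if q = 0 then (3 / 40 : ℝ) else 0) ≤ 3 / 40 := by
    rw [Finset.sum_ite_eq' (Finset.range i) 0 (fun _ => (3 / 40 : ℝ))]
    split_ifs <;> norm_num
  linarith

/-- The branch of the logarithm. -/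
noncomputable def Lg (b v : ℂ) : ℂ := Complex.log b + Complex.log (1 + (v - b) / b)

theorem quot_lt (hb : 20 ≤ ‖b‖) {v : ℂ} {r : ℝ} (hv : ‖v - b‖ < r * ‖b‖) :
    ‖(v - b) / b‖ < r := by
  rw [norm_div, div_lt_iff₀ (by linarith)]
  exact hv

theorem one_add_quot (hb : 20 ≤ ‖b‖) (v : ℂ) : 1 + (v - b) / b = v / b := by
  have : b ≠ 0 := norm_pos_iff.1 (by linarith)
  field_simp
  ring

theorem exp_Lg (hb : 20 ≤ ‖b‖) {v : ℂ} (hv0 : v ≠ 0) : Complex.exp (Lg b v) = v := by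
  have hb0 : b ≠ 0 := norm_pos_iff.1 (by linarith)
  unfold Lg
  rw [Complex.exp_add, Complex.exp_log hb0, one_add_quot hb, Complex.exp_log (div_ne_zero hv0 hb0)]
  field_simp

theorem Lg_diff (hb : 20 ≤ ‖b‖) : DifferentiableOn ℂ (Lg b) (ball b (‖b‖ / 2)) := by
  unfold Lg
  refine DifferentiableOn.const_add _ (DifferentiableOn.clog (by fun_prop) ?_)
  intro v hv
  rw [mem_ball, dist_eq_norm] at hv
  have := quot_lt hb (v := v) (r := 1 / 2) (by linarith)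
  exact Complex.mem_slitPlane_of_norm_lt_one (by linarith)

theorem Lg_lower (hb : 20 ≤ ‖b‖) {v : ℂ} (hv : v ∈ ball b (‖b‖ / 10)) :
    ‖Lg b v - Lg b b - (v - b) / b‖ ≤ 1 / 18 * ‖(v - b) / b‖ := by
  rw [mem_ball, dist_eq_norm] at hv
  have h1 := quot_lt hb (v := v) (r := 1 / 10) (by linarith)
  have h2 := Complex.norm_log_one_add_sub_self_le (z := (v - b) / b) (by linarith)
  have h3 : Lg b v - Lg b b - (v - b) / b = Complex.log (1 + (v - b) / b) - (v - b) / b := by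
    unfold Lg
    rw [sub_self, zero_div, add_zero, Complex.log_one]
    ring
  rw [h3]
  refine h2.trans ?_
  set u := ‖(v - b) / b‖ with hu
  have hu0 : 0 ≤ u := norm_nonneg _
  have h4 : (1 - u)⁻¹ ≤ 10 / 9 := by
    rw [inv_le_comm₀ (by linarith) (by norm_num)]
    norm_num
    linarith
  have h5 : u ^ 2 * (1 - u)⁻¹ ≤ u ^ 2 * (10 / 9) := mul_le_mul_of_nonneg_left h4 (by positivity)
  nlinarith

theorem exp_main (hb : 20 ≤ ‖b‖) {v : ℂ} (hv : v ∈ ball b (‖b‖ / 2)) (h1 : ‖Λ v‖ < ‖b‖ / 2)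
    (h2 : P N (Λ v) = v) (i : ℕ) :
    P (N + i) (Λ v) = Complex.exp (2 ^ i * (Lg b v + Ds N Λ i v)) := by
  induction i with
  | zero =>
    have h3 := low_v hb hv
    have hv0 : v ≠ 0 := norm_pos_iff.1 (by linarith)
    unfold Ds
    rw [add_zero, h2, Finset.range_zero, Finset.sum_empty, pow_zero, one_mul, add_zero,
      exp_Lg hb hv0]
  | succ i ih =>
    have hne := (quo hb hv h1 h2 i).1
    have hle := quo_le hb hv h1 h2 i
    have h1ne : 1 + Λ v / P (N + i) (Λ v) ^ 2 ≠ 0 :=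
      Complex.slitPlane_ne_zero (Complex.mem_slitPlane_of_norm_lt_one (by linarith))
    have h3 : (2 : ℂ) ^ (i + 1) * (Lg b v + Ds N Λ (i + 1) v) =
        2 ^ i * (Lg b v + Ds N Λ i v) + 2 ^ i * (Lg b v + Ds N Λ i v) +
          Complex.log (1 + Λ v / P (N + i) (Λ v) ^ 2) := by
      unfold Ds
      rw [Finset.sum_range_succ]
      have h4 : sq N Λ i v = (1 / 2) ^ (i + 1) * Complex.log (1 + Λ v / P (N + i) (Λ v) ^ 2) := rfl
      rw [h4]
      have h5 : (2 : ℂ) ^ (i + 1) * (1 / 2) ^ (i + 1) = 1 := by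
        rw [← mul_pow]
        norm_num
      linear_combination (Complex.log (1 + Λ v / P (N + i) (Λ v) ^ 2)) * h5
    rw [h3, Complex.exp_add, Complex.exp_add, ← ih, Complex.exp_log h1ne, ← add_assoc, P_succ]
    field_simp

end I_EXA

open I_EXA in
theorem EXA_pf : S_EXA := by
  intro b N i Λ hb hd h
  have hb0 : 0 < ‖b‖ := by linarith
  refine ⟨fun v => Lg b v + Ds N Λ i v, ?_, ?_, ?_⟩
  · refine (Lg_diff hb).add ?_
    unfold Ds
    exact DifferentiableOn.fun_sum fun q _ => sq_diff hb hd h q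
  · intro v hv
    exact exp_main hb hv (h v hv).1 (h v hv).2 i
  · intro v hv
    have hDd : DifferentiableOn ℂ (Ds N Λ i) (ball b (‖b‖ / 2)) := by
      unfold Ds
      exact DifferentiableOn.fun_sum fun q _ => sq_diff hb hd h q
    have hbb : b ∈ ball b (‖b‖ / 2) := mem_ball_self (by linarith)
    have hvv : v ∈ ball b (‖b‖ / 2) := ball_subset_ball (by linarith) hv
    have hmaps : MapsTo (Ds N Λ i) (ball b (‖b‖ / 2)) (closedBall (Ds N Λ i b) (16 / 100)) := by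
      intro w hw
      rw [mem_closedBall, dist_eq_norm]
      have h1 := Ds_bound hb hw (h w hw).1 (h w hw).2 i
      have h2 := Ds_bound hb hbb (h b hbb).1 (h b hbb).2 i
      have h3 := norm_sub_le (Ds N Λ i w) (Ds N Λ i b)
      linarith
    have h1 := Complex.dist_le_div_mul_dist_of_mapsTo_ball hDd hmaps hvv
    rw [dist_eq_norm, dist_eq_norm] at h1
    have h2 := Lg_lower hb hv
    have hq : ‖(v - b) / b‖ = ‖v - b‖ / ‖b‖ := norm_div _ _
    rw [hq] at h2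
    have h3 : (16 / 100 : ℝ) / (‖b‖ / 2) * ‖v - b‖ = 32 / 100 * (‖v - b‖ / ‖b‖) := by
      field_simp
      ring
    rw [h3] at h1
    have h4 : (v - b) / b = (Lg b v + Ds N Λ i v - (Lg b b + Ds N Λ i b)) -
        (Lg b v - Lg b b - (v - b) / b) - (Ds N Λ i v - Ds N Λ i b) := by ring
    have h5 : ‖v - b‖ / ‖b‖ ≤ ‖Lg b v + Ds N Λ i v - (Lg b b + Ds N Λ i b)‖ +
        ‖Lg b v - Lg b b - (v - b) / b‖ + ‖Ds N Λ i v - Ds N Λ i b‖ := by
      rw [← hq]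
      nth_rewrite 1 [h4]
      refine (norm_sub_le _ _).trans ?_
      have := norm_sub_le (Lg b v + Ds N Λ i v - (Lg b b + Ds N Λ i b))
        (Lg b v - Lg b b - (v - b) / b)
      linarith
    have h6 : 0 ≤ ‖v - b‖ / ‖b‖ := by positivity
    have h7 : 3 / 5 * ‖v - b‖ / ‖b‖ = 3 / 5 * (‖v - b‖ / ‖b‖) := by ring
    rw [h7]
    linarith

end Pool.Agent.Work.MP_500150_lc.LC
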