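import Mathlib
import Pool.Agent.Work.MP_500150_lc.LC.StmtsC

/-!
# Locality of the computability of the Mandelbrot set: item EXQ (expansion)
-/

set_option autoImplicit false

namespace Pool.Agent.Work.MP_500150_lc.LC

open Metric Set Filter Topology MeasureTheory Pool.MP_500150_lc.H8

namespace I_EXQ

/-- a logarithm of `W` close to `L`, if the absolute values are close -/
theorem exists_log_near (L W : ℂ) (hW : W ≠ 0) :
    ∃ T : ℂ, Complex.exp T = W ∧ ‖T - L‖ ≤ |Real.log ‖W‖ - L.re| + Real.pi := by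
  have hpi := Real.pi_pos
  set x : ℝ := (L.im - (Complex.log W).im) / (2 * Real.pi) with hx
  refine ⟨Complex.log W + (round x : ℤ) * (2 * Real.pi * Complex.I), ?_, ?_⟩
  · rw [Complex.exp_add, Complex.exp_int_mul_two_pi_mul_I, mul_one, Complex.exp_log hW]
  · have h1 := Complex.norm_le_abs_re_add_abs_im
      (Complex.log W + (round x : ℤ) * (2 * Real.pi * Complex.I) - L)
    have h2 : (Complex.log W + (round x : ℤ) * (2 * Real.pi * Complex.I) - L).re =
        Real.log ‖W‖ - L.re := by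
      simp [Complex.log_re]
    have h3 : (Complex.log W + (round x : ℤ) * (2 * Real.pi * Complex.I) - L).im =
        -((x - (round x : ℝ)) * (2 * Real.pi)) := by
      have h4 : x * (2 * Real.pi) = L.im - (Complex.log W).im := by
        rw [hx]
        field_simp
      have h5 : (Complex.log W + (round x : ℤ) * (2 * Real.pi * Complex.I) - L).im =
          (Complex.log W).im + (round x : ℝ) * (2 * Real.pi) - L.im := by
        simp
      rw [h5, sub_mul, h4]
      ring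
    rw [h2, h3] at h1
    have h6 : |-((x - (round x : ℝ)) * (2 * Real.pi))| ≤ Real.pi := by
      rw [abs_neg, abs_mul, abs_of_pos (by positivity : (0 : ℝ) < 2 * Real.pi)]
      have := abs_sub_round x
      nlinarith
    linarith

end I_EXQ

open I_EXQ in
theorem EXQ_pf (hINB : S_INB) (hEXA : S_EXA) : S_EXQ := by
  intro c₁ N hc₁ hN hlt δ hδ hδ1 i W hW hlog
  have hN0 : N ≠ 0 := by
    rintro rfl
    rw [P_zero, norm_zero] at hN
    linarith
  obtain ⟨M, rfl⟩ := Nat.exists_eq_succ_of_ne_zero hN0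
  have hb403 : ‖P (M + 1) c₁‖ ≤ 403 := by
    rw [P_succ]
    have h1 := hlt M (Nat.lt_succ_self M)
    calc ‖P M c₁ ^ 2 + c₁‖ ≤ ‖P M c₁ ^ 2‖ + ‖c₁‖ := norm_add_le _ _
      _ = ‖P M c₁‖ ^ 2 + ‖c₁‖ := by rw [norm_pow]
      _ ≤ 403 := by nlinarith [norm_nonneg (P M c₁)]
  change 20 ≤ ‖P (M + 1) c₁‖ at hN
  obtain ⟨Λ, hΛd, hΛb, hΛ⟩ := hINB c₁ (M + 1) (by linarith) hN
  change ‖c₁‖ ≤ 3 at hc₁
  obtain ⟨E, hEd, hEe, hEx⟩ := hEXA (P (M + 1) c₁) (M + 1) i Λ hN hΛd hΛ
  generalize hb : P (M + 1) c₁ = b at hN hb403 hΛd hΛb hΛ hEd hEe hEx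
  have hbpos : 0 < ‖b‖ := by linarith
  have hbb : b ∈ ball b (‖b‖ / 2) := mem_ball_self (by linarith)
  -- the map `Λ` is Lipschitz at `b`
  have hLip : ∀ v ∈ closedBall b (δ / 8), ‖Λ v - c₁‖ ≤ δ / 4 := by
    intro v hv
    have hmaps : MapsTo Λ (ball b (‖b‖ / 2)) (closedBall (Λ b) (‖b‖ / 2 + 3)) := by
      intro u hu
      rw [mem_closedBall, dist_eq_norm, hΛb]
      have h1 := (hΛ u hu).1
      have h2 := norm_sub_le (Λ u) c₁
      linarith
    rw [mem_closedBall] at hv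
    have h1 := Complex.dist_le_div_mul_dist_of_mapsTo_ball hΛd hmaps
      (mem_ball.2 (by linarith) : v ∈ ball b (‖b‖ / 2))
    rw [hΛb, dist_eq_norm] at h1
    have h2 : (‖b‖ / 2 + 3) / (‖b‖ / 2) ≤ 2 := by
      rw [div_le_iff₀ (by linarith)]
      linarith
    calc ‖Λ v - c₁‖ ≤ (‖b‖ / 2 + 3) / (‖b‖ / 2) * dist v b := h1
      _ ≤ 2 * (δ / 8) := mul_le_mul h2 hv dist_nonneg (by norm_num)
      _ = δ / 4 := by ring
  -- the image of the disc under `E`
  have hδ8 : 0 < δ / 8 := by linarith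
  have hsub10 : closedBall b (δ / 8) ⊆ ball b (‖b‖ / 10) := closedBall_subset_ball (by linarith)
  have hsub2 : closedBall b (δ / 8) ⊆ ball b (‖b‖ / 2) := closedBall_subset_ball (by linarith)
  have hdc : DiffContOnCl ℂ E (ball b (δ / 8)) := by
    refine ⟨hEd.mono (ball_subset_closedBall.trans hsub2), ?_⟩
    rw [closure_ball b hδ8.ne']
    exact hEd.continuousOn.mono hsub2
  have hsph : ∀ z ∈ sphere b (δ / 8), 3 / 5 * (δ / 8) / ‖b‖ ≤ ‖E z - E b‖ := by
    intro z hz
    have h1 := hEx z (hsub10 (sphere_subset_closedBall hz))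
    rw [mem_sphere, dist_eq_norm] at hz
    rw [hz] at h1
    exact h1
  have hfr : ∃ᶠ z in 𝓝 b, E z ≠ E b := by
    intro hev
    have h1 : ∀ᶠ z in 𝓝 b, z ∈ ball b (‖b‖ / 10) := ball_mem_nhds b (by linarith)
    have h2 : ∀ᶠ z in 𝓝 b, z = b := by
      filter_upwards [hev, h1] with z hz1 hz2
      have h3 : E z = E b := not_not.1 hz1
      have h4 := hEx z hz2
      rw [h3, sub_self, norm_zero] at h4
      have h5 : ‖z - b‖ ≤ 0 := by
        by_contra h6
        push Not at h6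
        have h7 : 0 < 3 / 5 * ‖z - b‖ / ‖b‖ := by positivity
        linarith
      exact sub_eq_zero.1 (norm_eq_zero.1 (le_antisymm h5 (norm_nonneg _)))
    have h3 : ({b} : Set ℂ) ∈ 𝓝 b := by
      filter_upwards [h2] with z hz
      exact hz
    rw [_root_.mem_nhds_iff] at h3
    obtain ⟨s, hs1, hs2, hs3⟩ := h3
    rcases Set.subset_singleton_iff_eq.1 hs1 with h4 | h4
    · rw [h4] at hs3
      exact hs3
    · rw [h4] at hs2
      exact not_isOpen_singleton b hs2
  have himg := hdc.ball_subset_image_closedBall hδ8 hsph hfr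
  -- the logarithm
  obtain ⟨T, hT1, hT2⟩ := exists_log_near (2 ^ i * E b) W hW
  have hre : (2 ^ i * E b).re = Real.log ‖P (M + 1 + i) c₁‖ := by
    have h1 := hEe b hbb
    rw [hΛb] at h1
    rw [h1, Complex.norm_exp, Real.log_exp]
  have h2i : (0 : ℝ) < 2 ^ i := by positivity
  have hn2i : ‖(2 : ℂ) ^ i‖ = 2 ^ i := by
    rw [norm_pow, Complex.norm_ofNat]
  have hTn : ‖T - 2 ^ i * E b‖ < 2 ^ i * δ / 12000 := by
    rw [hre] at hT2
    have h3 := Real.pi_lt_four
    have h4 : |Real.log ‖W‖ - Real.log ‖P (M + 1 + i) c₁‖| ≤ 2 ^ i * δ / 12000 - 4 := hlog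
    linarith
  have hTE : T / 2 ^ i ∈ ball (E b) (3 / 5 * (δ / 8) / ‖b‖ / 2) := by
    rw [mem_ball, dist_eq_norm]
    have h1 : T / 2 ^ i - E b = (T - 2 ^ i * E b) / 2 ^ i := by
      field_simp
    rw [h1, norm_div, hn2i]
    calc ‖T - 2 ^ i * E b‖ / 2 ^ i < (2 ^ i * δ / 12000) / 2 ^ i := by
          exact div_lt_div_of_pos_right hTn h2i
      _ = δ / 12000 := by field_simp
      _ ≤ 3 / 5 * (δ / 8) / ‖b‖ / 2 := by
          rw [div_div, le_div_iff₀ (by positivity)]
          nlinarith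
  obtain ⟨v, hv, hvE⟩ := himg hTE
  refine ⟨Λ v, hLip v hv, ?_⟩
  have h1 := hEe v (hsub2 hv)
  change P (M + 1 + i) (Λ v) = W
  rw [h1, hvE, ← hT1]
  congr 1
  field_simp

end Pool.Agent.Work.MP_500150_lc.LC
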