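import Mathlib
import Pool.Agent.Work.MP_500150_lc.LC.StmtsF

set_option autoImplicit false

namespace Pool.Agent.Work.MP_500150_lc.LC

open Metric Set Filter Topology MeasureTheory Pool.MP_500150_lc.H8

namespace I_FIN

theorem compOn (U : Set ℂ) (h : CompM) : CompOn U := by
  obtain ⟨F, hF, h1⟩ := h
  exact ⟨F, hF, fun a b c d n _ => h1 a b c d n⟩

theorem timeOn_mono {U V : Set ℂ} (hUV : U ⊆ V) {m : ℕ → ℕ} (h : TimeOn V m) : TimeOn U m :=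
  fun k c hc => h k c (hUV hc)

end I_FIN

open I_FIN in
theorem FIN_pf (h1 : S_COR) (h2 : S_LSE) (h3 : S_LMA) (h4 : S_LDI) (h5 : S_TIM) (h6 : S_GLO) :
    S_FIN := by
  intro U hU hne
  have hsand : SandOn U → CompM := by
    intro h
    obtain ⟨V, hV, hV1, m, hm, hm1⟩ := h2 U hU hne h
    exact h6 V hV hV1 m hm hm1
  refine ⟨h1 U hU hne, ⟨compOn U, fun h => hsand (h4 U h)⟩, ⟨?_, ?_⟩,
    ⟨fun h => h4 U (compOn U h), hsand⟩, ⟨?_, ?_⟩⟩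
  · intro h
    obtain ⟨m, hm, hm1⟩ := h5 h
    exact ⟨m, hm, timeOn_mono (subset_univ U) hm1⟩
  · rintro ⟨m, hm, hm1⟩
    exact h6 U hU hne m hm hm1
  · intro h
    obtain ⟨f, ρ, hf, hρ, h7⟩ := comp_iff_maj.1 h
    exact ⟨f, ρ, hf, hρ, fun k => ⟨(h7 k).1, fun X hX Y hY _ => (h7 k).2 X hX Y hY⟩⟩
  · intro h
    obtain ⟨V, hV, hV1, m, hm, hm1⟩ := h3 U hU hne h
    exact h6 V hV hV1 m hm hm1

end Pool.Agent.Work.MP_500150_lc.LC
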