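import Mathlib
import Pool.Agent.Work.MP_500150_lc.LC.Stmts

set_option autoImplicit false

namespace Pool.Agent.Work.MP_500150_lc.LC

open Metric Set Filter Topology MeasureTheory Pool.MP_500150_lc.H8

namespace I_FIP

lemma fi_zero (c z : ℂ) : fi 0 c z = z := rfl

lemma fi_succ (n : ℕ) (c z : ℂ) : fi (n + 1) c z = fi n c (z ^ 2 + c) := by
  unfold fi
  rw [Function.iterate_succ_apply]

lemma fi_succ' (n : ℕ) (c z : ℂ) : fi (n + 1) c z = (fi n c z) ^ 2 + c := by
  unfold fi
  rw [Function.iterate_succ_apply']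

lemma P_eq (n : ℕ) (c : ℂ) : P n c = fi n c 0 := rfl

end I_FIP

open I_FIP

theorem FIP_pf : S_FIP := by
  refine ⟨P_eq, fun n c => ?_, fun m n c z => ?_, fun n => ?_, fi_succ, fi_succ'⟩
  · rw [P_eq, fi_succ]
    congr 1
    ring
  · unfold fi
    rw [Function.iterate_add_apply]
  · induction n with
    | zero =>
      have h : (fun q : ℂ × ℂ => fi 0 q.1 q.2) = fun q : ℂ × ℂ => q.2 := by
        funext q
        exact fi_zero _ _
      rw [h]
      exact analyticOnNhd_snd
    | succ n ih =>
      have h : (fun q : ℂ × ℂ => fi (n + 1) q.1 q.2) =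
          fun q : ℂ × ℂ => (fi n q.1 q.2) ^ 2 + q.1 := by
        funext q
        exact fi_succ' _ _ _
      rw [h]
      exact (ih.pow 2).add analyticOnNhd_fst

end Pool.Agent.Work.MP_500150_lc.LC
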