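import Mathlib
import Pool.Agent.Work.MP_500150_lc.LC.Stmts

set_option autoImplicit false

namespace Pool.Agent.Work.MP_500150_lc.LC

open Metric Set Filter Topology MeasureTheory Pool.MP_500150_lc.H8

namespace I_FRO

/-- the real critical orbit -/
noncomputable def rr (x : ℝ) : ℕ → ℝ
  | 0 => 0
  | n + 1 => (rr x n) ^ 2 + x

lemma P_real (x : ℝ) (n : ℕ) : P n (x : ℂ) = ((rr x n : ℝ) : ℂ) := by
  induction n with
  | zero => rw [P_zero]; simp [rr]
  | succ n ih =>
    rw [P_succ, ih]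
    simp only [rr]
    push_cast
    ring

lemma big (x : ℝ) (n : ℕ) : (n : ℝ) * (x - 1 / 4) ≤ rr x n := by
  induction n with
  | zero => simp [rr]
  | succ n ih =>
    simp only [rr]
    push_cast
    nlinarith [sq_nonneg (rr x n - 1 / 2)]

lemma not_mem {x : ℝ} (hx : 1 / 4 < x) : (x : ℂ) ∉ MM := by
  intro h
  rw [mem_MM] at h
  obtain ⟨n, hn⟩ := exists_nat_gt (2 / (x - 1 / 4))
  have hpos : 0 < x - 1 / 4 := by linarith
  have h1 := h n
  rw [P_real, Complex.norm_real, Real.norm_eq_abs] at h1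
  have h2 : (2 : ℝ) < n * (x - 1 / 4) := by
    rwa [div_lt_iff₀ hpos] at hn
  have h3 := big x n
  have h4 := le_abs_self (rr x n)
  linarith

lemma small {x : ℝ} (h0 : 0 ≤ x) (h1 : x ≤ 1 / 4) (n : ℕ) : 0 ≤ rr x n ∧ rr x n ≤ 1 / 2 := by
  induction n with
  | zero => simp [rr]
  | succ n ih =>
    obtain ⟨h2, h3⟩ := ih
    simp only [rr]
    constructor
    · positivity
    · nlinarith

lemma mem {x : ℝ} (h0 : 0 ≤ x) (h1 : x ≤ 1 / 4) : (x : ℂ) ∈ MM := by
  rw [mem_MM]
  intro n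
  rw [P_real, Complex.norm_real, Real.norm_eq_abs]
  obtain ⟨h2, h3⟩ := small h0 h1 n
  rw [abs_of_nonneg h2]
  linarith

lemma off {c : ℂ} (h : 1 - 4 * c ∉ Complex.slitPlane) : c.im = 0 ∧ 1 / 4 ≤ c.re := by
  rw [Complex.mem_slitPlane_iff] at h
  push Not at h
  obtain ⟨h1, h2⟩ := h
  simp at h1 h2
  constructor
  · exact h2
  · linarith

end I_FRO

open I_FRO

theorem FRO_pf : S_FRO := by
  rintro U hU ⟨c₀, hc₀U, hc₀⟩
  by_cases hs : 1 - 4 * c₀ ∈ Complex.slitPlane
  · exact ⟨c₀, hc₀U, hc₀, hs⟩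
  obtain ⟨him, hre⟩ := off hs
  have hc₀M : c₀ ∈ MM := isClosed_MM.frontier_subset hc₀
  have hc₀r : c₀ = ((c₀.re : ℝ) : ℂ) := by
    apply Complex.ext
    · simp
    · simp [him]
  have hq : c₀.re = 1 / 4 := by
    by_contra hne
    have hlt : 1 / 4 < c₀.re := lt_of_le_of_ne hre (Ne.symm hne)
    apply not_mem hlt
    rw [← hc₀r]
    exact hc₀M
  -- a small disc
  obtain ⟨ρ₀, hρ₀, hball₀⟩ := Metric.isOpen_iff.mp hU c₀ hc₀U
  set ρ : ℝ := min ρ₀ (1 / 4) with hρdef
  have hρ : 0 < ρ := lt_min hρ₀ (by norm_num)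
  have hρ4 : ρ ≤ 1 / 4 := min_le_right _ _
  have hball : ball c₀ ρ ⊆ U := (ball_subset_ball (min_le_left _ _)).trans hball₀
  -- a point outside of the set in the disc
  have hnint : c₀ ∉ interior MM := by
    intro h1
    rw [frontier, Set.mem_sdiff] at hc₀
    exact hc₀.2 h1
  obtain ⟨e, he, heM⟩ : ∃ e ∈ ball c₀ ρ, e ∉ MM := by
    by_contra hno
    push Not at hno
    exact hnint (mem_interior.mpr ⟨ball c₀ ρ, hno, isOpen_ball, mem_ball_self hρ⟩)
  -- with non-zero imaginary part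
  obtain ⟨e', he', heM', him'⟩ : ∃ e' ∈ ball c₀ ρ, e' ∉ MM ∧ e'.im ≠ 0 := by
    by_cases hei : e.im = 0
    · have hopen : IsOpen (ball c₀ ρ ∩ MMᶜ) := isOpen_ball.inter isClosed_MM.isOpen_compl
      obtain ⟨δ, hδ, hsub⟩ := Metric.isOpen_iff.mp hopen e ⟨he, heM⟩
      have hin : e + ((δ / 2 : ℝ) : ℂ) * Complex.I ∈ ball e δ := by
        rw [mem_ball, dist_eq_norm, add_sub_cancel_left, norm_mul, Complex.norm_real,
          Complex.norm_I, mul_one, Real.norm_eq_abs, abs_of_pos (by linarith)]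
        linarith
      refine ⟨_, (hsub hin).1, (hsub hin).2, ?_⟩
      simp only [Complex.add_im, Complex.mul_im, Complex.ofReal_re, Complex.I_im, mul_one,
        Complex.ofReal_im, Complex.I_re, mul_zero, add_zero, hei, zero_add]
      have : 0 < δ / 2 := by linarith
      exact this.ne'
    · exact ⟨e, he, heM, hei⟩
  -- a point of the set
  set m : ℝ := 1 / 4 - ρ / 2 with hm
  have hmM : (m : ℂ) ∈ MM := mem (by rw [hm]; linarith) (by rw [hm]; linarith)
  have hmball : (m : ℂ) ∈ ball c₀ ρ := by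
    rw [mem_ball, dist_eq_norm, hc₀r, hq, ← Complex.ofReal_sub, Complex.norm_real,
      Real.norm_eq_abs, hm]
    rw [abs_of_nonpos (by linarith)]
    linarith
  have hseg : segment ℝ (m : ℂ) e' ⊆ ball c₀ ρ := (convex_ball c₀ ρ).segment_subset hmball he'
  have hpre : IsPreconnected (segment ℝ (m : ℂ) e') := (convex_segment _ _).isPreconnected
  obtain ⟨c, hc, hcf⟩ : ∃ c ∈ segment ℝ (m : ℂ) e', c ∈ frontier MM := by
    by_contra hno
    push Not at hno
    have hcov : ∀ c ∈ segment ℝ (m : ℂ) e', c ∈ MM → c ∈ interior MM := by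
      intro c hc hcM
      by_contra hci
      apply hno c hc
      rw [frontier, isClosed_MM.closure_eq]
      exact ⟨hcM, hci⟩
    obtain ⟨c, -, hc1, hc2⟩ := hpre (interior MM) MMᶜ isOpen_interior isClosed_MM.isOpen_compl
      (fun c hc => by
        by_cases hcM : c ∈ MM
        · exact Or.inl (hcov c hc hcM)
        · exact Or.inr hcM)
      ⟨(m : ℂ), left_mem_segment ℝ _ _, hcov _ (left_mem_segment ℝ _ _) hmM⟩
      ⟨e', right_mem_segment ℝ _ _, heM'⟩
    exact hc2 (interior_subset hc1)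
  refine ⟨c, hball (hseg hc), hcf, ?_⟩
  obtain ⟨s, t, hs0, ht0, hst, rfl⟩ := hc
  rw [Complex.mem_slitPlane_iff]
  by_cases ht : t = 0
  · left
    have hs1 : s = 1 := by linarith
    rw [ht, hs1]
    simp
    rw [hm]
    linarith
  · right
    simp
    exact ⟨ht, him'⟩

end Pool.Agent.Work.MP_500150_lc.LC
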