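import Mathlib
import Pool.Agent.Work.MP_500150_lc.LC.StmtsF

set_option autoImplicit false

namespace Pool.Agent.Work.MP_500150_lc.LC

open Metric Set Filter Topology Pool.MP_500150_lc.H8

theorem GLO_pf (hCOR : S_COR) : S_GLO := by
  intro U hU hUM m hm hT
  obtain ⟨C, hC⟩ := hCOR U hU hUM
  have hm' : Computable fun k : ℕ => m (C * 2 ^ k) :=
    hm.comp (cmul (Computable.const C) (cpow2 Computable.id))
  refine comp_of_time hm' (fun k w hw => ?_)
  by_contra hcon
  push Not at hcon
  obtain ⟨c', hc', N', hN', hd, hP⟩ := hC k (m (C * 2 ^ k)) w hw hcon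
  have := hT (C * 2 ^ k) c' hc' hd N' hN'
  linarith

end Pool.Agent.Work.MP_500150_lc.LC
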