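import Mathlib
import Pool.Agent.Work.MP_500150_lc.LC.Stmts

set_option autoImplicit false

namespace Pool.Agent.Work.MP_500150_lc.LC

open Metric Set Filter Topology MeasureTheory Pool.MP_500150_lc.H8

namespace I_GRZ

theorem fi_succ (n : ℕ) (c z : ℂ) : fi (n + 1) c z = (fi n c z) ^ 2 + c := by
  unfold fi
  rw [Function.iterate_succ_apply']

end I_GRZ

open I_GRZ in
theorem GRZ_pf : S_GRZ := by
  intro c z hc hz
  set s : ℝ := Real.sqrt (‖z‖ ^ 2 - 4) with hs
  have hs2 : s ^ 2 = ‖z‖ ^ 2 - 4 := Real.sq_sqrt (by nlinarith)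
  have hs0 : 0 ≤ s := Real.sqrt_nonneg _
  set u : ℝ := (‖z‖ + s) / 2 with hu
  have hu1 : 1 < u := by rw [hu]; linarith
  have hinv : u⁻¹ = (‖z‖ - s) / 2 := by
    rw [inv_eq_one_div, div_eq_iff (by linarith), hu]
    nlinarith
  have hg : 0 < Real.log u := Real.log_pos hu1
  refine ⟨Real.log u, hg, ?_⟩
  have key : ∀ n : ℕ, Real.exp (Real.log u * 2 ^ n) + Real.exp (-(Real.log u * 2 ^ n)) ≤
      ‖fi n c z‖ := by
    intro n
    induction n with
    | zero =>
      rw [pow_zero, mul_one, Real.exp_neg, Real.exp_log (by linarith), hinv]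
      change u + (‖z‖ - s) / 2 ≤ ‖z‖
      rw [hu]
      linarith
    | succ n ih =>
      rw [fi_succ]
      have h1 : ‖fi n c z‖ ^ 2 - 2 ≤ ‖(fi n c z) ^ 2 + c‖ := by
        have h2 := norm_sub_norm_le ((fi n c z) ^ 2) (-c)
        rw [sub_neg_eq_add, norm_neg, norm_pow] at h2
        linarith
      refine le_trans ?_ h1
      set a : ℝ := Real.exp (Real.log u * 2 ^ n) with ha
      set b : ℝ := Real.exp (-(Real.log u * 2 ^ n)) with hb
      have hab : a * b = 1 := by rw [ha, hb, ← Real.exp_add, add_neg_cancel, Real.exp_zero]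
      have ha2 : Real.exp (Real.log u * 2 ^ (n + 1)) = a ^ 2 := by
        rw [ha, ← Real.exp_nat_mul]
        congr 1
        push_cast
        ring
      have hb2 : Real.exp (-(Real.log u * 2 ^ (n + 1))) = b ^ 2 := by
        rw [hb, ← Real.exp_nat_mul]
        congr 1
        push_cast
        ring
      rw [ha2, hb2]
      have hap : 0 < a := Real.exp_pos _
      have hbp : 0 < b := Real.exp_pos _
      have h3 : (a + b) ^ 2 ≤ ‖fi n c z‖ ^ 2 := pow_le_pow_left₀ (by linarith) ih 2
      nlinarith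
  intro n
  have h1 := key n
  have h2 := Real.exp_pos (-(Real.log u * 2 ^ n))
  linarith

end Pool.Agent.Work.MP_500150_lc.LC
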