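import Mathlib
import Pool.Agent.Work.MP_500150_lc.LC.StmtsC

set_option autoImplicit false

/-!
# Locality of the computability of the Mandelbrot set: item HAK (Harnack's inequality)
-/

namespace Pool.Agent.Work.MP_500150_lc.LC

open Metric Set Filter Topology MeasureTheory Pool.MP_500150_lc.H8

theorem HAK_pf (hSHK : S_SHK) : S_HAK := by
  intro g hg h
  have h0 : (0 : ℂ) ∈ ball (0 : ℂ) 3 := mem_ball_self (by norm_num)
  have h1 : (1 : ℂ) ∈ ball (0 : ℂ) 3 := by
    rw [mem_ball, dist_zero_right, norm_one]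
    norm_num
  have key := hSHK (fun z => (g z)⁻¹) 0 1 3 (1 / 3) (by norm_num) (by norm_num) (by norm_num)
    (hg.inv fun z hz => (h z hz).1) (fun z hz => by
      rw [norm_inv]
      exact (one_lt_inv₀ (norm_pos_iff.2 (h z hz).1)).2 (h z hz).2) (by
      rw [sub_zero, norm_one]
      norm_num)
  rw [norm_inv, norm_inv, Real.log_inv, Real.log_inv] at key
  have hp0 : 0 < ‖g 0‖ := norm_pos_iff.2 (h 0 h0).1
  have hp1 : 0 < ‖g 1‖ := norm_pos_iff.2 (h 1 h1).1
  rw [← Real.log_le_log_iff (by positivity) hp1, Real.log_pow]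
  norm_num at key
  push_cast
  linarith

end Pool.Agent.Work.MP_500150_lc.LC
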