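import Mathlib
import Pool.Agent.Work.MP_500150_lc.LC.StmtsC

set_option autoImplicit false

/-!
# Locality of the computability of the Mandelbrot set: item INB (inverse branches)
-/

namespace Pool.Agent.Work.MP_500150_lc.LC

open Metric Set Filter Topology MeasureTheory Pool.MP_500150_lc.H8

theorem INB_pf (hOXZ : S_OXZ) (hSEC : S_SEC) (hDWN : S_DWN) : S_INB := by
  intro c₁ N hc₁ hN
  have hw : 0 < ‖P N c₁‖ := by linarith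
  have hN2 : 2 ≤ N := by
    rcases N with _ | _ | N
    · rw [P_zero, norm_zero] at hN
      norm_num at hN
    · rw [zero_add, P_one] at hN
      linarith
    · omega
  have hES : (c₁, (0 : ℂ)) ∈ ES ‖P N c₁‖ (fun q : ℂ × ℂ => q.2) N := by
    refine ⟨?_, ?_, fun i _ hi => ?_, ?_, ?_⟩
    · show ‖c₁‖ < ‖P N c₁‖ / 2
      linarith
    · show ‖(0 : ℂ)‖ < 3
      rw [norm_zero]
      norm_num
    · show ‖OX (fun q : ℂ × ℂ => q.2) 0 c₁ i‖ < ‖P N c₁‖ / 2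
      rw [hOXZ.1]
      exact hDWN c₁ N hc₁ hN i hi
    · show ‖P N c₁‖ / 2 < ‖OX (fun q : ℂ × ℂ => q.2) 0 c₁ N‖
      rw [hOXZ.1]
      linarith
    · show ‖OX (fun q : ℂ × ℂ => q.2) 0 c₁ N‖ < 3 * ‖P N c₁‖ / 2
      rw [hOXZ.1]
      linarith
  obtain ⟨Λ, hΛd, hΛ0, hΛ⟩ := hSEC ‖P N c₁‖ (fun q : ℂ × ℂ => q.2) N (P N c₁) c₁
    (hOXZ.2.2.1 _ hN) hN2 rfl hES (hOXZ.1 _ _ _)
  have hmem : ∀ v ∈ ball (P N c₁) (‖P N c₁‖ / 2),
      (v, (0 : ℂ)) ∈ ball (P N c₁) (‖P N c₁‖ / 2) ×ˢ ball (0 : ℂ) 3 := fun v hv =>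
    ⟨hv, mem_ball_self (by norm_num)⟩
  refine ⟨fun v => Λ (v, 0), ?_, hΛ0, fun v hv => ?_⟩
  · exact hΛd.comp (by fun_prop : DifferentiableOn ℂ (fun v : ℂ => (v, (0 : ℂ))) _) hmem
  · obtain ⟨h1, h2⟩ := hΛ (v, 0) (hmem v hv)
    refine ⟨h1.1, ?_⟩
    rw [← hOXZ.1 (fun q : ℂ × ℂ => q.2) (Λ (v, 0)) N]
    exact h2

end Pool.Agent.Work.MP_500150_lc.LC
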