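import Mathlib
import Pool.Agent.Work.MP_500150_lc.LC.Stmts

/-! # MP_500150_lc, block LC, item INV: functions close to the identity. -/

set_option autoImplicit false

namespace Pool.Agent.Work.MP_500150_lc.LC

open Metric Set Filter Topology MeasureTheory Pool.MP_500150_lc.H8

namespace I_INV

theorem diffE {F : ℂ → ℂ} {R : ℝ} (hF : DifferentiableOn ℂ F (ball 0 R)) {x : ℂ}
    (hx : x ∈ ball (0 : ℂ) R) : DifferentiableAt ℂ (fun z => F z - z) x :=
  (hF.differentiableAt (isOpen_ball.mem_nhds hx)).sub differentiableAt_id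

theorem derivE {F : ℂ → ℂ} {R : ℝ} (hR : 0 < R) (hF : DifferentiableOn ℂ F (ball 0 R))
    (hb : ∀ x ∈ ball (0 : ℂ) R, ‖F x - x‖ ≤ R / 8) {x : ℂ} (hx : x ∈ ball (0 : ℂ) (R / 2)) :
    ‖deriv (fun z => F z - z) x‖ ≤ 1 / 4 := by
  have hsub : closedBall x (R / 2) ⊆ ball (0 : ℂ) R := by
    intro z hz
    rw [mem_closedBall, dist_eq_norm] at hz
    rw [mem_ball_zero_iff] at hx ⊢
    calc ‖z‖ = ‖(z - x) + x‖ := by rw [sub_add_cancel]
      _ ≤ ‖z - x‖ + ‖x‖ := norm_add_le _ _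
      _ < R := by linarith
  have hd : DifferentiableOn ℂ (fun z => F z - z) (closure (ball x (R / 2))) := by
    rw [closure_ball _ (by positivity)]
    exact fun z hz => (diffE hF (hsub hz)).differentiableWithinAt
  have h1 := Complex.norm_deriv_le_of_forall_mem_sphere_norm_le (C := R / 8) (c := x)
    (R := R / 2) (f := fun z => F z - z) (by positivity) hd.diffContOnCl
    (fun z hz => hb z (hsub (sphere_subset_closedBall hz)))
  refine h1.trans (le_of_eq ?_)
  field_simp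
  norm_num

theorem lipE {F : ℂ → ℂ} {R : ℝ} (hR : 0 < R) (hF : DifferentiableOn ℂ F (ball 0 R))
    (hb : ∀ x ∈ ball (0 : ℂ) R, ‖F x - x‖ ≤ R / 8) {x x' : ℂ} (hx : x ∈ ball (0 : ℂ) (R / 2))
    (hx' : x' ∈ ball (0 : ℂ) (R / 2)) : ‖(F x - x) - (F x' - x')‖ ≤ 1 / 4 * ‖x - x'‖ :=
  Convex.norm_image_sub_le_of_norm_deriv_le (f := fun z => F z - z) (s := ball (0 : ℂ) (R / 2))
    (fun z hz => diffE hF (ball_subset_ball (by linarith) hz))
    (fun z hz => derivE hR hF hb hz) (convex_ball _ _) hx' hx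

theorem exists_sol {F : ℂ → ℂ} {R : ℝ} (hR : 0 < R) (hF : DifferentiableOn ℂ F (ball 0 R))
    (hb : ∀ x ∈ ball (0 : ℂ) R, ‖F x - x‖ ≤ R / 8) {y : ℂ} (hy : y ∈ ball (0 : ℂ) (R / 4)) :
    ∃ x ∈ ball (0 : ℂ) (R / 2), F x = y := by
  have hcb : closedBall (0 : ℂ) (3 * R / 8) ⊆ ball (0 : ℂ) (R / 2) :=
    closedBall_subset_ball (by linarith)
  have hmaps : MapsTo (fun x => y - (F x - x)) (closedBall (0 : ℂ) (3 * R / 8))
      (closedBall (0 : ℂ) (3 * R / 8)) := by
    intro x hx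
    have h1 := hb x (ball_subset_ball (by linarith) (hcb hx))
    rw [mem_ball_zero_iff] at hy
    rw [mem_closedBall_zero_iff]
    calc ‖y - (F x - x)‖ ≤ ‖y‖ + ‖F x - x‖ := norm_sub_le _ _
      _ ≤ 3 * R / 8 := by linarith
  have hcon : ContractingWith (1 / 4) (hmaps.restrict _ _ _) := by
    refine ⟨by
      rw [← NNReal.coe_lt_coe]
      norm_num, ?_⟩
    refine LipschitzWith.of_dist_le_mul ?_
    rintro ⟨a, ha⟩ ⟨b, hb'⟩
    rw [Subtype.dist_eq, Subtype.dist_eq, MapsTo.val_restrict_apply, MapsTo.val_restrict_apply,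
      dist_eq_norm, dist_eq_norm]
    have h1 := lipE hR hF hb (hcb hb') (hcb ha)
    calc ‖(y - (F a - a)) - (y - (F b - b))‖ = ‖(F b - b) - (F a - a)‖ := by ring_nf
      _ ≤ 1 / 4 * ‖b - a‖ := h1
      _ = ((1 / 4 : NNReal) : ℝ) * ‖a - b‖ := by
        rw [norm_sub_rev]
        norm_num
  obtain ⟨x, hx, hfix, -⟩ := hcon.exists_fixedPoint' isClosed_closedBall.isComplete hmaps
    (x := (0 : ℂ)) (mem_closedBall_self (by positivity)) (edist_ne_top _ _)
  refine ⟨x, hcb hx, ?_⟩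
  have h2 : y - (F x - x) = x := hfix
  linear_combination -h2

end I_INV

theorem INV_pf : S_INV := by
  intro F R hR hF hb
  have hlip : ∀ x ∈ ball (0 : ℂ) (R / 2), ∀ x' ∈ ball (0 : ℂ) (R / 2),
      ‖F x - F x' - (x - x')‖ ≤ ‖x - x'‖ / 4 := by
    intro x hx x' hx'
    have h1 := I_INV.lipE hR hF hb hx hx'
    have h2 : F x - F x' - (x - x') = (F x - x) - (F x' - x') := by ring
    rw [h2]
    linarith
  refine ⟨hlip, ?_⟩
  have hex : ∀ y : ℂ, ∃ x : ℂ, y ∈ ball (0 : ℂ) (R / 4) → x ∈ ball (0 : ℂ) (R / 2) ∧ F x = y := by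
    intro y
    by_cases hy : y ∈ ball (0 : ℂ) (R / 4)
    · obtain ⟨x, hx, hxy⟩ := I_INV.exists_sol hR hF hb hy
      exact ⟨x, fun _ => ⟨hx, hxy⟩⟩
    · exact ⟨0, fun h => absurd h hy⟩
  choose G hG using hex
  refine ⟨G, ?_, hG⟩
  intro y hy
  have hGlip : ∀ z ∈ ball (0 : ℂ) (R / 4), ‖G z - G y‖ ≤ 4 / 3 * ‖z - y‖ := by
    intro z hz
    obtain ⟨h1, h2⟩ := hG z hz
    obtain ⟨h3, h4⟩ := hG y hy
    have h5 := hlip _ h1 _ h3
    rw [h2, h4] at h5
    have h6 : ‖G z - G y‖ ≤ ‖z - y‖ + ‖z - y - (G z - G y)‖ := by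
      calc ‖G z - G y‖ = ‖(z - y) - (z - y - (G z - G y))‖ := by ring_nf
        _ ≤ _ := norm_sub_le _ _
    linarith
  have hcont : ContinuousAt G y := by
    rw [ContinuousAt, tendsto_iff_norm_sub_tendsto_zero]
    have h7 : Tendsto (fun z : ℂ => 4 / 3 * ‖z - y‖) (𝓝 y) (𝓝 0) := by
      have h8 : Continuous (fun z : ℂ => 4 / 3 * ‖z - y‖) := by fun_prop
      have h9 := h8.tendsto y
      simpa using h9
    refine squeeze_zero' (Eventually.of_forall fun z => norm_nonneg _) ?_ h7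
    filter_upwards [isOpen_ball.mem_nhds hy] with z hz
    exact hGlip z hz
  have hGy := (hG y hy).1
  have hGyR : G y ∈ ball (0 : ℂ) R := ball_subset_ball (by linarith) hGy
  have hFd : DifferentiableAt ℂ F (G y) := hF.differentiableAt (isOpen_ball.mem_nhds hGyR)
  have hne : deriv F (G y) ≠ 0 := by
    intro h0
    have h1 := I_INV.derivE hR hF hb hGy
    have h2 : deriv (fun z => F z - z) (G y) = deriv F (G y) - 1 := by
      have h3 : HasDerivAt (fun z => F z - z) (deriv F (G y) - 1) (G y) :=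
        hFd.hasDerivAt.sub (hasDerivAt_id _)
      exact h3.deriv
    rw [h2, h0, zero_sub, norm_neg, norm_one] at h1
    norm_num at h1
  have hfg : ∀ᶠ z in 𝓝 y, F (G z) = z := by
    filter_upwards [isOpen_ball.mem_nhds hy] with z hz
    exact (hG z hz).2
  exact (HasDerivAt.of_local_left_inverse hcont hFd.hasDerivAt hne
    hfg).differentiableAt.differentiableWithinAt

end Pool.Agent.Work.MP_500150_lc.LC
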