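import Mathlib
import Pool.Agent.Work.MP_500150_lc.LC.StmtsC

set_option autoImplicit false

namespace Pool.Agent.Work.MP_500150_lc.LC

open Metric Set Filter Topology MeasureTheory Pool.MP_500150_lc.H8

namespace I_ITR

theorem OX_shift (J : ℂ × ℂ → ℂ) (s lam : ℂ) (i k : ℕ) (h : OX J s lam i = OX J s lam k) (j : ℕ) :
    OX J s lam (i + j) = OX J s lam (k + j) := by
  induction j with
  | zero => exact h
  | succ j ih =>
    rw [← Nat.add_assoc, ← Nat.add_assoc]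
    change lam + (Js J s lam (OX J s lam (i + j))) ^ 2 = lam + (Js J s lam (OX J s lam (k + j))) ^ 2
    rw [ih]

theorem OX_ne (w : ℝ) (J : ℂ × ℂ → ℂ) (N : ℕ) (q : ℂ × ℂ) (hq : q ∈ ES w J N) (i k : ℕ)
    (hi : 1 ≤ i) (hik : i < k) (hk : k ≤ N) : OX J q.2 q.1 i ≠ OX J q.2 q.1 k := by
  intro h
  have h1 := OX_shift J q.2 q.1 i k h (N - k)
  have h2 : k + (N - k) = N := by omega
  rw [h2] at h1
  have h3 := hq.2.2.1 (i + (N - k)) (by omega) (by omega)
  rw [h1] at h3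
  exact absurd h3 (not_lt.mpr hq.2.2.2.1.le)

end I_ITR

open I_ITR in
theorem ITR_pf (h1 : S_OXZ) (h2 : S_ANX) (h3 : S_LFT) : S_ITR := by
  intro w J N hF hN q hq
  obtain ⟨hop, han⟩ := h2 w J N hF hN
  have hcont : Continuous fun t : ℂ => (q.1 + t, q.2) := by fun_prop
  have hopen : IsOpen {t : ℂ | (q.1 + t, q.2) ∈ ES w J N} := hop.preimage hcont
  have h0mem : (0 : ℂ) ∈ {t : ℂ | (q.1 + t, q.2) ∈ ES w J N} := by
    change (q.1 + 0, q.2) ∈ ES w J N
    rw [add_zero]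
    exact hq
  obtain ⟨ε, hε, hball⟩ := Metric.isOpen_iff.1 hopen 0 h0mem
  have hmem : ∀ t ∈ ball (0 : ℂ) ε, (q.1 + t, q.2) ∈ ES w J N := fun t ht => hball ht
  obtain ⟨b, hb⟩ : ∃ b, b = OX J q.2 q.1 N := ⟨_, rfl⟩
  obtain ⟨X, hX⟩ : ∃ X : ℕ → ℂ, X = fun i => OX J q.2 q.1 i := ⟨_, rfl⟩
  have hX1 : X 1 = q.1 := by
    rw [hX]
    exact h1.2.1 w J hF q.2 q.1 hq.1
  have hXs : ∀ i, X (i + 1) = q.1 + (Js J q.2 q.1 (X i)) ^ 2 := by
    intro i
    rw [hX]
    rfl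
  have hb1 : w / 2 < ‖b‖ := by
    rw [hb]
    exact hq.2.2.2.1
  have hb2 : ‖b‖ < 3 * w / 2 := by
    rw [hb]
    exact hq.2.2.2.2
  have step : ∀ h : {h : ℕ → ℂ → ℂ // Mot w N b ε h ∧ ∀ i, 1 ≤ i → i < N → h i 0 = X i},
      ∃ h' : {h : ℕ → ℂ → ℂ // Mot w N b ε h ∧ ∀ i, 1 ≤ i → i < N → h i 0 = X i},
        Lif J q.2 N ε h.1 h'.1 := by
    rintro ⟨h, hM, hv⟩
    have hz : ∀ i, 1 ≤ i → i < N → ‖X i‖ < w / 2 ∧
        h (i + 1) 0 = h 1 0 + (Js J q.2 (h 1 0) (X i)) ^ 2 := by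
      intro i hi hiN
      refine ⟨?_, ?_⟩
      · rw [hX]
        exact hq.2.2.1 i hi hiN
      · rw [hv 1 le_rfl (by omega), hX1, ← hXs i]
        rcases Nat.lt_or_ge (i + 1) N with h4 | h4
        · exact hv (i + 1) (by omega) h4
        · have h5 : i + 1 = N := by omega
          rw [h5, hM.top 0 (mem_ball_self hε), hb, hX]
    obtain ⟨h', hM', hL, hv'⟩ := h3 w J hF q.2 b N ε hq.2.1 hN hε hb1 hb2 h hM X hz
    exact ⟨⟨h', hM', hv'⟩, hL⟩
  choose f hf using step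
  have hM0 : Mot w N b ε (fun i t => if i < N then OX J q.2 (q.1 + t) i else b) := by
    refine ⟨?_, ?_, ?_, ?_⟩
    · intro i hi hiN
      by_cases hlt : i < N
      · simp only [if_pos hlt]
        intro t ht
        have ha : DifferentiableAt ℂ (fun p : ℂ × ℂ => OX J p.2 p.1 i) (q.1 + t, q.2) :=
          (han i hiN (q.1 + t, q.2) (hmem t ht)).differentiableAt
        have hc : DifferentiableAt ℂ (fun t : ℂ => (q.1 + t, q.2)) t := by fun_prop
        have hcomp := DifferentiableAt.comp (g := fun p : ℂ × ℂ => OX J p.2 p.1 i) t ha hc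
        exact hcomp.differentiableWithinAt
      · simp only [if_neg hlt]
        exact differentiableOn_const b
    · intro i hi hiN t ht
      simp only [if_pos hiN]
      exact (hmem t ht).2.2.1 i hi hiN
    · intro t _
      simp
    · intro i k hi hik hk t ht
      have hiN : i < N := by omega
      simp only [if_pos hiN]
      by_cases hkN : k < N
      · simp only [if_pos hkN]
        exact OX_ne w J N (q.1 + t, q.2) (hmem t ht) i k hi hik hk
      · simp only [if_neg hkN]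
        intro hcon
        have h5 : ‖OX J q.2 (q.1 + t) i‖ < w / 2 := (hmem t ht).2.2.1 i hi hiN
        rw [hcon] at h5
        exact absurd h5 (not_lt.mpr hb1.le)
  have hv0 : ∀ i, 1 ≤ i → i < N →
      (fun (i : ℕ) (t : ℂ) => if i < N then OX J q.2 (q.1 + t) i else b) i 0 = X i := by
    intro i hi hiN
    simp only [if_pos hiN]
    rw [add_zero, hX]
  obtain ⟨g, hg0, hgs⟩ : ∃ g : ℕ → {h : ℕ → ℂ → ℂ // Mot w N b ε h ∧
      ∀ i, 1 ≤ i → i < N → h i 0 = X i}, g 0 = ⟨_, hM0, hv0⟩ ∧ ∀ k, g (k + 1) = f (g k) :=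
    ⟨fun k => Nat.rec ⟨_, hM0, hv0⟩ (fun _ x => f x) k, rfl, fun _ => rfl⟩
  refine ⟨ε, fun k => (g k).1, hε, hmem, ?_, ?_, ?_, ?_⟩
  · intro i hi hiN t ht
    simp only [hg0, if_pos hiN]
  · intro k
    rw [← hb]
    exact (g k).2.1
  · intro k
    change Lif J q.2 N ε (g k).1 (g (k + 1)).1
    rw [hgs k]
    exact hf (g k)
  · intro k i hi hiN
    have h9 : (g k).1 i 0 = X i := (g k).2.2 i hi hiN
    exact h9.trans (congrFun hX i)

end Pool.Agent.Work.MP_500150_lc.LC
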