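import Mathlib
import Pool.Agent.Work.MP_500150_lc.LC.StmtsC

set_option autoImplicit false

/-! MP_500150_lc, block LC, item JSI: `Js` is close to the identity. -/

namespace Pool.Agent.Work.MP_500150_lc.LC

open Metric Set Filter Topology MeasureTheory Pool.MP_500150_lc.H8

namespace I_JSI

theorem e_diff {w : ℝ} {J : ℂ × ℂ → ℂ} (hF : Fam w J) {s lam : ℂ} (hl : ‖lam‖ < w / 2) :
    ∀ X : ℂ, ‖X‖ < 2 * w → DifferentiableAt ℂ (fun X => Js J s lam X - X) X := by
  intro X hX
  have h1 : DifferentiableAt ℂ J (lam, X) :=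
    (hF.an (lam, X) ⟨by simpa using hl, by simpa using hX⟩).differentiableAt
  have h2 : DifferentiableAt ℂ (fun X : ℂ => ((lam, X) : ℂ × ℂ)) X :=
    (differentiableAt_const _).prodMk differentiableAt_id
  have h3 : DifferentiableAt ℂ (fun X : ℂ => J (lam, X)) X := DifferentiableAt.comp X h1 h2
  have h4 : (fun X => Js J s lam X - X) = fun X => s * (J (lam, X) - X) := by
    funext X; simp only [Js]; ring
  rw [h4]
  exact (h3.sub differentiableAt_id).const_mul s

theorem e_deriv (hO : S_OXZ) {w : ℝ} {J : ℂ × ℂ → ℂ} (hF : Fam w J) {s lam : ℂ} (hs : ‖s‖ < 3)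
    (hl : ‖lam‖ < w / 2) :
    ∀ X : ℂ, ‖X‖ < w → ‖deriv (fun X => Js J s lam X - X) X‖ ≤ 1 / 10 := by
  intro X hX
  have hw : 20 ≤ w := hF.big
  have hin : ∀ z ∈ closedBall X (9 / 10 * w), z ∈ ball (0 : ℂ) (2 * w) := by
    intro z hz
    rw [mem_closedBall, dist_eq_norm] at hz
    rw [mem_ball_zero_iff]
    have h1 : ‖z‖ ≤ ‖z - X‖ + ‖X‖ := by
      have := norm_add_le (z - X) X
      simpa using this
    linarith
  have hd : DifferentiableOn ℂ (fun X => Js J s lam X - X) (ball 0 (2 * w)) := fun z hz =>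
    (e_diff hF hl z (by simpa using hz)).differentiableWithinAt
  have h2 := Complex.norm_deriv_le_of_forall_mem_sphere_norm_le (c := X) (R := 9 / 10 * w)
    (C := 6 / 100 * w) (f := fun X => Js J s lam X - X) (by linarith)
    (hd.diffContOnCl_ball hin) (by
      intro z hz
      have h3 := hin z (sphere_subset_closedBall hz)
      rw [mem_ball_zero_iff] at h3
      have h4 := hO.2.2.2 w J hF s lam z hs hl h3
      linarith)
  refine le_trans h2 ?_
  rw [div_le_iff₀ (by linarith)]
  linarith

end I_JSI

open I_JSI in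
theorem JSI_pf (hO : S_OXZ) : S_JSI := by
  intro w J hF s lam hs hl
  have hw : 20 ≤ w := hF.big
  refine ⟨fun X X' hX hX' => ?_, fun X hX => ?_⟩
  · have h1 := Convex.norm_image_sub_le_of_norm_deriv_le (𝕜 := ℂ)
      (f := fun X => Js J s lam X - X) (C := 1 / 10) (s := ball (0 : ℂ) w) (x := X') (y := X)
      (fun z hz => e_diff hF hl z (by
        rw [mem_ball_zero_iff] at hz; linarith))
      (fun z hz => e_deriv hO hF hs hl z (by simpa using hz)) (convex_ball _ _)
      (by simpa using hX') (by simpa using hX)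
    have h2 : Js J s lam X - Js J s lam X' - (X - X') =
        (Js J s lam X - X) - (Js J s lam X' - X') := by ring
    rw [h2]
    refine le_trans h1 (le_of_eq ?_)
    ring
  · intro h0
    have h1 := e_diff (s := s) hF hl X (by linarith)
    have h2 : HasDerivAt (fun X => Js J s lam X - X + X)
        (deriv (fun X => Js J s lam X - X) X + 1) X := h1.hasDerivAt.add (hasDerivAt_id X)
    have h3 : (fun X => Js J s lam X - X + X) = fun X => Js J s lam X := by
      funext Y; ring
    rw [h3] at h2
    rw [h2.deriv] at h0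
    have h4 := e_deriv hO hF hs hl X hX
    have h5 : deriv (fun X => Js J s lam X - X) X = -1 := eq_neg_of_add_eq_zero_left h0
    rw [h5, norm_neg, norm_one] at h4
    norm_num at h4

end Pool.Agent.Work.MP_500150_lc.LC
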