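import Mathlib
import Pool.Agent.Work.MP_500150_lc.LC.Stmts

set_option autoImplicit false

/-!
# [500150 LC KOE] Koenigs' estimate
-/

namespace Pool.Agent.Work.MP_500150_lc.LC

open Metric Set Filter Topology MeasureTheory Pool.MP_500150_lc.H8

namespace I_KOE

/-- the partial sums of the geometric series `∑ τ ^ (-i)` -/
noncomputable def ee (τ : ℝ) (k : ℕ) : ℝ := (1 - τ⁻¹ ^ k) / (τ - 1)

theorem ee_zero (τ : ℝ) : ee τ 0 = 0 := by simp [ee]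

theorem ee_succ {τ : ℝ} (hτ : 1 < τ) (k : ℕ) : ee τ (k + 1) = ee τ k + τ⁻¹ ^ (k + 1) := by
  unfold ee
  have h1 : τ - 1 ≠ 0 := by linarith
  have h2 : τ ≠ 0 := by linarith
  have h3 : τ⁻¹ ^ (k + 1) * τ = τ⁻¹ ^ k := by
    rw [pow_succ, mul_assoc, inv_mul_cancel₀ h2, mul_one]
  rw [div_add' _ _ _ h1]
  congr 1
  linear_combination (-1 : ℝ) * h3

theorem ee_le {τ : ℝ} (hτ : 1 < τ) (k : ℕ) : ee τ k ≤ 1 / (τ - 1) := by
  unfold ee
  have h1 : 0 < τ - 1 := by linarith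
  have h2 : 0 ≤ τ⁻¹ ^ k := by positivity
  exact (div_le_div_iff_of_pos_right h1).mpr (by linarith)

variable {D : Set ℂ} {g : ℂ → ℂ} {β : ℂ} {τ : ℝ}

theorem iter_mem (hD : ∀ x ∈ D, g x ∈ D) (x : ℂ) (hx : x ∈ D) (k : ℕ) : g^[k] x ∈ D := by
  induction k with
  | zero => simpa using hx
  | succ k ih => rw [Function.iterate_succ_apply']; exact hD _ ih

theorem iter_beta (hg : g β = β) (k : ℕ) : g^[k] β = β :=
  Function.iterate_fixed hg k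

theorem dist_beta (hτ : 1 < τ) (hβ : β ∈ D) (hg : g β = β)
    (hD : ∀ x ∈ D, ‖x - β‖ ≤ 1 ∧ g x ∈ D)
    (h2 : ∀ x ∈ D, ∀ x' ∈ D, τ ≤ ‖g x + g x'‖ ∧ x - x' = (g x - g x') * (g x + g x'))
    (x : ℂ) (hx : x ∈ D) (k : ℕ) : ‖g^[k] x - β‖ ≤ τ⁻¹ ^ k := by
  induction k with
  | zero => simpa using (hD x hx).1
  | succ k ih =>
    have hm := iter_mem (fun y hy => (hD y hy).2) x hx k
    obtain ⟨h3, h4⟩ := h2 (g^[k] x) hm β hβ
    rw [hg] at h3 h4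
    rw [Function.iterate_succ_apply']
    have h5 : ‖g^[k] x - β‖ = ‖g (g^[k] x) - β‖ * ‖g (g^[k] x) + β‖ := by
      rw [← norm_mul, ← h4]
    have h6 : ‖g (g^[k] x) - β‖ * τ ≤ τ⁻¹ ^ k := by
      calc ‖g (g^[k] x) - β‖ * τ ≤ ‖g (g^[k] x) - β‖ * ‖g (g^[k] x) + β‖ :=
            mul_le_mul_of_nonneg_left h3 (norm_nonneg _)
        _ = ‖g^[k] x - β‖ := h5.symm
        _ ≤ _ := ih
    have h7 : 0 < τ := by linarith
    rw [pow_succ]
    rw [← div_eq_mul_inv, le_div_iff₀ h7]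
    exact h6

end I_KOE

open I_KOE in
theorem KOE_pf : S_KOE := by
  intro τ A hτ _
  refine ⟨Real.exp (2 * (1 / (τ - 1))), ?_, ?_⟩
  · have : 0 < τ - 1 := by linarith
    exact Real.one_le_exp (by positivity)
  intro D g β hβ hg hD h2 k x hx x' hx'
  have hD' : ∀ x ∈ D, ‖x - β‖ ≤ 1 ∧ g x ∈ D := fun x hx => (hD x hx).2
  have hDg : ∀ x ∈ D, g x ∈ D := fun x hx => (hD x hx).2.2
  have hτ0 : 0 < τ := by linarith
  have hβτ : τ ≤ ‖2 * β‖ := by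
    have := (h2 β hβ β hβ).1
    rw [hg, ← two_mul] at this
    exact this
  -- one step
  have hstep : ∀ j : ℕ,
      ‖(2 * β) ^ (j + 1) * (g^[j + 1] x - g^[j + 1] x')‖ ≤
        Real.exp (2 * τ⁻¹ ^ (j + 1)) * ‖(2 * β) ^ j * (g^[j] x - g^[j] x')‖ ∧
      ‖(2 * β) ^ j * (g^[j] x - g^[j] x')‖ ≤
        Real.exp (2 * τ⁻¹ ^ (j + 1)) * ‖(2 * β) ^ (j + 1) * (g^[j + 1] x - g^[j + 1] x')‖ := by
    intro j
    have hm := iter_mem hDg x hx j
    have hm' := iter_mem hDg x' hx' j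
    obtain ⟨h3, h4⟩ := h2 _ hm _ hm'
    have h5 := dist_beta hτ hβ hg hD' h2 x hx (j + 1)
    have h5' := dist_beta hτ hβ hg hD' h2 x' hx' (j + 1)
    rw [Function.iterate_succ_apply'] at h5 h5'
    rw [Function.iterate_succ_apply', Function.iterate_succ_apply']
    set u := g (g^[j] x) with hu
    set u' := g (g^[j] x') with hu'
    rw [h4]
    set s := u + u' with hs
    have hq0 : 0 ≤ τ⁻¹ ^ (j + 1) := by positivity
    have h6 : ‖s - 2 * β‖ ≤ 2 * τ⁻¹ ^ (j + 1) := by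
      have : s - 2 * β = (u - β) + (u' - β) := by rw [hs]; ring
      rw [this]
      calc ‖(u - β) + (u' - β)‖ ≤ ‖u - β‖ + ‖u' - β‖ := norm_add_le _ _
        _ ≤ _ := by linarith
    have h7 : ‖s‖ ≤ ‖2 * β‖ + 2 * τ⁻¹ ^ (j + 1) := by
      calc ‖s‖ = ‖2 * β + (s - 2 * β)‖ := by ring_nf
        _ ≤ ‖2 * β‖ + ‖s - 2 * β‖ := norm_add_le _ _
        _ ≤ _ := by linarith
    have h8 : ‖2 * β‖ ≤ ‖s‖ + 2 * τ⁻¹ ^ (j + 1) := by
      calc ‖2 * β‖ = ‖s + -(s - 2 * β)‖ := by ring_nf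
        _ ≤ ‖s‖ + ‖-(s - 2 * β)‖ := norm_add_le _ _
        _ = ‖s‖ + ‖s - 2 * β‖ := by rw [norm_neg]
        _ ≤ _ := by linarith
    have he : 1 + 2 * τ⁻¹ ^ (j + 1) ≤ Real.exp (2 * τ⁻¹ ^ (j + 1)) := by
      have := Real.add_one_le_exp (2 * τ⁻¹ ^ (j + 1))
      linarith
    have h9 : ‖2 * β‖ ≤ Real.exp (2 * τ⁻¹ ^ (j + 1)) * ‖s‖ := by
      have h10 : ‖2 * β‖ ≤ (1 + 2 * τ⁻¹ ^ (j + 1)) * ‖s‖ := by
        have h11 : (1 : ℝ) ≤ ‖s‖ := by linarith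
        nlinarith
      exact h10.trans (mul_le_mul_of_nonneg_right he (norm_nonneg _))
    have h10 : ‖s‖ ≤ Real.exp (2 * τ⁻¹ ^ (j + 1)) * ‖2 * β‖ := by
      have h11 : ‖s‖ ≤ (1 + 2 * τ⁻¹ ^ (j + 1)) * ‖2 * β‖ := by
        have h12 : (1 : ℝ) ≤ ‖2 * β‖ := by linarith
        nlinarith
      exact h11.trans (mul_le_mul_of_nonneg_right he (norm_nonneg _))
    have hE : 0 < Real.exp (2 * τ⁻¹ ^ (j + 1)) := Real.exp_pos _
    constructor
    · rw [pow_succ]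
      simp only [norm_mul, norm_pow]
      have h12 : ‖(2 : ℂ)‖ * ‖β‖ = ‖2 * β‖ := (norm_mul _ _).symm
      rw [h12]
      have h13 : 0 ≤ ‖2 * β‖ ^ j * ‖u - u'‖ := by positivity
      calc ‖2 * β‖ ^ j * ‖2 * β‖ * ‖u - u'‖ = ‖2 * β‖ * (‖2 * β‖ ^ j * ‖u - u'‖) := by ring
        _ ≤ (Real.exp (2 * τ⁻¹ ^ (j + 1)) * ‖s‖) * (‖2 * β‖ ^ j * ‖u - u'‖) :=
            mul_le_mul_of_nonneg_right h9 h13
        _ = _ := by ring
    · rw [pow_succ]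
      simp only [norm_mul, norm_pow]
      have h12 : ‖(2 : ℂ)‖ * ‖β‖ = ‖2 * β‖ := (norm_mul _ _).symm
      rw [h12]
      have h13 : 0 ≤ ‖2 * β‖ ^ j * ‖u - u'‖ := by positivity
      calc ‖2 * β‖ ^ j * (‖u - u'‖ * ‖s‖) = ‖s‖ * (‖2 * β‖ ^ j * ‖u - u'‖) := by ring
        _ ≤ (Real.exp (2 * τ⁻¹ ^ (j + 1)) * ‖2 * β‖) * (‖2 * β‖ ^ j * ‖u - u'‖) :=
            mul_le_mul_of_nonneg_right h10 h13
        _ = _ := by ring_nf
  -- induction
  have hmain : ∀ j : ℕ,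
      ‖(2 * β) ^ j * (g^[j] x - g^[j] x')‖ ≤ Real.exp (2 * ee τ j) * ‖x - x'‖ ∧
      ‖x - x'‖ ≤ Real.exp (2 * ee τ j) * ‖(2 * β) ^ j * (g^[j] x - g^[j] x')‖ := by
    intro j
    induction j with
    | zero => simp [ee_zero]
    | succ j ih =>
      obtain ⟨h1, h3⟩ := ih
      obtain ⟨h4, h5⟩ := hstep j
      have he : Real.exp (2 * ee τ (j + 1)) =
          Real.exp (2 * τ⁻¹ ^ (j + 1)) * Real.exp (2 * ee τ j) := by
        rw [ee_succ hτ, ← Real.exp_add]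
        ring_nf
      rw [he]
      have hE : 0 < Real.exp (2 * τ⁻¹ ^ (j + 1)) := Real.exp_pos _
      have hE' : 0 < Real.exp (2 * ee τ j) := Real.exp_pos _
      constructor
      · calc _ ≤ _ := h4
          _ ≤ Real.exp (2 * τ⁻¹ ^ (j + 1)) * (Real.exp (2 * ee τ j) * ‖x - x'‖) :=
              mul_le_mul_of_nonneg_left h1 hE.le
          _ = _ := by ring
      · calc _ ≤ _ := h3
          _ ≤ Real.exp (2 * ee τ j) * (Real.exp (2 * τ⁻¹ ^ (j + 1)) *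
              ‖(2 * β) ^ (j + 1) * (g^[j + 1] x - g^[j + 1] x')‖) :=
              mul_le_mul_of_nonneg_left h5 hE'.le
          _ = _ := by ring
  obtain ⟨h1, h3⟩ := hmain k
  have hle : Real.exp (2 * ee τ k) ≤ Real.exp (2 * (1 / (τ - 1))) :=
    Real.exp_le_exp.mpr (by have := ee_le hτ k; linarith)
  constructor
  · rw [div_le_iff₀ (Real.exp_pos _), mul_comm]
    exact h3.trans (mul_le_mul_of_nonneg_right hle (norm_nonneg _))
  · exact h1.trans (mul_le_mul_of_nonneg_right hle (norm_nonneg _))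

end Pool.Agent.Work.MP_500150_lc.LC
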