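import Mathlib
import Pool.Agent.Work.MP_500150_lc.LC.StmtsF

set_option autoImplicit false

/-!
# Item LDI: local distance gives local sandwich
-/

namespace Pool.Agent.Work.MP_500150_lc.LC

open Metric Set Filter Topology MeasureTheory Pool.MP_500150_lc.H8

theorem LDI_pf : S_LDI := by
  intro U h
  obtain ⟨F, hFc, hF⟩ := h
  refine ⟨fun q => (F (8 * q.1 + 4, 4 * 2 ^ (q.2.2 + 3), 8 * q.2.1 + 4, 4 * 2 ^ (q.2.2 + 3),
      q.2.2 + 3)).1 ≤ (F (8 * q.1 + 4, 4 * 2 ^ (q.2.2 + 3), 8 * q.2.1 + 4, 4 * 2 ^ (q.2.2 + 3),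
      q.2.2 + 3)).2 + 2, ?_, fun n x y hSU => ?_⟩
  · have q1 : Primrec fun q : ℕ × ℕ × ℕ => q.1 := Primrec.fst
    have q2 : Primrec fun q : ℕ × ℕ × ℕ => q.2.1 := Primrec.fst.comp Primrec.snd
    have q3 : Primrec fun q : ℕ × ℕ × ℕ => q.2.2 := Primrec.snd.comp Primrec.snd
    have h3 : Primrec fun q : ℕ × ℕ × ℕ => q.2.2 + 3 := padd q3 (pconst 3)
    have h4 : Primrec fun q : ℕ × ℕ × ℕ => 4 * 2 ^ (q.2.2 + 3) := pmul (pconst 4) (ppow (pconst 2) h3)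
    have hin : Primrec fun q : ℕ × ℕ × ℕ =>
        (8 * q.1 + 4, 4 * 2 ^ (q.2.2 + 3), 8 * q.2.1 + 4, 4 * 2 ^ (q.2.2 + 3), q.2.2 + 3) :=
      (padd (pmul (pconst 8) q1) (pconst 4)).pair (h4.pair
        ((padd (pmul (pconst 8) q2) (pconst 4)).pair (h4.pair h3)))
    have gF := hFc.comp hin.to_comp
    exact (cle (Computable.fst.comp gF) (cadd (Computable.snd.comp gF)
      (Computable.const 2))).computablePred.to_re
  have key0 : ∀ t : ℕ, (t : ℝ) / 2 ^ n - 4 ≤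
      (((8 * t + 4 : ℕ) : ℝ) - ((4 * 2 ^ (n + 3) : ℕ) : ℝ)) / 2 ^ (n + 3) ∧
      (((8 * t + 4 : ℕ) : ℝ) - ((4 * 2 ^ (n + 3) : ℕ) : ℝ)) / 2 ^ (n + 3) ≤
        ((t : ℝ) + 1) / 2 ^ n - 4 := by
    intro t
    have hp : (0 : ℝ) < 2 ^ n := by positivity
    have e : (((8 * t + 4 : ℕ) : ℝ) - ((4 * 2 ^ (n + 3) : ℕ) : ℝ)) / 2 ^ (n + 3)
        = ((t : ℝ) + 1 / 2) / 2 ^ n - 4 := by
      push_cast
      rw [pow_add]
      field_simp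
      ring
    rw [e]
    constructor
    · apply sub_le_sub_right
      apply div_le_div_of_nonneg_right _ hp.le
      linarith
    · apply sub_le_sub_right
      apply div_le_div_of_nonneg_right _ hp.le
      linarith
  have hzS : Complex.mk ((((8 * x + 4 : ℕ) : ℝ) - ((4 * 2 ^ (n + 3) : ℕ) : ℝ)) / 2 ^ (n + 3))
        ((((8 * y + 4 : ℕ) : ℝ) - ((4 * 2 ^ (n + 3) : ℕ) : ℝ)) / 2 ^ (n + 3)) ∈ Sq n x y :=
    ⟨(key0 x).1, (key0 x).2, (key0 y).1, (key0 y).2⟩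
  have h1 := hF (8 * x + 4) (4 * 2 ^ (n + 3)) (8 * y + 4) (4 * 2 ^ (n + 3)) (n + 3) (hSU hzS)
  set z : ℂ := Complex.mk ((((8 * x + 4 : ℕ) : ℝ) - ((4 * 2 ^ (n + 3) : ℕ) : ℝ)) / 2 ^ (n + 3))
    ((((8 * y + 4 : ℕ) : ℝ) - ((4 * 2 ^ (n + 3) : ℕ) : ℝ)) / 2 ^ (n + 3)) with hz
  have hp : (0 : ℝ) < 2 ^ n := by positivity
  refine ⟨fun hS => ?_, fun hpxy => ?_⟩
  · have hzM : z ∈ MM := hS hzS
    have h0 : dM z = 0 := dM_zero_iff.mpr hzM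
    rw [h0, sub_zero, abs_div, abs_of_pos (show (0 : ℝ) < 2 ^ (n + 3) by positivity),
      div_le_div_iff_of_pos_right (by positivity), abs_le] at h1
    have h2 : (((F (8 * x + 4, 4 * 2 ^ (n + 3), 8 * y + 4, 4 * 2 ^ (n + 3), n + 3)).1 : ℕ) : ℝ)
        ≤ ((F (8 * x + 4, 4 * 2 ^ (n + 3), 8 * y + 4, 4 * 2 ^ (n + 3), n + 3)).2 : ℝ) + 2 := by
      linarith [h1.2]
    show _ ≤ _
    exact_mod_cast h2
  · have hpxy' : (F (8 * x + 4, 4 * 2 ^ (n + 3), 8 * y + 4, 4 * 2 ^ (n + 3), n + 3)).1 ≤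
        (F (8 * x + 4, 4 * 2 ^ (n + 3), 8 * y + 4, 4 * 2 ^ (n + 3), n + 3)).2 + 2 := hpxy
    have h2 : (((F (8 * x + 4, 4 * 2 ^ (n + 3), 8 * y + 4, 4 * 2 ^ (n + 3), n + 3)).1 : ℕ) : ℝ)
        ≤ ((F (8 * x + 4, 4 * 2 ^ (n + 3), 8 * y + 4, 4 * 2 ^ (n + 3), n + 3)).2 : ℝ) + 2 := by
      exact_mod_cast hpxy'
    have h3 : dM z < 1 / 2 ^ n / 2 := by
      have h1' : |(((F (8 * x + 4, 4 * 2 ^ (n + 3), 8 * y + 4, 4 * 2 ^ (n + 3), n + 3)).1 : ℝ) -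
        ((F (8 * x + 4, 4 * 2 ^ (n + 3), 8 * y + 4, 4 * 2 ^ (n + 3), n + 3)).2 : ℝ)) / 2 ^ (n + 3) -
        dM z| ≤ 1 / 2 ^ (n + 3) := h1
      have e8 : (2 : ℝ) ^ (n + 3) = 8 * 2 ^ n := by rw [pow_add]; ring
      rw [e8] at h1'
      rw [abs_le] at h1'
      have h4 : dM z ≤ (((F (8 * x + 4, 4 * 2 ^ (n + 3), 8 * y + 4, 4 * 2 ^ (n + 3), n + 3)).1 : ℝ) -
        ((F (8 * x + 4, 4 * 2 ^ (n + 3), 8 * y + 4, 4 * 2 ^ (n + 3), n + 3)).2 : ℝ)) / (8 * 2 ^ n)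
          + 1 / (8 * 2 ^ n) := by linarith [h1'.1]
      have h5 : (((F (8 * x + 4, 4 * 2 ^ (n + 3), 8 * y + 4, 4 * 2 ^ (n + 3), n + 3)).1 : ℝ) -
        ((F (8 * x + 4, 4 * 2 ^ (n + 3), 8 * y + 4, 4 * 2 ^ (n + 3), n + 3)).2 : ℝ)) / (8 * 2 ^ n)
          ≤ 2 / (8 * 2 ^ n) := by
        apply div_le_div_of_nonneg_right _ (by positivity)
        linarith
      have h6 : (2 : ℝ) / (8 * 2 ^ n) + 1 / (8 * 2 ^ n) = 3 / 8 * (1 / 2 ^ n) := by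
        field_simp
        norm_num
      have h7 : (0 : ℝ) < 1 / 2 ^ n := by positivity
      linarith
    unfold dM at h3
    rw [infDist_lt_iff ⟨0, zero_mem_MM⟩] at h3
    obtain ⟨v, hv, hvz⟩ := h3
    refine ⟨v, ?_, hv⟩
    rw [dist_eq_norm] at hvz
    have key : ∀ (t : ℕ) (r : ℝ),
        |(((8 * t + 4 : ℕ) : ℝ) - ((4 * 2 ^ (n + 3) : ℕ) : ℝ)) / 2 ^ (n + 3) - r| ≤ 1 / 2 ^ n / 2 →
        (t : ℝ) / 2 ^ n - 4 ≤ r ∧ r ≤ ((t : ℝ) + 1) / 2 ^ n - 4 := by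
      intro t r hr
      have e : (((8 * t + 4 : ℕ) : ℝ) - ((4 * 2 ^ (n + 3) : ℕ) : ℝ)) / 2 ^ (n + 3)
          = (t : ℝ) / 2 ^ n + 1 / 2 ^ n / 2 - 4 := by
        push_cast
        rw [pow_add]
        field_simp
        ring
      have e2 : ((t : ℝ) + 1) / 2 ^ n = (t : ℝ) / 2 ^ n + 1 / 2 ^ n := by ring
      rw [e, abs_le] at hr
      rw [e2]
      constructor <;> linarith [hr.1, hr.2]
    have hre := (Complex.abs_re_le_norm (z - v)).trans hvz.le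
    have him := (Complex.abs_im_le_norm (z - v)).trans hvz.le
    rw [Complex.sub_re] at hre
    rw [Complex.sub_im] at him
    exact ⟨(key x v.re hre).1, (key x v.re hre).2, (key y v.im him).1, (key y v.im him).2⟩

end Pool.Agent.Work.MP_500150_lc.LC
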