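import Mathlib
import Pool.Agent.Work.MP_500150_lc.LC.StmtsC
import Pool.Agent.Work.MP_500150_lc.H8.Harnack

set_option autoImplicit false

namespace Pool.Agent.Work.MP_500150_lc.LC

open Metric Set Filter Topology MeasureTheory Pool.MP_500150_lc.H8

namespace I_LFT

/-- A holomorphic square root with a prescribed value at the centre. -/
theorem sqrt_ex {g : ℂ → ℂ} {ε : ℝ} (hε : 0 < ε) (hg : DifferentiableOn ℂ g (ball 0 ε))
    (h0 : ∀ t ∈ ball (0 : ℂ) ε, g t ≠ 0) (v : ℂ) (hv : g 0 = v ^ 2) :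
    ∃ y : ℂ → ℂ, DifferentiableOn ℂ y (ball 0 ε) ∧ (∀ t ∈ ball (0 : ℂ) ε, y t ^ 2 = g t) ∧
      y 0 = v := by
  obtain ⟨L, hL, hgL⟩ := exists_log hε hg h0
  have hm : (0 : ℂ) ∈ ball (0 : ℂ) ε := mem_ball_self hε
  have hd : DifferentiableOn ℂ (fun t => Complex.exp (L t / 2)) (ball 0 ε) :=
    (hL.div_const 2).cexp
  have hsq : ∀ t ∈ ball (0 : ℂ) ε, Complex.exp (L t / 2) ^ 2 = g t := by
    intro t ht
    rw [hgL t ht, sq, ← Complex.exp_add]
    congr 1
    ring
  have h2 : Complex.exp (L 0 / 2) ^ 2 = v ^ 2 := by rw [hsq 0 hm, hv]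
  rcases sq_eq_sq_iff_eq_or_eq_neg.mp h2 with h | h
  · exact ⟨_, hd, hsq, h⟩
  · refine ⟨fun t => -Complex.exp (L t / 2), hd.neg, ?_, ?_⟩
    · intro t ht
      rw [neg_sq]
      exact hsq t ht
    · simp only [h, neg_neg]

end I_LFT

theorem LFT_pf (h1 : S_JSI) (h2 : S_LVE) : S_LFT := by
  intro w J hF s b N ε hs hN hε hb1 hb2 h hM z hz
  have hw : 20 ≤ w := hF.big
  have hm : (0 : ℂ) ∈ ball (0 : ℂ) ε := mem_ball_self hε
  have hh1 : ∀ t ∈ ball (0 : ℂ) ε, ‖h 1 t‖ < w / 2 := fun t ht =>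
    hM.bd 1 le_rfl (by omega) t ht
  have key : ∀ i, 1 ≤ i → i < N → ∃ X : ℂ → ℂ, DifferentiableOn ℂ X (ball 0 ε) ∧
      (∀ t ∈ ball (0 : ℂ) ε, ‖X t‖ ≤ 33 / 100 * w) ∧
      (∀ t ∈ ball (0 : ℂ) ε, h (i + 1) t = h 1 t + (Js J s (h 1 t) (X t)) ^ 2) ∧
      X 0 = z i := by
    intro i hi1 hiN
    obtain ⟨hzi, hzi2⟩ := hz i hi1 hiN
    obtain ⟨y, hyd, hyg, hy0⟩ := I_LFT.sqrt_ex (g := fun t => h (i + 1) t - h 1 t) hε
      ((hM.an (i + 1) (by omega) (by omega)).sub (hM.an 1 le_rfl (by omega)))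
      (fun t ht => sub_ne_zero.mpr (hM.inj 1 (i + 1) le_rfl (by omega) (by omega) t ht).symm)
      (Js J s (h 1 0) (z i)) (by rw [hzi2]; ring)
    have hbd : ∀ t ∈ ball (0 : ℂ) ε, ‖h 1 t‖ < w / 2 ∧ ‖y t‖ ^ 2 ≤ 2 * w := by
      intro t ht
      refine ⟨hh1 t ht, ?_⟩
      have e1 : ‖y t‖ ^ 2 = ‖h (i + 1) t - h 1 t‖ := by
        rw [← norm_pow, hyg t ht]
      have e2 : ‖h (i + 1) t‖ < 3 * w / 2 := by
        by_cases hc : i + 1 < N
        · have := hM.bd (i + 1) (by omega) hc t ht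
          linarith
        · have hc' : i + 1 = N := by omega
          rw [hc', hM.top t ht]
          exact hb2
      have e3 := norm_sub_le (h (i + 1) t) (h 1 t)
      have e4 := hh1 t ht
      rw [e1]
      linarith
    obtain ⟨X, hXd, hX⟩ := h2 w J hF s ε (h 1) y hs hε (hM.an 1 le_rfl (by omega)) hyd hbd
    refine ⟨X, hXd, fun t ht => (hX t ht).1, ?_, ?_⟩
    · intro t ht
      rw [(hX t ht).2, hyg t ht]
      ring
    · have hX0 := hX 0 hm
      have e5 := (h1 w J hF s (h 1 0) hs (hh1 0 hm)).1 (X 0) (z i) (by linarith [hX0.1])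
        (by linarith)
      rw [hX0.2, hy0, sub_self, zero_sub, norm_neg] at e5
      have e6 : ‖X 0 - z i‖ = 0 := by
        have := norm_nonneg (X 0 - z i)
        linarith
      exact sub_eq_zero.mp (norm_eq_zero.mp e6)
  choose! X hXd hXb hXe hX0 using key
  let h' : ℕ → ℂ → ℂ := fun i t => if i < N then X i t else b
  have hlt : ∀ i, i < N → h' i = X i := by
    intro i hi
    funext t
    simp only [h', if_pos hi]
  have hN' : ∀ i, ¬ i < N → h' i = fun _ => b := by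
    intro i hi
    funext t
    simp only [h', if_neg hi]
  refine ⟨h', ⟨?_, ?_, ?_, ?_⟩, ?_, ?_⟩
  · intro i hi1 hiN
    by_cases hc : i < N
    · rw [hlt i hc]
      exact hXd i hi1 hc
    · rw [hN' i hc]
      exact differentiableOn_const _
  · intro i hi1 hiN t ht
    rw [hlt i hiN]
    have := hXb i hi1 hiN t ht
    linarith
  · intro t ht
    rw [hN' N (lt_irrefl N)]
  · intro i k hi1 hik hkN t ht heq
    by_cases hc : k < N
    · rw [hlt i (by omega), hlt k hc] at heq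
      have e1 := hXe i hi1 (by omega) t ht
      have e2 := hXe k (by omega) hc t ht
      rw [heq] at e1
      exact hM.inj (i + 1) (k + 1) (by omega) (by omega) (by omega) t ht (e1.trans e2.symm)
    · rw [hlt i (by omega), hN' k hc] at heq
      have e3 := hXb i hi1 (by omega) t ht
      rw [heq] at e3
      linarith
  · intro i hi1 hiN t ht
    rw [hlt i hiN]
    exact hXe i hi1 hiN t ht
  · intro i hi1 hiN
    rw [hlt i hiN]
    exact hX0 i hi1 hiN

end Pool.Agent.Work.MP_500150_lc.LC
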