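import Mathlib
import Pool.Agent.Work.MP_500150_lc.LC.Stmts

set_option autoImplicit false

/-!
# Item LIP: the inverse branches are bi-Lipschitz
-/

namespace Pool.Agent.Work.MP_500150_lc.LC

open Metric Set Filter Topology MeasureTheory Pool.MP_500150_lc.H8

open Asymptotics in
theorem LIP_pf : S_LIP := by
  intro c₀ y₀ ρ G hρ hG hne δ hδ
  have hmem : (c₀, y₀) ∈ ball c₀ ρ ×ˢ ball y₀ ρ := ⟨mem_ball_self hρ, mem_ball_self hρ⟩
  have hstr : HasStrictFDerivAt G (fderiv ℂ G (c₀, y₀)) (c₀, y₀) :=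
    (hG _ hmem).hasStrictFDerivAt
  set G' := fderiv ℂ G (c₀, y₀) with hG'
  have hA : deriv (fun x => G (c₀, x)) y₀ = G' (0, 1) := by
    have h1 : HasDerivAt (fun x : ℂ => ((c₀, x) : ℂ × ℂ)) ((0 : ℂ), (1 : ℂ)) y₀ :=
      (hasDerivAt_const y₀ c₀).prodMk (hasDerivAt_id y₀)
    have h2 : HasDerivAt (fun x => G (c₀, x)) (G' (0, 1)) y₀ :=
      HasFDerivAt.comp_hasDerivAt (f := fun x : ℂ => ((c₀, x) : ℂ × ℂ)) y₀ hstr.hasFDerivAt h1
    exact h2.deriv
  rw [hA] at hne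
  set A := G' (0, 1) with hAdef
  have hA0 : 0 < ‖A‖ := norm_pos_iff.2 hne
  have hlin : ∀ t : ℂ, G' (0, t) = t * A := by
    intro t
    have : ((0 : ℂ), t) = t • ((0 : ℂ), (1 : ℂ)) := by simp
    rw [this, map_smul, smul_eq_mul]
  have hev1 := hstr.isLittleO.def (show 0 < ‖A‖ / 2 by positivity)
  have hcont : ContinuousAt G (c₀, y₀) := (hG _ hmem).continuousAt
  have hev2 : ∀ᶠ p in 𝓝 (c₀, y₀), ‖G p - G (c₀, y₀)‖ < δ := by
    have := hcont.eventually (ball_mem_nhds (G (c₀, y₀)) hδ)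
    filter_upwards [this] with p hp
    rw [← dist_eq_norm]
    exact hp
  rw [Metric.eventually_nhds_iff_ball] at hev1 hev2
  obtain ⟨ε₁, he1, h1⟩ := hev1
  obtain ⟨ε₂, he2, h2⟩ := hev2
  refine ⟨min ρ (min ε₁ ε₂), 1 + 2 / ‖A‖ + 2 * ‖A‖, by positivity, min_le_left _ _, ?_, ?_⟩
  · have : 0 ≤ 2 / ‖A‖ := by positivity
    linarith
  · intro c hc x hx x' hx'
    have hc1 : dist c c₀ < ε₁ := lt_of_lt_of_le hc ((min_le_right _ _).trans (min_le_left _ _))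
    have hc2 : dist c c₀ < ε₂ := lt_of_lt_of_le hc ((min_le_right _ _).trans (min_le_right _ _))
    have hx1 : dist x y₀ < ε₁ := lt_of_lt_of_le hx ((min_le_right _ _).trans (min_le_left _ _))
    have hx2 : dist x y₀ < ε₂ := lt_of_lt_of_le hx ((min_le_right _ _).trans (min_le_right _ _))
    have hx3 : dist x' y₀ < ε₁ := lt_of_lt_of_le hx' ((min_le_right _ _).trans (min_le_left _ _))
    have h3 := h1 ((c, x), (c, x')) (by
      rw [mem_ball, Prod.dist_eq, Prod.dist_eq, Prod.dist_eq]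
      exact max_lt (max_lt hc1 hx1) (max_lt hc1 hx3))
    have h4 := h2 (c, x) (by
      rw [mem_ball, Prod.dist_eq]
      exact max_lt hc2 hx2)
    simp only at h3
    have e : ((c, x) : ℂ × ℂ) - (c, x') = (0, x - x') := by simp
    rw [e, hlin] at h3
    have e2 : ‖((0 : ℂ), x - x')‖ = ‖x - x'‖ := by
      rw [Prod.norm_def]
      simp
    rw [e2] at h3
    have h5 : ‖(x - x') * A‖ = ‖x - x'‖ * ‖A‖ := norm_mul _ _
    have h6 : ‖(x - x') * A‖ ≤ ‖G (c, x) - G (c, x')‖ +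
        ‖G (c, x) - G (c, x') - (x - x') * A‖ := by
      have := norm_sub_le (G (c, x) - G (c, x')) (G (c, x) - G (c, x') - (x - x') * A)
      rwa [sub_sub_cancel] at this
    have h7 : ‖G (c, x) - G (c, x')‖ ≤ ‖G (c, x) - G (c, x') - (x - x') * A‖ +
        ‖(x - x') * A‖ := by
      have := norm_add_le (G (c, x) - G (c, x') - (x - x') * A) ((x - x') * A)
      rwa [sub_add_cancel] at this
    rw [h5] at h6 h7
    have hn : 0 ≤ ‖x - x'‖ := norm_nonneg _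
    have hC0 : 0 < 1 + 2 / ‖A‖ + 2 * ‖A‖ := by positivity
    refine ⟨h4, ?_, ?_⟩
    · rw [div_le_iff₀ hC0]
      have h8 : ‖x - x'‖ * ‖A‖ / 2 ≤ ‖G (c, x) - G (c, x')‖ := by linarith
      have h9 : 2 / ‖A‖ ≤ 1 + 2 / ‖A‖ + 2 * ‖A‖ := by linarith
      calc ‖x - x'‖ = (‖x - x'‖ * ‖A‖ / 2) * (2 / ‖A‖) := by
            field_simp
        _ ≤ ‖G (c, x) - G (c, x')‖ * (1 + 2 / ‖A‖ + 2 * ‖A‖) :=
          mul_le_mul h8 h9 (by positivity) (norm_nonneg _)
    · have h8 : ‖G (c, x) - G (c, x')‖ ≤ (2 * ‖A‖) * ‖x - x'‖ := by nlinarith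
      refine h8.trans (mul_le_mul_of_nonneg_right ?_ hn)
      have : 0 ≤ 2 / ‖A‖ := by positivity
      linarith

end Pool.Agent.Work.MP_500150_lc.LC
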