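import Mathlib
import Pool.Agent.Work.MP_500150_lc.LC.StmtsC

set_option autoImplicit false

/-! Item LRG: logarithms of large orbits. -/

namespace Pool.Agent.Work.MP_500150_lc.LC

open Metric Set Filter Topology MeasureTheory Pool.MP_500150_lc.H8

namespace I_LRG

theorem step {c z : ℂ} (hc : ‖c‖ ≤ 5) (hz : 20 ≤ ‖z‖) :
    20 ≤ ‖z ^ 2 + c‖ ∧ |Real.log ‖z ^ 2 + c‖ - 2 * Real.log ‖z‖| ≤ 1 / 50 := by
  have h1 : ‖z‖ ^ 2 - 5 ≤ ‖z ^ 2 + c‖ := by
    have h2 := norm_sub_norm_le (z ^ 2) (-c)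
    rw [norm_neg, sub_neg_eq_add, norm_pow] at h2
    linarith
  have h2 : ‖z ^ 2 + c‖ ≤ ‖z‖ ^ 2 + 5 := by
    have h3 := norm_add_le (z ^ 2) c
    rw [norm_pow] at h3
    linarith
  have h3 : 400 ≤ ‖z‖ ^ 2 := by nlinarith
  have h4 : 0 < ‖z‖ ^ 2 := by linarith
  have h5 : 0 < ‖z ^ 2 + c‖ := by linarith
  refine ⟨by linarith, ?_⟩
  set q : ℝ := ‖z ^ 2 + c‖ / ‖z‖ ^ 2 with hq
  have hq0 : 0 < q := by positivity
  have hlog : Real.log ‖z ^ 2 + c‖ - 2 * Real.log ‖z‖ = Real.log q := by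
    rw [hq, Real.log_div h5.ne' h4.ne', Real.log_pow]
    norm_num
  have h6 : q ≤ 1 + 1 / 80 := by
    rw [hq, div_le_iff₀ h4]
    linarith
  have h7 : 79 / 80 ≤ q := by
    rw [hq, le_div_iff₀ h4]
    linarith
  rw [hlog, abs_le]
  have h8 := Real.log_le_sub_one_of_pos hq0
  have h9 := Real.one_sub_inv_le_log_of_pos hq0
  have h10 : q⁻¹ ≤ 80 / 79 := by
    rw [inv_le_comm₀ hq0 (by norm_num)]
    linarith
  constructor <;> linarith

end I_LRG

theorem LRG_pf : S_LRG := by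
  intro c n hc hn
  have key : ∀ j : ℕ, 20 ≤ ‖P (n + j) c‖ ∧
      |Real.log ‖P (n + j) c‖ - 2 ^ j * Real.log ‖P n c‖| ≤ (2 ^ j - 1) / 50 := by
    intro j
    induction j with
    | zero => simpa using hn
    | succ j ih =>
      obtain ⟨h1, h2⟩ := ih
      obtain ⟨h3, h4⟩ := I_LRG.step hc h1
      rw [← add_assoc, P_succ]
      refine ⟨h3, ?_⟩
      have e : Real.log ‖P (n + j) c ^ 2 + c‖ - 2 ^ (j + 1) * Real.log ‖P n c‖ =
          (Real.log ‖P (n + j) c ^ 2 + c‖ - 2 * Real.log ‖P (n + j) c‖) +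
          2 * (Real.log ‖P (n + j) c‖ - 2 ^ j * Real.log ‖P n c‖) := by ring
      rw [e]
      rw [abs_le] at h2 h4 ⊢
      rw [pow_succ]
      constructor <;> linarith [h2.1, h2.2, h4.1, h4.2]
  intro j
  refine ⟨(key j).1, (key j).2.trans ?_⟩
  linarith

end Pool.Agent.Work.MP_500150_lc.LC
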