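import Mathlib
import Pool.Agent.Work.MP_500150_lc.LC.StmtsF

set_option autoImplicit false

/-!
# Item LSE: a local sandwich of squares gives local escape times
-/

namespace Pool.Agent.Work.MP_500150_lc.LC

open Metric Set Filter Topology MeasureTheory Pool.MP_500150_lc.H8

namespace I_LSE

lemma ple {α : Type*} [Primcodable α] {f g : α → ℕ} (hf : Primrec f) (hg : Primrec g) :
    PrimrecPred fun a => f a ≤ g a :=
  Primrec.nat_le.comp hf hg

instance decInBox (n a b L x y : ℕ) : Decidable (InBox n a b L x y) := by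
  unfold InBox
  infer_instance

lemma pInBox (n a b : ℕ) {α : Type*} [Primcodable α] {L x y : α → ℕ} (hL : Primrec L)
    (hx : Primrec x) (hy : Primrec y) : PrimrecPred fun u => InBox n a b (L u) (x u) (y u) := by
  have h2 : Primrec fun u => 2 ^ (L u - n) := ppow (pconst 2) (psub hL (pconst n))
  unfold InBox
  exact (ple (pconst n) hL).and ((ple (pmul (pconst a) h2) hx).and
    ((plt hx (pmul (pconst (a + 3)) h2)).and ((ple (pmul (pconst b) h2) hy).and
      (plt hy (pmul (pconst (b + 3)) h2)))))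

/-- the stages for the sandwich with all squares outside the block added -/
def e' (n a b : ℕ) (e : (ℕ × ℕ × ℕ) × ℕ → Bool) (q : (ℕ × ℕ × ℕ) × ℕ) : Bool :=
  e q || !(decide (InBox n a b q.1.2.2 q.1.1 q.1.2.1))

lemma pe' (n a b : ℕ) {e : (ℕ × ℕ × ℕ) × ℕ → Bool} (he : Primrec e) : Primrec (e' n a b e) := by
  have h : PrimrecPred fun q : (ℕ × ℕ × ℕ) × ℕ => InBox n a b q.1.2.2 q.1.1 q.1.2.1 :=
    pInBox n a b (Primrec.snd.comp (Primrec.snd.comp Primrec.fst)) (Primrec.fst.comp Primrec.fst)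
      (Primrec.fst.comp (Primrec.snd.comp Primrec.fst))
  exact Primrec.or.comp he (Primrec.not.comp (PrimrecPred.decide h))

lemma e'_iff (n a b : ℕ) (e : (ℕ × ℕ × ℕ) × ℕ → Bool) (q : (ℕ × ℕ × ℕ) × ℕ) :
    e' n a b e q = true ↔ e q = true ∨ ¬ InBox n a b q.1.2.2 q.1.1 q.1.2.1 := by
  unfold e'
  rw [Bool.or_eq_true, Bool.not_eq_true', decide_eq_false_iff_not]

lemma lt_of_inBox {n a b L x y : ℕ} (ha : a + 3 ≤ 8 * 2 ^ n) (hb : b + 3 ≤ 8 * 2 ^ n)
    (h : InBox n a b L x y) : x < 8 * 2 ^ L ∧ y < 8 * 2 ^ L := by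
  obtain ⟨h0, -, h2, -, h4⟩ := h
  have e : 8 * 2 ^ L = (8 * 2 ^ n) * 2 ^ (L - n) := by
    rw [mul_assoc, ← pow_add]
    congr 2
    omega
  rw [e]
  exact ⟨h2.trans_le (Nat.mul_le_mul_right _ ha), h4.trans_le (Nat.mul_le_mul_right _ hb)⟩

/-- points of a square of level `K + 3` are close to each other -/
lemma near_of_sq {K x y : ℕ} {w v : ℂ} (hw : w ∈ Sq (K + 3) x y) (hv : v ∈ Sq (K + 3) x y) :
    ‖v - w‖ ≤ 1 / 2 ^ K / 4 := by
  obtain ⟨x1, x2, y1, y2⟩ := hw
  obtain ⟨v1, v2, v3, v4⟩ := hv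
  have hLk : (1 : ℝ) / 2 ^ (K + 3) = 1 / 2 ^ K / 8 := by
    rw [pow_add]
    field_simp
    norm_num
  refine (Complex.norm_le_abs_re_add_abs_im _).trans ?_
  simp only [Complex.sub_re, Complex.sub_im]
  have e1 : ∀ t : ℝ, (t + 1) / 2 ^ (K + 3) = t / 2 ^ (K + 3) + 1 / 2 ^ K / 8 := by
    intro t; rw [add_div, hLk]
  rw [e1] at v2 v4 x2 y2
  have h5 : |v.re - w.re| ≤ 1 / 2 ^ K / 8 := by
    rw [abs_le]; constructor <;> linarith
  have h6 : |v.im - w.im| ≤ 1 / 2 ^ K / 8 := by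
    rw [abs_le]; constructor <;> linarith
  linarith

end I_LSE

open I_LSE in
theorem LSE_pf (h1 : S_BLK) : S_LSE := by
  classical
  intro U hU hne hS
  obtain ⟨c, hcU, hcf⟩ := hne
  have hcM : c ∈ MM := isClosed_MM.frontier_subset hcf
  obtain ⟨n₀, a, b, hcB, hBo, ha, hb, hsub, hcov⟩ := h1 U hU c hcU hcM
  refine ⟨Box n₀ a b, hBo, ⟨c, hcB, hcf⟩, ?_⟩
  obtain ⟨p, hp, hp2⟩ := hS
  obtain ⟨e, he, hmono, hpe⟩ := re_stage hp
  have he' := pe' n₀ a b he
  have hmono' : ∀ q s t, s ≤ t → e' n₀ a b e (q, s) = true → e' n₀ a b e (q, t) = true := by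
    intro q s t hst h
    rw [e'_iff] at h ⊢
    rcases h with h | h
    · exact Or.inl (hmono q s t hst h)
    · exact Or.inr h
  have hpe' : ∀ q : ℕ × ℕ × ℕ, (p q ∨ ¬ InBox n₀ a b q.2.2 q.1 q.2.1) ↔
      ∃ s, e' n₀ a b e (q, s) = true := by
    intro q
    constructor
    · rintro (h | h)
      · obtain ⟨s, hs⟩ := (hpe q).1 h
        exact ⟨s, (e'_iff _ _ _ _ _).2 (Or.inl hs)⟩
      · exact ⟨0, (e'_iff _ _ _ _ _).2 (Or.inr h)⟩
    · rintro ⟨s, hs⟩
      rcases (e'_iff _ _ _ _ _).1 hs with h | h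
      · exact Or.inl ((hpe q).2 ⟨s, h⟩)
      · exact Or.inr h
  have hpm : ∀ n x y, Sq n x y ⊆ MM → (p (x, y, n) ∨ ¬ InBox n₀ a b n x y) := by
    intro n x y h
    by_cases hB : InBox n₀ a b n x y
    · exact Or.inl ((hp2 n x y (hsub n x y hB)).1 h)
    · exact Or.inr hB
  have hex : ∀ K, ∃ N, SC (e' n₀ a b e) K N :=
    exists_SC (p := fun q : ℕ × ℕ × ℕ => p q ∨ ¬ InBox n₀ a b q.2.2 q.1 q.2.1) hmono' hpe' hpm
  have hc : Computable fun K => Nat.find (hex K) :=
    Computable.find (P := fun K N => SC (e' n₀ a b e) K N) (pSC he').computablePred hex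
  have hK : Computable fun k : ℕ => max k n₀ :=
    (Primrec.nat_max.comp Primrec.id (Primrec.const n₀)).to_comp
  have hm : Computable fun k : ℕ => Nat.find (hex (max k n₀)) + 4 :=
    (padd (α := ℕ) Primrec.id (pconst 4)).to_comp.comp (hc.comp hK)
  refine ⟨fun k => Nat.find (hex (max k n₀)) + 4, hm, ?_⟩
  intro k w hwV hwd n hn
  set K := max k n₀ with hKdef
  have hSC := Nat.find_spec (hex K)
  set N := Nat.find (hex K) with hN
  have hKk : (1 : ℝ) / 2 ^ K < dM w := by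
    refine lt_of_le_of_lt ?_ hwd
    exact one_div_le_one_div_of_le (by positivity)
      (pow_le_pow_right₀ (by norm_num) (le_max_left _ _))
  have hK0 : (0 : ℝ) < 1 / 2 ^ K := by positivity
  obtain ⟨x, y, hxy, hwS⟩ := hcov (K + 3) w ((le_max_right k n₀).trans (by omega)) hwV
  obtain ⟨hx, hy⟩ := lt_of_inBox ha hb hxy
  rcases hSC x hx y hy with h | h
  · obtain ⟨a', ha', b', hb', hB⟩ := h
    rw [big_iff _ _ (gq_pos _ _ _)] at hB
    push_cast at hB
    have h7 : 3 < ‖P (N + 1) (pt (gq (K + 3 + N) (x * 2 ^ N + a') (y * 2 ^ N + b')))‖ := by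
      by_contra hc
      push Not at hc
      nlinarith [norm_nonneg (P (N + 1) (pt (gq (K + 3 + N) (x * 2 ^ N + a') (y * 2 ^ N + b'))))]
    exact time_of_near (N := N + 1) (by omega) hKk hK0 (near_of_sq hwS (test_mem ha' hb')) h7
      (by omega)
  · exfalso
    have hpx : p (x, y, K + 3) := by
      rcases (e'_iff _ _ _ _ _).1 h with h | h
      · exact (hpe _).2 ⟨N, h⟩
      · exact absurd hxy h
    obtain ⟨v, hv, hvM⟩ := (hp2 (K + 3) x y (hsub _ _ _ hxy)).2 hpx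
    have h8 := near_of_sq hwS hv
    have h9 : dM w ≤ ‖v - w‖ := by
      have := infDist_le_dist_of_mem (x := w) hvM
      rw [dist_comm, dist_eq_norm] at this
      exact this
    linarith

end Pool.Agent.Work.MP_500150_lc.LC
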