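import Mathlib
import Pool.Agent.Work.MP_500150_lc.LC.StmtsC

set_option autoImplicit false

/-!
# Item LVE: solving `Js(X) = y` with holomorphic parameters
-/

namespace Pool.Agent.Work.MP_500150_lc.LC

open Metric Set Filter Topology MeasureTheory Pool.MP_500150_lc.H8

namespace I_LVE

/-- the iterates -/
noncomputable def it (J : ℂ × ℂ → ℂ) (s : ℂ) (lam y : ℂ → ℂ) : ℕ → ℂ → ℂ
  | 0 => fun _ => 0
  | n + 1 => fun t => y t - (Js J s (lam t) (it J s lam y n t) - it J s lam y n t)

end I_LVE

theorem LVE_pf (hOXZ : S_OXZ) (hJSI : S_JSI) : S_LVE := by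
  intro w J hF s ε lam y hs hε hlam hy hb
  have hw : 20 ≤ w := hF.big
  have hJs := hOXZ.2.2.2 w J hF
  set Y := I_LVE.it J s lam y with hY
  have hYs : ∀ n t, Y (n + 1) t = y t - (Js J s (lam t) (Y n t) - Y n t) := fun n t => rfl
  -- the bound
  have hyb : ∀ t ∈ ball (0 : ℂ) ε, ‖y t‖ ≤ 32 / 100 * w := by
    intro t ht
    have h1 := (hb t ht).2
    have h2 : ‖y t‖ ^ 2 ≤ (32 / 100 * w) ^ 2 := by nlinarith
    exact abs_le_of_sq_le_sq' h2 (by positivity) |>.2
  have hbd : ∀ n, ∀ t ∈ ball (0 : ℂ) ε, ‖Y n t‖ ≤ 33 / 100 * w := by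
    intro n
    induction n with
    | zero =>
      intro t _
      have : Y 0 t = 0 := rfl
      rw [this, norm_zero]
      positivity
    | succ n ih =>
      intro t ht
      have h1 := ih t ht
      have h2 := hJs s (lam t) (Y n t) hs (hb t ht).1 (by linarith)
      rw [hYs]
      calc ‖y t - (Js J s (lam t) (Y n t) - Y n t)‖
          ≤ ‖y t‖ + ‖Js J s (lam t) (Y n t) - Y n t‖ := norm_sub_le _ _
        _ ≤ 32 / 100 * w + 3 / 100 * ‖Y n t‖ := add_le_add (hyb t ht) h2
        _ ≤ 33 / 100 * w := by linarith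
  -- the iterates are holomorphic
  have hdiff : ∀ n, DifferentiableOn ℂ (Y n) (ball 0 ε) := by
    intro n
    induction n with
    | zero =>
      have : Y 0 = fun _ => (0 : ℂ) := rfl
      rw [this]
      exact differentiableOn_const _
    | succ n ih =>
      have hJd : DifferentiableOn ℂ J (ball 0 (w / 2) ×ˢ ball 0 (2 * w)) := hF.an.differentiableOn
      have h1 : DifferentiableOn ℂ (fun t => J (lam t, Y n t)) (ball 0 ε) := by
        refine hJd.comp (hlam.prodMk ih) ?_
        intro t ht
        refine ⟨mem_ball_zero_iff.2 (hb t ht).1, mem_ball_zero_iff.2 ?_⟩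
        have := hbd n t ht
        change ‖Y n t‖ < 2 * w
        linarith
      have h2 : Y (n + 1) = fun t => y t - (Y n t + s * (J (lam t, Y n t) - Y n t) - Y n t) := rfl
      rw [h2]
      exact hy.sub ((ih.add ((h1.sub ih).const_mul s)).sub ih)
  -- geometric convergence
  have hgeo : ∀ t ∈ ball (0 : ℂ) ε, ∀ n, dist (Y n t) (Y (n + 1) t) ≤ w * (1 / 10) ^ n := by
    intro t ht n
    induction n with
    | zero =>
      have h0 : Y 0 t = 0 := rfl
      have := hbd 1 t ht
      rw [h0, dist_comm, dist_zero_right, pow_zero, mul_one]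
      linarith
    | succ n ih =>
      have h1 := (hJSI w J hF s (lam t) hs (hb t ht).1).1 (Y (n + 1) t) (Y n t)
        (by have := hbd (n + 1) t ht; linarith) (by have := hbd n t ht; linarith)
      rw [dist_eq_norm, hYs (n + 1) t]
      have h2 : Y (n + 1) t - (y t - (Js J s (lam t) (Y (n + 1) t) - Y (n + 1) t)) =
          Js J s (lam t) (Y (n + 1) t) - Js J s (lam t) (Y n t) - (Y (n + 1) t - Y n t) := by
        have := hYs n t
        rw [show Y (n + 1) t - (y t - (Js J s (lam t) (Y (n + 1) t) - Y (n + 1) t)) =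
          (Y (n + 1) t - y t) + (Js J s (lam t) (Y (n + 1) t) - Y (n + 1) t) by ring]
        rw [show Y (n + 1) t - y t = -(Js J s (lam t) (Y n t) - Y n t) by rw [this]; ring]
        ring
      rw [h2]
      refine h1.trans ?_
      rw [← dist_eq_norm, dist_comm, pow_succ]
      linarith
  have hcau : ∀ t ∈ ball (0 : ℂ) ε, CauchySeq fun n => Y n t := fun t ht =>
    cauchySeq_of_le_geometric (1 / 10) w (by norm_num) (hgeo t ht)
  set X : ℂ → ℂ := fun t => limUnder atTop (fun n => Y n t) with hX
  have hlim : ∀ t ∈ ball (0 : ℂ) ε, Tendsto (fun n => Y n t) atTop (𝓝 (X t)) :=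
    fun t ht => (hcau t ht).tendsto_limUnder
  have hdist : ∀ t ∈ ball (0 : ℂ) ε, ∀ n, dist (Y n t) (X t) ≤ w * (1 / 10) ^ n / (1 - 1 / 10) :=
    fun t ht n => dist_le_of_le_geometric_of_tendsto (1 / 10) w (by norm_num) (hgeo t ht)
      (hlim t ht) n
  have hXb : ∀ t ∈ ball (0 : ℂ) ε, ‖X t‖ ≤ 33 / 100 * w := fun t ht =>
    le_of_tendsto (hlim t ht).norm (Eventually.of_forall fun n => hbd n t ht)
  refine ⟨X, ?_, fun t ht => ⟨hXb t ht, ?_⟩⟩
  · have hunif : TendstoUniformlyOn Y X atTop (ball 0 ε) := by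
      rw [Metric.tendstoUniformlyOn_iff]
      intro δ hδ
      have h0 : Tendsto (fun n : ℕ => w * (1 / 10 : ℝ) ^ n / (1 - 1 / 10)) atTop (𝓝 0) := by
        have h1 : Tendsto (fun n : ℕ => (1 / 10 : ℝ) ^ n) atTop (𝓝 0) :=
          tendsto_pow_atTop_nhds_zero_of_lt_one (by norm_num) (by norm_num)
        have h2 := (h1.const_mul w).div_const (1 - 1 / 10 : ℝ)
        simpa using h2
      filter_upwards [h0.eventually (gt_mem_nhds hδ)] with n hn t ht
      rw [dist_comm]
      exact (hdist t ht n).trans_lt hn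
    exact hunif.tendstoLocallyUniformlyOn.differentiableOn (Eventually.of_forall hdiff)
      isOpen_ball
  · -- the equation
    have h1 : Tendsto (fun n => Js J s (lam t) (Y n t)) atTop (𝓝 (y t)) := by
      have h2 : (fun n => Js J s (lam t) (Y n t)) = fun n => y t + Y n t - Y (n + 1) t := by
        funext n
        rw [hYs]
        ring
      rw [h2]
      have h3 : Tendsto (fun n => Y (n + 1) t) atTop (𝓝 (X t)) :=
        (hlim t ht).comp (tendsto_add_atTop_nat 1)
      have h4 := ((tendsto_const_nhds (x := y t)).add (hlim t ht)).sub h3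
      simpa using h4
    have h5 : Tendsto (fun n => Js J s (lam t) (Y n t)) atTop (𝓝 (Js J s (lam t) (X t))) := by
      rw [tendsto_iff_norm_sub_tendsto_zero]
      have h6 : Tendsto (fun n => 2 * ‖Y n t - X t‖) atTop (𝓝 0) := by
        have := (tendsto_iff_norm_sub_tendsto_zero.1 (hlim t ht)).const_mul 2
        simpa using this
      refine squeeze_zero (fun n => norm_nonneg _) (fun n => ?_) h6
      have h7 := (hJSI w J hF s (lam t) hs (hb t ht).1).1 (Y n t) (X t)
        (by have := hbd n t ht; linarith) (by have := hXb t ht; linarith)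
      have h8 : ‖Js J s (lam t) (Y n t) - Js J s (lam t) (X t)‖ ≤
          ‖Js J s (lam t) (Y n t) - Js J s (lam t) (X t) - (Y n t - X t)‖ + ‖Y n t - X t‖ := by
        have := norm_add_le (Js J s (lam t) (Y n t) - Js J s (lam t) (X t) - (Y n t - X t))
          (Y n t - X t)
        rwa [sub_add_cancel] at this
      have h9 : 0 ≤ ‖Y n t - X t‖ := norm_nonneg _
      linarith
    exact tendsto_nhds_unique h5 h1

end Pool.Agent.Work.MP_500150_lc.LC
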