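import Mathlib
import Pool.Agent.Work.MP_500150_lc.LC.Stmts

set_option autoImplicit false

/-!
# Item MBD: facts on Misiurewicz parameters
-/

namespace Pool.Agent.Work.MP_500150_lc.LC

open Metric Set Filter Topology MeasureTheory Pool.MP_500150_lc.H8

namespace I_MBD

theorem P_add (c : ℂ) (n i : ℕ) (h : P i c = 0) : P (n + i) c = P n c := by
  induction n with
  | zero => rw [zero_add, h, P_zero]
  | succ n ih =>
    rw [show n + 1 + i = (n + i) + 1 by omega, P_succ, P_succ, ih]

end I_MBD

theorem MBD_pf (hBET : S_BET) : S_MBD := by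
  intro c₀ l hM
  have hland : ∀ n, l ≤ n → P n c₀ = bet c₀ := by
    intro n hn
    induction n, hn using Nat.le_induction with
    | base => exact hM.land
    | succ n _ ih => rw [P_succ, ih, hBET.1]
  have hMM : c₀ ∈ MM := by
    by_contra hc
    obtain ⟨N, hN⟩ := esc_large (isCompact_singleton (x := c₀))
      (fun c hc' => by rw [mem_singleton_iff.1 hc']; exact hc) ‖bet c₀‖
    have h1 := hN (max N l) (le_max_left _ _) c₀ (mem_singleton c₀)
    rw [hland _ (le_max_right _ _)] at h1
    exact lt_irrefl _ h1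
  refine ⟨hMM, norm_le_of_mem hMM, ?_, ?_, hland⟩
  · rw [← hM.land]
    exact mem_MM.1 hMM l
  · intro i hi h0
    have h1 : ∀ k, P (i * k) c₀ = 0 := by
      intro k
      induction k with
      | zero => rw [mul_zero, P_zero]
      | succ k ih => rw [mul_add, mul_one, I_MBD.P_add c₀ _ _ h0, ih]
    have h2 : l ≤ i * l := Nat.le_mul_of_pos_left l hi
    have h3 : bet c₀ = 0 := by rw [← hland _ h2, h1]
    have h4 := (hBET.2.1 c₀ hM.slit).1
    rw [h3, mul_zero, norm_zero] at h4
    linarith

end Pool.Agent.Work.MP_500150_lc.LC
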