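import Mathlib
import Pool.Agent.Work.MP_500150_lc.LC.Stmts

/-! # MP_500150_lc, block LC, item MEA: a measure estimate. -/

set_option autoImplicit false

namespace Pool.Agent.Work.MP_500150_lc.LC

open Metric Set Filter Topology MeasureTheory Pool.MP_500150_lc.H8

theorem MEA_pf : S_MEA := by
  intro h C' a g b η hc hC' ha hg hη hlow hint hA
  have hpi : (0 : ℝ) ≤ 2 * Real.pi := by positivity
  set μ : Measure ℝ := volume.restrict (Ioc 0 (2 * Real.pi)) with hμ
  have hfin : IsFiniteMeasure μ := by
    refine ⟨?_⟩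
    rw [hμ, Measure.restrict_apply_univ]
    exact measure_Ioc_lt_top
  set A : Set ℝ := {θ | g / 2 ≤ h θ} with hAdef
  set T : Set ℝ := {θ | h θ ≤ -η} with hTdef
  have hAm : MeasurableSet A := (isClosed_le continuous_const hc).measurableSet
  have hTm : MeasurableSet T := (isClosed_le hc continuous_const).measurableSet
  have hA1 : volume {θ : ℝ | θ ∈ Ioc 0 (2 * Real.pi) ∧ g / 2 ≤ h θ} = μ A := by
    rw [hμ, Measure.restrict_apply hAm]
    congr 1
    ext θ
    simp only [mem_ofPred_eq, mem_inter_iff, hAdef]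
    tauto
  have hT1 : volume {θ : ℝ | θ ∈ Ioc 0 (2 * Real.pi) ∧ h θ ≤ -η} = μ T := by
    rw [hμ, Measure.restrict_apply hTm]
    congr 1
    ext θ
    simp only [mem_ofPred_eq, mem_inter_iff, hTdef]
    tauto
  rw [hA1] at hA
  rw [hT1]
  have hA2 : a ≤ μ.real A := (ENNReal.ofReal_le_iff_le_toReal (measure_ne_top μ A)).1 hA
  refine (ENNReal.ofReal_le_iff_le_toReal (measure_ne_top μ T)).2 ?_
  change _ ≤ μ.real T
  rw [div_le_iff₀ hC']
  have hi : Integrable h μ := by
    have h1 : IntervalIntegrable h volume 0 (2 * Real.pi) := hc.intervalIntegrable _ _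
    exact (intervalIntegrable_iff_integrableOn_Ioc_of_le hpi).1 h1
  have hiA : Integrable (A.indicator (fun _ => g / 2)) μ :=
    (integrable_const _).indicator hAm
  have hiT : Integrable (T.indicator (fun _ => C')) μ :=
    (integrable_const _).indicator hTm
  have hiη : Integrable (fun _ : ℝ => η) μ := integrable_const _
  have key : ∫ θ, (A.indicator (fun _ => g / 2) θ - T.indicator (fun _ => C') θ - η) ∂μ ≤
      ∫ θ, h θ ∂μ := by
    refine integral_mono ((hiA.sub hiT).sub hiη) hi ?_
    intro θ
    show A.indicator (fun _ => g / 2) θ - T.indicator (fun _ => C') θ - η ≤ h θ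
    have hl := hlow θ
    by_cases h1 : θ ∈ A <;> by_cases h2 : θ ∈ T
    · rw [indicator_of_mem h1, indicator_of_mem h2]
      have h3 : g / 2 ≤ h θ := h1
      linarith
    · rw [indicator_of_mem h1, indicator_of_notMem h2]
      have h3 : g / 2 ≤ h θ := h1
      linarith
    · rw [indicator_of_notMem h1, indicator_of_mem h2]
      linarith
    · rw [indicator_of_notMem h1, indicator_of_notMem h2]
      have h3 : ¬ h θ ≤ -η := h2
      push Not at h3
      linarith
  have hsub : ∫ θ, (A.indicator (fun _ => g / 2) θ - T.indicator (fun _ => C') θ - η) ∂μ =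
      μ.real A • (g / 2) - μ.real T • C' - μ.real univ • η := by
    have e1 : ∫ θ, (A.indicator (fun _ => g / 2) θ - T.indicator (fun _ => C') θ - η) ∂μ =
        ∫ θ, (A.indicator (fun _ => g / 2) θ - T.indicator (fun _ => C') θ) ∂μ -
          ∫ _ : ℝ, η ∂μ := integral_sub (hiA.sub hiT) hiη
    have e2 : ∫ θ, (A.indicator (fun _ => g / 2) θ - T.indicator (fun _ => C') θ) ∂μ =
        ∫ θ, A.indicator (fun _ => g / 2) θ ∂μ - ∫ θ, T.indicator (fun _ => C') θ ∂μ :=
      integral_sub hiA hiT
    rw [e1, e2, integral_indicator_const _ hAm, integral_indicator_const _ hTm, integral_const]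
  rw [hsub] at key
  have hμu : μ.real univ = 2 * Real.pi := by
    rw [hμ, measureReal_restrict_apply_univ, Real.volume_real_Ioc_of_le hpi, sub_zero]
  rw [hμu] at key
  have h4 : ∫ θ, h θ ∂μ ≤ b := by
    rw [intervalIntegral.integral_of_le hpi] at hint
    exact hint
  simp only [smul_eq_mul] at key
  have h5 : a * (g / 2) ≤ μ.real A * (g / 2) :=
    mul_le_mul_of_nonneg_right hA2 (by positivity)
  linarith

end Pool.Agent.Work.MP_500150_lc.LC
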