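import Mathlib
import Pool.Agent.Work.MP_500150_lc.LC.Stmts

set_option autoImplicit false

/-!
# Item MIS: Misiurewicz parameters near every boundary point
-/

namespace Pool.Agent.Work.MP_500150_lc.LC

open Metric Set Filter Topology MeasureTheory Pool.MP_500150_lc.H8

namespace I_MIS

/-- The difference of the critical orbit and the fixed point. -/
noncomputable def u (n : ℕ) (c : ℂ) : ℂ := P (n + 1) c - bet c

theorem u_succ (hb : ∀ c : ℂ, bet c ^ 2 + c = bet c) (n : ℕ) (c : ℂ) :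
    u (n + 1) c = u n c * (u n c + 2 * bet c) := by
  unfold u
  rw [P_succ (n + 1) c]
  linear_combination hb c

theorem step (hb : ∀ c : ℂ, bet c ^ 2 + c = bet c) {c : ℂ} {r₀ : ℝ}
    (h1 : 1 + r₀ ≤ ‖2 * bet c‖) (h2 : ‖2 * bet c‖ ≤ 6) {n : ℕ} (hu : ‖u n c‖ ≤ r₀) :
    ‖u n c‖ ≤ ‖u (n + 1) c‖ ∧ ‖u (n + 1) c‖ ≤ ‖u n c‖ * (6 + r₀) := by
  rw [u_succ hb, norm_mul]
  have h3 : ‖2 * bet c‖ - ‖u n c‖ ≤ ‖u n c + 2 * bet c‖ := by
    have := norm_sub_norm_le (2 * bet c) (-u n c)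
    rw [norm_neg, sub_neg_eq_add, add_comm (2 * bet c)] at this
    exact this
  have h4 : ‖u n c + 2 * bet c‖ ≤ ‖u n c‖ + ‖2 * bet c‖ := norm_add_le _ _
  have h5 : 0 ≤ ‖u n c‖ := norm_nonneg _
  constructor
  · have h6 : 1 ≤ ‖u n c + 2 * bet c‖ := by linarith
    calc ‖u n c‖ = ‖u n c‖ * 1 := (mul_one _).symm
      _ ≤ _ := mul_le_mul_of_nonneg_left h6 h5
  · exact mul_le_mul_of_nonneg_left (by linarith) h5

theorem steps (hb : ∀ c : ℂ, bet c ^ 2 + c = bet c) {c : ℂ} {r₀ : ℝ} (hr : 0 < r₀)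
    (h1 : 1 + r₀ ≤ ‖2 * bet c‖) (h2 : ‖2 * bet c‖ ≤ 6) {n J : ℕ}
    (hu : ‖u n c‖ * (6 + r₀) ^ J ≤ r₀) :
    ∀ j ≤ J, ‖u n c‖ ≤ ‖u (n + j) c‖ ∧ ‖u (n + j) c‖ ≤ ‖u n c‖ * (6 + r₀) ^ j := by
  intro j
  induction j with
  | zero => intro _; simp
  | succ j ih =>
    intro hj
    obtain ⟨a1, a2⟩ := ih (by omega)
    have hB : (1 : ℝ) ≤ 6 + r₀ := by linarith
    have h3 : ‖u n c‖ * (6 + r₀) ^ j ≤ ‖u n c‖ * (6 + r₀) ^ J :=
      mul_le_mul_of_nonneg_left (pow_le_pow_right₀ hB (by omega)) (norm_nonneg _)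
    have h4 : ‖u (n + j) c‖ ≤ r₀ := a2.trans (h3.trans hu)
    obtain ⟨b1, b2⟩ := step hb h1 h2 h4
    rw [← add_assoc]
    refine ⟨a1.trans b1, b2.trans ?_⟩
    rw [pow_succ, ← mul_assoc]
    exact mul_le_mul_of_nonneg_right a2 (by linarith)

theorem up3 (k : ℕ) : (3 : ℝ) ^ k ≤ Real.exp (2 * k) := by
  have h1 : (3 : ℝ) ≤ Real.exp 2 := by
    have := Real.add_one_le_exp (2 : ℝ)
    linarith
  calc (3 : ℝ) ^ k ≤ Real.exp 2 ^ k := pow_le_pow_left₀ (by norm_num) h1 k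
    _ = Real.exp (2 * k) := by rw [← Real.exp_nat_mul, mul_comm]

theorem u_le {c : ℂ} (hc : ‖c‖ ≤ 4) (hbc : ‖bet c‖ ≤ 3) (n : ℕ) :
    ‖u n c‖ ≤ Real.exp (6 * 2 ^ n) := by
  have h1 : ‖u n c‖ ≤ ‖P (n + 1) c‖ + ‖bet c‖ := norm_sub_le _ _
  have h2 := upper4 hc (n + 1)
  have h3 : (1 : ℝ) ≤ 3 ^ (2 ^ (n + 1)) := one_le_pow₀ (by norm_num)
  have h4 : ‖u n c‖ ≤ 3 ^ (2 ^ (n + 1) + 1) := by
    rw [pow_succ (3 : ℝ)]
    linarith
  refine h4.trans ((up3 _).trans (Real.exp_le_exp.2 ?_))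
  push_cast
  have h5 : (1 : ℝ) ≤ 2 ^ n := one_le_pow₀ (by norm_num)
  rw [pow_succ]
  linarith

theorem exists_pow (x : ℝ) : ∃ n : ℕ, x < 2 ^ n := pow_unbounded_of_one_lt x (by norm_num)

end I_MIS

open I_MIS in
theorem MIS_pf (hBET : S_BET) (hFRO : S_FRO) (hGRW : S_GRW) (hND : S_ND) : S_MIS := by
  intro U hU hne
  obtain ⟨hb1, hb2, _, hb4⟩ := hBET
  obtain ⟨c', hc'U, hc'F, hc'S⟩ := hFRO U hU hne
  have hc'M : c' ∈ MM := by
    have h1 := frontier_subset_closure hc'F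
    rwa [isClosed_MM.closure_eq] at h1
  have hc'2 := norm_le_of_mem hc'M
  -- the disc
  have hopen : IsOpen (U ∩ ({c : ℂ | 1 - 4 * c ∈ Complex.slitPlane} ∩ ball 0 4)) := by
    refine hU.inter (IsOpen.inter ?_ isOpen_ball)
    exact Complex.isOpen_slitPlane.preimage (by fun_prop : Continuous fun c : ℂ => 1 - 4 * c)
  have hmem : c' ∈ U ∩ ({c : ℂ | 1 - 4 * c ∈ Complex.slitPlane} ∩ ball 0 4) := by
    refine ⟨hc'U, hc'S, ?_⟩
    rw [mem_ball_zero_iff]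
    linarith
  obtain ⟨R', hR', hR'sub⟩ := Metric.nhds_basis_closedBall.mem_iff.1 (hopen.mem_nhds hmem)
  obtain ⟨R, hRdef⟩ : ∃ R, R = R' / 4 := ⟨_, rfl⟩
  have hR : 0 < R := by rw [hRdef]; positivity
  have hsub : closedBall c' (4 * R) ⊆
      U ∩ ({c : ℂ | 1 - 4 * c ∈ Complex.slitPlane} ∩ ball 0 4) := by
    have h1 : 4 * R = R' := by rw [hRdef]; ring
    rw [h1]
    exact hR'sub
  have hsubb : ball c' (4 * R) ⊆ closedBall c' (4 * R) := ball_subset_closedBall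
  have hb6 : ∀ c ∈ closedBall c' (4 * R), ‖bet c‖ ≤ 3 := by
    intro c hc
    apply hb4
    have h1 := (hsub hc).2.2
    rw [mem_ball_zero_iff] at h1
    exact h1.le
  -- the minimum of the multiplier
  obtain ⟨cm, hcm, hcmin⟩ := (isCompact_closedBall c' (4 * R)).exists_isMinOn
    ⟨c', mem_closedBall_self (by positivity)⟩ (f := fun c => ‖2 * bet c‖) (by
      intro c hc
      have h1 := (hb2 c (hsub hc).2.1).2.continuousAt
      exact (ContinuousAt.norm (continuousAt_const.mul h1)).continuousWithinAt)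
  obtain ⟨r₀, hr₀def⟩ : ∃ r₀, r₀ = ‖2 * bet cm‖ - 1 := ⟨_, rfl⟩
  have hr₀ : 0 < r₀ := by
    rw [hr₀def]
    have := (hb2 cm (hsub hcm).2.1).1
    linarith
  have hmin : ∀ c ∈ closedBall c' (4 * R), 1 + r₀ ≤ ‖2 * bet c‖ := by
    intro c hc
    have h1 : ‖2 * bet cm‖ ≤ ‖2 * bet c‖ := hcmin hc
    rw [hr₀def]
    linarith
  by_contra hcon
  push Not at hcon
  have hnz : ∀ n, ∀ c ∈ ball c' (4 * R), u n c ≠ 0 := by
    intro n c hc h0
    have h1 := hsub (hsubb hc)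
    exact hcon c h1.1 (n + 1) ⟨h1.2.1, by omega, sub_eq_zero.1 h0⟩
  have hdiff : ∀ n, DifferentiableOn ℂ (u n) (ball c' (4 * R)) := by
    intro n c hc
    have h1 := hsub (hsubb hc)
    exact ((differentiable_P (n + 1) c).sub (hb2 c h1.2.1).2).differentiableWithinAt
  have hupp : ∀ n, ∀ c ∈ ball c' (4 * R), ‖u n c‖ ≤ Real.exp (6 * 2 ^ n) := by
    intro n c hc
    have h1 := (hsub (hsubb hc)).2.2
    rw [mem_ball_zero_iff] at h1
    exact u_le h1.le (hb6 c (hsubb hc)) n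
  have hup0 : ∀ n, ‖u n c'‖ ≤ Real.exp 6 := by
    intro n
    have h1 : ‖u n c'‖ ≤ ‖P (n + 1) c'‖ + ‖bet c'‖ := norm_sub_le _ _
    have h2 := (mem_MM.1 hc'M) (n + 1)
    have h3 := hb6 c' (mem_closedBall_self (by positivity))
    have h4 := Real.add_one_le_exp (6 : ℝ)
    linarith
  -- a point outside
  obtain ⟨c₁, hc₁M, hc₁d⟩ : ∃ c₁, c₁ ∉ MM ∧ dist c' c₁ < R := by
    have h1 : c' ∈ closure (MMᶜ) := by
      rw [frontier_eq_closure_inter_closure] at hc'F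
      exact hc'F.2
    obtain ⟨c₁, h2, h3⟩ := Metric.mem_closure_iff.1 h1 R hR
    exact ⟨c₁, h2, h3⟩
  have hc₁b : c₁ ∈ ball c' R := by rw [mem_ball, dist_comm]; exact hc₁d
  have hc₁ne : c₁ ≠ c' := by
    intro h
    rw [h] at hc₁M
    exact hc₁M hc'M
  obtain ⟨g, hg, n₁, hn₁⟩ := hGRW c₁ hc₁M
  obtain ⟨n₂, hn₂⟩ := exists_pow (2 / g)
  have hlow : ∀ k, max n₁ n₂ ≤ k → Real.exp (g * 2 ^ k) ≤ ‖u k c₁‖ := by
    intro k hk
    have hk1 : n₁ ≤ k + 1 := ((le_max_left _ _).trans hk).trans (Nat.le_succ k)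
    have hk2 : n₂ ≤ k := (le_max_right _ _).trans hk
    have h1 := hn₁ (k + 1) hk1
    have h2 : ‖P (k + 1) c₁‖ - ‖bet c₁‖ ≤ ‖u k c₁‖ := norm_sub_norm_le _ _
    have h3 : ‖bet c₁‖ ≤ 3 := hb6 c₁ (by
      rw [mem_closedBall]
      rw [mem_ball] at hc₁b
      linarith)
    have h4 : Real.exp (g * 2 ^ (k + 1)) = Real.exp (g * 2 ^ k) * Real.exp (g * 2 ^ k) := by
      rw [← Real.exp_add]
      congr 1
      rw [pow_succ]
      ring
    have h5 : 2 ≤ g * 2 ^ k := by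
      rw [div_lt_iff₀ hg] at hn₂
      have h6 : (2 : ℝ) ^ n₂ ≤ 2 ^ k := pow_le_pow_right₀ (by norm_num) hk2
      have h7 : 2 ^ n₂ * g ≤ 2 ^ k * g := mul_le_mul_of_nonneg_right h6 hg.le
      linarith
    have h6 : 3 ≤ Real.exp (g * 2 ^ k) := by
      have := Real.add_one_le_exp (g * 2 ^ k)
      linarith
    rw [h4] at h1
    nlinarith
  obtain ⟨η, C', hη, hC', M, k₂, hkey⟩ := hND c' c₁ R 6 g u (max n₁ n₂) hR (by norm_num) hg hc₁b
    hc₁ne hdiff (fun k x hx => ⟨hnz k x hx, hupp k x hx⟩) hup0 hlow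
  obtain ⟨q', hq'⟩ := exists_pow (C' / η)
  obtain ⟨q, hqdef⟩ : ∃ q, q = q' + 1 := ⟨_, rfl⟩
  have hq : C' < η * 2 ^ q := by
    rw [div_lt_iff₀ hη] at hq'
    rw [hqdef, pow_succ]
    have : 0 < (2 : ℝ) ^ q' := by positivity
    nlinarith
  have hB1 : (1 : ℝ) ≤ 6 + r₀ := by linarith
  obtain ⟨k₃, hk₃⟩ := exists_pow ((6 + r₀) ^ (M * q) / r₀ / η)
  obtain ⟨k, hkdef⟩ : ∃ k, k = max k₂ k₃ := ⟨_, rfl⟩
  have hkk : ∀ n, k ≤ n → Real.exp (-η * 2 ^ n) * (6 + r₀) ^ (M * q) ≤ r₀ := by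
    intro n hn
    have h1 : k₃ ≤ n := by rw [hkdef] at hn; exact (le_max_right _ _).trans hn
    have h2 : (2 : ℝ) ^ k₃ ≤ 2 ^ n := pow_le_pow_right₀ (by norm_num) h1
    rw [div_lt_iff₀ hη, div_lt_iff₀ hr₀] at hk₃
    have h3 : (6 + r₀) ^ (M * q) ≤ Real.exp (η * 2 ^ n) * r₀ := by
      refine hk₃.le.trans (mul_le_mul_of_nonneg_right ?_ hr₀.le)
      have h4 := Real.add_one_le_exp (η * 2 ^ n)
      have h5 : 2 ^ k₃ * η ≤ 2 ^ n * η := mul_le_mul_of_nonneg_right h2 hη.le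
      linarith
    have h4 : Real.exp (-η * 2 ^ n) * Real.exp (η * 2 ^ n) = 1 := by
      rw [← Real.exp_add, neg_mul, neg_add_cancel, Real.exp_zero]
    calc Real.exp (-η * 2 ^ n) * (6 + r₀) ^ (M * q)
        ≤ Real.exp (-η * 2 ^ n) * (Real.exp (η * 2 ^ n) * r₀) :=
          mul_le_mul_of_nonneg_left h3 (Real.exp_pos _).le
      _ = r₀ := by rw [← mul_assoc, h4, one_mul]
  obtain ⟨i, j, hij, hjM, x, hx, e1, e2, e3⟩ := hkey (fun i => k + i * q) (by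
    apply strictMono_nat_of_lt_succ
    intro n
    rw [hqdef]
    nlinarith) (by rw [hkdef]; simp)

  have hx4 : x ∈ closedBall c' (4 * R) := by
    rw [mem_ball] at hx
    rw [mem_closedBall]
    linarith
  have hx1 := hmin x hx4
  have hx2 : ‖2 * bet x‖ ≤ 6 := by
    rw [norm_mul]
    have := hb6 x hx4
    simp only [Complex.norm_ofNat]
    linarith
  obtain ⟨d, rfl⟩ := Nat.exists_eq_add_of_lt hij
  obtain ⟨n, hndef⟩ : ∃ n, n = k + i * q := ⟨_, rfl⟩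
  have hn' : k + (i + d + 1) * q = n + (d + 1) * q := by rw [hndef]; ring
  rw [← hndef] at e1 e3
  rw [hn'] at e2
  have hJ : (d + 1) * q ≤ M * q := Nat.mul_le_mul_right q (by omega)
  have hs : ‖u n x‖ * (6 + r₀) ^ ((d + 1) * q) ≤ r₀ := by
    calc ‖u n x‖ * (6 + r₀) ^ ((d + 1) * q)
        ≤ Real.exp (-η * 2 ^ n) * (6 + r₀) ^ (M * q) :=
          mul_le_mul e1 (pow_le_pow_right₀ hB1 hJ) (by positivity) (Real.exp_pos _).le
      _ ≤ r₀ := hkk n (by rw [hndef]; omega)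
  have h1 := (steps hb1 hr₀ hx1 hx2 hs ((d + 1) * q) le_rfl).1
  have h2 : Real.exp (-η * 2 ^ (n + (d + 1) * q)) < Real.exp (-C' * 2 ^ n) := by
    rw [Real.exp_lt_exp]
    have h3 : (2 : ℝ) ^ (n + q) ≤ 2 ^ (n + (d + 1) * q) :=
      pow_le_pow_right₀ (by norm_num) (by nlinarith)
    have h4 : (2 : ℝ) ^ (n + q) = 2 ^ n * 2 ^ q := pow_add _ _ _
    have h5 : 0 < (2 : ℝ) ^ n := by positivity
    have h6 : C' * 2 ^ n < η * 2 ^ q * 2 ^ n := mul_lt_mul_of_pos_right hq h5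
    have h7 : η * 2 ^ (n + q) ≤ η * 2 ^ (n + (d + 1) * q) :=
      mul_le_mul_of_nonneg_left h3 hη.le
    rw [h4] at h7
    nlinarith
  have h3 := e3.trans (h1.trans e2)
  linarith

end Pool.Agent.Work.MP_500150_lc.LC
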