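import Mathlib
import Pool.Agent.Work.MP_500150_lc.LC.Stmts

set_option autoImplicit false

/-!
# Locality of the computability of the Mandelbrot set: item ND (pigeonhole)
-/

namespace Pool.Agent.Work.MP_500150_lc.LC

open Metric Set Filter Topology MeasureTheory Pool.MP_500150_lc.H8

namespace I_ND

theorem mem_ball_circle {x₀ x₁ : ℂ} {R : ℝ} (h : x₁ ∈ ball x₀ R) (θ : ℝ) :
    circleMap x₀ ‖x₁ - x₀‖ θ ∈ ball x₀ R := by
  rw [mem_ball, dist_eq_norm] at h ⊢
  rw [circleMap_sub_center, norm_circleMap_zero, abs_of_nonneg (norm_nonneg _)]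
  exact h

/-- Many large subsets of `(0, 2π]` are not pairwise disjoint. -/
theorem pigeon (s₀ : ℝ) (hs : 0 < s₀) (M : ℕ) (hM : 2 * Real.pi < (M + 1) * s₀)
    (T : ℕ → Set ℝ) (hT : ∀ i, MeasurableSet (T i)) (hsub : ∀ i, T i ⊆ Ioc 0 (2 * Real.pi))
    (hvol : ∀ i, ENNReal.ofReal s₀ ≤ volume (T i)) :
    ∃ i j : ℕ, i < j ∧ j ≤ M ∧ (T i ∩ T j).Nonempty := by
  have key := exists_nonempty_inter_of_measure_univ_lt_sum_measure
    (volume.restrict (Ioc 0 (2 * Real.pi))) (s := Finset.range (M + 1)) (t := T)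
    (fun i _ => (hT i).nullMeasurableSet) (by
      rw [Measure.restrict_apply_univ, Real.volume_Ioc, sub_zero]
      have h1 : ∀ i ∈ Finset.range (M + 1),
          ENNReal.ofReal s₀ ≤ volume.restrict (Ioc 0 (2 * Real.pi)) (T i) := by
        intro i _
        rw [Measure.restrict_apply (hT i), inter_eq_self_of_subset_left (hsub i)]
        exact hvol i
      refine lt_of_lt_of_le ?_ (Finset.sum_le_sum h1)
      rw [Finset.sum_const, Finset.card_range, nsmul_eq_mul]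
      have h2 : ((M + 1 : ℕ) : ENNReal) * ENNReal.ofReal s₀ = ENNReal.ofReal ((M + 1) * s₀) := by
        rw [ENNReal.ofReal_mul (by positivity)]
        congr 1
        have : ((M : ℝ) + 1) = ((M + 1 : ℕ) : ℝ) := by push_cast; ring
        rw [this, ENNReal.ofReal_natCast]
      rw [h2]
      exact (ENNReal.ofReal_lt_ofReal_iff (by positivity)).2 hM)
  obtain ⟨i, hi, j, hj, hij, hne⟩ := key
  rw [Finset.mem_range] at hi hj
  rcases lt_or_gt_of_ne hij with h | h
  · exact ⟨i, j, h, by omega, hne⟩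
  · exact ⟨j, i, h, by omega, by rw [inter_comm]; exact hne⟩

end I_ND

open I_ND in
theorem ND_pf (hND1 : S_ND1) : S_ND := by
  intro x₀ x₁ R C g u k₁ hR hC hg hx₁ hne hd hu h0 h1
  obtain ⟨η, C', s₀, hη, hC', hs₀, k₂, hk⟩ := hND1 x₀ x₁ R C g u k₁ hR hC hg hx₁ hne hd hu h0 h1
  obtain ⟨M, hM⟩ := exists_nat_gt (2 * Real.pi / s₀)
  refine ⟨η, C', hη, hC', M, k₂, fun f hf hf0 => ?_⟩
  have hle : ∀ i, k₂ ≤ f i := fun i => hf0.trans (hf.monotone (Nat.zero_le i))
  have hcont : ∀ k, Continuous fun θ : ℝ => u k (circleMap x₀ ‖x₁ - x₀‖ θ) := by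
    intro k
    refine (hd k).continuousOn.comp_continuous (continuous_circleMap _ _) fun θ => ?_
    exact ball_subset_ball (by linarith) (mem_ball_circle hx₁ θ)
  obtain ⟨i, j, hij, hjM, θ, hθi, hθj⟩ := pigeon s₀ hs₀ M (by
      rw [div_lt_iff₀ hs₀] at hM
      nlinarith)
    (fun i => {θ : ℝ | θ ∈ Ioc 0 (2 * Real.pi) ∧
        ‖u (f i) (circleMap x₀ ‖x₁ - x₀‖ θ)‖ ≤ Real.exp (-η * 2 ^ f i)})
    (fun i => measurableSet_Ioc.inter
      (isClosed_le (hcont (f i)).norm continuous_const).measurableSet)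
    (fun i θ hθ => hθ.1) (fun i => (hk (f i) (hle i)).1)
  exact ⟨i, j, hij, hjM, circleMap x₀ ‖x₁ - x₀‖ θ, mem_ball_circle hx₁ θ, hθi.2, hθj.2,
    (hk (f i) (hle i)).2 θ⟩

end Pool.Agent.Work.MP_500150_lc.LC
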