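import Mathlib
import Pool.Agent.Work.MP_500150_lc.LC.Stmts

set_option autoImplicit false

/-!
# ND1: zero-free functions which are large at one point are very small on a large part of a circle
-/

namespace Pool.Agent.Work.MP_500150_lc.LC

open Metric Set Filter Topology MeasureTheory Pool.MP_500150_lc.H8

theorem ND1_pf (hANA : S_ANA) (hMEA : S_MEA) : S_ND1 := by
  intro x₀ x₁ R C g u k₁ hR hC hg hx₁ hne hdiff hbd hx₀ hbig
  obtain ⟨C', a, hC', ha, H⟩ := hANA x₀ x₁ R C g hR hC hg hx₁ hne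
  have hpi := Real.pi_pos
  have hag : 0 < a * g := mul_pos ha hg
  obtain ⟨n, hn⟩ := pow_unbounded_of_one_lt (16 * Real.pi * C / (a * g)) (one_lt_two : (1 : ℝ) < 2)
  have hcirc : ∀ θ : ℝ, circleMap x₀ ‖x₁ - x₀‖ θ ∈ ball x₀ (4 * R) := by
    intro θ
    rw [mem_ball, dist_eq_norm]
    have h1 : ‖circleMap x₀ ‖x₁ - x₀‖ θ - x₀‖ = ‖x₁ - x₀‖ := by
      simp
    have h2 : ‖x₁ - x₀‖ < R := by
      have := mem_ball.1 hx₁
      rwa [dist_eq_norm] at this
    rw [h1]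
    linarith
  refine ⟨a * g / (16 * Real.pi), C', a * g / (4 * C'), by positivity, hC', by positivity,
    max n k₁, ?_⟩
  intro k hk
  have hkn : n ≤ k := le_trans (le_max_left _ _) hk
  have hkk : k₁ ≤ k := le_trans (le_max_right _ _) hk
  have h2k : (0 : ℝ) < 2 ^ k := by positivity
  obtain ⟨h1, h2, h3, h4⟩ := H k (u k) (hdiff k) (hbd k) (hx₀ k) (hbig k hkk)
  have hpow : (2 : ℝ) ^ n ≤ 2 ^ k := pow_le_pow_right₀ (by norm_num) hkn
  have hb : 2 * Real.pi * C / 2 ^ k ≤ a * g / 8 := by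
    rw [div_le_iff₀ h2k]
    have h5 : 16 * Real.pi * C / (a * g) < 2 ^ k := lt_of_lt_of_le hn hpow
    rw [div_lt_iff₀ hag] at h5
    nlinarith
  have h6 := hMEA (fun θ : ℝ => Real.log ‖u k (circleMap x₀ ‖x₁ - x₀‖ θ)‖ / 2 ^ k) C' a g
    (2 * Real.pi * C / 2 ^ k) (a * g / (16 * Real.pi)) h2 hC' ha hg (by positivity) h1 h3 h4
  constructor
  · have h7 : a * g / (4 * C') ≤
        (a * g / 2 - 2 * Real.pi * C / 2 ^ k - 2 * Real.pi * (a * g / (16 * Real.pi))) / C' := by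
      have h8 : 2 * Real.pi * (a * g / (16 * Real.pi)) = a * g / 8 := by
        field_simp
        ring
      rw [h8, div_le_div_iff₀ (by positivity) hC']
      nlinarith
    refine le_trans (ENNReal.ofReal_le_ofReal h7) (le_trans h6 (measure_mono ?_))
    rintro θ ⟨hθ, hle⟩
    refine ⟨hθ, ?_⟩
    have hpos : 0 < ‖u k (circleMap x₀ ‖x₁ - x₀‖ θ)‖ := norm_pos_iff.2 (hbd k _ (hcirc θ)).1
    have hle' : Real.log ‖u k (circleMap x₀ ‖x₁ - x₀‖ θ)‖ ≤ -(a * g / (16 * Real.pi)) * 2 ^ k := by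
      have : Real.log ‖u k (circleMap x₀ ‖x₁ - x₀‖ θ)‖ / 2 ^ k ≤ -(a * g / (16 * Real.pi)) := hle
      rwa [div_le_iff₀ h2k] at this
    rw [← Real.exp_log hpos]
    exact Real.exp_le_exp.2 hle'
  · intro θ
    have hpos : 0 < ‖u k (circleMap x₀ ‖x₁ - x₀‖ θ)‖ := norm_pos_iff.2 (hbd k _ (hcirc θ)).1
    have h9 := h1 θ
    rw [le_div_iff₀ h2k] at h9
    rw [← Real.exp_log hpos]
    exact Real.exp_le_exp.2 h9

end Pool.Agent.Work.MP_500150_lc.LC
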