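import Mathlib
import Pool.Agent.Work.MP_500150_lc.LC.Stmts

set_option autoImplicit false

/-!
# Item NID: `P l c = bet c` is not an identity near a Misiurewicz parameter
-/

namespace Pool.Agent.Work.MP_500150_lc.LC

open Metric Set Filter Topology MeasureTheory Pool.MP_500150_lc.H8

namespace I_NID

/-- the slit plane of the parameters -/
def SS : Set ℂ := {c : ℂ | 1 - 4 * c ∈ Complex.slitPlane}

theorem isOpen_SS : IsOpen SS :=
  Complex.isOpen_slitPlane.preimage (by fun_prop)

theorem preconnected_SS : IsPreconnected SS := by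
  have h1 : SS = (fun w : ℂ => (1 - w) / 4) '' Complex.slitPlane := by
    ext c
    constructor
    · intro hc
      exact ⟨1 - 4 * c, hc, by ring⟩
    · rintro ⟨w, hw, rfl⟩
      change 1 - 4 * ((1 - w) / 4) ∈ Complex.slitPlane
      rw [show 1 - 4 * ((1 - w) / 4) = w by ring]
      exact hw
  rw [h1]
  have h2 : IsPreconnected Complex.slitPlane :=
    (Complex.starConvex_one_slitPlane.isPathConnected Complex.one_mem_slitPlane).isConnected.isPreconnected
  exact h2.image _ (by fun_prop)

end I_NID

theorem NID_pf (hBET : S_BET) : S_NID := by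
  intro c₀ l hM hev
  have hb : AnalyticOnNhd ℂ bet I_NID.SS :=
    DifferentiableOn.analyticOnNhd
      (fun c hc => (hBET.2.1 c hc).2.differentiableWithinAt) I_NID.isOpen_SS
  have hP : AnalyticOnNhd ℂ (P l) I_NID.SS :=
    (differentiable_P l).differentiableOn.analyticOnNhd I_NID.isOpen_SS
  have h0 : (0 : ℂ) ∈ I_NID.SS := by
    change 1 - 4 * (0 : ℂ) ∈ Complex.slitPlane
    rw [mul_zero, sub_zero]
    exact Complex.one_mem_slitPlane
  have h1 := hP.eqOn_of_preconnected_of_eventuallyEq hb I_NID.preconnected_SS hM.slit hev h0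
  have h2 : P l 0 = 0 := by
    have : ∀ n, P n 0 = 0 := by
      intro n
      induction n with
      | zero => exact P_zero 0
      | succ n ih => rw [P_succ, ih]; ring
    exact this l
  rw [h2, hBET.2.2.1] at h1
  exact zero_ne_one h1

end Pool.Agent.Work.MP_500150_lc.LC
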