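import Mathlib
import Pool.Agent.Work.MP_500150_lc.LC.Stmts

/-!
Item [500150 LC NRM]: normalised inverse branches.
-/

set_option autoImplicit false

namespace Pool.Agent.Work.MP_500150_lc.LC

open Metric Set Filter Topology MeasureTheory Pool.MP_500150_lc.H8

namespace I_NRM

/-- The partial derivative in the second variable. -/
theorem deriv_eq {U : ℂ × ℂ → ℂ} {S : Set (ℂ × ℂ)} (hU : AnalyticOnNhd ℂ U S) {c x : ℂ}
    (h : (c, x) ∈ S) : HasDerivAt (fun y => U (c, y)) (fderiv ℂ U (c, x) (0, 1)) x := by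
  have h1 : HasFDerivAt U (fderiv ℂ U (c, x)) (c, x) := (hU _ h).differentiableAt.hasFDerivAt
  have h2 : HasDerivAt (fun y : ℂ => (c, y)) ((0 : ℂ), (1 : ℂ)) x :=
    (hasDerivAt_const x c).prodMk (hasDerivAt_id x)
  exact h1.comp_hasDerivAt x h2

theorem diffA {U : ℂ × ℂ → ℂ} {c₀ : ℂ} {ρ : ℝ} (hρ : 0 < ρ)
    (hU : AnalyticOnNhd ℂ U (ball c₀ ρ ×ˢ ball 0 ρ)) :
    DifferentiableOn ℂ (fun c => deriv (fun x => U (c, x)) 0) (ball c₀ ρ) := by
  have h0 : ∀ c ∈ ball c₀ ρ, (c, (0 : ℂ)) ∈ ball c₀ ρ ×ˢ ball (0 : ℂ) ρ := fun c hc =>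
    ⟨hc, mem_ball_self hρ⟩
  have h1 : DifferentiableOn ℂ (fun c : ℂ => fderiv ℂ U (c, 0) (0, 1)) (ball c₀ ρ) := by
    intro c hc
    have h2 : AnalyticAt ℂ (fderiv ℂ U) (c, (0 : ℂ)) := (hU.fderiv) _ (h0 c hc)
    have h3 : DifferentiableAt ℂ (fun c : ℂ => fderiv ℂ U (c, (0 : ℂ))) c := by
      have h4 : DifferentiableAt ℂ (fun c : ℂ => (c, (0 : ℂ))) c :=
        differentiableAt_id.prodMk (differentiableAt_const _)
      exact DifferentiableAt.comp (g := fderiv ℂ U) (f := fun c : ℂ => (c, (0 : ℂ))) c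
        h2.differentiableAt h4
    exact (h3.clm_apply (differentiableAt_const _)).differentiableWithinAt
  refine h1.congr ?_
  intro c hc
  exact (deriv_eq hU (h0 c hc)).deriv

end I_NRM

theorem NRM_pf : S_NRM := by
  intro ρ C hρ hρ1 hC
  have hC0 : 0 < C := lt_of_lt_of_le one_pos hC
  refine ⟨(C ^ 2 + 1) / ρ ^ 2 + 4 * C ^ 2 / ρ + 1, ?_, ?_⟩
  · have h1 : 0 ≤ (C ^ 2 + 1) / ρ ^ 2 := by positivity
    have h2 : 0 ≤ 4 * C ^ 2 / ρ := by positivity
    linarith
  intro c₀ mu U hmu hU hb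
  have hA := I_NRM.diffA hρ hU
  refine ⟨hA, ?_⟩
  set A : ℂ → ℂ := fun c => deriv (fun x => U (c, x)) 0 with hAdef
  have hAne : ∀ c ∈ ball c₀ ρ, A c ≠ 0 := by
    intro c hc h0
    have := (hb c hc).2
    rw [show deriv (fun x => U (c, x)) 0 = A c from rfl, h0, mul_zero, norm_zero] at this
    have h2 : 0 < 1 / C := by positivity
    linarith
  set B : ℂ → ℂ → ℂ := fun c x => (U (c, x) - U (c, 0)) / A c with hBdef
  -- the bound
  have hB : ∀ c ∈ ball c₀ ρ, ∀ x ∈ ball (0 : ℂ) ρ, ‖B c x‖ ≤ C ^ 2 := by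
    intro c hc x hx
    have h1 := (hb c hc).1 x hx
    have h2 : 1 / C ≤ ‖mu c * A c‖ := (hb c hc).2
    have h3 : B c x = (mu c * (U (c, x) - U (c, 0))) / (mu c * A c) := by
      simp only [hBdef]
      rw [mul_div_mul_left _ _ (hmu c hc)]
    rw [h3, norm_div]
    have h4 : 0 < ‖mu c * A c‖ := lt_of_lt_of_le (by positivity) h2
    rw [div_le_iff₀ h4]
    calc ‖mu c * (U (c, x) - U (c, 0))‖ ≤ C := h1
      _ = C ^ 2 * (1 / C) := by field_simp
      _ ≤ C ^ 2 * ‖mu c * A c‖ := by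
          apply mul_le_mul_of_nonneg_left h2 (by positivity)
  have hsub : ball c₀ (ρ / 2) ⊆ ball c₀ ρ := ball_subset_ball (by linarith)
  have hsub0 : ball (0 : ℂ) (ρ / 2) ⊆ ball (0 : ℂ) ρ := ball_subset_ball (by linarith)
  intro c hc x hx
  have hcρ := hsub hc
  have hxρ := hsub0 hx
  constructor
  · -- second order in `x`
    set h : ℂ → ℂ := fun y => B c y - y with hh
    have hd : DifferentiableOn ℂ h (ball 0 ρ) := by
      intro y hy
      have h1 : DifferentiableAt ℂ (fun y => U (c, y)) y :=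
        (I_NRM.deriv_eq hU (⟨hcρ, hy⟩ : (c, y) ∈ ball c₀ ρ ×ˢ ball (0 : ℂ) ρ)).differentiableAt
      exact (((h1.sub_const _).div_const _).sub differentiableAt_id).differentiableWithinAt
    have hh0 : h 0 = 0 := by simp [hh, hBdef]
    have hmaps : MapsTo h (ball 0 ρ) (closedBall (h 0) (C ^ 2 + 1)) := by
      intro y hy
      rw [hh0, mem_closedBall_zero_iff]
      have h1 := hB c hcρ y hy
      have h2 : ‖y‖ ≤ 1 := by
        have := mem_ball_zero_iff.1 hy
        linarith
      calc ‖B c y - y‖ ≤ ‖B c y‖ + ‖y‖ := norm_sub_le _ _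
        _ ≤ C ^ 2 + 1 := by linarith
    have hder : HasDerivAt h 0 0 := by
      have h1 : HasDerivAt (fun y => U (c, y)) (A c) 0 := by
        have h2 := I_NRM.deriv_eq hU
          (⟨hcρ, mem_ball_self hρ⟩ : (c, (0 : ℂ)) ∈ ball c₀ ρ ×ˢ ball (0 : ℂ) ρ)
        have h3 : A c = fderiv ℂ U (c, 0) (0, 1) := h2.deriv
        rw [h3]
        exact h2
      have h4 := ((h1.sub_const (U (c, 0))).div_const (A c)).sub (hasDerivAt_id (0 : ℂ))
      rw [div_self (hAne c hcρ), sub_self] at h4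
      exact h4
    have hlo : (fun y => h y - h 0) =o[𝓝 (0 : ℂ)] (fun w : ℂ => ‖w - 0‖ ^ 1) := by
      have h1 := hder.isLittleO
      simp only [smul_zero, sub_zero] at h1
      simp only [sub_zero, pow_one]
      rw [hh0] at h1 ⊢
      simp only [sub_zero] at h1 ⊢
      exact h1.norm_right
    have key := Complex.dist_le_mul_div_pow_of_mapsTo_ball_of_isLittleO hd hmaps hlo hxρ
    rw [hh0, dist_zero_right, dist_zero_right] at key
    have h5 : ‖B c x - x‖ ≤ (C ^ 2 + 1) * (‖x‖ / ρ) ^ 2 := key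
    calc ‖(U (c, x) - U (c, 0)) / deriv (fun x => U (c, x)) 0 - x‖ = ‖B c x - x‖ := rfl
      _ ≤ (C ^ 2 + 1) * (‖x‖ / ρ) ^ 2 := h5
      _ = (C ^ 2 + 1) / ρ ^ 2 * ‖x‖ ^ 2 := by rw [div_pow]; ring
      _ ≤ ((C ^ 2 + 1) / ρ ^ 2 + 4 * C ^ 2 / ρ + 1) * ‖x‖ ^ 2 := by
          apply mul_le_mul_of_nonneg_right _ (by positivity)
          have h2 : 0 ≤ 4 * C ^ 2 / ρ := by positivity
          linarith
  · -- Lipschitz in `c`
    intro c' hc'
    have hc'ρ := hsub hc'
    show ‖B c x - B c' x‖ ≤ _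
    have hBx : ‖B c x - B c' x‖ ≤ 2 * C ^ 2 := by
      calc ‖B c x - B c' x‖ ≤ ‖B c x‖ + ‖B c' x‖ := norm_sub_le _ _
        _ ≤ 2 * C ^ 2 := by
            have h1 := hB c hcρ x hxρ
            have h2 := hB c' hc'ρ x hxρ
            linarith
    have hmain : ‖B c x - B c' x‖ ≤ 4 * C ^ 2 / ρ * ‖c - c'‖ := by
      by_cases hfar : ρ / 2 ≤ ‖c - c'‖
      · calc ‖B c x - B c' x‖ ≤ 2 * C ^ 2 := hBx
          _ = 4 * C ^ 2 / ρ * (ρ / 2) := by field_simp; ring
          _ ≤ 4 * C ^ 2 / ρ * ‖c - c'‖ := by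
              apply mul_le_mul_of_nonneg_left hfar (by positivity)
      · push Not at hfar
        have hsubc : ball c (ρ / 2) ⊆ ball c₀ ρ := by
          intro y hy
          rw [mem_ball] at hy hc ⊢
          calc dist y c₀ ≤ dist y c + dist c c₀ := dist_triangle _ _ _
            _ < ρ := by linarith
        have hd : DifferentiableOn ℂ (fun y => B y x) (ball c (ρ / 2)) := by
          intro y hy
          have hy' := hsubc hy
          have hdU : ∀ z ∈ ball (0 : ℂ) ρ, DifferentiableAt ℂ (fun y : ℂ => U (y, z)) y := by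
            intro z hz
            have h2 : DifferentiableAt ℂ U (y, z) :=
              (hU (y, z) ⟨hy', hz⟩).differentiableAt
            have h4 : DifferentiableAt ℂ (fun y : ℂ => (y, z)) y :=
              differentiableAt_id.prodMk (differentiableAt_const _)
            exact DifferentiableAt.comp (g := U) (f := fun y : ℂ => (y, z)) y h2 h4
          have hdA : DifferentiableAt ℂ A y := hA.differentiableAt (isOpen_ball.mem_nhds hy')
          exact (((hdU x hxρ).sub (hdU 0 (mem_ball_self hρ))).div hdA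
            (hAne y hy')).differentiableWithinAt
        have hmaps : MapsTo (fun y => B y x) (ball c (ρ / 2))
            (closedBall (B c x) (2 * C ^ 2)) := by
          intro y hy
          rw [mem_closedBall, dist_eq_norm]
          calc ‖B y x - B c x‖ ≤ ‖B y x‖ + ‖B c x‖ := norm_sub_le _ _
            _ ≤ 2 * C ^ 2 := by
                have h1 := hB c hcρ x hxρ
                have h2 := hB y (hsubc hy) x hxρ
                linarith
        have hlo : (fun y => B y x - B c x) =o[𝓝 c] (fun w : ℂ => ‖w - c‖ ^ 0) := by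
          have hcont : ContinuousAt (fun y => B y x) c :=
            (hd.differentiableAt (isOpen_ball.mem_nhds (mem_ball_self (by linarith)))).continuousAt
          simp only [pow_zero]
          rw [Asymptotics.isLittleO_one_iff]
          have h1 : Tendsto (fun y => B y x - B c x) (𝓝 c) (𝓝 (B c x - B c x)) :=
            hcont.tendsto.sub_const _
          rwa [sub_self] at h1
        have hc'm : c' ∈ ball c (ρ / 2) := by
          rw [mem_ball, dist_comm, dist_eq_norm]
          exact hfar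
        have key := Complex.dist_le_mul_div_pow_of_mapsTo_ball_of_isLittleO hd hmaps hlo hc'm
        rw [dist_comm, dist_eq_norm, dist_comm c' c, dist_eq_norm, zero_add, pow_one] at key
        calc ‖B c x - B c' x‖ ≤ 2 * C ^ 2 * (‖c - c'‖ / (ρ / 2)) := key
          _ = 4 * C ^ 2 / ρ * ‖c - c'‖ := by field_simp; ring
    calc ‖B c x - B c' x‖ ≤ 4 * C ^ 2 / ρ * ‖c - c'‖ := hmain
      _ ≤ ((C ^ 2 + 1) / ρ ^ 2 + 4 * C ^ 2 / ρ + 1) * ‖c - c'‖ := by
          apply mul_le_mul_of_nonneg_right _ (norm_nonneg _)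
          have h2 : 0 ≤ (C ^ 2 + 1) / ρ ^ 2 := by positivity
          linarith

end Pool.Agent.Work.MP_500150_lc.LC
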