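import Mathlib
import Pool.Agent.Work.MP_500150_lc.LC.StmtsC

set_option autoImplicit false

namespace Pool.Agent.Work.MP_500150_lc.LC

open Metric Set Filter Topology Pool.MP_500150_lc.H8

theorem ORB_pf (hFIP : S_FIP) : S_ORB := by
  obtain ⟨h1, h2, h3, _, h5, h6⟩ := hFIP
  intro p cn a lam hp ha h0 i hi
  obtain ⟨m, rfl⟩ : ∃ m, p = m + 1 := ⟨p - 1, by omega⟩
  have hm : m + 1 - 1 = m := rfl
  have hJs : ∀ X : ℂ, Js (JJ (m + 1) cn a) 1 lam X = JJ (m + 1) cn a (lam, X) := by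
    intro X; unfold Js; ring
  have hJ : ∀ y : ℂ, a lam * JJ (m + 1) cn a (lam, y) = fi m (cn lam) (cn lam + (a lam) ^ 2 * (y - lam)) := by
    intro y
    unfold JJ
    simp only [hm]
    field_simp
  induction i with
  | zero => omega
  | succ i ih =>
    rcases Nat.eq_zero_or_pos i with rfl | hi0
    · have e1 : OX (JJ (m + 1) cn a) 1 lam (0 + 1) = lam := by
        show lam + (Js (JJ (m + 1) cn a) 1 lam 0) ^ 2 = lam
        rw [hJs, h0]; ring
      rw [e1, hJ, sub_self, mul_zero, add_zero, zero_add, mul_one]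
      exact h2 m (cn lam)
    · have hih := ih hi0
      have e1 : OX (JJ (m + 1) cn a) 1 lam (i + 1) =
          lam + (JJ (m + 1) cn a (lam, OX (JJ (m + 1) cn a) 1 lam i)) ^ 2 := by
        show lam + (Js (JJ (m + 1) cn a) 1 lam (OX (JJ (m + 1) cn a) 1 lam i)) ^ 2 = _
        rw [hJs]
      rw [e1, hJ]
      have e2 : cn lam + (a lam) ^ 2 * (lam + (JJ (m + 1) cn a (lam, OX (JJ (m + 1) cn a) 1 lam i)) ^ 2 - lam)
          = (a lam * JJ (m + 1) cn a (lam, OX (JJ (m + 1) cn a) 1 lam i)) ^ 2 + cn lam := by ring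
      rw [e2, ← hih, ← h5]
      have e3 : (m + 1) * (i + 1) = (m + 1) + (m + 1) * i := by ring
      rw [e3, h1, h1, h3]

end Pool.Agent.Work.MP_500150_lc.LC
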