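import Mathlib
import Pool.Agent.Work.MP_500150_lc.LC.StmtsC

set_option autoImplicit false

/-!
# [500150 LC ORD] `X_N` is not locally constant in `lam`
-/

namespace Pool.Agent.Work.MP_500150_lc.LC

open Metric Set Filter Topology MeasureTheory Pool.MP_500150_lc.H8

namespace I_ORD

theorem cont_step {w : ℝ} {J : ℂ × ℂ → ℂ} (hF : Fam w J) (s : ℂ) {lam : ℂ} (hlam : ‖lam‖ < w / 2)
    {i : ℕ} (hc : ContinuousAt (fun l => OX J s l i) lam) (hb : ‖OX J s lam i‖ < 2 * w) :
    ContinuousAt (fun l => OX J s l (i + 1)) lam := by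
  have hmem : (lam, OX J s lam i) ∈ ball (0 : ℂ) (w / 2) ×ˢ ball (0 : ℂ) (2 * w) := by
    refine ⟨?_, ?_⟩
    · rw [mem_ball_zero_iff]
      exact hlam
    · rw [mem_ball_zero_iff]
      exact hb
  have hJ : ContinuousAt J (lam, OX J s lam i) := (hF.an _ hmem).continuousAt
  have hpair : ContinuousAt (fun l => (l, OX J s l i)) lam := continuousAt_id.prodMk hc
  have hJc : ContinuousAt (fun l => J (l, OX J s l i)) lam :=
    ContinuousAt.comp (f := fun l => (l, OX J s l i)) (g := J) hJ hpair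
  change ContinuousAt (fun l => l + (OX J s l i + s * (J (l, OX J s l i) - OX J s l i)) ^ 2) lam
  exact continuousAt_id.add ((hc.add (continuousAt_const.mul (hJc.sub hc))).pow 2)

theorem closure_facts {w : ℝ} {J : ℂ × ℂ → ℂ} (hF : Fam w J) (hCNF : S_CNF) {N : ℕ} (hN : 2 ≤ N)
    {s : ℂ} {A : Set ℂ} (hA : ∀ lam ∈ A, (lam, s) ∈ ES w J N) {lam' : ℂ}
    (hcl : lam' ∈ closure A) (hlam' : ‖lam'‖ < w / 2) (i : ℕ) (hi : i ≤ N) :
    ContinuousAt (fun l => OX J s l i) lam' ∧ (i < N → ‖OX J s lam' i‖ ≤ 33 / 100 * w) := by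
  have hw := hF.big
  induction i with
  | zero =>
    refine ⟨continuousAt_const, fun _ => ?_⟩
    change ‖(0 : ℂ)‖ ≤ 33 / 100 * w
    rw [norm_zero]
    linarith
  | succ i ih =>
    obtain ⟨h1, h2⟩ := ih (by omega)
    have h3 := h2 (by omega)
    have h4 := cont_step hF s hlam' h1 (by linarith)
    refine ⟨h4, fun hiN => ?_⟩
    refine le_of_tendsto_of_frequently h4.norm ?_
    refine (mem_closure_iff_frequently.1 hcl).mono fun lam hlam => ?_
    exact hCNF w J N hF hN (lam, s) (hA lam hlam) (i + 1) (by omega) hiN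

end I_ORD

open I_ORD in
theorem ORD_pf (hOXZ : S_OXZ) (hCNF : S_CNF) (hANX : S_ANX) : S_ORD := by
  rintro w J N hF hN ⟨lam₀, s⟩ hq hev
  have hw := hF.big
  obtain ⟨hopen, han⟩ := hANX w J N hF hN
  set b : ℂ := OX J s lam₀ N with hb
  have hev' : ∀ᶠ lam in 𝓝 lam₀, OX J s lam N = b := hev
  have hslice : IsOpen {lam : ℂ | (lam, s) ∈ ES w J N} :=
    hopen.preimage (continuous_id.prodMk continuous_const)
  have hNan : AnalyticOnNhd ℂ (fun lam => OX J s lam N) {lam : ℂ | (lam, s) ∈ ES w J N} := by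
    intro lam hlam
    have h1 := han N le_rfl (lam, s) hlam
    have h2 : AnalyticAt ℂ (fun l : ℂ => (l, s)) lam := AnalyticAt.prod analyticAt_id analyticAt_const
    exact AnalyticAt.comp' (g := fun q : ℂ × ℂ => OX J q.2 q.1 N) (f := fun l : ℂ => (l, s)) h1 h2
  let A : Set ℂ := {lam | (lam, s) ∈ ES w J N} ∩ {lam | ∀ᶠ l in 𝓝 lam, OX J s l N = b}
  have hAo : IsOpen A := hslice.inter isOpen_setOf_eventually_nhds
  have hbn : w / 2 < ‖b‖ ∧ ‖b‖ < 3 * w / 2 := ⟨hq.2.2.2.1, hq.2.2.2.2⟩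
  have hs : ‖s‖ < 3 := hq.2.1
  have hsub : ball (0 : ℂ) (w / 2) ⊆ A := by
    refine (convex_ball (0 : ℂ) (w / 2)).isPreconnected.subset_of_closure_inter_subset hAo ?_ ?_
    · refine ⟨lam₀, ?_, hq, hev'⟩
      rw [mem_ball_zero_iff]
      exact hq.1
    · rintro lam' ⟨hcl, hlam'⟩
      rw [mem_ball_zero_iff] at hlam'
      have hfac := closure_facts hF hCNF hN (s := s) (A := A) (fun lam h => h.1) hcl hlam'
      have hbv : OX J s lam' N = b := by
        have h1 : OX J s lam' N ∈ ({b} : Set ℂ) := by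
          refine isClosed_singleton.mem_of_frequently_of_tendsto ?_ (hfac N le_rfl).1
          refine (mem_closure_iff_frequently.1 hcl).mono fun lam hlam => ?_
          exact hlam.2.self_of_nhds
        exact h1
      have hES : (lam', s) ∈ ES w J N := by
        refine ⟨hlam', hs, fun i h1 h2 => ?_, ?_, ?_⟩
        · have h3 := (hfac i h2.le).2 h2
          change ‖OX J s lam' i‖ < w / 2
          linarith
        · change w / 2 < ‖OX J s lam' N‖
          rw [hbv]
          exact hbn.1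
        · change ‖OX J s lam' N‖ < 3 * w / 2
          rw [hbv]
          exact hbn.2
      refine ⟨hES, ?_⟩
      obtain ⟨r, hr, hball⟩ := Metric.isOpen_iff.1 hslice lam' hES
      obtain ⟨lam'', hin, hA''⟩ := Metric.mem_closure_iff.1 hcl r hr
      have hin' : lam'' ∈ ball lam' r := by
        rw [mem_ball, dist_comm]
        exact hA''
      have heq : EqOn (fun lam => OX J s lam N) (fun _ => b) (ball lam' r) :=
        (hNan.mono hball).eqOn_of_preconnected_of_eventuallyEq analyticOnNhd_const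
          (convex_ball lam' r).isPreconnected hin' hin.2
      filter_upwards [isOpen_ball.mem_nhds (mem_ball_self hr)] with l hl
      exact heq hl
  have hpt : ((2 / 5 * w : ℝ) : ℂ) ∈ ball (0 : ℂ) (w / 2) := by
    rw [mem_ball_zero_iff, Complex.norm_real, Real.norm_eq_abs, abs_of_pos (by positivity)]
    linarith
  have h1 := (hsub hpt).1
  have h2 := hCNF w J N hF hN _ h1 1 le_rfl (by omega)
  have h3 : OX J s ((2 / 5 * w : ℝ) : ℂ) 1 = ((2 / 5 * w : ℝ) : ℂ) := by
    refine hOXZ.2.1 w J hF s _ ?_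
    rw [mem_ball_zero_iff] at hpt
    exact hpt
  change ‖OX J s ((2 / 5 * w : ℝ) : ℂ) 1‖ ≤ 33 / 100 * w at h2
  rw [h3, Complex.norm_real, Real.norm_eq_abs, abs_of_pos (by positivity)] at h2
  linarith

end Pool.Agent.Work.MP_500150_lc.LC
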