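import Mathlib
import Pool.Agent.Work.MP_500150_lc.LC.StmtsC

set_option autoImplicit false

/-!
Block LC of MP_500150_lc, item OXZ: simple facts on `OX` and `Js`.
-/

namespace Pool.Agent.Work.MP_500150_lc.LC

open Metric Set Filter Topology MeasureTheory Pool.MP_500150_lc.H8

theorem OXZ_pf : S_OXZ := by
  refine ⟨?_, ?_, ?_, ?_⟩
  · intro J lam i
    induction i with
    | zero => rfl
    | succ i ih =>
      have h1 : OX J 0 lam (i + 1) = lam + (Js J 0 lam (OX J 0 lam i)) ^ 2 := rfl
      have h2 : P (i + 1) lam = (P i lam) ^ 2 + lam := by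
        simp only [P, Function.iterate_succ_apply']
      rw [h1, h2, ih]
      simp only [Js]
      ring
  · intro w J hF s lam hlam
    have h0 : (0 : ℝ) < 2 * w := by linarith [hF.big]
    have h1 := hF.near lam 0 hlam (by simpa using h0)
    have h2 : J (lam, 0) - 0 = 0 := by
      rw [← norm_le_zero_iff]
      simpa using h1
    have h3 : OX J s lam 1 = lam + (Js J s lam 0) ^ 2 := rfl
    rw [h3]
    simp only [Js, h2]
    ring
  · intro w hw
    refine ⟨hw, analyticOnNhd_snd, fun lam X _ _ => ?_⟩
    simp only [sub_self, norm_zero]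
    positivity
  · intro w J hF s lam X hs hlam hX
    have h1 := hF.near lam X hlam hX
    have h2 : Js J s lam X - X = s * (J (lam, X) - X) := by
      simp only [Js]
      ring
    rw [h2, norm_mul]
    calc ‖s‖ * ‖J (lam, X) - X‖ ≤ 3 * (‖X‖ / 100) :=
          mul_le_mul hs.le h1 (norm_nonneg _) (by norm_num)
      _ = 3 / 100 * ‖X‖ := by ring

end Pool.Agent.Work.MP_500150_lc.LC
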