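import Mathlib
import Pool.Agent.Work.MP_500150_lc.LC.Stmts

set_option autoImplicit false

/-! MP_500150_lc, block LC, item PAR: the parameters of the copies. -/

namespace Pool.Agent.Work.MP_500150_lc.LC

open Metric Set Filter Topology MeasureTheory Pool.MP_500150_lc.H8

namespace I_PAR

theorem exp_approx (m : ℕ) (hm : 1 ≤ m) (x : ℂ) (hx : (m : ℝ) * ‖x‖ ≤ 1) :
    ‖(Complex.exp (m * x) - 1) / m - x‖ ≤ m * ‖x‖ ^ 2 := by
  have hm0 : (m : ℂ) ≠ 0 := by exact_mod_cast (by omega : m ≠ 0)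
  have hmr : (0 : ℝ) < m := by exact_mod_cast hm
  have h1 : ‖(m : ℂ) * x‖ = m * ‖x‖ := by rw [norm_mul, Complex.norm_natCast]
  have h2 := Complex.norm_exp_sub_one_sub_id_le (x := (m : ℂ) * x) (by rw [h1]; exact hx)
  have h3 : (Complex.exp (m * x) - 1) / m - x = (Complex.exp (m * x) - 1 - m * x) / m := by
    field_simp
  rw [h3, norm_div, Complex.norm_natCast, div_le_iff₀ hmr]
  calc _ ≤ ‖(m : ℂ) * x‖ ^ 2 := h2
    _ = m * ‖x‖ ^ 2 * m := by rw [h1]; ring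

theorem exp_lower (x y : ℂ) (hx : ‖x‖ ≤ 1 / 32) (hy : ‖y‖ ≤ 1 / 32) :
    ‖x - y‖ ≤ 4 * ‖Complex.exp x - Complex.exp y‖ := by
  have h1 : Complex.exp x - Complex.exp y = Complex.exp y * (Complex.exp (x - y) - 1) := by
    rw [mul_sub, ← Complex.exp_add, mul_one]; congr 2; ring
  have h2 : (1 : ℝ) / 2 ≤ ‖Complex.exp y‖ := by
    rw [Complex.norm_exp]
    have h := Real.add_one_le_exp y.re
    have h3 : -(1 / 32) ≤ y.re := by
      have h4 := Complex.abs_re_le_norm y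
      have h5 := neg_abs_le y.re
      linarith
    linarith
  have h4 : ‖x - y‖ ≤ 1 / 16 := by
    have := norm_sub_le x y
    linarith
  have h5 := Complex.norm_exp_sub_one_sub_id_le (x := x - y) (by linarith)
  have h6 : ‖x - y‖ / 2 ≤ ‖Complex.exp (x - y) - 1‖ := by
    have h7 : ‖x - y‖ ≤ ‖Complex.exp (x - y) - 1‖ + ‖Complex.exp (x - y) - 1 - (x - y)‖ := by
      have := norm_sub_le (Complex.exp (x - y) - 1) (Complex.exp (x - y) - 1 - (x - y))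
      simpa using this
    nlinarith [norm_nonneg (x - y)]
  rw [h1, norm_mul]
  nlinarith [norm_nonneg (x - y), norm_nonneg (Complex.exp y),
    norm_nonneg (Complex.exp (x - y) - 1)]

theorem const_le (C C1 s l aa : ℝ) (n : ℕ) (hC : 1 ≤ C) (hC1 : 1 ≤ C1)
    (hs : 1 / C1 ^ (n + 1) ≤ s) (hl0 : 0 ≤ l) (hl : aa * l ≤ C1) (hA : 1 / C ≤ 6 ^ n * aa) :
    5 * C1 * l ≤ (30 * C1 ^ 3 * C) ^ (n + 1) * s := by
  have hC0 : 0 < C := by linarith
  have hC10 : 0 < C1 := by linarith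
  have h1 : l ≤ C1 * (C * 6 ^ n) := by
    have h2 : 1 ≤ C * (6 ^ n * aa) := by
      rw [div_le_iff₀ hC0] at hA; linarith
    calc l = 1 * l := (one_mul l).symm
      _ ≤ C * (6 ^ n * aa) * l := mul_le_mul_of_nonneg_right h2 hl0
      _ = (C * 6 ^ n) * (aa * l) := by ring
      _ ≤ (C * 6 ^ n) * C1 := mul_le_mul_of_nonneg_left hl (by positivity)
      _ = C1 * (C * 6 ^ n) := by ring
  have h3 : 1 ≤ s * C1 ^ (n + 1) := by
    rw [div_le_iff₀ (by positivity)] at hs; exact hs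
  have h4 : (5 : ℝ) ≤ 5 ^ (n + 1) := by
    rw [pow_succ]; nlinarith [one_le_pow₀ (show (1 : ℝ) ≤ 5 by norm_num) (n := n)]
  have h5 : (6 : ℝ) ^ n ≤ 6 ^ (n + 1) := pow_le_pow_right₀ (by norm_num) (Nat.le_succ n)
  have h6 : C ≤ C ^ (n + 1) := le_self_pow₀ hC (by omega)
  have h7 : C1 ^ 2 ≤ (C1 ^ 2) ^ (n + 1) := le_self_pow₀ (one_le_pow₀ hC1) (by omega)
  have h8 : (30 * C1 ^ 3 * C) ^ (n + 1) * s =
      (5 ^ (n + 1) * 6 ^ (n + 1) * (C1 ^ 2) ^ (n + 1) * C ^ (n + 1)) * (s * C1 ^ (n + 1)) := by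
    rw [show (30 : ℝ) * C1 ^ 3 * C = 5 * 6 * C1 ^ 2 * C * C1 by ring]
    rw [mul_pow, mul_pow, mul_pow, mul_pow]; ring
  rw [h8]
  calc 5 * C1 * l ≤ 5 * C1 * (C1 * (C * 6 ^ n)) := mul_le_mul_of_nonneg_left h1 (by positivity)
    _ = 5 * 6 ^ n * C1 ^ 2 * C := by ring
    _ ≤ 5 ^ (n + 1) * 6 ^ (n + 1) * (C1 ^ 2) ^ (n + 1) * C ^ (n + 1) := by gcongr
    _ = (5 ^ (n + 1) * 6 ^ (n + 1) * (C1 ^ 2) ^ (n + 1) * C ^ (n + 1)) * 1 := by ring
    _ ≤ _ := mul_le_mul_of_nonneg_left h3 (by positivity)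

end I_PAR

open I_PAR in
theorem PAR_pf (hBET : S_BET) (hEST : S_EST) (hINV : S_INV) (hNRM : S_NRM) : S_PAR := by
  intro c₀ ρ C τ m₀ D U hc₀ hVK
  obtain ⟨m, r, C1, cs, hm, hr, hC1, hcs, hcs2, hE⟩ := hEST c₀ ρ C τ m₀ D U hc₀ hVK
  have hC := hVK.one_le
  have hC0 : 0 < C := by linarith
  have hC10 : 0 < C1 := by linarith
  have hmr : (1 : ℝ) ≤ m := by exact_mod_cast hm
  have hmr0 : (0 : ℝ) < m := by linarith
  obtain ⟨κ₁, hκ₁⟩ : ∃ κ₁ : ℝ, κ₁ = 1 / (16 * m) := ⟨_, rfl⟩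
  have hκ₁0 : 0 < κ₁ := by rw [hκ₁]; positivity
  have hmκ : (m : ℝ) * κ₁ = 1 / 16 := by rw [hκ₁]; field_simp
  have hκ₁1 : κ₁ ≤ 1 / 16 := by nlinarith
  have hC31 : 1 ≤ C1 ^ 3 := one_le_pow₀ hC1
  refine ⟨κ₁ / (4 * C1), 30 * C1 ^ 3 * C, by positivity, ?_, by nlinarith, ?_⟩
  · rw [div_le_iff₀ (by positivity)]; nlinarith
  intro ε hε
  obtain ⟨n₀, hn₀⟩ := hE (min ε (κ₁ / 16)) (by positivity)
  refine ⟨n₀, fun n hn => ?_⟩
  obtain ⟨σ, L, hσ, hL, hL1, hL2, hx⟩ := hn₀ n hn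
  have hσ0 : 0 < ‖σ‖ := lt_of_lt_of_le (by positivity) hσ
  have hL0 : 0 < ‖L‖ := norm_pos_iff.mpr hL
  have hc₀m : c₀ ∈ ball c₀ ρ := mem_ball_self hVK.rho
  -- the derivative
  have hmu : ∀ c ∈ ball c₀ ρ, (2 * bet c) ^ n ≠ 0 := by
    intro c hc
    have h1 := (hVK.slit c hc).2
    have h2 := hVK.tau
    have h3 : 0 < ‖2 * bet c‖ := by linarith
    exact pow_ne_zero _ (norm_pos_iff.mp h3)
  obtain ⟨C2, hC2, hN⟩ := hNRM ρ C hVK.rho hVK.rho1 hC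
  have hAd : DifferentiableOn ℂ (AU U n) (ball c₀ ρ) :=
    (hN c₀ (fun c => (2 * bet c) ^ n) (U n) hmu (hVK.an n)
      (fun c hc => ⟨fun x hx => hVK.bd n c hc x hx, (hVK.der n c hc).1⟩)).1
  have hder : ∀ c ∈ ball c₀ ρ, 1 / C ≤ ‖(2 * bet c) ^ n * AU U n c‖ := fun c hc =>
    (hVK.der n c hc).1
  have hA0 : ∀ c ∈ ball c₀ ρ, AU U n c ≠ 0 := by
    intro c hc h0
    have h1 := hder c hc
    rw [h0, mul_zero, norm_zero] at h1
    have h2 : 0 < 1 / C := by positivity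
    linarith
  have hU0 : DifferentiableOn ℂ (fun c => U n (c, 0)) (ball c₀ ρ) := by
    intro c hc
    have h1 : DifferentiableAt ℂ (U n) (c, 0) :=
      (hVK.an n (c, 0) ⟨hc, mem_ball_self hVK.rho⟩).differentiableAt
    have h2 : DifferentiableAt ℂ (fun c : ℂ => ((c, 0) : ℂ × ℂ)) c :=
      differentiableAt_id.prodMk (differentiableAt_const _)
    exact (DifferentiableAt.comp c h1 h2).differentiableWithinAt
  have hα0 : 0 < ‖AU U n c₀‖ := norm_pos_iff.mpr (hA0 c₀ hc₀m)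
  -- the composition with cs
  have hcsd : DifferentiableOn ℂ (fun x => cs (σ * Complex.exp x)) (ball 0 1) := by
    refine DifferentiableOn.comp (t := ball 0 r) hcs ?_ (fun x hx1 => (hx x hx1).1)
    exact (Complex.differentiable_exp.const_mul σ).differentiableOn
  have hcsm : ∀ x ∈ ball (0 : ℂ) 1, cs (σ * Complex.exp x) ∈ ball c₀ ρ := fun x hx1 =>
    (hcs2 _ (hx x hx1).1).1
  obtain ⟨F, hF⟩ : ∃ F : ℂ → ℂ, F = fun x => -U n (cs (σ * Complex.exp x), 0) /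
    (AU U n (cs (σ * Complex.exp x)) ^ 2 * L) := ⟨_, rfl⟩
  have hFd : DifferentiableOn ℂ F (ball 0 1) := by
    rw [hF]
    refine DifferentiableOn.div ?_ ?_ ?_
    · exact (hU0.comp hcsd hcsm).neg
    · exact ((hAd.comp hcsd hcsm).pow 2).mul_const L
    · intro x hx1
      exact mul_ne_zero (pow_ne_zero _ (hA0 _ (hcsm x hx1))) hL
  have hsub : ball (0 : ℂ) κ₁ ⊆ ball 0 1 := ball_subset_ball (by linarith)
  have hFx : ∀ x ∈ ball (0 : ℂ) κ₁, ‖F x - x‖ ≤ κ₁ / 8 := by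
    intro x hxκ
    have h1 := (hx x (hsub hxκ)).2.2.2
    have h2 : ‖F x - (Complex.exp (m * x) - 1) / m‖ ≤ κ₁ / 16 := by
      rw [hF]; exact le_trans h1 (min_le_right _ _)
    rw [mem_ball_zero_iff] at hxκ
    have h3 : (m : ℝ) * ‖x‖ ≤ 1 := by nlinarith
    have h4 := exp_approx m hm x h3
    have h5 : (m : ℝ) * ‖x‖ ^ 2 ≤ κ₁ / 16 := by
      have h6 : ‖x‖ ^ 2 ≤ κ₁ ^ 2 := by
        exact pow_le_pow_left₀ (norm_nonneg x) hxκ.le 2
      calc (m : ℝ) * ‖x‖ ^ 2 ≤ m * κ₁ ^ 2 := mul_le_mul_of_nonneg_left h6 hmr0.le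
        _ = (m * κ₁) * κ₁ := by ring
        _ = κ₁ / 16 := by rw [hmκ]; ring
    calc ‖F x - x‖ = ‖(F x - (Complex.exp (m * x) - 1) / m) +
          ((Complex.exp (m * x) - 1) / m - x)‖ := by congr 1; ring
      _ ≤ ‖F x - (Complex.exp (m * x) - 1) / m‖ + ‖(Complex.exp (m * x) - 1) / m - x‖ :=
          norm_add_le _ _
      _ ≤ κ₁ / 8 := by linarith
  obtain ⟨hI1, G, hGd, hG⟩ := hINV F κ₁ hκ₁0 (hFd.mono hsub) hFx
  have hlam : ∀ lam ∈ ball (0 : ℂ) (κ₁ / (4 * C1) / ‖AU U n c₀‖), lam / L ∈ ball (0 : ℂ) (κ₁ / 4) := by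
    intro lam hlam
    rw [mem_ball_zero_iff] at hlam ⊢
    rw [lt_div_iff₀ hα0, lt_div_iff₀ (by positivity)] at hlam
    rw [norm_div, div_lt_iff₀ hL0]
    rw [norm_mul, div_le_iff₀ hC10] at hL1
    -- ‖lam‖ * ‖α‖ * (4 C1) < κ₁ ; 1 ≤ ‖α‖ ‖L‖ C1
    have h1 : ‖lam‖ * (‖AU U n c₀‖ * (4 * C1)) < κ₁ := by linarith
    by_contra hcon
    rw [not_lt] at hcon
    have h2 : κ₁ / 4 * ‖L‖ * (‖AU U n c₀‖ * (4 * C1)) ≤ ‖lam‖ * (‖AU U n c₀‖ * (4 * C1)) :=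
      mul_le_mul_of_nonneg_right hcon (by positivity)
    have h3 : κ₁ / 4 * ‖L‖ * (‖AU U n c₀‖ * (4 * C1)) = κ₁ * (‖AU U n c₀‖ * ‖L‖ * C1) := by ring
    have h4 : κ₁ * 1 ≤ κ₁ * (‖AU U n c₀‖ * ‖L‖ * C1) := mul_le_mul_of_nonneg_left hL1 hκ₁0.le
    linarith
  have hG1 : ∀ lam ∈ ball (0 : ℂ) (κ₁ / (4 * C1) / ‖AU U n c₀‖), G (lam / L) ∈ ball (0 : ℂ) 1 :=
    fun lam hl => ball_subset_ball (by linarith) (hG _ (hlam lam hl)).1
  obtain ⟨cn, hcn⟩ : ∃ cn : ℂ → ℂ, cn = fun lam => cs (σ * Complex.exp (G (lam / L))) := ⟨_, rfl⟩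
  have hcnm : ∀ lam ∈ ball (0 : ℂ) (κ₁ / (4 * C1) / ‖AU U n c₀‖), cn lam ∈ ball c₀ ρ := by
    intro lam hl
    rw [hcn]
    exact hcsm _ (hG1 lam hl)
  have hcnd : DifferentiableOn ℂ cn (ball 0 (κ₁ / (4 * C1) / ‖AU U n c₀‖)) := by
    rw [hcn]
    have h1 : DifferentiableOn ℂ (fun lam : ℂ => lam / L)
        (ball 0 (κ₁ / (4 * C1) / ‖AU U n c₀‖)) :=
      (differentiable_id.div_const L).differentiableOn
    have h2 : DifferentiableOn ℂ (fun lam : ℂ => G (lam / L))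
        (ball 0 (κ₁ / (4 * C1) / ‖AU U n c₀‖)) := hGd.comp h1 hlam
    exact hcsd.comp h2 hG1
  refine ⟨cn, fun lam => AU U n (cn lam), hcnd, hAd.comp hcnd hcnm, ?_⟩
  intro lam hl
  have hl1 := hx _ (hG1 lam hl)
  have hcn1 : cn lam = cs (σ * Complex.exp (G (lam / L))) := by rw [hcn]
  refine ⟨hcnm lam hl, ?_, ?_, rfl, ?_, ?_⟩
  · rw [hcn1]; exact le_trans hl1.2.1 (min_le_left _ _)
  · show ‖AU U n (cn lam) - AU U n c₀‖ ≤ _
    rw [hcn1]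
    exact le_trans hl1.2.2.1 (mul_le_mul_of_nonneg_right (min_le_left _ _) (norm_nonneg _))
  · show U n (cn lam, 0) = -lam * (AU U n (cn lam)) ^ 2
    have h1 : F (G (lam / L)) = lam / L := (hG _ (hlam lam hl)).2
    rw [hF] at h1
    have h2 : -U n (cn lam, 0) / (AU U n (cn lam) ^ 2 * L) = lam / L := by
      rw [hcn1]; exact h1
    have h3 := hA0 _ (hcnm lam hl)
    rw [div_eq_div_iff (mul_ne_zero (pow_ne_zero _ h3) hL) hL] at h2
    have h4 : (-U n (cn lam, 0)) * L = (lam * AU U n (cn lam) ^ 2) * L := by rw [h2]; ring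
    have h5 := mul_right_cancel₀ hL h4
    linear_combination -h5
  · intro lam' hl'
    have hcn2 : cn lam' = cs (σ * Complex.exp (G (lam' / L))) := by rw [hcn]
    have hg := hG _ (hlam lam hl)
    have hg' := hG _ (hlam lam' hl')
    have h1 := hI1 _ hg.1 _ hg'.1
    rw [hg.2, hg'.2] at h1
    have h2 : ‖lam / L - lam' / L‖ ≤ 5 / 4 * ‖G (lam / L) - G (lam' / L)‖ := by
      have h3 := norm_sub_norm_le (lam / L - lam' / L) (G (lam / L) - G (lam' / L))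
      linarith
    have hgn := hg.1
    have hgn' := hg'.1
    rw [mem_ball_zero_iff] at hgn hgn'
    have h4 := exp_lower (G (lam / L)) (G (lam' / L)) (by linarith) (by linarith)
    have h5 := (hcs2 _ hl1.1).2 _ (hx _ (hG1 lam' hl')).1
    rw [← hcn1, ← hcn2] at h5
    have h6 : σ * Complex.exp (G (lam / L)) - σ * Complex.exp (G (lam' / L)) =
        σ * (Complex.exp (G (lam / L)) - Complex.exp (G (lam' / L))) := by ring
    rw [h6, norm_mul] at h5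
    have h7 : lam / L - lam' / L = (lam - lam') / L := by ring
    rw [h7, norm_div, div_le_iff₀ hL0] at h2
    -- ‖lam - lam'‖ * ‖σ‖ ≤ 5 C1 ‖L‖ ‖cn lam - cn lam'‖
    have h8 : ‖lam - lam'‖ * ‖σ‖ ≤ 5 * C1 * ‖L‖ * ‖cn lam - cn lam'‖ := by
      have h9 : ‖lam - lam'‖ ≤
          5 * ‖Complex.exp (G (lam / L)) - Complex.exp (G (lam' / L))‖ * ‖L‖ := by
        refine le_trans h2 (mul_le_mul_of_nonneg_right ?_ hL0.le)
        linarith
      calc ‖lam - lam'‖ * ‖σ‖ ≤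
          5 * ‖Complex.exp (G (lam / L)) - Complex.exp (G (lam' / L))‖ * ‖L‖ * ‖σ‖ :=
            mul_le_mul_of_nonneg_right h9 hσ0.le
        _ = 5 * ‖L‖ * (‖σ‖ * ‖Complex.exp (G (lam / L)) - Complex.exp (G (lam' / L))‖) := by ring
        _ ≤ 5 * ‖L‖ * (C1 * ‖cn lam - cn lam'‖) := mul_le_mul_of_nonneg_left h5 (by positivity)
        _ = _ := by ring
    have hbet : ‖2 * bet c₀‖ ≤ 6 := by
      have := hBET.2.2.2 c₀ hc₀
      rw [norm_mul, Complex.norm_ofNat]; linarith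
    have hA : 1 / C ≤ 6 ^ n * ‖AU U n c₀‖ := by
      refine le_trans (hder c₀ hc₀m) ?_
      rw [norm_mul, norm_pow]
      exact mul_le_mul_of_nonneg_right (pow_le_pow_left₀ (norm_nonneg _) hbet n) (norm_nonneg _)
    rw [norm_mul] at hL2
    have h10 := const_le C C1 ‖σ‖ ‖L‖ ‖AU U n c₀‖ n hC hC1 hσ hL0.le hL2 hA
    have h11 : ‖lam - lam'‖ * ‖σ‖ ≤ ((30 * C1 ^ 3 * C) ^ (n + 1) * ‖cn lam - cn lam'‖) * ‖σ‖ := by
      refine le_trans h8 ?_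
      calc 5 * C1 * ‖L‖ * ‖cn lam - cn lam'‖ ≤
          (30 * C1 ^ 3 * C) ^ (n + 1) * ‖σ‖ * ‖cn lam - cn lam'‖ :=
            mul_le_mul_of_nonneg_right h10 (norm_nonneg _)
        _ = _ := by ring
    exact le_of_mul_le_mul_right h11 hσ0

end Pool.Agent.Work.MP_500150_lc.LC
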