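import Mathlib
import Pool.Agent.Work.MP_500150_lc.LC.Stmts

set_option autoImplicit false

/-! MP_500150_lc, block LC, item QDR: inversion of two maps tangent to the identity. -/

namespace Pool.Agent.Work.MP_500150_lc.LC

open Metric Set Filter Topology MeasureTheory Pool.MP_500150_lc.H8

namespace I_QDR

/-- one map. -/
theorem one (hINV : S_INV) (r C R : ℝ) (hC : 1 ≤ C) (hR : 0 < R) (hRr : R ≤ r)
    (hRC : C * R ≤ 1 / 8) (b : ℂ → ℂ) (hb : DifferentiableOn ℂ b (ball 0 r))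
    (hbx : ∀ x ∈ ball (0 : ℂ) r, ‖b x - x‖ ≤ C * ‖x‖ ^ 2) :
    (∀ x ∈ ball (0 : ℂ) (R / 2), ∀ x' ∈ ball (0 : ℂ) (R / 2),
      3 / 4 * ‖x - x'‖ ≤ ‖b x - b x'‖) ∧
    ∀ y : ℂ, ‖y‖ < R / 4 → C * ‖y‖ ≤ 1 / 178 → ∃ x ∈ ball (0 : ℂ) (R / 2), b x = y ∧
      ‖x - y‖ ≤ ‖y‖ / 100 := by
  have hsub : ball (0 : ℂ) R ⊆ ball 0 r := ball_subset_ball hRr
  have h1 : ∀ x ∈ ball (0 : ℂ) R, ‖b x - x‖ ≤ R / 8 := by
    intro x hx
    refine le_trans (hbx x (hsub hx)) ?_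
    rw [mem_ball_zero_iff] at hx
    have h2 : ‖x‖ ^ 2 ≤ R ^ 2 := pow_le_pow_left₀ (norm_nonneg x) hx.le 2
    nlinarith
  obtain ⟨hI, G, -, hG⟩ := hINV b R hR (hb.mono hsub) h1
  have hlow : ∀ x ∈ ball (0 : ℂ) (R / 2), ∀ x' ∈ ball (0 : ℂ) (R / 2),
      3 / 4 * ‖x - x'‖ ≤ ‖b x - b x'‖ := by
    intro x hx x' hx'
    have h2 := hI x hx x' hx'
    have h3 : ‖x - x'‖ ≤ ‖b x - b x'‖ + ‖b x - b x' - (x - x')‖ := by
      have := norm_sub_le (b x - b x') (b x - b x' - (x - x'))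
      simpa using this
    linarith
  refine ⟨hlow, fun y hy hCy => ?_⟩
  obtain ⟨hx, hbxy⟩ := hG y (by simpa using hy)
  refine ⟨G y, hx, hbxy, ?_⟩
  have h0 : b 0 = 0 := by
    have h4 := hbx 0 (mem_ball_self (by linarith))
    simpa using h4
  have h5 := hlow (G y) hx 0 (mem_ball_self (by linarith))
  rw [hbxy, h0, sub_zero, sub_zero] at h5
  have h6 := hbx (G y) (ball_subset_ball (by linarith) hx)
  rw [hbxy] at h6
  have h7 : ‖G y‖ ^ 2 ≤ 16 / 9 * ‖y‖ ^ 2 := by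
    have h8 : ‖G y‖ ≤ 4 / 3 * ‖y‖ := by linarith
    have h9 := pow_le_pow_left₀ (norm_nonneg (G y)) h8 2
    nlinarith
  rw [norm_sub_rev]
  refine le_trans h6 ?_
  have h10 : C * ‖G y‖ ^ 2 ≤ C * (16 / 9 * ‖y‖ ^ 2) := mul_le_mul_of_nonneg_left h7 (by linarith)
  have h11 : C * (16 / 9 * ‖y‖ ^ 2) = 16 / 9 * ‖y‖ * (C * ‖y‖) := by ring
  have h12 : 16 / 9 * ‖y‖ * (C * ‖y‖) ≤ 16 / 9 * ‖y‖ * (1 / 178) :=
    mul_le_mul_of_nonneg_left hCy (by positivity)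
  have h13 : 0 ≤ ‖y‖ := norm_nonneg y
  linarith

end I_QDR

open I_QDR in
theorem QDR_pf (hINV : S_INV) : S_QDR := by
  intro r C hr hr1 hC
  have hC0 : 0 < C := by linarith
  obtain ⟨R, hR⟩ : ∃ R : ℝ, R = min r (1 / (8 * C)) := ⟨_, rfl⟩
  have hR0 : 0 < R := by rw [hR]; positivity
  have hRr : R ≤ r := by rw [hR]; exact min_le_left _ _
  have hRC : C * R ≤ 1 / 8 := by
    have h1 : R ≤ 1 / (8 * C) := by rw [hR]; exact min_le_right _ _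
    calc C * R ≤ C * (1 / (8 * C)) := mul_le_mul_of_nonneg_left h1 hC0.le
      _ = 1 / 8 := by field_simp
  refine ⟨min (R / 4) (1 / (178 * C)), by positivity, ?_⟩
  intro b b' d hb hb' hbb y y' hy hy'
  have hk : ∀ z : ℂ, ‖z‖ < min (R / 4) (1 / (178 * C)) → ‖z‖ < R / 4 ∧ C * ‖z‖ ≤ 1 / 178 := by
    intro z hz
    refine ⟨lt_of_lt_of_le hz (min_le_left _ _), ?_⟩
    have h1 : ‖z‖ ≤ 1 / (178 * C) := le_trans hz.le (min_le_right _ _)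
    calc C * ‖z‖ ≤ C * (1 / (178 * C)) := mul_le_mul_of_nonneg_left h1 hC0.le
      _ = 1 / 178 := by field_simp
  obtain ⟨hb1, hb2⟩ := one hINV r C R hC hR0 hRr hRC b hb (fun x hx => (hbb x hx).1)
  obtain ⟨hb1', hb2'⟩ := one hINV r C R hC hR0 hRr hRC b' hb' (fun x hx => (hbb x hx).2.1)
  obtain ⟨x, hx, hxy, hxn⟩ := hb2 y (hk y hy).1 (hk y hy).2
  obtain ⟨x', hx', hxy', hxn'⟩ := hb2' y' (hk y' hy').1 (hk y' hy').2
  have hsub : ball (0 : ℂ) (R / 2) ⊆ ball 0 r := ball_subset_ball (by linarith)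
  refine ⟨x, hsub hx, x', hsub hx', hxy, hxy', hxn, ?_⟩
  have h1 := hb1 x hx x' hx'
  have h2 := (hbb x' (hsub hx')).2.2
  have h3 : ‖b x - b x'‖ ≤ ‖y - y'‖ + d := by
    have h4 : b x - b x' = (y - y') - (b x' - b' x') := by rw [hxy, hxy']; ring
    rw [h4]
    exact le_trans (norm_sub_le _ _) (by linarith)
  have h5 : 0 ≤ d := le_trans (norm_nonneg _) h2
  have h6 := norm_nonneg (y - y')
  linarith

end Pool.Agent.Work.MP_500150_lc.LC
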