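import Mathlib
import Pool.Agent.Work.MP_500150_lc.LC.Stmts

set_option autoImplicit false

namespace Pool.Agent.Work.MP_500150_lc.LC

open Metric Set Filter Topology Pool.MP_500150_lc.H8

namespace I_QUO

lemma pow_sub (y : ℂ) (k : ℕ) : ‖(1 + y) ^ k - 1‖ ≤ Real.exp (k * ‖y‖) - 1 := by
  induction k with
  | zero => simp
  | succ k ih =>
    have e : (1 + y) ^ (k + 1) - 1 = (1 + y) * ((1 + y) ^ k - 1) + y := by ring
    rw [e]
    have h1 : ‖1 + y‖ ≤ 1 + ‖y‖ := by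
      have := norm_add_le (1 : ℂ) y
      rwa [norm_one] at this
    have h2 : 1 + ‖y‖ ≤ Real.exp ‖y‖ := by linarith [Real.add_one_le_exp ‖y‖]
    have h3 : Real.exp ((k + 1 : ℕ) * ‖y‖) = Real.exp (k * ‖y‖) * Real.exp ‖y‖ := by
      rw [← Real.exp_add]; congr 1; push_cast; ring
    rw [h3]
    have h4 : 0 < Real.exp (k * ‖y‖) := Real.exp_pos _
    calc ‖(1 + y) * ((1 + y) ^ k - 1) + y‖ ≤ ‖1 + y‖ * ‖(1 + y) ^ k - 1‖ + ‖y‖ := by
          refine (norm_add_le _ _).trans ?_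
          rw [norm_mul]
      _ ≤ (1 + ‖y‖) * (Real.exp (k * ‖y‖) - 1) + ‖y‖ := by
          have := mul_le_mul h1 ih (norm_nonneg _) (by positivity)
          linarith
      _ = (1 + ‖y‖) * Real.exp (k * ‖y‖) - 1 := by ring
      _ ≤ Real.exp (k * ‖y‖) * Real.exp ‖y‖ - 1 := by nlinarith

lemma main (x y : ℂ) (k : ℕ) (s t : ℝ) (hx : ‖x‖ ≤ t) (hy : ‖y‖ ≤ s) (ht : t ≤ 1) (hs : k * s ≤ 1) :
    ‖(1 + y) ^ k * (1 + x) - 1‖ ≤ 4 * (k * s) + t := by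
  have h0 : 0 ≤ (k : ℝ) * ‖y‖ := by positivity
  have h1 : (k : ℝ) * ‖y‖ ≤ k * s := mul_le_mul_of_nonneg_left hy (Nat.cast_nonneg _)
  have h2 : Real.exp (k * ‖y‖) - 1 ≤ 2 * (k * ‖y‖) := by
    have := Real.abs_exp_sub_one_le (x := (k : ℝ) * ‖y‖) (by rw [abs_of_nonneg h0]; linarith)
    rw [abs_of_nonneg h0] at this
    exact (le_abs_self _).trans this
  have h3 := (pow_sub y k).trans h2
  have h4 : ‖1 + x‖ ≤ 2 := by
    have := norm_add_le (1 : ℂ) x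
    rw [norm_one] at this
    linarith
  have e : (1 + y) ^ k * (1 + x) - 1 = ((1 + y) ^ k - 1) * (1 + x) + x := by ring
  rw [e]
  calc ‖((1 + y) ^ k - 1) * (1 + x) + x‖ ≤ ‖(1 + y) ^ k - 1‖ * ‖1 + x‖ + ‖x‖ := by
        refine (norm_add_le _ _).trans ?_
        rw [norm_mul]
    _ ≤ 2 * (k * ‖y‖) * 2 + t := by
        have := mul_le_mul h3 h4 (norm_nonneg _) (by positivity)
        linarith
    _ ≤ _ := by linarith

end I_QUO

theorem QUO_pf (hBET : S_BET) : S_QUO := by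
  intro c₀ ρ C hρ hρ1 hC hslit
  obtain ⟨_, hb, _, _⟩ := hBET
  have hc₀ : c₀ ∈ ball c₀ ρ := mem_ball_self hρ
  have hd : DifferentiableAt ℂ bet c₀ := (hb c₀ (hslit c₀ hc₀)).2
  obtain ⟨K, hK⟩ := hd.isBigO_sub.bound
  obtain ⟨ρ₂, hρ₂, hK2⟩ := Metric.eventually_nhds_iff_ball.mp hK
  set K' := max K 0 with hK'
  have hK'0 : 0 ≤ K' := le_max_right _ _
  set T := 3 * C ^ 2 / ρ with hT
  have hT0 : 0 < T := by positivity
  have hi1 : 0 < 2 / ρ := by positivity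
  have hi2 : 0 < 2 / ρ₂ := by positivity
  refine ⟨1 + 8 * K' + T + 2 / ρ + 2 / ρ₂, by nlinarith, ?_⟩
  set C' := 1 + 8 * K' + T + 2 / ρ + 2 / ρ₂ with hC'
  have hC'1 : 1 ≤ C' := by nlinarith
  intro v k hv hvC c hc
  have hk0 : (0 : ℝ) ≤ k := Nat.cast_nonneg _
  have hk1 : (0 : ℝ) < (k : ℝ) + 1 := by positivity
  have hC'0 : 0 < C' := by linarith
  have hck : C' * (k + 1) * ‖c - c₀‖ ≤ 1 := by
    rw [le_div_iff₀ (by positivity)] at hc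
    linarith
  have hcn : 0 ≤ ‖c - c₀‖ := norm_nonneg _
  have hCc : C' * ‖c - c₀‖ ≤ 1 := by
    have : C' * ‖c - c₀‖ ≤ C' * (k + 1) * ‖c - c₀‖ := by
      nlinarith [mul_nonneg (mul_nonneg hC'0.le hk0) hcn]
    linarith
  have hr1 : ‖c - c₀‖ < ρ := by
    have h1 : 2 / ρ * ‖c - c₀‖ ≤ 1 := by nlinarith
    rw [div_mul_eq_mul_div, div_le_iff₀ hρ] at h1
    linarith
  have hr2 : ‖c - c₀‖ < ρ₂ := by
    have h1 : 2 / ρ₂ * ‖c - c₀‖ ≤ 1 := by nlinarith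
    rw [div_mul_eq_mul_div, div_le_iff₀ hρ₂] at h1
    linarith
  have hcb : c ∈ ball c₀ ρ := by rw [mem_ball, dist_eq_norm]; exact hr1
  have hcb2 : c ∈ ball c₀ ρ₂ := by rw [mem_ball, dist_eq_norm]; exact hr2
  have hbet : ‖bet c - bet c₀‖ ≤ K' * ‖c - c₀‖ := by
    have h1 := hK2 c hcb2
    refine h1.trans ?_
    exact mul_le_mul_of_nonneg_right (le_max_left _ _) hcn
  -- the function `v`
  have hv1 : ‖v c - v c₀‖ ≤ 3 * C / ρ * ‖c - c₀‖ := by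
    have hmaps : MapsTo v (ball c₀ ρ) (ball (v c₀) (3 * C)) := by
      intro z hz
      rw [mem_ball, dist_eq_norm]
      have h1 := (hvC z hz).2
      have h2 := (hvC c₀ hc₀).2
      have h3 := norm_sub_le (v z) (v c₀)
      linarith
    have := Complex.dist_le_div_mul_dist_of_mapsTo_ball hv (hmaps.mono_right ball_subset_closedBall) hcb
    rwa [dist_eq_norm, dist_eq_norm] at this
  have hvc := hvC c hcb
  have hvc₀ := hvC c₀ hc₀
  have hC0 : 0 < C := by linarith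
  have hvp : ∀ z : ℂ, 1 / C ≤ ‖z‖ → 0 < ‖z‖ ∧ ∀ w : ℂ, ‖w‖ ≤ 3 * C / ρ * ‖c - c₀‖ →
      ‖w / z‖ ≤ T * ‖c - c₀‖ := by
    intro z hz
    have hz0 : 0 < ‖z‖ := lt_of_lt_of_le (by positivity) hz
    refine ⟨hz0, fun w hw => ?_⟩
    rw [norm_div, div_le_iff₀ hz0]
    have h1 : 1 ≤ C * ‖z‖ := by rw [div_le_iff₀ hC0] at hz; linarith
    have e : T * ‖c - c₀‖ * ‖z‖ = 3 * C / ρ * ‖c - c₀‖ * (C * ‖z‖) := by rw [hT]; ring
    rw [e]
    have h2 : 0 ≤ 3 * C / ρ * ‖c - c₀‖ := by positivity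
    nlinarith
  have hTc : T * ‖c - c₀‖ ≤ 1 := by nlinarith
  have hks : (k : ℝ) * (2 * K' * ‖c - c₀‖) ≤ 1 := by
    have : (k : ℝ) * (2 * K' * ‖c - c₀‖) ≤ C' * (k + 1) * ‖c - c₀‖ := by
      have h1 : 2 * K' ≤ C' := by nlinarith
      have h2 : (k : ℝ) * (2 * K') ≤ C' * (k + 1) := by nlinarith
      nlinarith
    linarith
  have hfin : 4 * ((k : ℝ) * (2 * K' * ‖c - c₀‖)) + T * ‖c - c₀‖ ≤ C' * (k + 1) * ‖c - c₀‖ := by
    have h1 : 8 * K' + T ≤ C' := by nlinarith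
    have h2 : 4 * ((k : ℝ) * (2 * K')) + T ≤ C' * (k + 1) := by nlinarith [mul_nonneg hk0 hT0.le]
    nlinarith
  have hmu := (hb c (hslit c hcb)).1
  have hmu₀ := (hb c₀ (hslit c₀ hc₀)).1
  have hm0 : (2 * bet c : ℂ) ≠ 0 := norm_pos_iff.mp (by linarith)
  have hm1 : (2 * bet c₀ : ℂ) ≠ 0 := norm_pos_iff.mp (by linarith)
  have hv0 : v c ≠ 0 := norm_pos_iff.mp (hvp _ hvc.1).1
  have hv0' : v c₀ ≠ 0 := norm_pos_iff.mp (hvp _ hvc₀.1).1
  have hmud : ∀ z w : ℂ, 1 < ‖z‖ → ‖w‖ ≤ 2 * K' * ‖c - c₀‖ → ‖w / z‖ ≤ 2 * K' * ‖c - c₀‖ := by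
    intro z w hz hw
    rw [norm_div, div_le_iff₀ (by linarith)]
    have : 0 ≤ 2 * K' * ‖c - c₀‖ := by positivity
    nlinarith
  refine ⟨hcb, ?_, ?_⟩
  · have e : (2 * bet c₀) ^ k / (2 * bet c) ^ k * (v c / v c₀) - 1 =
        (1 + (2 * bet c₀ - 2 * bet c) / (2 * bet c)) ^ k * (1 + (v c - v c₀) / v c₀) - 1 := by
      rw [← div_pow]
      congr 3
      · rw [sub_div, div_self hm0]; ring
      · rw [sub_div, div_self hv0']; ring
    rw [e]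
    refine (I_QUO.main _ _ k (2 * K' * ‖c - c₀‖) (T * ‖c - c₀‖) ?_ ?_ hTc hks).trans hfin
    · exact (hvp _ hvc₀.1).2 _ hv1
    · apply hmud _ _ hmu
      rw [← mul_sub, norm_mul, Complex.norm_ofNat, norm_sub_rev]
      nlinarith
  · have e : (2 * bet c) ^ k / (2 * bet c₀) ^ k * (v c₀ / v c) - 1 =
        (1 + (2 * bet c - 2 * bet c₀) / (2 * bet c₀)) ^ k * (1 + (v c₀ - v c) / v c) - 1 := by
      rw [← div_pow]
      congr 3
      · rw [sub_div, div_self hm1]; ring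
      · rw [sub_div, div_self hv0]; ring
    rw [e]
    refine (I_QUO.main _ _ k (2 * K' * ‖c - c₀‖) (T * ‖c - c₀‖) ?_ ?_ hTc hks).trans hfin
    · apply (hvp _ hvc.1).2
      rw [norm_sub_rev]; exact hv1
    · apply hmud _ _ hmu₀
      rw [← mul_sub, norm_mul, Complex.norm_ofNat]
      nlinarith

end Pool.Agent.Work.MP_500150_lc.LC
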