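import Mathlib
import Pool.Agent.Work.MP_500150_lc.LC.Stmts

set_option autoImplicit false

/-! Item REP: repelling fixed points. -/

namespace Pool.Agent.Work.MP_500150_lc.LC

open Metric Set Filter Topology MeasureTheory Pool.MP_500150_lc.H8

theorem REP_pf : S_REP := by
  intro c β hβ h1 r hr
  by_contra hcon
  push Not at hcon
  have hr2 : 0 < r / 2 := half_pos hr
  have hd : ∀ j : ℕ, Differentiable ℂ (fi j c) := by
    intro j
    have : Differentiable ℂ (fun w : ℂ => w ^ 2 + c) := by fun_prop
    exact this.iterate j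
  have hder : ∀ j : ℕ, HasDerivAt (fi j c) ((2 * β) ^ j) β := by
    intro j
    have h2 : HasDerivAt (fun w : ℂ => w ^ 2 + c) (2 * β) β := by
      have := (hasDerivAt_pow 2 β).add_const c
      simpa using this
    exact HasDerivAt.iterate β h2 hβ j
  have hle : ∀ j : ℕ, ‖2 * β‖ ^ j ≤ 2 / (r / 2) := by
    intro j
    have h3 := Complex.norm_deriv_le_of_forall_mem_sphere_norm_le (f := fi j c) (c := β) (C := 2)
      hr2 (hd j).diffContOnCl (fun z hz => hcon z (by
        rw [mem_sphere] at hz
        rw [mem_ball, hz]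
        linarith) j)
    rw [(hder j).deriv, norm_pow] at h3
    exact h3
  obtain ⟨j, hj⟩ := pow_unbounded_of_one_lt (2 / (r / 2)) h1
  exact absurd (hle j) (not_le.2 hj)

end Pool.Agent.Work.MP_500150_lc.LC
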