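import Mathlib
import Pool.Agent.Work.MP_500150_lc.LC.Stmts

set_option autoImplicit false

namespace Pool.Agent.Work.MP_500150_lc.LC

open Metric Set Filter Topology MeasureTheory Pool.MP_500150_lc.H8

namespace I_ROO

/-- A function with a strict derivative `b ≠ 0` at `0` is bi-Lipschitz near `0`. -/
lemma bilip {cs : ℂ → ℂ} {b : ℂ} (hb : b ≠ 0) (h : HasStrictDerivAt cs b 0) :
    ∃ r : ℝ, 0 < r ∧ ∀ s ∈ ball (0 : ℂ) r, ∀ s' ∈ ball (0 : ℂ) r,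
      ‖b‖ / 2 * ‖s - s'‖ ≤ ‖cs s - cs s'‖ ∧ ‖cs s - cs s'‖ ≤ 2 * ‖b‖ * ‖s - s'‖ := by
  have hb' : 0 < ‖b‖ := norm_pos_iff.2 hb
  have h1 := h.isLittleO.def (c := ‖b‖ / 2) (by positivity)
  obtain ⟨r, hr, h2⟩ := Metric.eventually_nhds_iff_ball.1 h1
  refine ⟨r, hr, fun s hs s' hs' => ?_⟩
  have hmem : ((s, s') : ℂ × ℂ) ∈ ball ((0, 0) : ℂ × ℂ) r := by
    rw [← ball_prod_same]
    exact ⟨hs, hs'⟩
  have h3 := h2 (s, s') hmem
  simp only at h3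
  have h4 : ‖cs s - cs s' - b * (s - s')‖ ≤ ‖b‖ / 2 * ‖s - s'‖ := by
    simpa [mul_comm] using h3
  have h5 : ‖b * (s - s')‖ = ‖b‖ * ‖s - s'‖ := norm_mul _ _
  have h6 : ‖b * (s - s')‖ ≤ ‖cs s - cs s' - b * (s - s')‖ + ‖cs s - cs s'‖ := by
    calc ‖b * (s - s')‖ = ‖(cs s - cs s') - (cs s - cs s' - b * (s - s'))‖ := by congr 1; ring
      _ ≤ ‖cs s - cs s'‖ + ‖cs s - cs s' - b * (s - s')‖ := norm_sub_le _ _
      _ = _ := add_comm _ _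
  have h7 : ‖cs s - cs s'‖ ≤ ‖cs s - cs s' - b * (s - s')‖ + ‖b * (s - s')‖ := by
    calc ‖cs s - cs s'‖ = ‖(cs s - cs s' - b * (s - s')) + b * (s - s')‖ := by congr 1; ring
      _ ≤ _ := norm_add_le _ _
  have h8 : 0 ≤ ‖b‖ * ‖s - s'‖ := by positivity
  constructor <;> nlinarith

end I_ROO

open I_ROO in
theorem ROO_pf : S_ROO := by
  intro c₀ ρ D hρ hD hD0 hne
  have hDa : AnalyticAt ℂ D c₀ := hD.analyticAt (ball_mem_nhds c₀ hρ)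
  obtain ⟨m, D₁, hD₁, hD₁0, hDeq⟩ := hDa.exists_eventuallyEq_pow_smul_nonzero_iff.2 hne
  have hm : m ≠ 0 := by
    rintro rfl
    have h := hDeq.self_of_nhds
    rw [pow_zero, one_smul] at h
    exact hD₁0 (h ▸ hD0)
  have ham : ((D₁ c₀) ^ ((m : ℂ)⁻¹)) ^ m = D₁ c₀ := Complex.cpow_nat_inv_pow _ hm
  obtain ⟨a, ha⟩ : ∃ a : ℂ, a = (D₁ c₀) ^ ((m : ℂ)⁻¹) := ⟨_, rfl⟩
  rw [← ha] at ham
  have ha0 : a ≠ 0 := by
    rintro rfl
    rw [zero_pow hm] at ham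
    exact hD₁0 ham.symm
  obtain ⟨D₂, hD₂⟩ : ∃ D₂ : ℂ → ℂ, D₂ = fun c => a * (D₁ c / D₁ c₀) ^ ((m : ℂ)⁻¹) := ⟨_, rfl⟩
  have hD₂a : AnalyticAt ℂ D₂ c₀ := by
    rw [hD₂]
    refine analyticAt_const.mul ((hD₁.div analyticAt_const hD₁0).cpow analyticAt_const ?_)
    show D₁ c₀ / D₁ c₀ ∈ Complex.slitPlane
    rw [div_self hD₁0]
    exact Complex.one_mem_slitPlane
  have hD₂0 : D₂ c₀ = a := by
    rw [hD₂]
    simp only [div_self hD₁0, Complex.one_cpow, mul_one]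
  have hD₂m : ∀ c, D₂ c ^ m = D₁ c := by
    intro c
    rw [hD₂]
    simp only
    rw [mul_pow, Complex.cpow_nat_inv_pow _ hm, ham, mul_div_cancel₀ _ hD₁0]
  obtain ⟨s, hs⟩ : ∃ s : ℂ → ℂ, s = fun c => (c - c₀) * D₂ c := ⟨_, rfl⟩
  have hsa : AnalyticAt ℂ s c₀ := by
    rw [hs]
    exact (analyticAt_id.sub analyticAt_const).mul hD₂a
  have hs0 : s c₀ = 0 := by
    rw [hs]
    simp
  have hsd : deriv s c₀ = a := by
    have h1 : HasDerivAt (fun c : ℂ => c - c₀) 1 c₀ := (hasDerivAt_id c₀).sub_const c₀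
    have h2 := h1.mul hD₂a.differentiableAt.hasDerivAt
    have h3 : HasDerivAt s (1 * D₂ c₀ + (c₀ - c₀) * deriv D₂ c₀) c₀ := by
      rw [hs]
      exact h2
    rw [h3.deriv, hD₂0]
    ring
  have hs' : deriv s c₀ ≠ 0 := by rw [hsd]; exact ha0
  obtain ⟨cs, hcs⟩ : ∃ cs : ℂ → ℂ, cs = hsa.hasStrictDerivAt.localInverse _ _ _ hs' := ⟨_, rfl⟩
  have hcsa : AnalyticAt ℂ cs 0 := by
    have h := hsa.analyticAt_localInverse hs'
    rw [hs0] at h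
    rw [hcs]
    exact h
  have hcs0 : cs 0 = c₀ := by
    rw [hcs, ← hs0]
    exact HasStrictFDerivAt.localInverse_apply_image ..
  have hinv : ∀ᶠ z in 𝓝 (0 : ℂ), s (cs z) = z := by
    have h := HasStrictDerivAt.eventually_right_inverse hsa.hasStrictDerivAt hs'
    rw [hs0] at h
    rw [hcs]
    exact h
  have hstrict : HasStrictDerivAt cs a⁻¹ 0 := by
    have h := HasStrictDerivAt.to_localInverse hsa.hasStrictDerivAt hs'
    rw [hs0] at h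
    rw [← hsd, hcs]
    exact h
  have hcsc : Tendsto cs (𝓝 0) (𝓝 c₀) := by
    have h := hcsa.continuousAt
    rw [ContinuousAt, hcs0] at h
    exact h
  have hball : ∀ᶠ z in 𝓝 (0 : ℂ), cs z ∈ ball c₀ ρ := hcsc (ball_mem_nhds c₀ hρ)
  have hDz : ∀ᶠ z in 𝓝 (0 : ℂ), D (cs z) = z ^ m := by
    filter_upwards [hinv, hcsc.eventually hDeq] with z h1 h2
    rw [h2, smul_eq_mul, ← hD₂m, ← mul_pow]
    have h3 : (cs z - c₀) * D₂ (cs z) = s (cs z) := by rw [hs]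
    rw [h3, h1]
  have hdiff : ∀ᶠ z in 𝓝 (0 : ℂ), DifferentiableAt ℂ cs z :=
    hcsa.eventually_analyticAt.mono fun z hz => hz.differentiableAt
  obtain ⟨r₁, hr₁, hlip⟩ := bilip (inv_ne_zero ha0) hstrict
  obtain ⟨r₂, hr₂, hall⟩ := Metric.eventually_nhds_iff_ball.1 (hball.and (hDz.and hdiff))
  have hapos : 0 < ‖a‖ := norm_pos_iff.2 ha0
  obtain ⟨C, hC⟩ : ∃ C : ℝ, C = max 1 (max (2 * ‖a‖) (2 * ‖a⁻¹‖)) := ⟨_, rfl⟩
  have hC1 : 1 ≤ C := by rw [hC]; exact le_max_left _ _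
  have hC2 : 2 * ‖a‖ ≤ C := by rw [hC]; exact (le_max_left _ _).trans (le_max_right _ _)
  have hC3 : 2 * ‖a⁻¹‖ ≤ C := by rw [hC]; exact (le_max_right _ _).trans (le_max_right _ _)
  refine ⟨m, min r₁ r₂, C, cs, Nat.one_le_iff_ne_zero.2 hm, lt_min hr₁ hr₂, hC1, ?_, hcs0, ?_⟩
  · intro z hz
    exact (hall z (ball_subset_ball (min_le_right _ _) hz)).2.2.differentiableWithinAt
  intro z hz
  obtain ⟨h1, h2, -⟩ := hall z (ball_subset_ball (min_le_right _ _) hz)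
  refine ⟨h1, h2, fun z' hz' => ?_⟩
  obtain ⟨h3, h4⟩ := hlip z (ball_subset_ball (min_le_left _ _) hz) z'
    (ball_subset_ball (min_le_left _ _) hz')
  constructor
  · refine le_trans ?_ h3
    rw [div_le_iff₀ (by linarith), norm_inv]
    have h5 : 1 ≤ ‖a‖⁻¹ / 2 * C := by
      calc (1 : ℝ) = ‖a‖⁻¹ / 2 * (2 * ‖a‖) := by field_simp
        _ ≤ ‖a‖⁻¹ / 2 * C := mul_le_mul_of_nonneg_left hC2 (by positivity)
    calc ‖z - z'‖ = 1 * ‖z - z'‖ := (one_mul _).symm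
      _ ≤ (‖a‖⁻¹ / 2 * C) * ‖z - z'‖ := mul_le_mul_of_nonneg_right h5 (norm_nonneg _)
      _ = ‖a‖⁻¹ / 2 * ‖z - z'‖ * C := by ring
  · exact h4.trans (mul_le_mul_of_nonneg_right hC3 (norm_nonneg _))

end Pool.Agent.Work.MP_500150_lc.LC
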