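import Mathlib
import Pool.Agent.Work.MP_500150_lc.LC.StmtsC

set_option autoImplicit false

namespace Pool.Agent.Work.MP_500150_lc.LC

open Metric Set Filter Topology Pool.MP_500150_lc.H8

theorem SCV_pf : S_SCV := by
  classical
  intro B Ω F q₀ hB hBc hΩ hF hK hq₀ hFq₀
  have hFc : ContinuousOn F Ω := by
    intro q hq
    obtain ⟨L, hL⟩ := hF q hq
    exact hL.hasFDerivAt.continuousAt.continuousWithinAt
  let E := {q : ℂ × ℂ // q ∈ Ω ∧ F q ∈ B}
  let p : E → B := fun e => ⟨F e.1, e.2.2⟩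
  have hEo : IsOpen {q : ℂ × ℂ | q ∈ Ω ∧ F q ∈ B} := hFc.isOpen_inter_preimage hΩ hB
  have hval : IsOpenEmbedding (Subtype.val : E → ℂ × ℂ) := hEo.isOpenEmbedding_subtypeVal
  have hvalB : IsOpenEmbedding (Subtype.val : B → ℂ × ℂ) := hB.isOpenEmbedding_subtypeVal
  have hFl : IsLocalHomeomorphOn F Ω := by
    refine IsLocalHomeomorphOn.mk F Ω (fun q hq => ?_)
    obtain ⟨L, hL⟩ := hF q hq
    refine ⟨hL.toOpenPartialHomeomorph F, hL.mem_toOpenPartialHomeomorph_source, ?_⟩
    intro x _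
    rw [hL.toOpenPartialHomeomorph_coe]
  have hpc : Continuous p := by
    refine Continuous.subtype_mk ?_ _
    exact hFc.comp_continuous continuous_subtype_val (fun e => e.2.1)
  have hpl : IsLocalHomeomorph p := by
    have h1 : IsLocalHomeomorphOn (F ∘ (Subtype.val : E → ℂ × ℂ)) univ := by
      refine IsLocalHomeomorphOn.comp hFl
        (isLocalHomeomorph_iff_isLocalHomeomorphOn_univ.mp hval.isLocalHomeomorph) ?_
      intro e _
      exact e.2.1
    have h2 : IsLocalHomeomorph ((Subtype.val : B → ℂ × ℂ) ∘ p) :=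
      isLocalHomeomorph_iff_isLocalHomeomorphOn_univ.mpr h1
    exact IsLocalHomeomorph.of_comp h2 hvalB.isLocalHomeomorph hpc
  have : LocallyCompactSpace B := hB.locallyCompactSpace
  have hpp : IsProperMap p := by
    rw [isProperMap_iff_isCompact_preimage]
    refine ⟨hpc, fun K hKc => ?_⟩
    rw [Subtype.isCompact_iff]
    have h1 : (Subtype.val '' (p ⁻¹' K) : Set (ℂ × ℂ)) = Ω ∩ F ⁻¹' (Subtype.val '' K) := by
      ext q
      constructor
      · rintro ⟨e, he, rfl⟩
        exact ⟨e.2.1, p e, he, rfl⟩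
      · rintro ⟨h1, ⟨b, hb, hbq⟩⟩
        have hFB : F q ∈ B := by rw [← hbq]; exact b.2
        refine ⟨⟨q, h1, hFB⟩, ?_, rfl⟩
        have : p ⟨q, h1, hFB⟩ = b := Subtype.ext hbq.symm
        rw [mem_preimage, this]
        exact hb
    rw [h1]
    refine hK _ ?_ (hKc.image continuous_subtype_val)
    rintro _ ⟨b, _, rfl⟩
    exact b.2
  have hfin : ∀ x ∈ (univ : Set B), (p ⁻¹' {x}).Finite := by
    intro x _
    have hc : IsCompact (p ⁻¹' {x}) := hpp.isCompact_preimage isCompact_singleton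
    refine hc.finite ?_
    have h1 : IsLocalHomeomorphOn p (p ⁻¹' {x}) :=
      fun e he => (isLocalHomeomorph_iff_isLocalHomeomorphOn_univ.mp hpl) e (mem_univ e)
    refine h1.isDiscrete_of_image ?_
    have h2 : (p '' (p ⁻¹' {x})) ⊆ {x} := image_preimage_subset _ _
    exact (Set.subsingleton_singleton.anti h2).isDiscrete
  have hcov : IsCoveringMap p := by
    rw [isCoveringMap_iff_isCoveringMapOn_univ]
    refine hpp.isClosedMap.isCoveringMapOn_of_isLocalHomeomorphOn hfin ?_
    rw [preimage_univ]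
    exact isLocalHomeomorph_iff_isLocalHomeomorphOn_univ.mp hpl
  have hne : B.Nonempty := ⟨_, hFq₀⟩
  have : ContractibleSpace B := hBc.contractibleSpace hne
  have : LocallyPathConnectedSpace B := hvalB.locallyPathConnectedSpace
  obtain ⟨G, ⟨hG0, hG⟩, _⟩ := hcov.existsUnique_continuousMap_lifts (ContinuousMap.id B)
    ⟨F q₀, hFq₀⟩ (⟨q₀, hq₀, hFq₀⟩ : E) rfl
  have hG' : ∀ b : B, F (G b).1 = b.1 := by
    intro b
    have := congrFun hG b
    exact congrArg Subtype.val this
  refine ⟨fun q => if h : q ∈ B then (G ⟨q, h⟩).1 else 0, ?_, ?_, ?_⟩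
  · intro q hq
    have hcont : ContinuousOn (fun q => if h : q ∈ B then (G ⟨q, h⟩).1 else (0 : ℂ × ℂ)) B := by
      rw [continuousOn_iff_continuous_domRestrict]
      have : (B.domRestrict fun q => if h : q ∈ B then (G ⟨q, h⟩).1 else (0 : ℂ × ℂ)) =
          fun b => (G b).1 := by
        ext b
        · simp [Set.domRestrict]
        · simp [Set.domRestrict]
      rw [this]
      exact continuous_subtype_val.comp G.continuous
    obtain ⟨L, hL⟩ := hF (G ⟨q, hq⟩).1 (G ⟨q, hq⟩).2.1
    have h1 : HasFDerivAt (fun q => if h : q ∈ B then (G ⟨q, h⟩).1 else (0 : ℂ × ℂ))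
        (L.symm : (ℂ × ℂ) →L[ℂ] (ℂ × ℂ)) q := by
      apply HasFDerivAt.of_local_left_inverse (f := F) (hcont.continuousAt (hB.mem_nhds hq))
      · simp only [hq, dite_true]
        exact hL.hasFDerivAt
      · filter_upwards [hB.mem_nhds hq] with y hy
        simp only [hy, dite_true]
        exact hG' ⟨y, hy⟩
    exact h1.differentiableAt.differentiableWithinAt
  · simp only [hFq₀, dite_true]
    rw [hG0]
  · intro q hq
    simp only [hq, dite_true]
    exact ⟨(G ⟨q, hq⟩).2.1, hG' ⟨q, hq⟩⟩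

end Pool.Agent.Work.MP_500150_lc.LC
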