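import Mathlib
import Pool.Agent.Work.MP_500150_lc.LC.StmtsC

set_option autoImplicit false

/-!
# MP_500150_lc, block LC, item SEC: sections over disc x disc
-/

namespace Pool.Agent.Work.MP_500150_lc.LC

open Metric Set Filter Topology MeasureTheory Pool.MP_500150_lc.H8

namespace I_SEC

/-- The equivalence `(a, c) ↦ (M (a, c), c)`. -/
noncomputable def eqv (M : ℂ × ℂ →L[ℂ] ℂ) (h : M (1, 0) ≠ 0) : (ℂ × ℂ) ≃L[ℂ] (ℂ × ℂ) :=
  ContinuousLinearEquiv.equivOfInverse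
    (M.prod (ContinuousLinearMap.snd ℂ ℂ ℂ))
    (((M (1, 0))⁻¹ • (ContinuousLinearMap.fst ℂ ℂ ℂ -
      (M (0, 1)) • ContinuousLinearMap.snd ℂ ℂ ℂ)).prod (ContinuousLinearMap.snd ℂ ℂ ℂ))
    (by
      rintro ⟨a, c⟩
      have e : M (a, c) = M (1, 0) * a + M (0, 1) * c := by
        have : ((a, c) : ℂ × ℂ) = a • (1, 0) + c • (0, 1) := by
          ext <;> simp
        rw [this, map_add, map_smul, map_smul, smul_eq_mul, smul_eq_mul]
        ring
      ext
      · simp only [ContinuousLinearMap.prod_apply, smul_apply,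
          sub_apply, ContinuousLinearMap.coe_fst',
          ContinuousLinearMap.coe_snd', smul_eq_mul]
        rw [e]
        field_simp
        ring
      · simp)
    (by
      rintro ⟨a, c⟩
      have e : ∀ x y : ℂ, M (x, y) = M (1, 0) * x + M (0, 1) * y := by
        intro x y
        have : ((x, y) : ℂ × ℂ) = x • (1, 0) + y • (0, 1) := by
          ext <;> simp
        rw [this, map_add, map_smul, map_smul, smul_eq_mul, smul_eq_mul]
        ring
      ext
      · simp only [ContinuousLinearMap.prod_apply, smul_apply,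
          sub_apply, ContinuousLinearMap.coe_fst',
          ContinuousLinearMap.coe_snd', smul_eq_mul]
        rw [e]
        field_simp
        ring
      · simp)

theorem coe_eqv (M : ℂ × ℂ →L[ℂ] ℂ) (h : M (1, 0) ≠ 0) :
    ((eqv M h : (ℂ × ℂ) ≃L[ℂ] (ℂ × ℂ)) : (ℂ × ℂ) →L[ℂ] (ℂ × ℂ)) =
      M.prod (ContinuousLinearMap.snd ℂ ℂ ℂ) := rfl

theorem closed_aux (h1 : S_OXZ) (h2 : S_CNF) (w : ℝ) (J : ℂ × ℂ → ℂ) (N : ℕ)
    (hF : Fam w J) (hN : 2 ≤ N) (b : ℂ) (hb : ‖b‖ = w) (K : Set (ℂ × ℂ))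
    (hK : K ⊆ ball b (w / 2) ×ˢ ball (0 : ℂ) 3) (hKc : IsCompact K) :
    IsClosed (ES w J N ∩ (fun q : ℂ × ℂ => (OX J q.2 q.1 N, q.2)) ⁻¹' K) := by
  have hw := hF.big
  refine IsSeqClosed.isClosed ?_
  intro qs q hqs hlim
  have hlim1 : Tendsto (fun n => (qs n).1) atTop (𝓝 q.1) :=
    (continuous_fst.tendsto q).comp hlim
  have hlim2 : Tendsto (fun n => (qs n).2) atTop (𝓝 q.2) :=
    (continuous_snd.tendsto q).comp hlim
  have hs : ‖q.2‖ < 3 := by
    have hcl : IsClosed (Prod.snd '' K) := (hKc.image continuous_snd).isClosed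
    have hm : q.2 ∈ Prod.snd '' K :=
      hcl.mem_of_tendsto hlim2 (Eventually.of_forall fun n => ⟨_, (hqs n).2, rfl⟩)
    obtain ⟨p, hp, he⟩ := hm
    have := (hK hp).2
    rw [he, mem_ball_zero_iff] at this
    exact this
  have hb1 : ∀ n, ‖(qs n).1‖ ≤ 33 / 100 * w := by
    intro n
    have e := h2 w J N hF hN (qs n) (hqs n).1 1 le_rfl (by omega)
    rwa [h1.2.1 w J hF (qs n).2 (qs n).1 (hqs n).1.1] at e
  have hlam : ‖q.1‖ ≤ 33 / 100 * w :=
    le_of_tendsto hlim1.norm (Eventually.of_forall hb1)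
  have hlam2 : ‖q.1‖ < w / 2 := by linarith
  have hc : ∀ i, 1 ≤ i → i ≤ N → ContinuousAt (fun q : ℂ × ℂ => OX J q.2 q.1 i) q ∧
      (i < N → ‖OX J q.2 q.1 i‖ ≤ 33 / 100 * w) := by
    intro i hi
    induction i, hi using Nat.le_induction with
    | base =>
      intro _
      constructor
      · have hev : (fun p : ℂ × ℂ => p.1) =ᶠ[𝓝 q] (fun q : ℂ × ℂ => OX J q.2 q.1 1) := by
          have ho : ∀ᶠ p : ℂ × ℂ in 𝓝 q, ‖p.1‖ < w / 2 :=
            (continuous_fst.norm.tendsto q).eventually (gt_mem_nhds hlam2)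
          filter_upwards [ho] with p hp
          exact (h1.2.1 w J hF p.2 p.1 hp).symm
        exact continuousAt_fst.congr hev
      · intro _
        rw [h1.2.1 w J hF q.2 q.1 hlam2]
        exact hlam
    | succ i hi ih =>
      intro hiN
      obtain ⟨ih1, ih2⟩ := ih (by omega)
      have ih3 := ih2 (by omega)
      have hJ : ContinuousAt J (q.1, OX J q.2 q.1 i) := by
        refine (hF.an _ ?_).continuousAt
        constructor
        · exact mem_ball_zero_iff.mpr hlam2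
        · rw [mem_ball_zero_iff]
          simp only
          linarith
      have hpair : ContinuousAt (fun p : ℂ × ℂ => (p.1, OX J p.2 p.1 i)) q :=
        continuousAt_fst.prodMk ih1
      have hJc : ContinuousAt (fun p : ℂ × ℂ => J (p.1, OX J p.2 p.1 i)) q :=
        ContinuousAt.comp (f := fun p : ℂ × ℂ => (p.1, OX J p.2 p.1 i)) (g := J) hJ hpair
      have hcont : ContinuousAt (fun q : ℂ × ℂ => OX J q.2 q.1 (i + 1)) q :=
        continuousAt_fst.add ((ih1.add (continuousAt_snd.mul (hJc.sub ih1))).pow 2)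
      refine ⟨hcont, fun hiN' => ?_⟩
      have ht : Tendsto (fun n => OX J (qs n).2 (qs n).1 (i + 1)) atTop
          (𝓝 (OX J q.2 q.1 (i + 1))) := hcont.tendsto.comp hlim
      exact le_of_tendsto ht.norm (Eventually.of_forall fun n =>
        h2 w J N hF hN (qs n) (hqs n).1 (i + 1) (by omega) hiN')
  have hN0 := (hc N (by omega) le_rfl).1
  have ht : Tendsto (fun n => ((OX J (qs n).2 (qs n).1 N, (qs n).2) : ℂ × ℂ)) atTop
      (𝓝 (OX J q.2 q.1 N, q.2)) :=
    (Tendsto.prodMk_nhds (hN0.tendsto.comp hlim) hlim2)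
  have hmem : ((OX J q.2 q.1 N, q.2) : ℂ × ℂ) ∈ K :=
    hKc.isClosed.mem_of_tendsto ht (Eventually.of_forall fun n => (hqs n).2)
  have hball := (hK hmem).1
  rw [mem_ball, dist_eq_norm] at hball
  simp only at hball
  refine ⟨⟨hlam2, hs, fun i hi hiN => ?_, ?_, ?_⟩, hmem⟩
  · have := (hc i hi hiN.le).2 hiN
    linarith
  · have e : ‖b‖ ≤ ‖OX J q.2 q.1 N‖ + ‖OX J q.2 q.1 N - b‖ := by
      have : b = OX J q.2 q.1 N - (OX J q.2 q.1 N - b) := by ring
      calc ‖b‖ = ‖OX J q.2 q.1 N - (OX J q.2 q.1 N - b)‖ := by rw [← this]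
        _ ≤ _ := norm_sub_le _ _
    linarith
  · have e : ‖OX J q.2 q.1 N‖ ≤ ‖b‖ + ‖OX J q.2 q.1 N - b‖ := by
      have : OX J q.2 q.1 N = b + (OX J q.2 q.1 N - b) := by ring
      calc ‖OX J q.2 q.1 N‖ = ‖b + (OX J q.2 q.1 N - b)‖ := by rw [← this]
        _ ≤ _ := norm_add_le _ _
    linarith

end I_SEC

open I_SEC in
theorem SEC_pf (h1 : S_OXZ) (h2 : S_CNF) (h3 : S_ANX) (h4 : S_TRA) (h5 : S_SCV) : S_SEC := by
  intro w J N b lam₀ hF hN hb hES hOX
  have hw := hF.big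
  have hA : ∀ q ∈ ES w J N, ∃ L : (ℂ × ℂ) ≃L[ℂ] (ℂ × ℂ),
      HasStrictFDerivAt (fun q : ℂ × ℂ => (OX J q.2 q.1 N, q.2))
        (L : (ℂ × ℂ) →L[ℂ] (ℂ × ℂ)) q := by
    intro q hq
    have hA := (h3 w J N hF hN).2 N le_rfl q hq
    have hS : HasStrictFDerivAt (fun q : ℂ × ℂ => OX J q.2 q.1 N)
        (fderiv ℂ (fun q : ℂ × ℂ => OX J q.2 q.1 N) q) q := hA.hasStrictFDerivAt
    set M := fderiv ℂ (fun q : ℂ × ℂ => OX J q.2 q.1 N) q with hM
    have hne : M (1, 0) ≠ 0 := by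
      have ht := h4 w J N hF hN q hq
      have hline : HasDerivAt (fun l : ℂ => ((l, q.2) : ℂ × ℂ)) (1, 0) q.1 :=
        (hasDerivAt_id q.1).prodMk (hasDerivAt_const q.1 q.2)
      have hcomp : HasDerivAt (fun l : ℂ => OX J q.2 l N) (M (1, 0)) q.1 :=
        HasFDerivAt.comp_hasDerivAt (f := fun l : ℂ => ((l, q.2) : ℂ × ℂ))
          (l := fun q : ℂ × ℂ => OX J q.2 q.1 N) q.1 hS.hasFDerivAt hline
      rw [hcomp.deriv] at ht
      exact ht
    refine ⟨eqv M hne, ?_⟩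
    rw [coe_eqv]
    exact hS.prodMk hasStrictFDerivAt_snd
  have hP : ∀ K ⊆ ball b (w / 2) ×ˢ ball (0 : ℂ) 3, IsCompact K →
      IsCompact (ES w J N ∩ (fun q : ℂ × ℂ => (OX J q.2 q.1 N, q.2)) ⁻¹' K) := by
    intro K hK hKc
    refine Metric.isCompact_of_isClosed_isBounded
      (closed_aux h1 h2 w J N hF hN b hb K hK hKc) ?_
    refine ((isBounded_ball (x := (0 : ℂ)) (r := w / 2)).prod
      (isBounded_ball (x := (0 : ℂ)) (r := 3))).subset ?_
    intro q hq
    exact ⟨mem_ball_zero_iff.mpr hq.1.1, mem_ball_zero_iff.mpr hq.1.2.1⟩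
  have hB : (fun q : ℂ × ℂ => (OX J q.2 q.1 N, q.2)) (lam₀, 0) ∈
      ball b (w / 2) ×ˢ ball (0 : ℂ) 3 := by
    refine ⟨?_, ?_⟩
    · simp only
      rw [hOX]
      exact mem_ball_self (by linarith)
    · exact mem_ball_self (by norm_num)
  obtain ⟨s, hs1, hs2, hs3⟩ := h5 (ball b (w / 2) ×ˢ ball (0 : ℂ) 3) (ES w J N)
    (fun q : ℂ × ℂ => (OX J q.2 q.1 N, q.2)) (lam₀, 0)
    (isOpen_ball.prod isOpen_ball) ((convex_ball b (w / 2)).prod (convex_ball (0 : ℂ) 3))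
    (h3 w J N hF hN).1 hA hP hES hB
  refine ⟨fun q => (s q).1, hs1.fst, ?_, ?_⟩
  · have hs2' : s (OX J 0 lam₀ N, 0) = (lam₀, 0) := hs2
    rw [hOX] at hs2'
    change (s (b, 0)).1 = lam₀
    rw [hs2']
  · intro q hq
    obtain ⟨h6, h7⟩ := hs3 q hq
    have e2 : (s q).2 = q.2 := (Prod.ext_iff.mp h7).2
    have e1 : OX J (s q).2 (s q).1 N = q.1 := (Prod.ext_iff.mp h7).1
    constructor
    · have : ((s q).1, q.2) = s q := by rw [← e2]
      rw [this]
      exact h6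
    · rw [← e2]
      exact e1

end Pool.Agent.Work.MP_500150_lc.LC
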