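import Mathlib
import Pool.Agent.Work.MP_500150_lc.LC.StmtsC
import Pool.Agent.Work.MP_500150_lc.H8.Harnack

set_option autoImplicit false

/-! Item SPR: separation. -/

namespace Pool.Agent.Work.MP_500150_lc.LC

open Metric Set Filter Topology MeasureTheory Pool.MP_500150_lc.H8

namespace I_SPR

/-- on the disc of radius `δ / 8` the function `P N` is at most `2 |P N c₁| ^ 2` -/
theorem bound (hLRG : S_LRG) {c₁ : ℂ} {δ : ℝ} {N : ℕ} (hc₁ : ‖c₁‖ ≤ 4) (hδ : 0 < δ) (hδ1 : δ ≤ 1)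
    (hM : ∀ c : ℂ, ‖c - c₁‖ < δ → c ∉ MM) (hN : 20 ≤ ‖P N c₁‖) {c : ℂ}
    (hc : ‖c - c₁‖ ≤ δ / 8) : ‖P N c‖ ≤ 2 * ‖P N c₁‖ ^ 2 := by
  rcases lt_or_ge ‖P N c‖ 20 with h20 | h20
  · nlinarith
  have hcn : ‖c‖ ≤ 5 := by
    have h1 : ‖c‖ ≤ ‖c - c₁‖ + ‖c₁‖ := by simpa using norm_add_le (c - c₁) c₁
    linarith
  -- a time when the whole disc has escaped
  obtain ⟨m, hm⟩ := esc_large (isCompact_closedBall c₁ (δ / 2)) (fun c' hc' => hM c' (by
    rw [mem_closedBall, dist_eq_norm] at hc'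
    linarith)) 1
  have hm2 := hm (N + m) (Nat.le_add_left _ _)
  have hh : Real.log ‖P (N + m) c‖ ≤ 2 * Real.log ‖P (N + m) c₁‖ := by
    refine harnack (R := 3 * δ / 8) (by positivity) (differentiable_P _).differentiableOn ?_ ?_
    · intro z hz
      rw [mem_ball, dist_eq_norm] at hz
      refine hm2 z ?_
      rw [mem_closedBall, dist_eq_norm]
      have h1 : ‖z - c₁‖ ≤ ‖z - c‖ + ‖c - c₁‖ := norm_sub_le_norm_sub_add_norm_sub z c c₁
      linarith
    · rw [norm_sub_rev]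
      linarith
  have h1 := (abs_le.1 (hLRG c₁ N (by linarith) hN m).2).2
  have h2 := (abs_le.1 (hLRG c N hcn h20 m).2).1
  have h2m : (0 : ℝ) < 2 ^ m := by positivity
  have h3 : (2 : ℝ) ^ m * (Real.log ‖P N c‖ - 2 * Real.log ‖P N c₁‖) ≤ 2 ^ m * (3 / 50) := by
    nlinarith
  have h4 := le_of_mul_le_mul_left h3 h2m
  have h5 : Real.log ‖P N c‖ ≤ Real.log (2 * ‖P N c₁‖ ^ 2) := by
    rw [Real.log_mul (by norm_num) (by positivity), Real.log_pow]
    have := Real.log_two_gt_d9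
    push_cast
    linarith
  exact (Real.log_le_log_iff (by linarith) (by positivity)).1 h5

end I_SPR

open I_SPR in
theorem SPR_pf (hLRG : S_LRG) : S_SPR := by
  intro c₁ δ N hc₁ hδ hδ1 hM hN e he he1 c hc
  set w : ℝ := ‖P N c₁‖ with hw
  have hw0 : 0 < w := by linarith
  rw [lt_div_iff₀ (by positivity)] at hc
  have hcc : ‖c - c₁‖ < δ / 8 := by
    have h1 : ‖c - c₁‖ * 640 ≤ ‖c - c₁‖ * (32 * w) :=
      mul_le_mul_of_nonneg_left (by linarith) (norm_nonneg _)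
    nlinarith
  have hmaps : MapsTo (P N) (ball c₁ (δ / 8)) (closedBall (P N c₁) (21 / 10 * w ^ 2)) := by
    intro z hz
    rw [mem_ball, dist_eq_norm] at hz
    rw [mem_closedBall, dist_eq_norm]
    have h1 := bound hLRG hc₁ hδ hδ1 hM hN hz.le
    have h2 := norm_sub_le (P N z) (P N c₁)
    nlinarith
  have h1 := Complex.dist_le_div_mul_dist_of_mapsTo_ball (differentiable_P N).differentiableOn
    hmaps (z := c) (by rw [mem_ball, dist_eq_norm]; exact hcc)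
  rw [dist_eq_norm, dist_eq_norm] at h1
  refine h1.trans_lt ?_
  have h2 : 21 / 10 * w ^ 2 / (δ / 8) * ‖c - c₁‖ = 168 / 10 * w * (‖c - c₁‖ * w) / δ := by
    field_simp
    ring
  rw [h2, div_lt_iff₀ hδ]
  have h3 : 0 ≤ ‖c - c₁‖ * w * w := by positivity
  have h4 := mul_lt_mul_of_pos_right hc hw0
  nlinarith

end Pool.Agent.Work.MP_500150_lc.LC
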