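import Mathlib
import Pool.Agent.Work.MP_500150_lc.LC.StmtsC

set_option autoImplicit false

/-!
# [500150 LC STP] linearisation
-/

namespace Pool.Agent.Work.MP_500150_lc.LC

open Metric Set Filter Topology MeasureTheory Pool.MP_500150_lc.H8

namespace I_STP

theorem lin (L : ℂ × ℂ →L[ℂ] ℂ) (a b : ℂ) : L (a, b) = L (1, 0) * a + L (0, 1) * b := by
  have h : ((a, b) : ℂ × ℂ) = a • ((1, 0) : ℂ × ℂ) + b • ((0, 1) : ℂ × ℂ) := by
    ext <;> simp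
  rw [h, map_add, map_smul, map_smul, smul_eq_mul, smul_eq_mul]
  ring

end I_STP

open I_STP in
theorem STP_pf : S_STP := by
  intro Q L x z m a₁ a₂ b₁ b₂ A V hQ hL ha₁ ha₂ hb₁ hb₂ hA hV
  set k : ℝ := ‖L (0, 1)‖ with hk
  have hk0 : 0 < k := norm_pos_iff.2 hL
  set vs : ℂ := (V - L (1, 0) * A) / L (0, 1) with hvs
  have hvs' : L (0, 1) * vs = V - L (1, 0) * A := by
    rw [hvs]
    field_simp
  have hlittle := hQ.isLittleO
  have ht : Tendsto (fun t => ((a₁ t, b₁ t), (a₂ t, b₂ t))) (𝓝[≠] (0 : ℂ))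
      (𝓝 (((x, z), (x, z)) : (ℂ × ℂ) × (ℂ × ℂ))) :=
    (ha₁.prodMk_nhds hb₁).prodMk_nhds (ha₂.prodMk_nhds hb₂)
  have hl2 := hlittle.comp_tendsto ht
  rw [Metric.tendsto_nhds]
  intro ε hε
  set B : ℝ := ‖A‖ + 1 + ‖vs‖ with hB
  have hB0 : 0 < B := by positivity
  set c : ℝ := min (k / 2) (k * ε / (8 * B)) with hc
  have hc0 : 0 < c := lt_min (by positivity) (by positivity)
  have hev1 := hl2.bound hc0
  have hev2 : ∀ᶠ t in 𝓝[≠] (0 : ℂ), ‖(a₁ t - a₂ t) / t ^ m‖ < ‖A‖ + 1 :=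
    hA.norm.eventually (gt_mem_nhds (lt_add_one _))
  have hδ : Tendsto (fun t => ‖(Q (a₁ t, b₁ t) - Q (a₂ t, b₂ t)) / t ^ m - V‖ +
      ‖L (1, 0)‖ * ‖(a₁ t - a₂ t) / t ^ m - A‖) (𝓝[≠] (0 : ℂ)) (𝓝 0) := by
    have h1 : Tendsto (fun t => ‖(Q (a₁ t, b₁ t) - Q (a₂ t, b₂ t)) / t ^ m - V‖) (𝓝[≠] (0 : ℂ))
        (𝓝 0) := tendsto_iff_norm_sub_tendsto_zero.1 hV
    have h2 : Tendsto (fun t => ‖(a₁ t - a₂ t) / t ^ m - A‖) (𝓝[≠] (0 : ℂ)) (𝓝 0) :=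
      tendsto_iff_norm_sub_tendsto_zero.1 hA
    have h3 := h1.add (h2.const_mul ‖L (1, 0)‖)
    rwa [mul_zero, add_zero] at h3
  have hev3 := hδ.eventually (gt_mem_nhds (show (0 : ℝ) < k * ε / 8 by positivity))
  have hev4 : ∀ᶠ t in 𝓝[≠] (0 : ℂ), t ≠ 0 := self_mem_nhdsWithin
  filter_upwards [hev1, hev2, hev3, hev4] with t h1 h2 h3 h4
  have htm : t ^ m ≠ 0 := pow_ne_zero _ h4
  have htn : 0 < ‖t ^ m‖ := norm_pos_iff.2 htm
  set u : ℂ := (a₁ t - a₂ t) / t ^ m with hu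
  set v : ℂ := (b₁ t - b₂ t) / t ^ m with hv
  set q : ℂ := (Q (a₁ t, b₁ t) - Q (a₂ t, b₂ t)) / t ^ m with hq
  have hua : a₁ t - a₂ t = u * t ^ m := by
    rw [hu]
    field_simp
  have hvb : b₁ t - b₂ t = v * t ^ m := by
    rw [hv]
    field_simp
  have hqq : Q (a₁ t, b₁ t) - Q (a₂ t, b₂ t) = q * t ^ m := by
    rw [hq]
    field_simp
  have h5 : ‖q - L (1, 0) * u - L (0, 1) * v‖ ≤ c * (‖u‖ + ‖v‖) := by
    have h6 : ‖Q (a₁ t, b₁ t) - Q (a₂ t, b₂ t) - L ((a₁ t, b₁ t) - (a₂ t, b₂ t))‖ ≤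
        c * ‖((a₁ t, b₁ t) - (a₂ t, b₂ t) : ℂ × ℂ)‖ := h1
    rw [Prod.mk_sub_mk, lin, hua, hvb, hqq] at h6
    have h7 : q * t ^ m - (L (1, 0) * (u * t ^ m) + L (0, 1) * (v * t ^ m)) =
        (q - L (1, 0) * u - L (0, 1) * v) * t ^ m := by ring
    rw [h7, norm_mul] at h6
    have h8 : ‖((u * t ^ m, v * t ^ m) : ℂ × ℂ)‖ ≤ (‖u‖ + ‖v‖) * ‖t ^ m‖ := by
      rw [Prod.norm_def]
      refine max_le ?_ ?_
      · change ‖u * t ^ m‖ ≤ _
        rw [norm_mul]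
        have := norm_nonneg v
        nlinarith
      · change ‖v * t ^ m‖ ≤ _
        rw [norm_mul]
        have := norm_nonneg u
        nlinarith
    have h9 : ‖q - L (1, 0) * u - L (0, 1) * v‖ * ‖t ^ m‖ ≤ (c * (‖u‖ + ‖v‖)) * ‖t ^ m‖ := by
      refine h6.trans ?_
      rw [mul_assoc]
      exact mul_le_mul_of_nonneg_left h8 hc0.le
    exact le_of_mul_le_mul_right h9 htn
  have h10 : k * ‖v - vs‖ ≤ c * (‖u‖ + ‖v‖) + k * ε / 8 := by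
    have h11 : L (0, 1) * (v - vs) =
        -(q - L (1, 0) * u - L (0, 1) * v) + ((q - V) - L (1, 0) * (u - A)) := by
      rw [mul_sub, hvs']
      ring
    have h12 : k * ‖v - vs‖ = ‖L (0, 1) * (v - vs)‖ := by rw [norm_mul]
    rw [h12, h11]
    refine (norm_add_le _ _).trans ?_
    rw [norm_neg]
    have h13 : ‖(q - V) - L (1, 0) * (u - A)‖ ≤ ‖q - V‖ + ‖L (1, 0)‖ * ‖u - A‖ := by
      refine (norm_sub_le _ _).trans ?_
      rw [norm_mul]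
    linarith
  have h14 : ‖v‖ ≤ ‖v - vs‖ + ‖vs‖ := norm_le_norm_sub_add v vs
  have hc1 : c ≤ k / 2 := min_le_left _ _
  have hc2 : c * B ≤ k * ε / 8 := by
    have h15 : c ≤ k * ε / (8 * B) := min_le_right _ _
    have h16 := mul_le_mul_of_nonneg_right h15 hB0.le
    have h17 : k * ε / (8 * B) * B = k * ε / 8 := by
      field_simp
    linarith
  rw [dist_eq_norm]
  have h18 : c * (‖u‖ + ‖v‖) ≤ c * B + k / 2 * ‖v - vs‖ := by
    have h19 : ‖u‖ + ‖v‖ ≤ B + ‖v - vs‖ := by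
      rw [hB]
      linarith
    have h20 := mul_le_mul_of_nonneg_left h19 hc0.le
    have h21 := mul_le_mul_of_nonneg_right hc1 (norm_nonneg (v - vs))
    linarith
  have h22 : k / 2 * ‖v - vs‖ ≤ k / 2 * (ε / 2) := by linarith
  have h23 : ‖v - vs‖ ≤ ε / 2 := le_of_mul_le_mul_left h22 (by positivity)
  linarith

end Pool.Agent.Work.MP_500150_lc.LC
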