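import Mathlib
import Pool.Agent.Work.MP_500150_lc.LC.StmtsC

set_option autoImplicit false

namespace Pool.Agent.Work.MP_500150_lc.LC

open Metric Set Filter Topology Pool.MP_500150_lc.H8

namespace I_TGA

lemma an_JJ (hFIP : S_FIP) {p : ℕ} {cn a : ℂ → ℂ} {r : ℝ} (hcn : DifferentiableOn ℂ cn (ball 0 r))
    (ha : DifferentiableOn ℂ a (ball 0 r)) (hne : ∀ lam ∈ ball (0 : ℂ) r, a lam ≠ 0) :
    AnalyticOnNhd ℂ (JJ p cn a) (ball 0 r ×ˢ univ) := by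
  rintro ⟨lam, y⟩ ⟨hl, _⟩
  have h1 : AnalyticAt ℂ cn lam := hcn.analyticAt (isOpen_ball.mem_nhds hl)
  have h2 : AnalyticAt ℂ a lam := ha.analyticAt (isOpen_ball.mem_nhds hl)
  have g1 : AnalyticAt ℂ (fun q : ℂ × ℂ => cn q.1) (lam, y) :=
    AnalyticAt.comp (g := cn) (f := fun q : ℂ × ℂ => q.1) h1 analyticAt_fst
  have g2 : AnalyticAt ℂ (fun q : ℂ × ℂ => a q.1) (lam, y) :=
    AnalyticAt.comp (g := a) (f := fun q : ℂ × ℂ => q.1) h2 analyticAt_fst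
  have g3 : AnalyticAt ℂ (fun q : ℂ × ℂ => (cn q.1, cn q.1 + (a q.1) ^ 2 * (q.2 - q.1))) (lam, y) :=
    g1.prod (g1.add ((g2.pow 2).mul (analyticAt_snd.sub analyticAt_fst)))
  have g4 : AnalyticAt ℂ (fun q : ℂ × ℂ => fi (p - 1) q.1 q.2)
      (cn lam, cn lam + (a lam) ^ 2 * (y - lam)) := hFIP.2.2.2.1 (p - 1) _ (mem_univ _)
  have g5 : AnalyticAt ℂ (fun q : ℂ × ℂ => fi (p - 1) (cn q.1) (cn q.1 + (a q.1) ^ 2 * (q.2 - q.1)))
      (lam, y) := AnalyticAt.comp (g := fun q : ℂ × ℂ => fi (p - 1) q.1 q.2)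
        (f := fun q : ℂ × ℂ => (cn q.1, cn q.1 + (a q.1) ^ 2 * (q.2 - q.1))) g4 g3
  exact g5.div g2 (hne lam hl)

/-- One copy. -/
lemma one (hINV : S_INV) (hFIP : S_FIP) {c₀ W α : ℂ} {κ C₀ C ε ε₁ e : ℝ} {n p : ℕ} {cn a : ℂ → ℂ}
    (hκ : 0 < κ) (hκ1 : κ ≤ 1) (hC₀ : 1 ≤ C₀) (hC : C₀ ≤ C) (hα : α ≠ 0) (hW0 : W ≠ 0)
    (hW : ‖W‖ < κ / 8) (he0 : 0 < e) (he : e ≤ 1 / 4) (he1 : e ≤ ε₁) (hbig : 25 ≤ ‖W‖ / ‖α‖)
    (hc : CopyAt c₀ κ C₀ ε ε₁ n α p cn a) :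
    ∃ b : ℂ, 97 / 100 * (‖W‖ / ‖α‖) ≤ ‖b‖ ∧ ‖b‖ ≤ 104 / 100 * (‖W‖ / ‖α‖) ∧
      TgtAt c₀ W b C e ε n p cn a := by
  have hα0 : 0 < ‖α‖ := norm_pos_iff.mpr hα
  have hWn : 0 < ‖W‖ := norm_pos_iff.mpr hW0
  set r := κ / ‖α‖ with hr
  have hr0 : 0 < r := by positivity
  have hne : ∀ lam ∈ ball (0 : ℂ) r, a lam ≠ 0 := by
    intro lam hl h0
    have := hc.scale lam hl
    rw [h0, zero_sub, norm_neg] at this
    linarith
  have hanJ : AnalyticOnNhd ℂ (JJ p cn a) (ball 0 r ×ˢ univ) := an_JJ hFIP hc.dc hc.da hne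
  have h0m : (0 : ℂ) ∈ ball (0 : ℂ) r := mem_ball_self hr0
  set F : ℂ → ℂ := fun y => JJ p cn a (0, y) with hF
  have hFd : DifferentiableOn ℂ F (ball 0 (4 * r)) := by
    intro y _
    have h1 : AnalyticAt ℂ (JJ p cn a) (0, y) := hanJ (0, y) ⟨h0m, mem_univ _⟩
    have h2 : AnalyticAt ℂ (fun y : ℂ => ((0 : ℂ), y)) y := analyticAt_const.prod analyticAt_id
    have h3 : AnalyticAt ℂ F y := AnalyticAt.comp (g := JJ p cn a) (f := fun y : ℂ => ((0 : ℂ), y)) h1 h2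
    exact h3.differentiableAt.differentiableWithinAt
  have h4r : 4 * κ / ‖α‖ = 4 * r := by rw [hr]; ring
  have hq : ∀ lam ∈ ball (0 : ℂ) r, ∀ y ∈ ball (0 : ℂ) (4 * r), ‖JJ p cn a (lam, y) - y‖ ≤ ‖y‖ / 100 := by
    intro lam hl y hy
    exact hc.quad lam hl y (by rw [h4r]; exact hy)
  obtain ⟨_, G, hGd, hG⟩ := hINV F (4 * r) (by positivity) hFd (by
    intro x hx
    have h1 := hq 0 h0m x hx
    rw [mem_ball_zero_iff] at hx
    show ‖JJ p cn a (0, x) - x‖ ≤ 4 * r / 8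
    linarith)
  have ha0 := hc.scale 0 h0m
  have ha0l : 99 / 100 * ‖α‖ ≤ ‖a 0‖ := by
    have := norm_sub_norm_le α (a 0)
    rw [norm_sub_rev] at this
    linarith
  have ha0u : ‖a 0‖ ≤ 101 / 100 * ‖α‖ := by
    have := norm_sub_norm_le (a 0) α
    linarith
  have ha0p : 0 < ‖a 0‖ := by linarith [mul_pos (by norm_num : (0 : ℝ) < 99 / 100) hα0]
  have hWa : ‖W / a 0‖ = ‖W‖ / ‖a 0‖ := norm_div _ _
  set ω := ‖W‖ / ‖α‖ with hω
  have hω0 : 0 < ω := by positivity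
  have hωα : ω * ‖α‖ = ‖W‖ := by rw [hω]; field_simp
  have hWa1 : ‖W‖ / ‖a 0‖ * ‖a 0‖ = ‖W‖ := by field_simp
  have hWaup : ‖W‖ / ‖a 0‖ ≤ 100 / 99 * ω := by
    rw [div_le_iff₀ ha0p]
    nlinarith
  have hWalo : 100 / 101 * ω ≤ ‖W‖ / ‖a 0‖ := by
    rw [le_div_iff₀ ha0p]
    nlinarith
  have hωr : ω < r / 8 := by
    rw [hω, hr, div_div, div_lt_div_iff₀ hα0 (by positivity)]
    nlinarith
  have hmem : W / a 0 ∈ ball (0 : ℂ) (4 * r / 4) := by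
    rw [mem_ball_zero_iff, hWa]
    linarith
  obtain ⟨hb1, hb2⟩ := hG _ hmem
  set b := G (W / a 0) with hb
  have hb3 : ‖W / a 0 - b‖ ≤ ‖b‖ / 100 := by
    have hb1' : b ∈ ball (0 : ℂ) (4 * r) := by
      rw [mem_ball_zero_iff] at hb1 ⊢
      linarith
    have := hq 0 h0m b hb1'
    have e1 : JJ p cn a (0, b) = W / a 0 := hb2
    rwa [e1] at this
  have hb4 : ‖b‖ ≤ ‖W‖ / ‖a 0‖ + ‖b‖ / 100 := by
    have := norm_sub_norm_le b (W / a 0)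
    rw [norm_sub_rev, hWa] at this
    linarith
  have hb5 : ‖W‖ / ‖a 0‖ ≤ ‖b‖ + ‖b‖ / 100 := by
    have := norm_sub_norm_le (W / a 0) b
    rw [hWa] at this
    linarith
  have hblo : 97 / 100 * ω ≤ ‖b‖ := by linarith
  have hbup : ‖b‖ ≤ 104 / 100 * ω := by linarith
  have hb0 : 0 < ‖b‖ := by linarith
  have hsub : ∀ lam ∈ ball (0 : ℂ) (‖b‖ / 2), lam ∈ ball (0 : ℂ) r := by
    intro lam hl
    rw [mem_ball_zero_iff] at hl ⊢
    linarith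
  refine ⟨b, hblo, hbup, ?_⟩
  constructor
  · exact hc.one_le
  · constructor
    · linarith
    · intro q hq'
      refine hanJ q ⟨hsub q.1 hq'.1, mem_univ _⟩
    · intro lam X hl hX
      apply hq lam (hsub lam (by rw [mem_ball_zero_iff]; exact hl)) X
      rw [mem_ball_zero_iff]
      linarith
  · exact hc.dc.mono hsub
  · intro lam hl
    exact hne lam (hsub lam hl)
  · intro lam hl
    exact hc.near lam (hsub lam hl)
  · intro lam hl lam' hl'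
    refine (hc.lip lam (hsub lam hl) lam' (hsub lam' hl')).trans ?_
    exact mul_le_mul_of_nonneg_right (pow_le_pow_left₀ (by linarith) hC _) (norm_nonneg _)
  · intro lam hl v hv
    have hvb : ‖v‖ < 4 * r := by
      have := norm_sub_norm_le v b
      nlinarith
    have h1 := hc.equi lam (hsub lam hl) v (by rw [h4r, mem_ball_zero_iff]; exact hvb) b
      (by rw [h4r, mem_ball_zero_iff]; linarith) (by
        refine hv.trans ?_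
        rw [le_div_iff₀ hα0]
        have h2 : ‖b‖ * ‖α‖ ≤ 1 := by
          have : ‖b‖ * ‖α‖ ≤ 104 / 100 * ω * ‖α‖ := mul_le_mul_of_nonneg_right hbup hα0.le
          nlinarith
        have h3 : 0 ≤ ‖b‖ * ‖α‖ := by positivity
        nlinarith)
    have e1 : JJ p cn a (0, b) = W / a 0 := hb2
    rw [e1, mul_div_cancel₀ _ (norm_pos_iff.mp ha0p)] at h1
    exact h1

end I_TGA

theorem TGA_pf (hINV : S_INV) (hFIP : S_FIP) : S_TGA := by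
  intro c₀ hCop
  obtain ⟨κ, C₀, τ, α, hκ, hκ1, hC₀, hτ, hα, hcop⟩ := hCop
  refine ⟨κ, hκ, hκ1, ?_⟩
  intro W hW0 hW ε hε
  have hWn : 0 < ‖W‖ := norm_pos_iff.mpr hW0
  obtain ⟨ε₁, hε₁, n₁, hn₁⟩ := hcop ε hε
  obtain ⟨n₂, hn₂⟩ := pow_unbounded_of_one_lt (25 * C₀ / ‖W‖) hτ
  set n₀ := max n₁ n₂ with hn₀
  set e := min (1 / 4) ε₁ with he
  have he0 : 0 < e := lt_min (by norm_num) hε₁
  set C := 2 * C₀ * (1 + 1 / ‖W‖) with hC
  have hiW : 0 < 1 / ‖W‖ := by positivity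
  have hCC₀ : C₀ ≤ C := by rw [hC]; nlinarith
  have hbig : ∀ n, n₀ ≤ n → 25 ≤ ‖W‖ / ‖α n‖ := by
    intro n hn
    have hα0 : 0 < ‖α n‖ := norm_pos_iff.mpr (hα n).1
    have h1 := (hα n).2.1
    have hτn : 0 < τ ^ n := by positivity
    have h2 : τ ^ n₂ ≤ τ ^ n := pow_le_pow_right₀ hτ.le ((le_max_right _ _).trans hn)
    rw [div_lt_iff₀ hWn] at hn₂
    rw [le_div_iff₀ hτn] at h1
    rw [le_div_iff₀ hα0]
    have h3 : 25 * C₀ ≤ τ ^ n * ‖W‖ := by nlinarith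
    have h4 : 25 * (‖α n‖ * τ ^ n) ≤ τ ^ n * ‖W‖ := by linarith
    nlinarith
  have hch : ∀ n, ∃ b : ℂ, n₀ ≤ n → (97 / 100 * (‖W‖ / ‖α n‖) ≤ ‖b‖ ∧
      ‖b‖ ≤ 104 / 100 * (‖W‖ / ‖α n‖) ∧ ∃ (p : ℕ) (cn a : ℂ → ℂ), TgtAt c₀ W b C e ε n p cn a) := by
    intro n
    by_cases hn : n₀ ≤ n
    · obtain ⟨p, cn, a, hc⟩ := hn₁ n ((le_max_left _ _).trans hn)
      obtain ⟨b, h1, h2, h3⟩ := I_TGA.one hINV hFIP hκ hκ1 hC₀ hCC₀ (hα n).1 hW0 hW he0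
        (min_le_left _ _) (min_le_right _ _) (hbig n hn) hc
      exact ⟨b, fun _ => ⟨h1, h2, p, cn, a, h3⟩⟩
    · exact ⟨1, fun h => absurd h hn⟩
  choose bs hbs using hch
  refine ⟨C, e, τ, n₀, bs, by linarith, he0, min_le_left _ _, hτ, ?_, ?_⟩
  · intro n hn
    obtain ⟨h1, h2, _⟩ := hbs n hn
    obtain ⟨_, h2', _⟩ := hbs (n + 1) (by omega)
    have hα0 : 0 < ‖α n‖ := norm_pos_iff.mpr (hα n).1
    have hα1 : 0 < ‖α (n + 1)‖ := norm_pos_iff.mpr (hα (n + 1)).1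
    have hb := hbig n hn
    set ω := ‖W‖ / ‖α n‖ with hω
    have hω0 : 0 < ω := by positivity
    refine ⟨by linarith, ?_, ?_⟩
    · have h3 : ‖W‖ / ‖α (n + 1)‖ ≤ C₀ * ω := by
        rw [div_le_iff₀ hα1, hω]
        have h4 := (hα n).2.2.1
        have e1 : C₀ * (‖W‖ / ‖α n‖) * ‖α (n + 1)‖ = ‖W‖ * (C₀ * ‖α (n + 1)‖ / ‖α n‖) := by ring
        rw [e1]
        have h5 : 1 ≤ C₀ * ‖α (n + 1)‖ / ‖α n‖ := by rw [le_div_iff₀ hα0]; linarith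
        nlinarith
      have h6 : 2 * C₀ ≤ C := by rw [hC]; nlinarith
      have h7 : 0 ≤ C₀ * ω := by positivity
      have h8 : 2 * C₀ * ‖bs n‖ ≤ C * ‖bs n‖ := mul_le_mul_of_nonneg_right h6 (norm_nonneg _)
      nlinarith
    · have h3 := (hα n).2.1
      have hτn : 0 < τ ^ n := by positivity
      rw [le_div_iff₀ hτn] at h3
      have h4 : τ ^ n ≤ C₀ / ‖W‖ * ω := by
        have e1 : C₀ / ‖W‖ * ω = C₀ / ‖α n‖ := by
          rw [hω]; field_simp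
        rw [e1, le_div_iff₀ hα0]
        linarith
      have h5 : 2 * (C₀ / ‖W‖) ≤ C := by
        rw [hC]
        have e2 : 2 * C₀ * (1 + 1 / ‖W‖) = 2 * C₀ + 2 * (C₀ / ‖W‖) := by ring
        rw [e2]
        linarith
      have h6 : 0 ≤ C₀ / ‖W‖ := by positivity
      have h7 : 2 * (C₀ / ‖W‖) * ‖bs n‖ ≤ C * ‖bs n‖ := mul_le_mul_of_nonneg_right h5 (norm_nonneg _)
      nlinarith
  · intro n hn
    exact (hbs n hn).2.2

end Pool.Agent.Work.MP_500150_lc.LC
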