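import Mathlib
import Pool.Agent.Work.MP_500150_lc.LC.StmtsC

set_option autoImplicit false

/-!
# [500150 LC TGT] the transfer into `U`
-/

namespace Pool.Agent.Work.MP_500150_lc.LC

open Metric Set Filter Topology MeasureTheory Pool.MP_500150_lc.H8

namespace I_TGT

/-- A map which expands distances at most by `K⁻¹` maps discs onto large sets. -/
theorem cover {f : ℂ → ℂ} {D : Set ℂ} {x : ℂ} {r K : ℝ} (hf : DifferentiableOn ℂ f D)
    (hD : IsOpen D) (hr : 0 < r) (hK : 0 < K) (hsub : ball x r ⊆ D)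
    (hlip : ∀ z ∈ ball x r, ‖z - x‖ ≤ K * ‖f z - f x‖) :
    ball (f x) (r / (4 * K)) ⊆ f '' ball x r := by
  have hr2 : 0 < r / 2 := by positivity
  have hcb : closedBall x (r / 2) ⊆ ball x r := closedBall_subset_ball (by linarith)
  have hcl : closure (ball x (r / 2)) ⊆ D :=
    (closure_ball_subset_closedBall.trans hcb).trans hsub
  have hdc : DiffContOnCl ℂ f (ball x (r / 2)) :=
    ⟨hf.mono (subset_closure.trans hcl), (hf.mono hcl).continuousOn⟩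
  have h1 := hdc.ball_subset_image_closedBall (ε := r / 2 / K) hr2 (by
    intro z hz
    have hzn : ‖z - x‖ = r / 2 := by rwa [mem_sphere_iff_norm] at hz
    have h2 := hlip z (hcb (sphere_subset_closedBall hz))
    rw [hzn] at h2
    rw [div_le_iff₀ hK]
    linarith) (by
    have h3 : ∀ᶠ z in 𝓝[≠] x, f z ≠ f x := by
      have h4 : ∀ᶠ z in 𝓝 x, z ∈ ball x r := isOpen_ball.mem_nhds (mem_ball_self hr)
      filter_upwards [h4.filter_mono nhdsWithin_le_nhds, self_mem_nhdsWithin] with z hz hne heq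
      have h5 := hlip z hz
      rw [heq, sub_self, norm_zero, mul_zero] at h5
      have h6 : z - x = 0 := norm_le_zero_iff.1 h5
      exact hne (sub_eq_zero.1 h6)
    exact h3.frequently.filter_mono nhdsWithin_le_nhds)
  have h7 : r / 2 / K / 2 = r / (4 * K) := by
    field_simp
    ring
  rw [h7] at h1
  exact h1.trans (image_mono hcb)

/-- Continuity: the point stays escaping near `(c₀, W)`. -/
theorem exists_eps (hFIP : S_FIP) (c₀ W : ℂ) (j : ℕ) (hj : 3 < ‖fi j c₀ W‖) (U : Set ℂ)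
    (hU : IsOpen U) (hc : c₀ ∈ U) :
    ∃ ε : ℝ, 0 < ε ∧ ε ≤ 1 ∧ ∀ c x : ℂ, ‖c - c₀‖ ≤ ε → ‖x - W‖ ≤ ε → 3 < ‖fi j c x‖ ∧ c ∈ U := by
  have hcont : Continuous fun q : ℂ × ℂ => fi j q.1 q.2 := by
    have h := hFIP.2.2.2.1 j
    exact continuousOn_univ.1 h.continuousOn
  have hopen : IsOpen ({q : ℂ × ℂ | 3 < ‖fi j q.1 q.2‖} ∩ Prod.fst ⁻¹' U) :=
    (isOpen_lt continuous_const hcont.norm).inter (hU.preimage continuous_fst)
  have hmem : (c₀, W) ∈ ({q : ℂ × ℂ | 3 < ‖fi j q.1 q.2‖} ∩ Prod.fst ⁻¹' U) := ⟨hj, hc⟩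
  obtain ⟨δ, hδ, hball⟩ := Metric.isOpen_iff.1 hopen _ hmem
  refine ⟨min (δ / 2) 1, lt_min (by positivity) one_pos, min_le_right _ _, fun c x hcc hx => ?_⟩
  have h1 : (c, x) ∈ ball (c₀, W) δ := by
    rw [mem_ball, Prod.dist_eq, max_lt_iff, dist_eq_norm, dist_eq_norm]
    have h2 := min_le_left (δ / 2) 1
    exact ⟨by linarith, by linarith⟩
  have h3 := hball h1
  exact ⟨h3.1, h3.2⟩

end I_TGT

open I_TGT in
theorem TGT_pf (hFIP : S_FIP) (hWST : S_WST) (hOXZ : S_OXZ) (hTRF : S_TRF) (hDWN : S_DWN)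
    (hORB : S_ORB) (hTGA : S_TGA) : S_TGT := by
  intro c₀ l U hMis hCop hU hcU
  obtain ⟨κ, hκ, hκ1, hκW⟩ := hTGA c₀ hCop
  obtain ⟨W, hW, hW0, j, hj⟩ := hWST c₀ l hMis (κ / 8) (by positivity)
  obtain ⟨ε, hε, hε1, hεj⟩ := exists_eps hFIP c₀ W j hj U hU hcU
  obtain ⟨C, e, τ, n₀, bs, hC, he, he4, hτ, hbs, hT⟩ := hκW W hW0 hW ε hε
  refine ⟨C, e, τ, n₀, bs, hC, he, he4, hτ, hbs, ?_⟩
  intro n hn N lam₀ ϱ hlam₀ hPN hϱ hϱ1 hball
  obtain ⟨p, cn, a, hA⟩ := hT n hn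
  have hb20 : 20 ≤ ‖bs n‖ := (hbs n hn).1
  have hN : 2 ≤ N := by
    rcases Nat.lt_or_ge N 2 with h | h
    · exfalso
      interval_cases N
      · rw [P_zero] at hPN
        rw [← hPN, norm_zero] at hb20
        linarith
      · rw [P_one] at hPN
        rw [← hPN] at hb20
        linarith
    · exact h
  have hw : ‖P N lam₀‖ = ‖bs n‖ := by rw [hPN]
  have hES : (lam₀, (0 : ℂ)) ∈ ES ‖bs n‖ (JJ p cn a) N := by
    have h0 : ∀ i, OX (JJ p cn a) 0 lam₀ i = P i lam₀ := fun i => hOXZ.1 _ _ _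
    refine ⟨?_, ?_, fun i _ hi => ?_, ?_, ?_⟩
    · change ‖lam₀‖ < ‖bs n‖ / 2
      linarith
    · change ‖(0 : ℂ)‖ < 3
      rw [norm_zero]
      norm_num
    · change ‖OX (JJ p cn a) 0 lam₀ i‖ < ‖bs n‖ / 2
      rw [h0, ← hw]
      exact hDWN lam₀ N hlam₀ (by rw [hw]; exact hb20) i hi
    · change ‖bs n‖ / 2 < ‖OX (JJ p cn a) 0 lam₀ N‖
      rw [h0, hw]
      linarith
    · change ‖OX (JJ p cn a) 0 lam₀ N‖ < 3 * ‖bs n‖ / 2
      rw [h0, hw]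
      linarith
  obtain ⟨lam₁, hlam₁⟩ := hTRF ‖bs n‖ (JJ p cn a) N (bs n) lam₀ e ϱ hA.fam hN rfl hES hPN he he4
    hϱ hball
  have hr : 0 < ϱ ^ 2 / (2 * ‖bs n‖) := by positivity
  -- points of the disc around `lam₁`
  have hD : ∀ lam ∈ ball lam₁ (ϱ ^ 2 / (2 * ‖bs n‖)), lam ∈ ball (0 : ℂ) (‖bs n‖ / 2) := by
    intro lam hlam
    rw [mem_ball_iff_norm] at hlam
    rw [mem_ball_zero_iff]
    exact (hlam₁ lam hlam).1.1
  have hJ0 : ∀ lam ∈ ball (0 : ℂ) (‖bs n‖ / 2), JJ p cn a (lam, 0) = 0 := by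
    intro lam hlam
    rw [mem_ball_zero_iff] at hlam
    have h1 := hA.fam.near lam 0 hlam (by rw [norm_zero]; linarith)
    rw [norm_zero, zero_div, sub_zero] at h1
    exact norm_le_zero_iff.1 h1
  have key : ∀ lam ∈ ball lam₁ (ϱ ^ 2 / (2 * ‖bs n‖)),
      ‖P (p * N) (cn lam) - W‖ ≤ ε ∧ ‖cn lam - c₀‖ ≤ ε := by
    intro lam hlam
    have hl := hD lam hlam
    have hlam' := hlam
    rw [mem_ball_iff_norm] at hlam'
    refine ⟨?_, hA.near lam hl⟩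
    rw [hORB p cn a lam hA.one_le (hA.ne lam hl) (hJ0 lam hl) N (by omega)]
    exact hA.equi lam hl _ (hlam₁ lam hlam').2
  have hnot : ∀ lam ∈ ball lam₁ (ϱ ^ 2 / (2 * ‖bs n‖)), cn lam ∉ MM := by
    intro lam hlam
    obtain ⟨h1, h2⟩ := key lam hlam
    obtain ⟨h3, -⟩ := hεj (cn lam) (P (p * N) (cn lam)) h2 h1
    have h4 : fi j (cn lam) (P (p * N) (cn lam)) = P (j + p * N) (cn lam) := by
      rw [hFIP.1 (j + p * N), hFIP.2.2.1, ← hFIP.1]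
    rw [h4] at h3
    exact esc_not_mem (by linarith)
  have hmem₁ : lam₁ ∈ ball lam₁ (ϱ ^ 2 / (2 * ‖bs n‖)) := mem_ball_self hr
  refine ⟨cn lam₁, ?_, p * N, ?_, ?_, ?_⟩
  · obtain ⟨h1, h2⟩ := key lam₁ hmem₁
    exact (hεj _ _ h2 h1).2
  · exact Nat.le_mul_of_pos_left N hA.one_le
  · obtain ⟨h1, -⟩ := key lam₁ hmem₁
    have h2 : ‖P (p * N) (cn lam₁)‖ ≤ ‖P (p * N) (cn lam₁) - W‖ + ‖W‖ := norm_le_norm_sub_add _ _
    linarith
  · have hK : 0 < C ^ (n + 1) := by positivity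
    have hcov := cover (f := cn) (D := ball 0 (‖bs n‖ / 2)) (x := lam₁)
      (r := ϱ ^ 2 / (2 * ‖bs n‖)) (K := C ^ (n + 1)) hA.dc isOpen_ball hr hK hD
      (fun z hz => hA.lip z (hD z hz) lam₁ (hD lam₁ hmem₁))
    have hrad : ϱ ^ 2 / (2 * ‖bs n‖) / (4 * C ^ (n + 1)) =
        ϱ ^ 2 / (8 * ‖bs n‖ * C ^ (n + 1)) := by
      rw [div_div]
      congr 1
      ring
    rw [hrad] at hcov
    unfold dM
    rw [le_infDist ⟨0, zero_mem_MM⟩]
    intro x hx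
    by_contra hlt
    push Not at hlt
    have hxb : x ∈ ball (cn lam₁) (ϱ ^ 2 / (8 * ‖bs n‖ * C ^ (n + 1))) := by
      rw [mem_ball, dist_comm]
      exact hlt
    obtain ⟨lam, hlam, rfl⟩ := hcov hxb
    exact hnot lam hlam hx

end Pool.Agent.Work.MP_500150_lc.LC
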