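import Mathlib
import Pool.Agent.Work.MP_500150_lc.LC.StmtsF
import Pool.Agent.Work.MP_500150_lc.H8.Area

set_option autoImplicit false

/-!
# TIM: computable escape times from the computability of the distance
-/

namespace Pool.Agent.Work.MP_500150_lc.LC

open Metric Set Filter Topology MeasureTheory Pool.MP_500150_lc.H8

namespace I_TIM

/-- Once outside the disc of radius `3`, the orbit stays outside. -/
lemma stay {w : ℂ} {N : ℕ} (hN : 1 ≤ N) (h : 3 < ‖P N w‖) : ∀ n, N ≤ n → 3 < ‖P n w‖ := by
  intro n hn
  rcases lt_or_ge 3 ‖w‖ with h3 | h3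
  · obtain ⟨i, rfl⟩ := Nat.exists_eq_add_of_le (hN.trans hn)
    have := growth' h3.le i
    rw [add_comm]
    exact h3.trans_le this
  · induction n, hn using Nat.le_induction with
    | base => exact h
    | succ m _ ih =>
      have h4 : ‖P m w‖ ^ 2 - ‖w‖ ≤ ‖P (m + 1) w‖ := by
        rw [P_succ, ← norm_pow]
        have := norm_sub_norm_le (P m w ^ 2) (-w)
        rw [norm_neg, sub_neg_eq_add] at this
        exact this
      nlinarith

end I_TIM

theorem TIM_pf : S_TIM := by
  intro h
  classical
  obtain ⟨p, hpc, h1, h2⟩ := sep_of_comp h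
  obtain ⟨e, he, hmono, hpe⟩ := re_stage hpc.to_re
  have hex : ∀ k, ∃ N, SC e k N := exists_SC hmono hpe h1
  have hc : Computable fun k => Nat.find (hex k) :=
    Computable.find (P := fun k N => SC e k N) (pSC he).computablePred hex
  have h4 : Computable fun k => Nat.find (hex k) + 4 :=
    (padd (α := ℕ) Primrec.id (pconst 4)).to_comp.comp hc
  refine ⟨fun k => Nat.find (hex k) + 4, h4, ?_⟩
  intro k w _ hw n hn
  exact I_TIM.stay (by omega) (time_of_SC hpe h2 (Nat.find_spec (hex k)) hw) n hn

end Pool.Agent.Work.MP_500150_lc.LC
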