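import Mathlib
import Pool.Agent.Work.MP_500150_lc.LC.StmtsC

set_option autoImplicit false

/-!
# MP_500150_lc, block LC, item TRA: transversality
-/

namespace Pool.Agent.Work.MP_500150_lc.LC

open Metric Set Filter Topology MeasureTheory Pool.MP_500150_lc.H8

namespace I_TRA

/-- The weights. -/
noncomputable def ell (v : ℕ → ℂ) (i : ℕ) : ℂ := ∏ j ∈ Finset.Ico 1 i, (v j)⁻¹

theorem ell_one (v : ℕ → ℂ) : ell v 1 = 1 := by
  unfold ell
  rw [Finset.Ico_self, Finset.prod_empty]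

theorem ell_succ (v : ℕ → ℂ) (i : ℕ) (hi : 1 ≤ i) : ell v (i + 1) = ell v i * (v i)⁻¹ := by
  unfold ell
  rw [Finset.prod_Ico_succ_top hi]

theorem ell_ne (v : ℕ → ℂ) (n : ℕ) (hv : ∀ i, 1 ≤ i → i < n → v i ≠ 0) : ell v n ≠ 0 :=
  Finset.prod_ne_zero_iff.mpr fun i hi =>
    inv_ne_zero (hv i (Finset.mem_Ico.mp hi).1 (Finset.mem_Ico.mp hi).2)

/-- The leading coefficients. -/
noncomputable def ee (N : ℕ) (A : ℂ) (u v : ℕ → ℂ) : ℕ → ℕ → ℂ
  | 0 => fun i => if i = N then -A else 0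
  | k + 1 => fun i => if i = N then -A else (ee N A u v k (i + 1) - u i * ee N A u v k 1) / v i

theorem ee_N (N : ℕ) (A : ℂ) (u v : ℕ → ℂ) (k : ℕ) : ee N A u v k N = -A := by
  cases k with
  | zero => simp [ee]
  | succ k => simp [ee]

theorem ee_zero (N : ℕ) (A : ℂ) (u v : ℕ → ℂ) (i : ℕ) (hi : i < N) : ee N A u v 0 i = 0 := by
  simp [ee, hi.ne]

theorem ee_succ (N : ℕ) (A : ℂ) (u v : ℕ → ℂ) (k i : ℕ) (hi : i < N) :
    ee N A u v (k + 1) i = (ee N A u v k (i + 1) - u i * ee N A u v k 1) / v i := by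
  simp [ee, hi.ne]

theorem shift_sum (f : ℕ → ℂ) (n : ℕ) (hn : 1 ≤ n) :
    ∑ i ∈ Finset.Ico 1 n, f (i + 1) + f 1 = ∑ i ∈ Finset.Ico 1 n, f i + f n := by
  induction n, hn using Nat.le_induction with
  | base => simp
  | succ n hn ih =>
    rw [Finset.sum_Ico_succ_top hn, Finset.sum_Ico_succ_top hn]
    linear_combination ih

theorem key (N : ℕ) (u v D : ℕ → ℂ) (hv : ∀ i, 1 ≤ i → i < N → v i ≠ 0) (hD1 : D 1 = 1)
    (hDs : ∀ i, 1 ≤ i → i < N → D (i + 1) = u i + v i * D i) (n : ℕ) (hn : 1 ≤ n) :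
    n ≤ N → ell v n * D n = 1 + ∑ i ∈ Finset.Ico 1 n, ell v (i + 1) * u i := by
  induction n, hn using Nat.le_induction with
  | base =>
    intro _
    rw [ell_one, hD1, Finset.Ico_self, Finset.sum_empty, mul_one, add_zero]
  | succ n hn ih =>
    intro hnN
    have hv' := hv n hn (by omega)
    rw [Finset.sum_Ico_succ_top hn, ← add_assoc, ← ih (by omega), hDs n hn (by omega),
      ell_succ v n hn]
    field_simp
    ring

theorem sum_step (N : ℕ) (hN : 2 ≤ N) (A : ℂ) (u v D : ℕ → ℂ)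
    (hv : ∀ i, 1 ≤ i → i < N → v i ≠ 0) (hD1 : D 1 = 1)
    (hDs : ∀ i, 1 ≤ i → i < N → D (i + 1) = u i + v i * D i) (hDN : D N = 0) (k : ℕ) :
    ∑ i ∈ Finset.Ico 1 N, ell v i * ee N A u v (k + 1) i =
      ∑ i ∈ Finset.Ico 1 N, ell v i * ee N A u v k i - ell v N * A := by
  have h1 := key N u v D hv hD1 hDs N (by omega) le_rfl
  rw [hDN, mul_zero] at h1
  have h2 := shift_sum (fun i => ell v i * ee N A u v k i) N (by omega)
  simp only [ell_one, one_mul, ee_N] at h2
  have h3 : ∑ i ∈ Finset.Ico 1 N, ell v i * ee N A u v (k + 1) i =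
      ∑ i ∈ Finset.Ico 1 N, (ell v (i + 1) * ee N A u v k (i + 1) -
        ell v (i + 1) * u i * ee N A u v k 1) := by
    refine Finset.sum_congr rfl fun i hi => ?_
    rw [Finset.mem_Ico] at hi
    rw [ee_succ N A u v k i hi.2, ell_succ v i hi.1]
    have := hv i hi.1 hi.2
    field_simp
  rw [h3, Finset.sum_sub_distrib, ← Finset.sum_mul]
  linear_combination h2 + ee N A u v k 1 * h1

theorem sum_k (N : ℕ) (hN : 2 ≤ N) (A : ℂ) (u v D : ℕ → ℂ)
    (hv : ∀ i, 1 ≤ i → i < N → v i ≠ 0) (hD1 : D 1 = 1)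
    (hDs : ∀ i, 1 ≤ i → i < N → D (i + 1) = u i + v i * D i) (hDN : D N = 0) (k : ℕ) :
    ∑ i ∈ Finset.Ico 1 N, ell v i * ee N A u v k i = -(k * (ell v N * A)) := by
  induction k with
  | zero =>
    rw [Nat.cast_zero, zero_mul, neg_zero]
    refine Finset.sum_eq_zero fun i hi => ?_
    rw [Finset.mem_Ico] at hi
    rw [ee_zero N A u v i hi.2, mul_zero]
  | succ k ih =>
    rw [sum_step N hN A u v D hv hD1 hDs hDN k, ih]
    push_cast
    ring

/-- The contradiction. -/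
theorem contra (N : ℕ) (hN : 2 ≤ N) (A : ℂ) (hA : A ≠ 0) (u v D : ℕ → ℂ)
    (hv : ∀ i, 1 ≤ i → i < N → v i ≠ 0) (hD1 : D 1 = 1)
    (hDs : ∀ i, 1 ≤ i → i < N → D (i + 1) = u i + v i * D i) (hDN : D N = 0) (B : ℝ)
    (hB : ∀ k i, 1 ≤ i → i < N → ‖ee N A u v k i‖ ≤ B) : False := by
  have hne : 0 < ‖ell v N * A‖ := norm_pos_iff.mpr (mul_ne_zero (ell_ne v N hv) hA)
  obtain ⟨k, hk⟩ := exists_nat_gt ((∑ i ∈ Finset.Ico 1 N, ‖ell v i‖ * B) / ‖ell v N * A‖)
  rw [div_lt_iff₀ hne] at hk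
  have h1 : ‖∑ i ∈ Finset.Ico 1 N, ell v i * ee N A u v k i‖ ≤
      ∑ i ∈ Finset.Ico 1 N, ‖ell v i‖ * B := by
    refine (norm_sum_le _ _).trans (Finset.sum_le_sum fun i hi => ?_)
    rw [Finset.mem_Ico] at hi
    rw [norm_mul]
    exact mul_le_mul_of_nonneg_left (hB k i hi.1 hi.2) (norm_nonneg _)
  rw [sum_k N hN A u v D hv hD1 hDs hDN k, norm_neg, norm_mul, Complex.norm_natCast] at h1
  linarith

end I_TRA

open I_TRA in
theorem TRA_pf (h1 : S_OXZ) (h2 : S_ANX) (h3 : S_ITR) (h4 : S_ORD) (h5 : S_COE) (h6 : S_STP)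
    (h7 : S_DER) : S_TRA := by
  intro w J N hF hN q hq hd
  obtain ⟨lam, s⟩ := q
  simp only at hd
  -- analyticity
  have hAn : ∀ t, (lam + t, s) ∈ ES w J N → ∀ i, i ≤ N →
      AnalyticAt ℂ (fun t => OX J s (lam + t) i) t := by
    intro t ht i hi
    have hA := (h2 w J N hF hN).2 i hi (lam + t, s) ht
    have hg : AnalyticAt ℂ (fun t : ℂ => ((lam + t, s) : ℂ × ℂ)) t :=
      (analyticAt_const.add analyticAt_id).prod analyticAt_const
    exact hA.comp_of_eq hg rfl
  have hq0 : (lam + 0, s) ∈ ES w J N := by rw [add_zero]; exact hq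
  -- the order of vanishing
  set b := OX J s lam N with hb
  have hφan : AnalyticAt ℂ (fun t => OX J s (lam + t) N - b) 0 :=
    (hAn 0 hq0 N le_rfl).sub analyticAt_const
  have hφne : ¬ ∀ᶠ t in 𝓝 (0 : ℂ), OX J s (lam + t) N - b = 0 := by
    intro hev
    apply h4 w J N hF hN (lam, s) hq
    have hT : Tendsto (fun l : ℂ => l - lam) (𝓝 lam) (𝓝 0) := by
      have : Tendsto (fun l : ℂ => l - lam) (𝓝 lam) (𝓝 (lam - lam)) :=
        (continuous_id.sub continuous_const).tendsto lam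
      rwa [sub_self] at this
    filter_upwards [hT.eventually hev] with l hl
    rw [add_sub_cancel] at hl
    exact sub_eq_zero.mp hl
  obtain ⟨m, g, hgan, hg0, hgev⟩ :=
    hφan.exists_eventuallyEq_pow_smul_nonzero_iff.mpr hφne
  -- the lifts
  obtain ⟨ε, h, hε, hES, hh0, hmot, hlif, hval⟩ := h3 w J N hF hN (lam, s) hq
  simp only at hES hh0 hmot hlif hval
  obtain ⟨hD1, hL⟩ := h7 w J N hF hN (lam, s) hq
  simp only at hD1 hL
  choose! L hLd hLv hLs using hL
  -- neighbourhoods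
  have hball : ∀ᶠ t in 𝓝[≠] (0 : ℂ), t ∈ ball (0 : ℂ) ε :=
    mem_nhdsWithin_of_mem_nhds (ball_mem_nhds 0 hε)
  have hX1 : ∀ t ∈ ball (0 : ℂ) ε, OX J s (lam + t) 1 = lam + t := fun t ht =>
    h1.2.1 w J hF s (lam + t) (hES t ht).1
  have hXt : ∀ i, i ≤ N → Tendsto (fun t => OX J s (lam + t) i) (𝓝[≠] 0) (𝓝 (OX J s lam i)) := by
    intro i hi
    have := (hAn 0 hq0 i hi).continuousAt.tendsto
    simp only [add_zero] at this
    exact this.mono_left nhdsWithin_le_nhds
  have hht : ∀ k i, 1 ≤ i → i < N →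
      Tendsto (fun t => h k i t) (𝓝[≠] 0) (𝓝 (OX J s lam i)) := by
    intro k i hi hiN
    have hd := ((hmot k).an i hi hiN.le).differentiableAt (ball_mem_nhds 0 hε)
    have := hd.continuousAt.tendsto
    rw [hval k i hi hiN] at this
    exact this.mono_left nhdsWithin_le_nhds
  -- the claim
  set u : ℕ → ℂ := fun i => L i (1, 0) with hu
  set v : ℕ → ℂ := fun i => L i (0, 1) with hv
  have hN1 : 1 < N := by omega
  have claimN : ∀ k, Tendsto (fun t => (h k N t - OX J s (lam + t) N) / t ^ m) (𝓝[≠] 0)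
      (𝓝 (-(g 0))) := by
    intro k
    have hg1 : Tendsto (fun t => -(g t)) (𝓝[≠] 0) (𝓝 (-(g 0))) :=
      (hgan.continuousAt.tendsto.mono_left nhdsWithin_le_nhds).neg
    refine hg1.congr' ?_
    filter_upwards [hball, mem_nhdsWithin_of_mem_nhds hgev, self_mem_nhdsWithin] with t ht1 ht2 ht3
    have ht4 : t ≠ 0 := ht3
    have ht5 : OX J s (lam + t) N - b = (t - 0) ^ m • g t := ht2
    rw [sub_zero, smul_eq_mul] at ht5
    rw [(hmot k).top t ht1, eq_div_iff (pow_ne_zero m ht4)]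
    linear_combination ht5
  have claim : ∀ k i, 1 ≤ i → i ≤ N → Tendsto (fun t => (h k i t - OX J s (lam + t) i) / t ^ m)
      (𝓝[≠] 0) (𝓝 (ee N (g 0) u v k i)) := by
    intro k
    induction k with
    | zero =>
      intro i hi hiN
      rcases hiN.eq_or_lt with rfl | hlt
      · rw [ee_N]
        exact claimN 0
      · rw [ee_zero N _ u v i hlt]
        refine tendsto_const_nhds.congr' ?_
        filter_upwards [hball] with t ht
        rw [hh0 i hi hlt t ht, sub_self, zero_div]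
    | succ k ih =>
      intro i hi hiN
      rcases hiN.eq_or_lt with rfl | hlt
      · rw [ee_N]
        exact claimN (k + 1)
      · rw [ee_succ N _ u v k i hlt]
        refine h6 (fun p : ℂ × ℂ => p.1 + (Js J s p.1 p.2) ^ 2) (L i) lam (OX J s lam i) m
          (h k 1) (fun t => lam + t) (h (k + 1) i) (fun t => OX J s (lam + t) i)
          (ee N (g 0) u v k 1) (ee N (g 0) u v k (i + 1)) (hLd i hi hlt) (hLv i hi hlt)
          ?_ ?_ (hht (k + 1) i hi hlt) (hXt i hiN) ?_ ?_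
        · have := hht k 1 le_rfl hN1
          rwa [h1.2.1 w J hF s lam hq.1] at this
        · have := hXt 1 hN1.le
          rw [h1.2.1 w J hF s lam hq.1] at this
          refine this.congr' ?_
          filter_upwards [hball] with t ht
          exact hX1 t ht
        · refine (ih 1 le_rfl hN1.le).congr' ?_
          filter_upwards [hball] with t ht
          rw [hX1 t ht]
        · refine (ih (i + 1) (by omega) hlt).congr' ?_
          filter_upwards [hball] with t ht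
          rw [hlif k i hi hlt t ht]
          rfl
  -- the bound
  refine contra N hN (g 0) hg0 u v (fun i => deriv (fun l => OX J s l i) lam)
    (fun i hi hiN => hLv i hi hiN) hD1 (fun i hi hiN => hLs i hi hiN) hd (w * (2 / ε) ^ m) ?_
  intro k i hi hiN
  refine h5 (fun t => h k i t - OX J s (lam + t) i) ε w m _ hε ?_ ?_ (claim k i hi hiN.le)
  · refine ((hmot k).an i hi hiN.le).sub ?_
    intro t ht
    exact (hAn t (hES t ht) i hiN.le).differentiableAt.differentiableWithinAt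
  · intro t ht
    have e1 := (hmot k).bd i hi hiN t ht
    have e2 := (hES t ht).2.2.1 i hi hiN
    simp only at e2
    exact (norm_sub_le _ _).trans (by linarith)

end Pool.Agent.Work.MP_500150_lc.LC
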