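import Mathlib
import Pool.Agent.Work.MP_500150_lc.LC.StmtsC

set_option autoImplicit false

/-!
Block LC of MP_500150_lc, item TRF: transfer from `s = 0` to `s = 1`.
-/

namespace Pool.Agent.Work.MP_500150_lc.LC

open Metric Set Filter Topology MeasureTheory Pool.MP_500150_lc.H8

theorem TRF_pf (h1 : S_OXZ) (h2 : S_SEC) (h3 : S_HAK) : S_TRF := by
  intro w J N b lam₀ e ϱ hF hN hb hES hPN he he4 hϱ hball
  have hw : (0 : ℝ) < w := by linarith [hF.big]
  obtain ⟨Λ, hd, h0, hΛ⟩ := h2 w J N b lam₀ hF hN hb hES ((h1.1 J lam₀ N).trans hPN)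
  have hew : 0 < e * w := mul_pos he hw
  have hew2 : e * w < w / 2 := by nlinarith
  have hbmem : ∀ v s : ℂ, ‖v - b‖ ≤ e * w → ‖s‖ < 3 →
      (v, s) ∈ ball b (w / 2) ×ˢ ball (0 : ℂ) 3 := by
    intro v s hv hs
    refine ⟨?_, ?_⟩
    · rw [mem_ball, dist_eq_norm]
      exact hv.trans_lt hew2
    · rw [mem_ball, dist_zero_right]
      exact hs
  have hbb : ‖b - b‖ ≤ e * w := by rw [sub_self, norm_zero]; exact hew.le
  have h13 : ‖(1 : ℂ)‖ < 3 := by rw [norm_one]; norm_num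
  have h03 : ‖(0 : ℂ)‖ < 3 := by rw [norm_zero]; norm_num
  -- the lower bound on the sphere
  have hlow : ∀ v ∈ sphere b (e * w), ϱ ^ 2 / w ≤ ‖Λ (v, 1) - Λ (b, 1)‖ := by
    intro v hv
    have hv' : ‖v - b‖ = e * w := by rw [← dist_eq_norm]; exact hv
    have hvb : v ≠ b := by
      rintro rfl
      rw [sub_self, norm_zero] at hv'
      linarith
    let g : ℂ → ℂ := fun s => (Λ (v, s) - Λ (b, s)) / w
    have hwc : (w : ℂ) ≠ 0 := by exact_mod_cast hw.ne'
    have hgn : ∀ s, ‖g s‖ = ‖Λ (v, s) - Λ (b, s)‖ / w := by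
      intro s
      show ‖(Λ (v, s) - Λ (b, s)) / (w : ℂ)‖ = _
      rw [norm_div, Complex.norm_real, Real.norm_eq_abs, abs_of_pos hw]
    have hcomp : ∀ x : ℂ, ‖x - b‖ ≤ e * w →
        DifferentiableOn ℂ (fun s => Λ (x, s)) (ball 0 3) := by
      intro x hx
      refine hd.comp (f := fun s : ℂ => (x, s))
        ((differentiable_const x).prodMk differentiable_id).differentiableOn ?_
      intro s hs
      rw [mem_ball, dist_zero_right] at hs
      exact hbmem x s hx hs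
    have hgd : DifferentiableOn ℂ g (ball 0 3) :=
      ((hcomp v hv'.le).sub (hcomp b hbb)).div_const _
    have hg1 : ∀ s ∈ ball (0 : ℂ) 3, g s ≠ 0 ∧ ‖g s‖ < 1 := by
      intro s hs
      rw [mem_ball, dist_zero_right] at hs
      obtain ⟨e1, e2⟩ := hΛ _ (hbmem v s hv'.le hs)
      obtain ⟨e3, e4⟩ := hΛ _ (hbmem b s hbb hs)
      refine ⟨fun h => hvb ?_, ?_⟩
      · have h5 : Λ (v, s) - Λ (b, s) = 0 := by
          rcases div_eq_zero_iff.1 h with h6 | h6
          · exact h6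
          · exact absurd h6 hwc
        have h6 : Λ (v, s) = Λ (b, s) := sub_eq_zero.1 h5
        simp only at e2 e4
        rw [← e2, h6, e4]
      · rw [hgn, div_lt_one hw]
        have h7 : ‖Λ (v, s)‖ < w / 2 := e1.1
        have h8 : ‖Λ (b, s)‖ < w / 2 := e3.1
        calc ‖Λ (v, s) - Λ (b, s)‖ ≤ ‖Λ (v, s)‖ + ‖Λ (b, s)‖ := norm_sub_le _ _
          _ < w := by linarith
    have hg0 : ϱ / w ≤ ‖g 0‖ := by
      rw [hgn]
      refine div_le_div_of_nonneg_right ?_ hw.le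
      by_contra hlt
      push Not at hlt
      rw [h0] at hlt
      have h5 := hball (Λ (v, 0)) hlt
      obtain ⟨-, e2⟩ := hΛ _ (hbmem v 0 hv'.le h03)
      simp only at e2
      rw [h1.1] at e2
      rw [e2, hv'] at h5
      exact lt_irrefl _ h5
    have hh := h3 g hgd hg1
    have h6 : (ϱ / w) ^ 2 ≤ ‖g 1‖ := le_trans (pow_le_pow_left₀ (by positivity) hg0 2) hh
    rw [hgn] at h6
    have h7 : (ϱ / w) ^ 2 * w ≤ ‖Λ (v, 1) - Λ (b, 1)‖ := by
      rwa [le_div_iff₀ hw] at h6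
    calc ϱ ^ 2 / w = (ϱ / w) ^ 2 * w := by field_simp
      _ ≤ _ := h7
  -- the map `v ↦ Λ (v, 1)`
  have hdf : DifferentiableOn ℂ (fun v => Λ (v, 1)) (ball b (w / 2)) := by
    refine hd.comp (f := fun v : ℂ => (v, (1 : ℂ)))
      (differentiable_id.prodMk (differentiable_const 1)).differentiableOn ?_
    intro v hv
    exact ⟨hv, by rw [mem_ball, dist_zero_right]; exact h13⟩
  have hcl : closedBall b (e * w) ⊆ ball b (w / 2) := closedBall_subset_ball hew2
  have hdc : DiffContOnCl ℂ (fun v => Λ (v, 1)) (ball b (e * w)) := by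
    refine DifferentiableOn.diffContOnCl ?_
    rw [closure_ball _ hew.ne']
    exact hdf.mono hcl
  have hfreq : ∃ᶠ z in 𝓝 b, Λ (z, 1) ≠ Λ (b, 1) := by
    have h5 : ∀ᶠ z in 𝓝[≠] b, Λ (z, 1) ≠ Λ (b, 1) := by
      have h6 : ∀ᶠ z in 𝓝[≠] b, z ∈ ball b (e * w) :=
        mem_nhdsWithin_of_mem_nhds (ball_mem_nhds b hew)
      filter_upwards [h6, self_mem_nhdsWithin] with z hz hzb h7
      have hz' : ‖z - b‖ ≤ e * w := by rw [← dist_eq_norm]; exact (mem_ball.1 hz).le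
      obtain ⟨-, e2⟩ := hΛ _ (hbmem z 1 hz' h13)
      obtain ⟨-, e4⟩ := hΛ _ (hbmem b 1 hbb h13)
      simp only at e2 e4
      exact hzb (by
        show z = b
        rw [← e2, h7, e4])
    exact h5.frequently.filter_mono nhdsWithin_le_nhds
  have himg := hdc.ball_subset_image_closedBall hew hlow hfreq
  refine ⟨Λ (b, 1), fun lam hlam => ?_⟩
  have hmem : lam ∈ ball (Λ (b, 1)) (ϱ ^ 2 / w / 2) := by
    rw [mem_ball, dist_eq_norm]
    calc ‖lam - Λ (b, 1)‖ < ϱ ^ 2 / (2 * w) := hlam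
      _ = ϱ ^ 2 / w / 2 := by field_simp
  obtain ⟨v, hv, hvl⟩ := himg hmem
  have hv' : ‖v - b‖ ≤ e * w := by rw [← dist_eq_norm]; exact hv
  obtain ⟨e1, e2⟩ := hΛ _ (hbmem v 1 hv' h13)
  simp only at hvl e1 e2
  rw [hvl] at e1 e2
  exact ⟨e1, by rw [e2]; exact hv'⟩

end Pool.Agent.Work.MP_500150_lc.LC
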