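import Mathlib
import Pool.Agent.Work.MP_500150_lc.LC.Stmts

set_option autoImplicit false

namespace Pool.Agent.Work.MP_500150_lc.LC

open Metric Set Filter Topology MeasureTheory Pool.MP_500150_lc.H8

namespace I_VKA

/-- The fixed point is fixed by all iterates. -/
lemma fi_fix (c β : ℂ) (h : β ^ 2 + c = β) (n : ℕ) : fi n c β = β := by
  unfold fi
  exact Function.iterate_fixed (f := fun w : ℂ => w ^ 2 + c) h n

/-- Enlarging the constant in a bi-Lipschitz estimate. -/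
lemma lip_mono {C₁ C : ℝ} (h1 : 1 ≤ C₁) (h : C₁ ≤ C) {d e : ℝ} (hd : 0 ≤ d)
    (he : d / C₁ ≤ e ∧ e ≤ C₁ * d) : d / C ≤ e ∧ e ≤ C * d := by
  refine ⟨le_trans ?_ he.1, he.2.trans (mul_le_mul_of_nonneg_right h hd)⟩
  exact div_le_div_of_nonneg_left hd (by linarith) h

end I_VKA

open I_VKA in
theorem VKA_pf (hBET : S_BET) (hFIP : S_FIP) (hMBD : S_MBD) (hCHN : S_CHN) (hBRA : S_BRA)
    (hLIP : S_LIP) (hCTR : S_CTR) : S_VKA := by
  intro c₀ l hm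
  obtain ⟨hB1, hB2, -, -⟩ := hBET
  obtain ⟨-, hF2, -, -, -, -⟩ := hFIP
  obtain ⟨-, -, -, hPne, -⟩ := hMBD c₀ l hm
  -- the branch `H`
  have hHne : ∀ i, i < l - 1 → fi i c₀ c₀ ≠ 0 := by
    intro i _
    rw [← hF2 i c₀]
    exact hPne (i + 1) (by omega)
  obtain ⟨ρa, H, hρa, hHan, hH0, hH1⟩ := hBRA c₀ c₀ (l - 1) hHne
  have hland : fi (l - 1) c₀ c₀ = bet c₀ := by
    rw [← hF2 (l - 1) c₀, Nat.sub_add_cancel hm.pos, hm.land]
  rw [hland] at hHan hH0 hH1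
  have hdH : deriv (fun x => H (c₀, x)) (bet c₀) ≠ 0 :=
    (hH1 c₀ (mem_ball_self hρa) (bet c₀) (mem_ball_self hρa)).2
  obtain ⟨ρH, CH, hρH, hρHa, hCH1, hHL⟩ := hLIP c₀ (bet c₀) ρa H hρa hHan hdH 1 one_pos
  -- the branch `g`
  obtain ⟨ρb, ρ₁, τ, g, hρb, hρ₁, hρ₁δ, hτ, hgan, hg⟩ :=
    hCTR c₀ l hm (min ρH (1 / 2)) (lt_min hρH (by norm_num))
  have hρ₁H : ρ₁ ≤ ρH := hρ₁δ.trans (min_le_left _ _)
  have hρ₁2 : ρ₁ ≤ 1 / 2 := hρ₁δ.trans (min_le_right _ _)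
  -- the homoclinic point and the branch `G`
  obtain ⟨x₀, hx₀, k₀, -, hfx, hfne⟩ := hCHN c₀ l hm (ρ₁ / 2) (by positivity)
  obtain ⟨ρc, G, hρc, hGan, hG0, hG1⟩ := hBRA c₀ x₀ k₀ hfne
  rw [hfx] at hGan hG0 hG1
  have hdG : deriv (fun x => G (c₀, x)) 0 ≠ 0 :=
    (hG1 c₀ (mem_ball_self hρc) 0 (mem_ball_self hρc)).2
  obtain ⟨ρG, CG, hρG, hρGc, hCG1, hGL⟩ := hLIP c₀ 0 ρc G hρc hGan hdG (ρ₁ / 2) (by positivity)
  -- `x₀ ≠ bet c₀`
  have hβ1 : 1 < ‖2 * bet c₀‖ := (hB2 c₀ hm.slit).1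
  have hβ0 : bet c₀ ≠ 0 := by
    intro h
    rw [h, mul_zero, norm_zero] at hβ1
    linarith
  have hxne : x₀ - bet c₀ ≠ 0 := by
    intro h
    have hx : x₀ = bet c₀ := sub_eq_zero.1 h
    rw [hx, fi_fix c₀ (bet c₀) (hB1 c₀) k₀] at hfx
    exact hβ0 hfx
  -- continuity of `c ↦ G (c, 0) - bet c`
  have hbc : ContinuousAt bet c₀ := (hB2 c₀ hm.slit).2.continuousAt
  have hGc : ContinuousAt (fun c : ℂ => G (c, 0)) c₀ := by
    have h1 : ContinuousAt G (c₀, 0) :=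
      (hGan (c₀, 0) ⟨mem_ball_self hρc, mem_ball_self hρc⟩).continuousAt
    have h2 : ContinuousAt (fun c : ℂ => ((c, 0) : ℂ × ℂ)) c₀ := by fun_prop
    exact ContinuousAt.comp (f := fun c : ℂ => ((c, 0) : ℂ × ℂ)) (g := G) h1 h2
  have hφc : ContinuousAt (fun c : ℂ => ‖G (c, 0) - bet c‖) c₀ := (hGc.sub hbc).norm
  have hφ0 : 0 < ‖x₀ - bet c₀‖ := norm_pos_iff.2 hxne
  have hev : ∀ᶠ c in 𝓝 c₀, ‖x₀ - bet c₀‖ / 2 < ‖G (c, 0) - bet c‖ := by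
    apply hφc.eventually (lt_mem_nhds _)
    simp only [hG0]
    linarith
  obtain ⟨ρd, hρd, hρd1⟩ := Metric.eventually_nhds_iff_ball.1 hev
  -- the constants
  set ρ : ℝ := min 1 (min ρH (min ρb (min ρG ρd))) with hρdef
  have hρpos : 0 < ρ := by
    rw [hρdef]
    exact lt_min one_pos (lt_min hρH (lt_min hρb (lt_min hρG hρd)))
  have hρ1 : ρ ≤ 1 := min_le_left _ _
  have hr2 : ρ ≤ min ρH (min ρb (min ρG ρd)) := min_le_right _ _
  have hρρH : ρ ≤ ρH := hr2.trans (min_le_left _ _)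
  have hr3 : ρ ≤ min ρb (min ρG ρd) := hr2.trans (min_le_right _ _)
  have hρρb : ρ ≤ ρb := hr3.trans (min_le_left _ _)
  have hr4 : ρ ≤ min ρG ρd := hr3.trans (min_le_right _ _)
  have hρρG : ρ ≤ ρG := hr4.trans (min_le_left _ _)
  have hρρd : ρ ≤ ρd := hr4.trans (min_le_right _ _)
  set C : ℝ := max CH (max CG (2 / ‖x₀ - bet c₀‖)) with hCdef
  have hCH : CH ≤ C := le_max_left _ _
  have hCG : CG ≤ C := (le_max_left _ _).trans (le_max_right _ _)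
  have hCx : 2 / ‖x₀ - bet c₀‖ ≤ C := (le_max_right _ _).trans (le_max_right _ _)
  have hC1 : 1 ≤ C := hCH1.trans hCH
  refine ⟨ρ, ρ₁, C, τ, k₀, g, G, H, hρpos, hρ1, hρ₁, hρ₁2, hC1, hτ, ?_, ?_, ?_, hH0, ?_⟩
  · exact hgan.mono (prod_mono (ball_subset_ball hρρb) subset_rfl)
  · exact hGan.mono (prod_mono (ball_subset_ball (hρρG.trans hρGc))
      (ball_subset_ball (hρρG.trans hρGc)))
  · exact hHan.mono (prod_mono (ball_subset_ball (hρρH.trans hρHa))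
      (ball_subset_ball (hρ₁H.trans hρHa)))
  intro c hc
  refine ⟨hg c (ball_subset_ball hρρb hc), ?_, ?_, ?_⟩
  · intro x hx
    have hcG : c ∈ ball c₀ ρG := ball_subset_ball hρρG hc
    have hxG : x ∈ ball (0 : ℂ) ρG := ball_subset_ball hρρG hx
    refine ⟨?_, ?_, ?_⟩
    · have h1 := (hGL c hcG x hxG x hxG).1
      rw [hG0] at h1
      rw [mem_ball, dist_eq_norm] at hx₀ ⊢
      calc ‖G (c, x) - bet c₀‖ = ‖(G (c, x) - x₀) + (x₀ - bet c₀)‖ := by congr 1; ring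
        _ ≤ ‖G (c, x) - x₀‖ + ‖x₀ - bet c₀‖ := norm_add_le _ _
        _ < ρ₁ := by linarith
    · exact (hG1 c (ball_subset_ball (hρρG.trans hρGc) hc) x
        (ball_subset_ball (hρρG.trans hρGc) hx)).1
    · intro x' hx'
      exact lip_mono hCG1 hCG (norm_nonneg _) (hGL c hcG x hxG x' (ball_subset_ball hρρG hx')).2
  · intro x hx
    have hcH : c ∈ ball c₀ ρH := ball_subset_ball hρρH hc
    have hxH : x ∈ ball (bet c₀) ρH := ball_subset_ball hρ₁H hx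
    refine ⟨?_, ?_⟩
    · exact (hH1 c (ball_subset_ball (hρρH.trans hρHa) hc) x
        (ball_subset_ball (hρ₁H.trans hρHa) hx)).1
    · intro x' hx'
      exact lip_mono hCH1 hCH (norm_nonneg _) (hHL c hcH x hxH x' (ball_subset_ball hρ₁H hx')).2
  · have h1 := hρd1 c (ball_subset_ball hρρd hc)
    have h2 : 1 / C ≤ ‖x₀ - bet c₀‖ / 2 := by
      rw [div_le_iff₀ (by linarith)]
      rw [div_le_iff₀ hφ0] at hCx
      nlinarith [hCx]
    exact h2.trans h1.le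

end Pool.Agent.Work.MP_500150_lc.LC
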