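import Mathlib
import Pool.Agent.Work.MP_500150_lc.LC.Stmts

set_option autoImplicit false

/-!
# Block [500150 LC], item VKK: the inverse branches `U k`
-/

namespace Pool.Agent.Work.MP_500150_lc.LC

open Metric Set Filter Topology MeasureTheory Pool.MP_500150_lc.H8

namespace I_VKK

/-- bounds of a derivative by bounds of the difference quotients -/
theorem deriv_bounds (F : ℂ → ℂ) (C r : ℝ) (hr : 0 < r) (hC : 0 < C) (hF : DifferentiableAt ℂ F 0)
    (h : ∀ x ∈ ball (0 : ℂ) r, ‖x‖ / C ≤ ‖F x - F 0‖ ∧ ‖F x - F 0‖ ≤ C * ‖x‖) :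
    1 / C ≤ ‖deriv F 0‖ ∧ ‖deriv F 0‖ ≤ C := by
  have h1 : Tendsto (fun x => ‖slope F 0 x‖) (𝓝[≠] (0 : ℂ)) (𝓝 ‖deriv F 0‖) :=
    (hasDerivAt_iff_tendsto_slope.1 hF.hasDerivAt).norm
  have h2 : ∀ᶠ x in 𝓝[≠] (0 : ℂ), x ∈ ball (0 : ℂ) r ∧ x ≠ 0 := by
    refine (eventually_nhdsWithin_of_eventually_nhds (ball_mem_nhds 0 hr)).and ?_
    exact eventually_mem_nhdsWithin
  have h3 : ∀ᶠ x in 𝓝[≠] (0 : ℂ), 1 / C ≤ ‖slope F 0 x‖ ∧ ‖slope F 0 x‖ ≤ C := by
    filter_upwards [h2] with x hx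
    obtain ⟨hx1, hx2⟩ := hx
    have hx3 : 0 < ‖x‖ := norm_pos_iff.2 hx2
    have h4 : ‖slope F 0 x‖ = ‖F x - F 0‖ / ‖x‖ := by
      rw [slope_def_field, norm_div, sub_zero]
    obtain ⟨h5, h6⟩ := h x hx1
    rw [h4]
    constructor
    · rw [le_div_iff₀ hx3]
      calc 1 / C * ‖x‖ = ‖x‖ / C := by ring
        _ ≤ _ := h5
    · rw [div_le_iff₀ hx3]
      exact h6
  exact ⟨ge_of_tendsto h1 (h3.mono fun _ h => h.1), le_of_tendsto h1 (h3.mono fun _ h => h.2)⟩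

end I_VKK

open I_VKK in
theorem VKK_pf (hBET : S_BET) (hFIP : S_FIP) (hMBD : S_MBD) (hNID : S_NID) (hKOE : S_KOE)
    (hVKA : S_VKA) : S_VKK := by
  intro c₀ l hl
  obtain ⟨ρ, ρ₁, C, τ, k₀, g, G, H, hρ, hρ1, hρ₁, hρ₁2, hC, hτ, ang, anG, anH, hH0, hall⟩ :=
    hVKA c₀ l hl
  obtain ⟨-, hbetd, -, -⟩ := hBET
  obtain ⟨-, hP1, hadd, -, hfs, hfs'⟩ := hFIP
  obtain ⟨-, -, hβ2, -, -⟩ := hMBD c₀ l hl
  obtain ⟨K, hK1, hK⟩ := hKOE τ 8 hτ (by norm_num)
  set B₁ : Set ℂ := ball (bet c₀) ρ₁ with hB₁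
  have hK0 : 0 < K := by linarith
  have hC0 : 0 < C := by linarith
  -- the iterates of the contraction
  have hfi0 : ∀ c z : ℂ, fi 0 c z = z := fun c z => rfl
  have hmaps : ∀ c ∈ ball c₀ ρ, ∀ (k : ℕ), ∀ x ∈ B₁, (fun y => g (c, y))^[k] x ∈ B₁ := by
    intro c hc k
    induction k with
    | zero => exact fun x hx => hx
    | succ k ih =>
      intro x hx
      rw [Function.iterate_succ_apply']
      exact ((hall c hc).1.2.2.2.2 _ (ih x hx)).1
  have hfix : ∀ c ∈ ball c₀ ρ, ∀ (k : ℕ), (fun y => g (c, y))^[k] (bet c) = bet c := by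
    intro c hc k
    exact Function.iterate_fixed ((hall c hc).1.2.2.2.1) k
  have hfik : ∀ c ∈ ball c₀ ρ, ∀ (k : ℕ), ∀ x ∈ B₁, fi k c ((fun y => g (c, y))^[k] x) = x := by
    intro c hc k
    induction k with
    | zero => exact fun x _ => rfl
    | succ k ih =>
      intro x hx
      rw [Function.iterate_succ_apply', hfs]
      have h1 := ((hall c hc).1.2.2.2.2 _ (hmaps c hc k x hx)).2.1
      rw [h1]
      exact ih x hx
  -- Koenigs
  have hkoe : ∀ c ∈ ball c₀ ρ, ∀ (k : ℕ), ∀ x ∈ B₁, ∀ x' ∈ B₁,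
      ‖x - x'‖ / K ≤ ‖(2 * bet c) ^ k * ((fun y => g (c, y))^[k] x - (fun y => g (c, y))^[k] x')‖ ∧
      ‖(2 * bet c) ^ k * ((fun y => g (c, y))^[k] x - (fun y => g (c, y))^[k] x')‖ ≤
        K * ‖x - x'‖ := by
    intro c hc
    obtain ⟨⟨-, -, hb1, hb2, hb3⟩, -, -, -⟩ := hall c hc
    refine hK B₁ (fun y => g (c, y)) (bet c) hb1 hb2 ?_ ?_
    · intro x hx
      have h1 : ‖x - bet c₀‖ < ρ₁ := by rwa [hB₁, mem_ball, dist_eq_norm] at hx
      have h2 : ‖bet c - bet c₀‖ < ρ₁ := by rwa [mem_ball, dist_eq_norm] at hb1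
      refine ⟨?_, ?_, (hb3 x hx).1⟩
      · have h3 : ‖x‖ ≤ ‖x - bet c₀‖ + ‖bet c₀‖ := by
          have := norm_add_le (x - bet c₀) (bet c₀)
          rwa [sub_add_cancel] at this
        linarith
      · have h3 : ‖x - bet c‖ ≤ ‖x - bet c₀‖ + ‖bet c - bet c₀‖ := by
          have := norm_sub_le (x - bet c₀) (bet c - bet c₀)
          rwa [sub_sub_sub_cancel_right] at this
        linarith
    · intro x hx x' hx'
      refine ⟨(hb3 x hx).2.2 x' hx', ?_⟩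
      have h1 := (hb3 x hx).2.1
      have h2 := (hb3 x' hx').2.1
      show x - x' = (g (c, x) - g (c, x')) * (g (c, x) + g (c, x'))
      calc x - x' = (g (c, x) ^ 2 + c) - (g (c, x') ^ 2 + c) := by rw [h1, h2]
        _ = _ := by ring
  -- the functions
  set Y : ℕ → ℂ × ℂ → ℂ := fun k q => (fun y => g (q.1, y))^[k] (G q) with hY
  set U : ℕ → ℂ × ℂ → ℂ := fun k q => H (q.1, Y k q) - q.1 with hU
  set D : ℂ → ℂ := fun c => c - H (c, bet c) with hD
  have hYm : ∀ k, ∀ c ∈ ball c₀ ρ, ∀ x ∈ ball (0 : ℂ) ρ, Y k (c, x) ∈ B₁ := by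
    intro k c hc x hx
    exact hmaps c hc k _ ((hall c hc).2.1 x hx).1
  have anY : ∀ k, AnalyticOnNhd ℂ (Y k) (ball c₀ ρ ×ˢ ball 0 ρ) := by
    intro k
    induction k with
    | zero => exact anG
    | succ k ih =>
      rintro ⟨c, x⟩ ⟨hc, hx⟩
      have h1 : Y (k + 1) = fun q => g (q.1, Y k q) := by
        funext q
        simp only [hY]
        rw [Function.iterate_succ_apply']
      rw [h1]
      have h2 : AnalyticAt ℂ (fun q : ℂ × ℂ => (q.1, Y k q)) (c, x) :=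
        analyticAt_fst.prod (ih (c, x) ⟨hc, hx⟩)
      have h3 : AnalyticAt ℂ g (c, Y k (c, x)) := ang _ ⟨hc, hYm k c hc x hx⟩
      exact AnalyticAt.comp (g := g) (f := fun q : ℂ × ℂ => (q.1, Y k q)) h3 h2
  have anU : ∀ k, AnalyticOnNhd ℂ (U k) (ball c₀ ρ ×ˢ ball 0 ρ) := by
    rintro k ⟨c, x⟩ ⟨hc, hx⟩
    have h2 : AnalyticAt ℂ (fun q : ℂ × ℂ => (q.1, Y k q)) (c, x) :=
      analyticAt_fst.prod (anY k (c, x) ⟨hc, hx⟩)
    have h3 : AnalyticAt ℂ H (c, Y k (c, x)) := anH _ ⟨hc, hYm k c hc x hx⟩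
    have h4 : AnalyticAt ℂ (fun q : ℂ × ℂ => H (q.1, Y k q)) (c, x) :=
      AnalyticAt.comp (g := H) (f := fun q : ℂ × ℂ => (q.1, Y k q)) h3 h2
    exact h4.sub analyticAt_fst
  -- the two-sided bound through `H`
  have hHb : ∀ c ∈ ball c₀ ρ, ∀ (k : ℕ), ∀ z ∈ B₁, ∀ z' ∈ B₁,
      ‖z - z'‖ / (K * C) ≤ ‖(2 * bet c) ^ k * (H (c, (fun y => g (c, y))^[k] z) -
        H (c, (fun y => g (c, y))^[k] z'))‖ ∧
      ‖(2 * bet c) ^ k * (H (c, (fun y => g (c, y))^[k] z) -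
        H (c, (fun y => g (c, y))^[k] z'))‖ ≤ K * C * ‖z - z'‖ := by
    intro c hc k z hz z' hz'
    obtain ⟨h1, h2⟩ := hkoe c hc k z hz z' hz'
    obtain ⟨h3, h4⟩ := ((hall c hc).2.2.1 _ (hmaps c hc k z hz)).2 _ (hmaps c hc k z' hz')
    rw [norm_mul] at h1 h2 ⊢
    have hm : 0 ≤ ‖(2 * bet c) ^ k‖ := norm_nonneg _
    constructor
    · calc ‖z - z'‖ / (K * C) = (‖z - z'‖ / K) / C := by rw [div_div]
        _ ≤ (‖(2 * bet c) ^ k‖ *
          ‖(fun y => g (c, y))^[k] z - (fun y => g (c, y))^[k] z'‖) / C := by gcongr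
        _ = ‖(2 * bet c) ^ k‖ *
          (‖(fun y => g (c, y))^[k] z - (fun y => g (c, y))^[k] z'‖ / C) := by ring
        _ ≤ _ := by gcongr
    · calc ‖(2 * bet c) ^ k‖ * ‖H (c, (fun y => g (c, y))^[k] z) -
            H (c, (fun y => g (c, y))^[k] z')‖
          ≤ ‖(2 * bet c) ^ k‖ *
            (C * ‖(fun y => g (c, y))^[k] z - (fun y => g (c, y))^[k] z'‖) := by gcongr
        _ = C * (‖(2 * bet c) ^ k‖ *
            ‖(fun y => g (c, y))^[k] z - (fun y => g (c, y))^[k] z'‖) := by ring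
        _ ≤ C * (K * ‖z - z'‖) := by gcongr
        _ = K * C * ‖z - z'‖ := by ring
  -- the two-sided bound for `U`
  have hUb : ∀ c ∈ ball c₀ ρ, ∀ (k : ℕ), ∀ x ∈ ball (0 : ℂ) ρ,
      ‖x‖ / (K * C * C) ≤ ‖(2 * bet c) ^ k * (U k (c, x) - U k (c, 0))‖ ∧
      ‖(2 * bet c) ^ k * (U k (c, x) - U k (c, 0))‖ ≤ K * C * C * ‖x‖ := by
    intro c hc k x hx
    have h0 : (0 : ℂ) ∈ ball (0 : ℂ) ρ := mem_ball_self hρ
    obtain ⟨hG1, -, hG2⟩ := (hall c hc).2.1 x hx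
    obtain ⟨hG0, -, -⟩ := (hall c hc).2.1 0 h0
    obtain ⟨h3, h4⟩ := hG2 0 h0
    rw [sub_zero] at h3 h4
    obtain ⟨h1, h2⟩ := hHb c hc k _ hG1 _ hG0
    have h5 : U k (c, x) - U k (c, 0) = H (c, (fun y => g (c, y))^[k] (G (c, x))) -
        H (c, (fun y => g (c, y))^[k] (G (c, 0))) := by
      simp only [hU, hY]
      ring
    rw [h5]
    constructor
    · refine le_trans ?_ h1
      calc ‖x‖ / (K * C * C) = (‖x‖ / C) / (K * C) := by rw [div_div, mul_comm C (K * C)]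
        _ ≤ _ := by gcongr
    · refine h2.trans ?_
      calc K * C * ‖G (c, x) - G (c, 0)‖ ≤ K * C * (C * ‖x‖) := by gcongr
        _ = K * C * C * ‖x‖ := by ring
  have hKC : 1 ≤ K * C * C := by
    have h1 : 1 ≤ K * C := by nlinarith
    nlinarith
  have hKC0 : 0 < K * C * C := by linarith
  refine ⟨ρ, K * C * C, τ, l - 1 + k₀, D, U, hρ, hρ1, hKC, hτ, ?_, ?_, ?_, ?_, anU, ?_, ?_, ?_, ?_⟩
  · -- `D` is differentiable
    intro c hc
    obtain ⟨⟨hs, -, hb1, -, -⟩, -, -, -⟩ := hall c hc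
    have h1 : DifferentiableAt ℂ H (c, bet c) := (anH _ ⟨hc, hb1⟩).differentiableAt
    have h2 : DifferentiableAt ℂ (fun c : ℂ => (c, bet c)) c :=
      differentiableAt_id.prodMk (hbetd c hs).2
    have h3 : DifferentiableAt ℂ (fun c : ℂ => H (c, bet c)) c :=
      DifferentiableAt.comp (g := H) c h1 h2
    exact (differentiableAt_id.sub h3).differentiableWithinAt
  · show c₀ - H (c₀, bet c₀) = 0
    rw [hH0, sub_self]
  · intro hev
    apply hNID c₀ l hl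
    filter_upwards [hev, ball_mem_nhds c₀ hρ] with c hc1 hc2
    obtain ⟨⟨-, -, hb1, -, -⟩, -, hH, -⟩ := hall c hc2
    have h1 := (hH (bet c) hb1).1
    have h2 : H (c, bet c) = c := (sub_eq_zero.1 hc1).symm
    rw [h2, ← hP1] at h1
    have h3 : l - 1 + 1 = l := Nat.sub_add_cancel hl.pos
    rwa [h3] at h1
  · intro c hc
    exact ⟨(hall c hc).1.1, (hall c hc).1.2.1⟩
  · intro k c hc x hx
    have h1 : c + U k (c, x) = H (c, Y k (c, x)) := by
      simp only [hU]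
      ring
    have h2 : l - 1 + k₀ + k = k₀ + (k + (l - 1)) := by omega
    rw [h1, h2, hadd, hadd, ((hall c hc).2.2.1 _ (hYm k c hc x hx)).1]
    have h3 : fi k c (Y k (c, x)) = G (c, x) := hfik c hc k _ ((hall c hc).2.1 x hx).1
    rw [h3]
    exact ((hall c hc).2.1 x hx).2.1
  · intro k c hc x hx
    refine (hUb c hc k x hx).2.trans ?_
    have h1 : ‖x‖ ≤ 1 := by
      rw [mem_ball, dist_zero_right] at hx
      linarith
    nlinarith
  · intro k c hc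
    have h0 : (0 : ℂ) ∈ ball (0 : ℂ) ρ := mem_ball_self hρ
    have h1 : DifferentiableAt ℂ (U k) (c, 0) := (anU k _ ⟨hc, h0⟩).differentiableAt
    have h2 : DifferentiableAt ℂ (fun x : ℂ => (c, x)) 0 :=
      (differentiableAt_const c).prodMk differentiableAt_id
    have h3 : DifferentiableAt ℂ (fun x : ℂ => U k (c, x)) 0 :=
      DifferentiableAt.comp (g := U k) (0 : ℂ) h1 h2
    have h4 : DifferentiableAt ℂ (fun x : ℂ => (2 * bet c) ^ k * U k (c, x)) 0 := h3.const_mul _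
    have h5 := deriv_bounds (fun x : ℂ => (2 * bet c) ^ k * U k (c, x)) (K * C * C) ρ hρ hKC0 h4
      (by
        intro x hx
        have h6 := hUb c hc k x hx
        rw [mul_sub] at h6
        exact h6)
    rw [deriv_const_mul _ h3] at h5
    exact h5
  · intro k c hc
    have h0 : (0 : ℂ) ∈ ball (0 : ℂ) ρ := mem_ball_self hρ
    obtain ⟨⟨-, -, hb1, -, -⟩, hG, -, hGb⟩ := hall c hc
    obtain ⟨h1, h2⟩ := hHb c hc k _ (hG 0 h0).1 _ hb1
    rw [hfix c hc k] at h1 h2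
    have h3 : U k (c, 0) + D c = H (c, (fun y => g (c, y))^[k] (G (c, 0))) - H (c, bet c) := by
      simp only [hU, hY, hD]
      ring
    rw [h3]
    have h4 : ‖G (c, 0) - bet c‖ ≤ 1 := by
      have h5 : ‖G (c, 0) - bet c₀‖ < ρ₁ := by
        have := (hG 0 h0).1
        rwa [mem_ball, dist_eq_norm] at this
      have h6 : ‖bet c - bet c₀‖ < ρ₁ := by rwa [mem_ball, dist_eq_norm] at hb1
      have h7 := norm_sub_le (G (c, 0) - bet c₀) (bet c - bet c₀)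
      rw [sub_sub_sub_cancel_right] at h7
      linarith
    constructor
    · refine le_trans ?_ h1
      calc 1 / (K * C * C) = (1 / C) / (K * C) := by rw [div_div, mul_comm C (K * C)]
        _ ≤ _ := by gcongr
    · refine h2.trans ?_
      have h8 : 0 < K * C := by positivity
      nlinarith

end Pool.Agent.Work.MP_500150_lc.LC
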