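import Mathlib
import Pool.Agent.Work.MP_500150_lc.LC.Stmts

set_option autoImplicit false

/-!
# Locality of the computability of the Mandelbrot set: item WST (escaping points near `0`)
-/

namespace Pool.Agent.Work.MP_500150_lc.LC

open Metric Set Filter Topology MeasureTheory Pool.MP_500150_lc.H8

namespace I_WST

theorem fi_add (m n : ℕ) (c z : ℂ) : fi (m + n) c z = fi m c (fi n c z) := by
  unfold fi
  rw [Function.iterate_add_apply]

theorem fi_fix (n : ℕ) (c z : ℂ) (h : z ^ 2 + c = z) : fi n c z = z := by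
  unfold fi
  exact Function.iterate_fixed h n

theorem fi_diff (n : ℕ) (c : ℂ) : Differentiable ℂ (fi n c) := by
  induction n with
  | zero => exact differentiable_id
  | succ n ih =>
    have h : fi (n + 1) c = fun z => fi n c z ^ 2 + c := by
      funext z
      unfold fi
      rw [Function.iterate_succ_apply']
    rw [h]
    exact (ih.pow 2).add_const c

theorem exists_large {g : ℝ} (hg : 0 < g) (B : ℝ) : ∃ n₀ : ℕ, ∀ n, n₀ ≤ n →
    B < Real.exp (g * 2 ^ n) := by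
  obtain ⟨n₀, hn₀⟩ := pow_unbounded_of_one_lt (B / g) (by norm_num : (1 : ℝ) < 2)
  refine ⟨n₀, fun n hn => ?_⟩
  rw [div_lt_iff₀ hg] at hn₀
  have h1 : (2 : ℝ) ^ n₀ ≤ 2 ^ n := pow_le_pow_right₀ (by norm_num) hn
  have h2 := Real.add_one_le_exp (g * 2 ^ n)
  nlinarith

end I_WST

open I_WST in
theorem WST_pf (hBET : S_BET) (hMBD : S_MBD) (hREP : S_REP) (hGRZ : S_GRZ) : S_WST := by
  intro c₀ l hM r hr
  obtain ⟨hcM, hc2, hb2, _, _⟩ := hMBD c₀ l hM
  have hfix : bet c₀ ^ 2 + c₀ = bet c₀ := hBET.1 c₀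
  have hF0 : fi l c₀ 0 = bet c₀ := hM.land
  have hFd := fi_diff l c₀
  have hFa : AnalyticOnNhd ℂ (fi l c₀) univ := hFd.differentiableOn.analyticOnNhd isOpen_univ
  have hnc : ¬ ∀ᶠ z in 𝓝 (0 : ℂ), fi l c₀ z = fi l c₀ 0 := by
    intro hev
    have h1 : fi l c₀ = fun _ => fi l c₀ 0 :=
      AnalyticOnNhd.eq_of_eventuallyEq hFa (fun _ _ => analyticAt_const) hev
    obtain ⟨g, hg, hgr⟩ := hGRZ c₀ 3 hc2 (by norm_num)
    obtain ⟨n₀, hn₀⟩ := exists_large hg 2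
    have h2 := hgr (n₀ + l)
    rw [fi_add, congrFun h1 3, hF0, fi_fix n₀ c₀ _ hfix] at h2
    have h3 := hn₀ (n₀ + l) (by omega)
    linarith
  have hnhds := ((hFa 0 (mem_univ 0)).eventually_constant_or_nhds_le_map_nhds).resolve_left hnc
  have him : fi l c₀ '' ball 0 r ∈ 𝓝 (bet c₀) := by
    rw [hF0] at hnhds
    exact hnhds (image_mem_map (ball_mem_nhds 0 hr))
  obtain ⟨r', hr', hsub⟩ := Metric.mem_nhds_iff.1 him
  obtain ⟨x, hx, j, hj⟩ := hREP c₀ (bet c₀) hfix (hBET.2.1 c₀ hM.slit).1 r' hr'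
  obtain ⟨y, hy, rfl⟩ := hsub hx
  obtain ⟨g, hg, hgr⟩ := hGRZ c₀ _ hc2 hj
  obtain ⟨n₀, hn₀⟩ := exists_large hg 3
  have h3 : 3 < ‖fi (n₀ + (j + l)) c₀ y‖ := by
    rw [fi_add, fi_add]
    exact (hn₀ n₀ le_rfl).trans_le (hgr n₀)
  refine ⟨y, by simpa using hy, ?_, _, h3⟩
  rintro rfl
  have h4 : ‖fi (n₀ + (j + l)) c₀ 0‖ ≤ 2 := mem_MM.1 hcM _
  linarith

end Pool.Agent.Work.MP_500150_lc.LC
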