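import Mathlib
import Pool.Agent.Work.MP_500150_lc.LC.I_ANA
import Pool.Agent.Work.MP_500150_lc.LC.I_ANX
import Pool.Agent.Work.MP_500150_lc.LC.I_BET
import Pool.Agent.Work.MP_500150_lc.LC.I_BLK
import Pool.Agent.Work.MP_500150_lc.LC.I_BRA
import Pool.Agent.Work.MP_500150_lc.LC.I_CHN
import Pool.Agent.Work.MP_500150_lc.LC.I_CNF
import Pool.Agent.Work.MP_500150_lc.LC.I_COE
import Pool.Agent.Work.MP_500150_lc.LC.I_COP
import Pool.Agent.Work.MP_500150_lc.LC.I_COR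
import Pool.Agent.Work.MP_500150_lc.LC.I_CTR
import Pool.Agent.Work.MP_500150_lc.LC.I_DER
import Pool.Agent.Work.MP_500150_lc.LC.I_DWN
import Pool.Agent.Work.MP_500150_lc.LC.I_EST
import Pool.Agent.Work.MP_500150_lc.LC.I_EXA
import Pool.Agent.Work.MP_500150_lc.LC.I_EXQ
import Pool.Agent.Work.MP_500150_lc.LC.I_FIN
import Pool.Agent.Work.MP_500150_lc.LC.I_FIP
import Pool.Agent.Work.MP_500150_lc.LC.I_FRO
import Pool.Agent.Work.MP_500150_lc.LC.I_GLO
import Pool.Agent.Work.MP_500150_lc.LC.I_GRW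
import Pool.Agent.Work.MP_500150_lc.LC.I_GRZ
import Pool.Agent.Work.MP_500150_lc.LC.I_HAK
import Pool.Agent.Work.MP_500150_lc.LC.I_INB
import Pool.Agent.Work.MP_500150_lc.LC.I_INV
import Pool.Agent.Work.MP_500150_lc.LC.I_ITR
import Pool.Agent.Work.MP_500150_lc.LC.I_JSI
import Pool.Agent.Work.MP_500150_lc.LC.I_KOE
import Pool.Agent.Work.MP_500150_lc.LC.I_LDI
import Pool.Agent.Work.MP_500150_lc.LC.I_LFT
import Pool.Agent.Work.MP_500150_lc.LC.I_LIP
import Pool.Agent.Work.MP_500150_lc.LC.I_LMA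
import Pool.Agent.Work.MP_500150_lc.LC.I_LRG
import Pool.Agent.Work.MP_500150_lc.LC.I_LSE
import Pool.Agent.Work.MP_500150_lc.LC.I_LVE
import Pool.Agent.Work.MP_500150_lc.LC.I_MBD
import Pool.Agent.Work.MP_500150_lc.LC.I_MEA
import Pool.Agent.Work.MP_500150_lc.LC.I_MIS
import Pool.Agent.Work.MP_500150_lc.LC.I_ND
import Pool.Agent.Work.MP_500150_lc.LC.I_ND1
import Pool.Agent.Work.MP_500150_lc.LC.I_NID
import Pool.Agent.Work.MP_500150_lc.LC.I_NRM
import Pool.Agent.Work.MP_500150_lc.LC.I_NUM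
import Pool.Agent.Work.MP_500150_lc.LC.I_ORB
import Pool.Agent.Work.MP_500150_lc.LC.I_ORD
import Pool.Agent.Work.MP_500150_lc.LC.I_OXZ
import Pool.Agent.Work.MP_500150_lc.LC.I_PAR
import Pool.Agent.Work.MP_500150_lc.LC.I_QDR
import Pool.Agent.Work.MP_500150_lc.LC.I_QUO
import Pool.Agent.Work.MP_500150_lc.LC.I_REP
import Pool.Agent.Work.MP_500150_lc.LC.I_ROO
import Pool.Agent.Work.MP_500150_lc.LC.I_SCV
import Pool.Agent.Work.MP_500150_lc.LC.I_SEC
import Pool.Agent.Work.MP_500150_lc.LC.I_SHK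
import Pool.Agent.Work.MP_500150_lc.LC.I_SPR
import Pool.Agent.Work.MP_500150_lc.LC.I_STP
import Pool.Agent.Work.MP_500150_lc.LC.I_TGA
import Pool.Agent.Work.MP_500150_lc.LC.I_TGT
import Pool.Agent.Work.MP_500150_lc.LC.I_TIM
import Pool.Agent.Work.MP_500150_lc.LC.I_TRA
import Pool.Agent.Work.MP_500150_lc.LC.I_TRF
import Pool.Agent.Work.MP_500150_lc.LC.I_VKA
import Pool.Agent.Work.MP_500150_lc.LC.I_VKK
import Pool.Agent.Work.MP_500150_lc.LC.I_WST

set_option autoImplicit false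

/-!
# Locality of the computability of the Mandelbrot set: assembly
-/

namespace Pool.Agent.Work.MP_500150_lc.LC

theorem fin : S_FIN := by
  have bet : S_BET := BET_pf
  have fip : S_FIP := FIP_pf
  have mbd : S_MBD := MBD_pf bet
  have nid : S_NID := NID_pf bet
  have nd : S_ND := ND_pf (ND1_pf (ANA_pf SHK_pf) MEA_pf)
  have mis : S_MIS := MIS_pf bet FRO_pf GRW_pf nd
  have chn : S_CHN := CHN_pf bet mbd GRZ_pf REP_pf nd
  have wst : S_WST := WST_pf bet mbd REP_pf GRZ_pf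
  have inv : S_INV := INV_pf
  have vka : S_VKA := VKA_pf bet fip mbd chn BRA_pf LIP_pf (CTR_pf bet)
  have vkk : S_VKK := VKK_pf bet fip mbd nid KOE_pf vka
  have est : S_EST := EST_pf bet ROO_pf NRM_pf (QUO_pf bet)
  have par : S_PAR := PAR_pf bet est inv NRM_pf
  have cop : S_COP := COP_pf mbd vkk NRM_pf par (QDR_pf inv)
  have oxz : S_OXZ := OXZ_pf
  have cnf : S_CNF := CNF_pf oxz
  have anx : S_ANX := ANX_pf
  have jsi : S_JSI := JSI_pf oxz
  have lve : S_LVE := LVE_pf oxz jsi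
  have lft : S_LFT := LFT_pf jsi lve
  have itr : S_ITR := ITR_pf oxz anx lft
  have ord : S_ORD := ORD_pf oxz cnf anx
  have der : S_DER := DER_pf oxz anx jsi
  have tra : S_TRA := TRA_pf oxz anx itr ord COE_pf STP_pf der
  have sec : S_SEC := SEC_pf oxz cnf anx tra SCV_pf
  have trf : S_TRF := TRF_pf oxz sec (HAK_pf SHK_pf)
  have dwn : S_DWN := DWN_pf
  have lrg : S_LRG := LRG_pf
  have inb : S_INB := INB_pf oxz sec dwn
  have exq : S_EXQ := EXQ_pf inb EXA_pf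
  have spr : S_SPR := SPR_pf lrg
  have tgt : S_TGT := TGT_pf fip wst oxz trf dwn (ORB_pf fip) (TGA_pf inv fip)
  have cor : S_COR := COR_pf mis cop tgt exq spr lrg NUM_pf
  exact FIN_pf cor (LSE_pf BLK_pf) (LMA_pf BLK_pf) LDI_pf TIM_pf (GLO_pf cor)

end Pool.Agent.Work.MP_500150_lc.LC
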