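import Mathlib
import Pool.Agent.Work.MP_500150_lc.LC.StmtsC

set_option autoImplicit false

/-!
# Locality of the computability of the Mandelbrot set: item COR (the quantitative form)
-/

namespace Pool.Agent.Work.MP_500150_lc.LC

open Metric Set Filter Topology MeasureTheory Pool.MP_500150_lc.H8

namespace I_COR

/-- An open set which meets the boundary contains a point outside. -/
theorem exists_out (U : Set ℂ) (hU : IsOpen U) (h : (U ∩ frontier MM).Nonempty) :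
    ∃ c ∈ U, 0 < dM c := by
  obtain ⟨x, hxU, hxF⟩ := h
  have h1 : x ∈ closure (MMᶜ) := by
    rw [frontier_eq_closure_inter_closure] at hxF
    exact hxF.2
  obtain ⟨y, hyU, hyM⟩ := mem_closure_iff.1 h1 U hU hxU
  refine ⟨y, hyU, lt_of_le_of_ne (dM_nonneg y) fun h0 => ?_⟩
  exact hyM (dM_zero_iff.1 h0.symm)

theorem pow_anti (a b k : ℕ) (hab : a ≤ b) :
    (1 : ℝ) / 2 ^ (b * 2 ^ k) ≤ 1 / 2 ^ (a * 2 ^ k) := by
  apply one_div_le_one_div_of_le (by positivity)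
  exact pow_le_pow_right₀ (by norm_num) (Nat.mul_le_mul_right _ hab)

/-- The case of a large parameter: `N = 0`. -/
theorem zero_of_large {c : ℂ} (hc : 3 < ‖c‖) {N : ℕ} (hN : ‖P N c‖ ≤ 3) : N = 0 := by
  rcases N with _ | _ | n
  · rfl
  · rw [zero_add, P_one] at hN
    linarith
  · have h1 := growth hc.le (n + 1)
    have h2 : (2 : ℝ) ^ (2 ^ 1) ≤ 2 ^ (2 ^ (n + 1)) := by
      apply pow_le_pow_right₀ (by norm_num)
      exact Nat.pow_le_pow_right (by norm_num) (by omega)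
    norm_num at h2
    linarith

/-- The first large iterate. -/
theorem exists_first {c : ℂ} (hc : c ∉ MM) :
    ∃ N₁ : ℕ, 20 ≤ ‖P N₁ c‖ ∧ ∀ i, i < N₁ → ‖P i c‖ < 20 := by
  obtain ⟨n, hn⟩ := esc_large (K := {c}) isCompact_singleton
    (fun x hx => by rw [mem_singleton_iff] at hx; rw [hx]; exact hc) 20
  have hex : ∃ m : ℕ, 20 ≤ ‖P m c‖ := ⟨n, (hn n le_rfl c rfl).le⟩
  classical
  refine ⟨Nat.find hex, Nat.find_spec hex, fun i hi => ?_⟩
  exact not_le.1 (Nat.find_min hex hi)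

/-- The number of doublings. -/
theorem exists_time (K : ℝ) (hK : 1 ≤ K) (k : ℕ) :
    ∃ i : ℕ, K ≤ 2 ^ i * (1 / 2 ^ k) ∧ (2 : ℝ) ^ i ≤ 2 * K * 2 ^ k := by
  have h2k : (0 : ℝ) < 2 ^ k := by positivity
  have hex : ∃ i : ℕ, K ≤ 2 ^ i * (1 / 2 ^ k) := by
    obtain ⟨i, hi⟩ := pow_unbounded_of_one_lt (K * 2 ^ k) (by norm_num : (1 : ℝ) < 2)
    refine ⟨i, ?_⟩
    rw [mul_one_div, le_div_iff₀ h2k]
    exact hi.le
  classical
  refine ⟨Nat.find hex, Nat.find_spec hex, ?_⟩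
  rcases h : Nat.find hex with _ | j
  · have h3 : (1 : ℝ) ≤ 2 ^ k := one_le_pow₀ (by norm_num)
    rw [pow_zero]
    nlinarith
  · have h1 := not_le.1 (Nat.find_min hex (show j < Nat.find hex by omega))
    rw [mul_one_div, div_lt_iff₀ h2k] at h1
    rw [pow_succ]
    linarith

/-- The choice of the copy. -/
theorem exists_copy (C τ A : ℝ) (n₀ : ℕ) (bs : ℕ → ℂ) (hC : 1 ≤ C) (hτ : 1 < τ)
    (hbs : ∀ n, n₀ ≤ n → 20 ≤ ‖bs n‖ ∧ ‖bs (n + 1)‖ ≤ C * ‖bs n‖ ∧ τ ^ n ≤ C * ‖bs n‖)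
    (hA : ‖bs n₀‖ ≤ A) :
    ∃ n, n₀ ≤ n ∧ ‖bs n‖ ≤ A ∧ A ≤ C * ‖bs n‖ := by
  have hC0 : 0 < C := by linarith
  have hex : ∃ j : ℕ, A < ‖bs (n₀ + j)‖ := by
    obtain ⟨j, hj⟩ := pow_unbounded_of_one_lt (C * A) hτ
    refine ⟨j, ?_⟩
    have h1 := (hbs (n₀ + j) (by omega)).2.2
    have h2 : τ ^ j ≤ τ ^ (n₀ + j) := pow_le_pow_right₀ hτ.le (by omega)
    have h3 : C * A < C * ‖bs (n₀ + j)‖ := by linarith
    exact lt_of_mul_lt_mul_left h3 hC0.le
  classical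
  obtain ⟨j, hj⟩ : ∃ j, Nat.find hex = j + 1 := by
    rcases h : Nat.find hex with _ | j
    · have h1 := Nat.find_spec hex
      rw [h, add_zero] at h1
      linarith
    · exact ⟨j, rfl⟩
  have h1 := Nat.find_spec hex
  have h2 := not_lt.1 (Nat.find_min hex (show j < Nat.find hex by omega))
  rw [hj, ← add_assoc] at h1
  exact ⟨n₀ + j, by omega, h2, h1.le.trans (hbs (n₀ + j) (by omega)).2.1⟩

theorem log_bounds : 1 ≤ Real.log 20 - 1 / 50 ∧ Real.log 403 + 1 / 50 ≤ 7 := by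
  constructor
  · have h1 : Real.log (2 ^ 4) ≤ Real.log 20 := Real.log_le_log (by norm_num) (by norm_num)
    rw [Real.log_pow] at h1
    have h2 := Real.log_two_gt_d9
    push_cast at h1
    linarith
  · have h1 : Real.log 403 ≤ Real.log (2 ^ 9) := Real.log_le_log (by norm_num) (by norm_num)
    rw [Real.log_pow] at h1
    have h2 := Real.log_two_lt_d9
    push_cast at h1
    linarith

end I_COR

open I_COR in
theorem COR_pf (hMIS : S_MIS) (hCOP : S_COP) (hTGT : S_TGT) (hEXQ : S_EXQ) (hSPR : S_SPR)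
    (hLRG : S_LRG) (hNUM : S_NUM) : S_COR := by
  intro U hU hUF
  obtain ⟨c₀, hc₀U, l, hMis⟩ := hMIS U hU hUF
  obtain ⟨C, e, τ, n₀, bs, hC, he, he4, hτ, hbs, hT⟩ :=
    hTGT c₀ l U hMis (hCOP c₀ l hMis) hU hc₀U
  obtain ⟨cU, hcU, hdU⟩ := exists_out U hU hUF
  obtain ⟨CU, hCU⟩ : ∃ n : ℕ, (1 : ℝ) / 2 ^ n < dM cU := by
    obtain ⟨n, hn⟩ := exists_pow_lt_of_lt_one hdU (by norm_num : (1 / 2 : ℝ) < 1)
    refine ⟨n, ?_⟩
    rw [div_pow, one_pow] at hn
    exact hn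
  have hlogC : 0 ≤ Real.log C := Real.log_nonneg hC
  obtain ⟨K, hK1, hKC, hKb⟩ : ∃ K : ℝ, 1 ≤ K ∧ Real.log C ≤ K / 12000 - 4 ∧
      Real.log ‖bs n₀‖ ≤ K := by
    refine ⟨12000 * (4 + Real.log C) + |Real.log ‖bs n₀‖| + 1, ?_, ?_, ?_⟩
    · have := abs_nonneg (Real.log ‖bs n₀‖)
      linarith
    · have := abs_nonneg (Real.log ‖bs n₀‖)
      linarith
    · have := le_abs_self (Real.log ‖bs n₀‖)
      linarith
  obtain ⟨C', hC'⟩ := hNUM C e τ K hC he hτ hK1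
  refine ⟨C' + CU, fun k N c hd hN => ?_⟩
  have h2k : (0 : ℝ) < 2 ^ k := by positivity
  have h2k1 : (1 : ℝ) ≤ 2 ^ k := one_le_pow₀ (by norm_num)
  rcases lt_or_ge 3 ‖c‖ with hc3 | hc3
  · -- a large parameter
    have hN0 := zero_of_large hc3 hN
    refine ⟨cU, hcU, 0, by omega, ?_, ?_⟩
    · refine lt_of_le_of_lt (pow_anti CU (C' + CU) k (by omega)) (lt_of_le_of_lt ?_ hCU)
      apply one_div_le_one_div_of_le (by positivity)
      exact pow_le_pow_right₀ (by norm_num) (Nat.le_mul_of_pos_right _ (by positivity))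
    · rw [P_zero, norm_zero]
      norm_num
  · have hδ0 : (0 : ℝ) < 1 / 2 ^ k := by positivity
    have hδ1 : (1 : ℝ) / 2 ^ k ≤ 1 := by
      rw [div_le_one h2k]
      exact h2k1
    have hcM : c ∉ MM := dM_pos (hδ0.trans hd)
    obtain ⟨N₁, hN₁, hfirst⟩ := exists_first hcM
    have hNN₁ : N < N₁ := by
      by_contra hcon
      obtain ⟨j, rfl⟩ := Nat.exists_eq_add_of_le (not_lt.1 hcon)
      have := (hLRG c N₁ (by linarith) hN₁ j).1
      linarith
    obtain ⟨i, hi1, hi2⟩ := exists_time K hK1 k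
    obtain ⟨hbig, hlog⟩ := hLRG c N₁ (by linarith) hN₁ i
    have h2i : (0 : ℝ) < 2 ^ i := by positivity
    have hlog' := abs_le.1 hlog
    have hPpos : 0 < ‖P (N₁ + i) c‖ := by linarith
    have hlow : 2 ^ i * (1 : ℝ) ≤ Real.log ‖P (N₁ + i) c‖ := by
      have h1 : Real.log 20 ≤ Real.log ‖P N₁ c‖ := Real.log_le_log (by norm_num) hN₁
      have h2 : (2 : ℝ) ^ i * 1 ≤ 2 ^ i * (Real.log ‖P N₁ c‖ - 1 / 50) := by
        apply mul_le_mul_of_nonneg_left _ h2i.le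
        have := log_bounds.1
        linarith
      have h3 := hlog'.1
      linarith
    have hupp : Real.log ‖P (N₁ + i) c‖ ≤ 14 * K * 2 ^ k := by
      have hN₁0 : N₁ ≠ 0 := by
        rintro rfl
        rw [P_zero, norm_zero] at hN₁
        norm_num at hN₁
      obtain ⟨N₂, rfl⟩ := Nat.exists_eq_succ_of_ne_zero hN₁0
      have h1 : ‖P (N₂ + 1) c‖ ≤ 403 := by
        rw [P_succ]
        have h2 := norm_add_le (P N₂ c ^ 2) c
        rw [norm_pow] at h2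
        have h3 := hfirst N₂ (by omega)
        have h4 : ‖P N₂ c‖ ^ 2 ≤ 20 ^ 2 := pow_le_pow_left₀ (norm_nonneg _) h3.le 2
        linarith
      have h2 : Real.log ‖P (N₂ + 1) c‖ ≤ Real.log 403 :=
        Real.log_le_log (by
          have h5 : (20 : ℝ) ≤ ‖P (N₂ + 1) c‖ := hN₁
          linarith) h1
      have h3 : (2 : ℝ) ^ i * (Real.log ‖P (N₂ + 1) c‖ + 1 / 50) ≤ 2 ^ i * 7 := by
        apply mul_le_mul_of_nonneg_left _ h2i.le
        have := log_bounds.2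
        linarith
      have h4 := hlog'.2
      have h6 : Real.log ‖P (N₂.succ + i) c‖ ≤ 2 ^ i * 7 := by
        have h7 : Real.log ‖P N₂.succ c‖ = Real.log ‖P (N₂ + 1) c‖ := rfl
        rw [h7] at h4
        linarith
      linarith
    have hbn₀ : ‖bs n₀‖ ≤ ‖P (N₁ + i) c‖ := by
      have h1 : Real.log ‖bs n₀‖ ≤ Real.log ‖P (N₁ + i) c‖ := by
        have h2 : 2 ^ i * (1 / 2 ^ k : ℝ) ≤ 2 ^ i * 1 := mul_le_mul_of_nonneg_left hδ1 h2i.le
        linarith
      exact (Real.log_le_log_iff (by have := (hbs n₀ le_rfl).1; linarith) hPpos).1 h1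
    obtain ⟨n, hn₀, hn1, hn2⟩ := exists_copy C τ ‖P (N₁ + i) c‖ n₀ bs hC hτ hbs hbn₀
    obtain ⟨hb20, _, hbτ⟩ := hbs n hn₀
    have hbpos : 0 < ‖bs n‖ := by linarith
    have hW : bs n ≠ 0 := norm_pos_iff.1 hbpos
    obtain ⟨c₂, hc₂, hPc₂⟩ := hEXQ c N₁ hc3 hN₁ hfirst (1 / 2 ^ k) hδ0 hδ1 i (bs n) hW (by
      have h1 : Real.log ‖bs n‖ ≤ Real.log ‖P (N₁ + i) c‖ := Real.log_le_log hbpos hn1
      have h2 : Real.log ‖P (N₁ + i) c‖ ≤ Real.log C + Real.log ‖bs n‖ := by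
        rw [← Real.log_mul (by linarith) hbpos.ne']
        exact Real.log_le_log hPpos hn2
      have h3 : K / 12000 ≤ 2 ^ i * (1 / 2 ^ k) / 12000 := by linarith
      rw [abs_le]
      constructor <;> linarith)
    have hc₂4 : ‖c₂‖ ≤ 4 := by
      have h1 := norm_add_le (c₂ - c) c
      rw [sub_add_cancel] at h1
      linarith
    have hdisc : ∀ x : ℂ, ‖x - c₂‖ < 3 / 4 * (1 / 2 ^ k) → x ∉ MM := by
      intro x hx hxM
      have h1 := dM_le_add c x
      rw [dM_zero_iff.2 hxM, zero_add, norm_sub_rev] at h1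
      have h2 := norm_add_le (x - c₂) (c₂ - c)
      rw [sub_add_sub_cancel] at h2
      linarith
    have hsep := hSPR c₂ (3 / 4 * (1 / 2 ^ k)) (N₁ + i) hc₂4 (by positivity) (by linarith) hdisc
      (by rw [hPc₂]; exact hb20) e he (by linarith)
    rw [hPc₂] at hsep
    obtain ⟨c', hc'U, N', hN', hP', hd'⟩ := hT n hn₀ (N₁ + i) c₂
      (3 * e * (1 / 2 ^ k) / (128 * ‖bs n‖)) hc₂4 hPc₂ (by positivity) (by
        rw [div_le_one (by positivity)]
        have h1 : 3 * e * (1 / 2 ^ k) ≤ 3 * e * 1 :=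
          mul_le_mul_of_nonneg_left hδ1 (by positivity)
        linarith) (by
        intro x hx
        refine hsep x ?_
        have h1 : e * (3 / 4 * (1 / 2 ^ k)) / (32 * ‖bs n‖) =
            3 * e * (1 / 2 ^ k) / (128 * ‖bs n‖) := by
          field_simp
          ring
        rw [h1]
        exact hx)
    refine ⟨c', hc'U, N', by omega, ?_, hP'⟩
    refine lt_of_le_of_lt (pow_anti C' (C' + CU) k (by omega)) (lt_of_lt_of_le ?_ hd')
    refine hC' k n ‖bs n‖ (by linarith) ?_ hbτ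
    rw [← Real.log_le_iff_le_exp hbpos]
    exact (Real.log_le_log hbpos hn1).trans hupp

end Pool.Agent.Work.MP_500150_lc.LC
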