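import Mathlib
import Pool.Agent.Work.MP_500150_lc.LC.Stmts

set_option autoImplicit false

namespace Pool.Agent.Work.MP_500150_lc.LC

open Metric Set Filter Topology MeasureTheory Pool.MP_500150_lc.H8

namespace I_GRW

theorem step {c : ℂ} {n : ℕ} (h : 4 + ‖c‖ ≤ ‖P n c‖) :
    (3 / 4 * ‖P n c‖) ^ 2 ≤ 3 / 4 * ‖P (n + 1) c‖ := by
  have h1 : ‖P n c‖ ^ 2 - ‖c‖ ≤ ‖P (n + 1) c‖ := by
    rw [P_succ]
    have h2 := norm_sub_le (P n c ^ 2 + c) c
    rw [add_sub_cancel_right, norm_pow] at h2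
    linarith
  have hc := norm_nonneg c
  nlinarith

end I_GRW

theorem GRW_pf : S_GRW := by
  intro c hc
  obtain ⟨n₁, hn₁⟩ := esc_large (K := {c}) isCompact_singleton (by
    intro z hz; rw [mem_singleton_iff.1 hz]; exact hc) (4 + ‖c‖)
  have hbig : ∀ n, n₁ ≤ n → 4 + ‖c‖ ≤ ‖P n c‖ := fun n hn => by
    have := hn₁ n hn c (mem_singleton c)
    linarith
  have key : ∀ j : ℕ, (3 : ℝ) ^ (2 ^ j) ≤ 3 / 4 * ‖P (n₁ + j) c‖ := by
    intro j
    induction j with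
    | zero =>
      have h1 := hbig (n₁ + 0) (by omega)
      have h2 := norm_nonneg c
      simp only [pow_zero, pow_one]
      linarith
    | succ j ih =>
      have h1 := I_GRW.step (hbig (n₁ + j) (by omega))
      rw [pow_succ 2 j, pow_mul]
      calc ((3 : ℝ) ^ 2 ^ j) ^ 2 ≤ (3 / 4 * ‖P (n₁ + j) c‖) ^ 2 :=
            pow_le_pow_left₀ (by positivity) ih 2
        _ ≤ _ := h1
  refine ⟨1 / 2 ^ n₁, by positivity, n₁, fun n hn => ?_⟩
  obtain ⟨j, rfl⟩ := Nat.exists_eq_add_of_le hn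
  have h1 : (1 : ℝ) / 2 ^ n₁ * 2 ^ (n₁ + j) = ((2 ^ j : ℕ) : ℝ) * 1 := by
    rw [pow_add]
    push_cast
    field_simp
  rw [h1, Real.exp_nat_mul]
  have h2 : Real.exp 1 ≤ 3 := by
    have := Real.exp_one_lt_d9
    linarith
  have h3 : Real.exp 1 ^ (2 ^ j) ≤ (3 : ℝ) ^ (2 ^ j) :=
    pow_le_pow_left₀ (Real.exp_pos 1).le h2 _
  have h4 := key j
  have h5 := norm_nonneg (P (n₁ + j) c)
  linarith

end Pool.Agent.Work.MP_500150_lc.LC
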