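import Mathlib
import Pool.Agent.Work.MP_500150_lc.LC.StmtsF
import Pool.Agent.Work.MP_500150_lc.H8.Maj

set_option autoImplicit false

/-!
# Item LMA: local majority pictures give local escape times
-/

namespace Pool.Agent.Work.MP_500150_lc.LC

open Metric Set Filter Topology MeasureTheory Pool.MP_500150_lc.H8

namespace I_LMA

lemma ple {α : Type*} [Primcodable α] {f g : α → ℕ} (hf : Primrec f) (hg : Primrec g) :
    PrimrecPred fun a => f a ≤ g a :=
  Primrec.nat_le.comp hf hg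

instance decInBox (n a b L x y : ℕ) : Decidable (InBox n a b L x y) := by
  unfold InBox
  infer_instance

lemma pInBox (n a b : ℕ) {α : Type*} [Primcodable α] {L x y : α → ℕ} (hL : Primrec L)
    (hx : Primrec x) (hy : Primrec y) : PrimrecPred fun u => InBox n a b (L u) (x u) (y u) := by
  have h2 : Primrec fun u => 2 ^ (L u - n) := ppow (pconst 2) (psub hL (pconst n))
  unfold InBox
  exact (ple (pconst n) hL).and ((ple (pmul (pconst a) h2) hx).and
    ((plt hx (pmul (pconst (a + 3)) h2)).and ((ple (pmul (pconst b) h2) hy).and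
      (plt hy (pmul (pconst (b + 3)) h2)))))

lemma lt_of_inBox {n a b L x y : ℕ} (ha : a + 3 ≤ 8 * 2 ^ n) (hb : b + 3 ≤ 8 * 2 ^ n)
    (h : InBox n a b L x y) : x < 8 * 2 ^ L ∧ y < 8 * 2 ^ L := by
  obtain ⟨h0, -, h2, -, h4⟩ := h
  have e : 8 * 2 ^ L = (8 * 2 ^ n) * 2 ^ (L - n) := by
    rw [mul_assoc, ← pow_add]
    congr 2
    omega
  rw [e]
  exact ⟨h2.trans_le (Nat.mul_le_mul_right _ ha), h4.trans_le (Nat.mul_le_mul_right _ hb)⟩

/-- points of a square of level `K + 3` are close to each other -/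
lemma near_of_sq {K x y : ℕ} {w v : ℂ} (hw : w ∈ Sq (K + 3) x y) (hv : v ∈ Sq (K + 3) x y) :
    ‖v - w‖ ≤ 1 / 2 ^ K / 4 := by
  obtain ⟨x1, x2, y1, y2⟩ := hw
  obtain ⟨v1, v2, v3, v4⟩ := hv
  have hLk : (1 : ℝ) / 2 ^ (K + 3) = 1 / 2 ^ K / 8 := by
    rw [pow_add]
    field_simp
    norm_num
  refine (Complex.norm_le_abs_re_add_abs_im _).trans ?_
  simp only [Complex.sub_re, Complex.sub_im]
  have e1 : ∀ t : ℝ, (t + 1) / 2 ^ (K + 3) = t / 2 ^ (K + 3) + 1 / 2 ^ K / 8 := by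
    intro t; rw [add_div, hLk]
  rw [e1] at v2 v4 x2 y2
  have h5 : |v.re - w.re| ≤ 1 / 2 ^ K / 8 := by
    rw [abs_le]; constructor <;> linarith
  have h6 : |v.im - w.im| ≤ 1 / 2 ^ K / 8 := by
    rw [abs_le]; constructor <;> linarith
  linarith

/-- the picture, marked `0` outside the block -/
def f' (n a b : ℕ) (f : ℕ × ℕ × ℕ → ℕ) (q : ℕ × ℕ × ℕ) : ℕ :=
  if InBox n a b q.2.2 q.1 q.2.1 then f q else 0

lemma cf' (n a b : ℕ) {f : ℕ × ℕ × ℕ → ℕ} (hf : Computable f) : Computable (f' n a b f) := by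
  have h : PrimrecPred fun q : ℕ × ℕ × ℕ => InBox n a b q.2.2 q.1 q.2.1 :=
    pInBox n a b (Primrec.snd.comp Primrec.snd) Primrec.fst
      (Primrec.fst.comp Primrec.snd)
  have h2 : Computable fun q : ℕ × ℕ × ℕ => decide (InBox n a b q.2.2 q.1 q.2.1) :=
    (PrimrecPred.decide h).to_comp
  have h3 := Computable.cond h2 hf (Computable.const 0)
  refine h3.of_eq (fun q => ?_)
  unfold f'
  by_cases hq : InBox n a b q.2.2 q.1 q.2.1
  · simp [hq]
  · simp [hq]

/-- the pixels of a block are inside iff the block is inside. -/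
lemma pix {n₀ a b K n X Y i j : ℕ} (hK : n₀ ≤ K) (hn : K ≤ n) (hi : i < 2 ^ (n - K))
    (hj : j < 2 ^ (n - K)) :
    InBox n₀ a b n (X * 2 ^ (n - K) + i) (Y * 2 ^ (n - K) + j) ↔ InBox n₀ a b K X Y := by
  have e : n - n₀ = (K - n₀) + (n - K) := by omega
  have key1 : ∀ A Z t s : ℕ, t < s → (A * s ≤ Z * s + t ↔ A ≤ Z) := by
    intro A Z t s hts
    constructor
    · intro h
      by_contra hc
      push Not at hc
      have : (Z + 1) * s ≤ A * s := Nat.mul_le_mul_right _ hc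
      rw [add_mul, one_mul] at this
      omega
    · intro h
      have : A * s ≤ Z * s := Nat.mul_le_mul_right _ h
      omega
  have key2 : ∀ B Z t s : ℕ, t < s → (Z * s + t < B * s ↔ Z < B) := by
    intro B Z t s hts
    have := key1 B Z t s hts
    constructor
    · intro h
      by_contra hc
      push Not at hc
      have h2 := this.2 hc
      omega
    · intro h
      by_contra hc
      push Not at hc
      have h2 := this.1 hc
      omega
  unfold InBox
  rw [e, pow_add, ← mul_assoc, ← mul_assoc, ← mul_assoc, ← mul_assoc,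
    key1 _ _ _ _ hi, key2 _ _ _ _ hi, key1 _ _ _ _ hj, key2 _ _ _ _ hj]
  constructor
  · rintro ⟨-, h⟩
    exact ⟨hK, h⟩
  · rintro ⟨-, h⟩
    exact ⟨hK.trans hn, h⟩

lemma f'_in {n₀ a b K n X Y i j : ℕ} (f : ℕ × ℕ × ℕ → ℕ) (hK : n₀ ≤ K) (hn : K ≤ n)
    (hi : i < 2 ^ (n - K)) (hj : j < 2 ^ (n - K)) (h : InBox n₀ a b K X Y) :
    f' n₀ a b f (X * 2 ^ (n - K) + i, Y * 2 ^ (n - K) + j, n) =
      f (X * 2 ^ (n - K) + i, Y * 2 ^ (n - K) + j, n) := by
  unfold f'
  rw [if_pos]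
  exact (pix hK hn hi hj).2 h

lemma f'_out {n₀ a b K n X Y i j : ℕ} (f : ℕ × ℕ × ℕ → ℕ) (hK : n₀ ≤ K) (hn : K ≤ n)
    (hi : i < 2 ^ (n - K)) (hj : j < 2 ^ (n - K)) (h : ¬ InBox n₀ a b K X Y) :
    f' n₀ a b f (X * 2 ^ (n - K) + i, Y * 2 ^ (n - K) + j, n) = 0 := by
  unfold f'
  rw [if_neg]
  intro h2
  exact h ((pix hK hn hi hj).1 h2)

lemma wrongs_eq {n₀ a b K n X Y : ℕ} (f : ℕ × ℕ × ℕ → ℕ) (hK : n₀ ≤ K) (hn : K ≤ n)
    (h : InBox n₀ a b K X Y) :
    wrongsIn (f' n₀ a b f) n K X Y = wrongsIn f n K X Y := by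
  classical
  unfold wrongsIn
  apply Finset.filter_congr
  rintro ⟨i, j⟩ hq
  rw [Finset.mem_product, Finset.mem_range, Finset.mem_range] at hq
  unfold Wrong
  simp only
  rw [f'_in f hK hn hq.1 hq.2 h]

lemma bads_out {n₀ a b K n X Y N : ℕ} (f : ℕ × ℕ × ℕ → ℕ) (hK : n₀ ≤ K) (hn : K ≤ n)
    (h : ¬ InBox n₀ a b K X Y) : badsIn (f' n₀ a b f) n K X Y N = ∅ := by
  unfold badsIn
  rw [Finset.filter_eq_empty_iff]
  intro i hi
  rw [Finset.mem_range] at hi
  rintro ⟨-, h2⟩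
  apply h2
  exact f'_out f hK hn (Nat.div_lt_of_lt_mul hi) (Nat.mod_lt _ (by positivity)) h

/-- Escape times from one block. -/
lemma time_block {f : ℕ × ℕ × ℕ → ℕ} {n N k X Y m : ℕ} (hn : k + 3 ≤ n)
    {w : ℂ} (hwS : w ∈ Sq (k + 3) X Y)
    (c1 : 2 * (badsIn f n (k + 3) X Y (N + 1)).card < 4 ^ (n - (k + 3)))
    (c2 : 2 * (wrongsIn f n (k + 3) X Y).card < 4 ^ (n - (k + 3)))
    (hw : 1 / 2 ^ k < dM w) (hm : N + 4 ≤ m) : 3 < ‖P m w‖ := by
  classical
  by_contra hcon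
  have hball : ∀ y : ℂ, ‖y - w‖ ≤ 1 / 2 ^ k / 4 → ‖P (N + 1) y‖ ≤ 3 := by
    intro y hy
    by_contra h3
    push Not at h3
    exact hcon (time_of_near (N := N + 1) (by omega) hw (by positivity) hy h3 (by omega))
  set L := k + 3 with hL
  set s := 2 ^ (n - L) with hs
  have hs0 : 0 < s := by positivity
  have hLp : (0 : ℝ) < 2 ^ L := by positivity
  have hLk : (1 : ℝ) / 2 ^ L = 1 / 2 ^ k / 8 := by
    rw [hL, pow_add]
    field_simp
    norm_num
  -- the pixels
  have hpix : ∀ a < s, ∀ b < s,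
      (Bad f n (N + 1) (X * s + a) (Y * s + b) ∨ Wrong f n (X * s + a, Y * s + b)) := by
    intro a ha b hb
    have hmem : pt (gq n (X * s + a) (Y * s + b)) ∈ Sq L X Y := by
      have h3 := test_mem (x := X) (y := Y) (L := L) (N := n - L) (a := a) (b := b)
        (by rw [← hs]; omega) (by rw [← hs]; omega)
      rw [← hs, Nat.add_sub_cancel' hn] at h3
      exact h3
    have hgw : ‖pt (gq n (X * s + a) (Y * s + b)) - w‖ ≤ 1 / 2 ^ k / 4 := near_of_sq hwS hmem
    have h3 := hball _ hgw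
    set g := pt (gq n (X * s + a) (Y * s + b)) with hg
    have h4 : ¬ Big 9 (gq n (X * s + a) (Y * s + b)) (N + 1) := by
      rw [big_iff _ _ (gq_pos _ _ _)]
      push_cast
      push Not
      nlinarith [norm_nonneg (P (N + 1) (pt (gq n (X * s + a) (Y * s + b))))]
    by_cases h5 : f (X * s + a, Y * s + b, n) = 1
    · left
      exact ⟨h4, by rw [h5]; norm_num⟩
    · right
      right
      refine ⟨?_, h5⟩
      have h6 := dM_le_add w g
      rw [norm_sub_rev] at h6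
      have h7 : (2 : ℝ) / 2 ^ n ≤ 1 / 2 ^ k / 4 := by
        have h8 : (1 : ℝ) / 2 ^ n ≤ 1 / 2 ^ L :=
          one_div_le_one_div_of_le hLp (pow_le_pow_right₀ (by norm_num) hn)
        rw [hLk] at h8
        have e : (2 : ℝ) / 2 ^ n = 2 * (1 / 2 ^ n) := by ring
        rw [e]
        linarith
      show 2 / 2 ^ n < dM g
      have : (0 : ℝ) < 1 / 2 ^ k := by positivity
      linarith
  -- the count
  have hcount : s * s ≤ (badsIn f n L X Y (N + 1)).card + (wrongsIn f n L X Y).card := by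
    have h3 : ((Finset.range s) ×ˢ (Finset.range s)).card = s * s := by
      rw [Finset.card_product, Finset.card_range]
    rw [← h3]
    have h4 : (badsIn f n L X Y (N + 1)).card + (wrongsIn f n L X Y).card
        = ((badsIn f n L X Y (N + 1)).disjSum (wrongsIn f n L X Y)).card := by
      rw [Finset.card_disjSum]
    rw [h4]
    have hmd : ∀ a b : ℕ, b < s → (a * s + b) / s = a ∧ (a * s + b) % s = b := by
      intro a b hb
      constructor
      · rw [mul_comm, Nat.mul_add_div hs0, Nat.div_eq_of_lt hb, add_zero]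
      · rw [mul_comm, Nat.mul_add_mod, Nat.mod_eq_of_lt hb]
    apply Finset.card_le_card_of_injOn (fun q : ℕ × ℕ =>
      if Bad f n (N + 1) (X * s + q.1) (Y * s + q.2) then
        (Sum.inl (q.1 * s + q.2) : ℕ ⊕ (ℕ × ℕ)) else Sum.inr (q.1, q.2))
    · rintro ⟨a, b⟩ hq
      simp only [Finset.coe_product, Finset.coe_range, mem_prod, mem_Iio] at hq
      obtain ⟨ha, hb⟩ := hq
      have p3 := hpix a ha b hb
      show (if Bad f n (N + 1) (X * s + a) (Y * s + b) then
        (Sum.inl (a * s + b) : ℕ ⊕ (ℕ × ℕ)) else Sum.inr (a, b)) ∈ _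
      split_ifs with hbad
      · rw [Finset.mem_coe, Finset.inl_mem_disjSum]
        unfold badsIn
        rw [← hs, Finset.mem_filter, Finset.mem_range, (hmd a b hb).1, (hmd a b hb).2]
        exact ⟨by nlinarith, hbad⟩
      · rw [Finset.mem_coe, Finset.inr_mem_disjSum]
        unfold wrongsIn
        rw [← hs, Finset.mem_filter, Finset.mem_product, Finset.mem_range, Finset.mem_range]
        exact ⟨⟨ha, hb⟩, p3.resolve_left hbad⟩
    · rintro ⟨a, b⟩ hq ⟨a', b'⟩ hq' he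
      simp only [Finset.coe_product, Finset.coe_range, mem_prod, mem_Iio] at hq hq'
      obtain ⟨ha, hb⟩ := hq
      obtain ⟨ha', hb'⟩ := hq'
      simp only at he
      split_ifs at he with c1 c2 c2
      · have he' := Sum.inl.inj he
        have e1 : a = a' := by rw [← (hmd a b hb).1, ← (hmd a' b' hb').1, he']
        have e2 : b = b' := by rw [← (hmd a b hb).2, ← (hmd a' b' hb').2, he']
        rw [e1, e2]
      · exact Sum.inr.inj he
  have c3 : s * s = 4 ^ (n - L) := by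
    rw [hs, ← mul_pow]; norm_num
  omega

end I_LMA

open I_LMA in
theorem LMA_pf (h1 : S_BLK) : S_LMA := by
  classical
  intro U hU hne hS
  obtain ⟨c, hcU, hcf⟩ := hne
  have hcM : c ∈ MM := isClosed_MM.frontier_subset hcf
  obtain ⟨n₀, a, b, hcB, hBo, ha, hb, hsub, hcov⟩ := h1 U hU c hcU hcM
  refine ⟨Box n₀ a b, hBo, ⟨c, hcB, hcf⟩, ?_⟩
  obtain ⟨f, ρ, hf, hρ, h⟩ := hS
  have hf' : Computable (f' n₀ a b f) := cf' n₀ a b hf
  have hK : Computable fun k : ℕ => max k n₀ + 3 :=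
    (padd (Primrec.nat_max.comp Primrec.id (Primrec.const n₀)) (pconst 3)).to_comp
  have hbc : Computable fun u : ℕ × ℕ =>
      decide (viols (f' n₀ a b f) (ρ (max u.1 n₀ + 3)) (max u.1 n₀ + 3) u.2 ≤ 0) := by
    have hk1 : Computable fun u : ℕ × ℕ => max u.1 n₀ + 3 := hK.comp Computable.fst
    have hr : Computable fun u : ℕ × ℕ => ρ (max u.1 n₀ + 3) := hρ.comp hk1
    exact cle (cviols hf' hr hk1 Computable.snd) (Computable.const 0)
  have hcounts : ∀ K, n₀ ≤ K → ∀ X < 8 * 2 ^ K, ∀ Y < 8 * 2 ^ K, InBox n₀ a b K X Y →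
      2 * (wrongsIn (f' n₀ a b f) (ρ K) K X Y).card < 4 ^ (ρ K - K) := by
    intro K hK0 X hX Y hY hin
    rw [wrongs_eq f hK0 (h K).1 hin]
    exact (h K).2 X hX Y hY (hsub K X Y hin)
  have hex : ∀ k, ∃ N, viols (f' n₀ a b f) (ρ (max k n₀ + 3)) (max k n₀ + 3) N ≤ 0 := by
    intro k
    obtain ⟨N, hN⟩ := exists_all_big (ρ (max k n₀ + 3))
    refine ⟨N, ?_⟩
    have hK0 : n₀ ≤ max k n₀ + 3 := (le_max_right k n₀).trans (by omega)
    rw [Nat.le_zero, viols_zero]
    intro X hX Y hY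
    by_cases hin : InBox n₀ a b (max k n₀ + 3) X Y
    · have h3 := badsIn_le (f := f' n₀ a b f) (h (max k n₀ + 3)).1 hX hY hN
      have h4 := hcounts _ hK0 X hX Y hY hin
      omega
    · rw [bads_out f hK0 (h (max k n₀ + 3)).1 hin, Finset.card_empty, mul_zero]
      positivity
  have hc : Computable fun k => Nat.find (hex k) :=
    Computable.find (P := fun k N =>
      viols (f' n₀ a b f) (ρ (max k n₀ + 3)) (max k n₀ + 3) N ≤ 0) hbc.computablePred hex
  have h4 : Computable fun k => Nat.find (hex k) + 4 :=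
    (padd (α := ℕ) Primrec.id (pconst 4)).to_comp.comp hc
  refine ⟨fun k => Nat.find (hex k) + 4, h4, ?_⟩
  intro k w hwV hwd n hn
  have hspec := Nat.find_spec (hex k)
  rw [Nat.le_zero, viols_zero] at hspec
  have hK0 : n₀ ≤ max k n₀ + 3 := (le_max_right k n₀).trans (by omega)
  have hKk : (1 : ℝ) / 2 ^ (max k n₀) < dM w := by
    refine lt_of_le_of_lt ?_ hwd
    exact one_div_le_one_div_of_le (by positivity)
      (pow_le_pow_right₀ (by norm_num) (le_max_left _ _))
  obtain ⟨X, Y, hin, hwS⟩ := hcov (max k n₀ + 3) w hK0 hwV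
  obtain ⟨hX, hY⟩ := lt_of_inBox ha hb hin
  exact time_block (h (max k n₀ + 3)).1 hwS (hspec X hX Y hY) (hcounts _ hK0 X hX Y hY hin)
    hKk hn

end Pool.Agent.Work.MP_500150_lc.LC
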