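import Mathlib
import Pool.Agent.Work.MP_500150_lc.LC.StmtsC

set_option autoImplicit false

namespace Pool.Agent.Work.MP_500150_lc.LC

theorem NUM_pf : S_NUM := by
  intro C e τ K hC he hτ hK
  have hlτ : 0 < Real.log τ := Real.log_pos hτ
  have hlC : 0 ≤ Real.log C := Real.log_nonneg hC
  have hl2 : 0 < Real.log 2 := Real.log_pos (by norm_num)
  set E := |Real.log (3 * e / 128)| with hE
  have hE0 : 0 ≤ E := abs_nonneg _
  set Q := (Real.log C + 14 * K) / Real.log τ with hQ
  have hQ0 : 0 ≤ Q := by positivity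
  set K₂ := 2 * E + 2 + 42 * K + Real.log 8 + Real.log C + Q * Real.log C with hK₂
  obtain ⟨C', hC'⟩ := exists_nat_gt (K₂ / Real.log 2)
  refine ⟨C', ?_⟩
  intro k n B hB hBu hτn
  have hB0 : 0 < B := by linarith
  set s : ℝ := 2 ^ k with hs
  have hs1 : 1 ≤ s := one_le_pow₀ (by norm_num)
  have hks : (k : ℝ) ≤ s := by
    have : k < 2 ^ k := Nat.lt_two_pow_self
    rw [hs]
    exact_mod_cast this.le
  have hlB : Real.log B ≤ 14 * K * s := by
    rw [Real.log_le_iff_le_exp hB0]
    exact hBu
  have hlB0 : 0 ≤ Real.log B := Real.log_nonneg hB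
  have hn : (n : ℝ) ≤ Q * s := by
    have h1 : n * Real.log τ ≤ Real.log C + Real.log B := by
      have h2 := Real.log_le_log (by positivity) hτn
      rw [Real.log_pow, Real.log_mul (by linarith) (by linarith)] at h2
      exact h2
    rw [hQ, div_mul_eq_mul_div, le_div_iff₀ hlτ]
    nlinarith
  have hpos : 0 < (3 * e * (1 / s) / (128 * B)) ^ 2 / (8 * B * C ^ (n + 1)) := by positivity
  have hlog : Real.log ((3 * e * (1 / s) / (128 * B)) ^ 2 / (8 * B * C ^ (n + 1))) =
      2 * Real.log (3 * e / 128) - 2 * (k * Real.log 2) - 3 * Real.log B - Real.log 8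
        - (n + 1) * Real.log C := by
    have e1 : 3 * e * (1 / s) / (128 * B) = (3 * e / 128) / (s * B) := by
      field_simp
    have hC0 : C ≠ 0 := by linarith
    rw [e1, Real.log_div (by positivity) (by positivity), Real.log_pow,
      Real.log_div (by positivity) (by positivity), Real.log_mul (by positivity) hB0.ne',
      Real.log_mul (by positivity) (by positivity), Real.log_mul (by norm_num) hB0.ne',
      Real.log_pow C (n + 1), hs, Real.log_pow 2 k]
    push_cast
    ring
  have hlhs : Real.log ((1 : ℝ) / 2 ^ (C' * 2 ^ k)) = -(C' * s * Real.log 2) := by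
    rw [one_div, Real.log_inv, Real.log_pow, hs]
    push_cast
    ring
  rw [← Real.log_lt_log_iff (by positivity) hpos, hlog, hlhs]
  have h1 : K₂ < C' * Real.log 2 := by
    rw [div_lt_iff₀ hl2] at hC'
    exact hC'
  have h2 : K₂ * s < C' * Real.log 2 * s := mul_lt_mul_of_pos_right h1 (by linarith)
  have h3 : -E ≤ Real.log (3 * e / 128) := neg_abs_le _
  have hlog2 : Real.log 2 ≤ 1 := by
    have := Real.log_two_lt_d9
    linarith
  have h4 : (k : ℝ) * Real.log 2 ≤ s := by
    have hk0 : (0 : ℝ) ≤ k := Nat.cast_nonneg _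
    nlinarith
  have h5 : (n : ℝ) * Real.log C ≤ Q * s * Real.log C := mul_le_mul_of_nonneg_right hn hlC
  have hl8 : 0 ≤ Real.log 8 := Real.log_nonneg (by norm_num)
  have h6 : E ≤ E * s := by nlinarith
  have h7 : Real.log 8 ≤ Real.log 8 * s := by nlinarith
  have h8 : Real.log C ≤ Real.log C * s := by nlinarith
  have h9 : K₂ * s = 2 * (E * s) + 2 * s + 3 * (14 * K * s) + Real.log 8 * s + Real.log C * s +
      Q * s * Real.log C := by rw [hK₂]; ring
  have h10 : (n + 1) * Real.log C = n * Real.log C + Real.log C := by ring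
  rw [h10]
  have h11 : (C' : ℝ) * s * Real.log 2 = C' * Real.log 2 * s := by ring
  rw [h11]
  linarith

end Pool.Agent.Work.MP_500150_lc.LC
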