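import Mathlib
import Pool.Agent.Work.MP_500150_lc.LC.Stmts
import Pool.Agent.Work.MP_500150_lc.H8.Harnack

set_option autoImplicit false

/-!
# [500150 LC SHK] Harnack's inequality with the sharp constant
-/

namespace Pool.Agent.Work.MP_500150_lc.LC

open Metric Set Filter Topology MeasureTheory Pool.MP_500150_lc.H8

theorem SHK_pf : S_SHK := by
  intro f x y R t hR ht0 ht1 hf h1 hy
  have hx : x ∈ ball x R := mem_ball_self hR
  have hyb : y ∈ ball x R := by
    rw [mem_ball, dist_eq_norm]
    have : t * R < R := by nlinarith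
    linarith
  have h0 : ∀ z ∈ ball x R, f z ≠ 0 := by
    intro z hz h
    have := h1 z hz
    rw [h, norm_zero] at this
    linarith
  obtain ⟨g, hg, hfg⟩ := exists_log hR hf h0
  have hre : ∀ z ∈ ball x R, (g z).re = Real.log ‖f z‖ := by
    intro z hz
    rw [hfg z hz, Complex.norm_exp, Real.log_exp]
  have hpos : ∀ z ∈ ball x R, 0 < (g z).re := by
    intro z hz
    rw [hre z hz]
    exact Real.log_pos (h1 z hz)
  set w := g x with hw
  have hw0 : 0 < w.re := hpos x hx
  -- the Cayley transform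
  set h : ℂ → ℂ := fun z => (g z - w) / (g z + (starRingEnd ℂ) w) with hh
  have hden : ∀ z ∈ ball x R, g z + (starRingEnd ℂ) w ≠ 0 := by
    intro z hz hc
    have := congrArg Complex.re hc
    simp only [Complex.add_re, Complex.conj_re, Complex.zero_re] at this
    have := hpos z hz
    linarith
  have hd : DifferentiableOn ℂ h (ball x R) :=
    (hg.sub_const w).div (hg.add_const _) hden
  have hsq : ∀ z ∈ ball x R, ‖g z - w‖ ^ 2 ≤ ‖g z + (starRingEnd ℂ) w‖ ^ 2 := by
    intro z hz
    rw [← Complex.normSq_eq_norm_sq, ← Complex.normSq_eq_norm_sq, Complex.normSq_apply,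
      Complex.normSq_apply]
    simp only [Complex.sub_re, Complex.sub_im, Complex.add_re, Complex.add_im, Complex.conj_re,
      Complex.conj_im]
    have := mul_pos (hpos z hz) hw0
    nlinarith
  have hmaps : MapsTo h (ball x R) (closedBall (h x) 1) := by
    intro z hz
    have hx0 : h x = 0 := by simp [hh, hw]
    rw [hx0, mem_closedBall_zero_iff]
    simp only [hh]
    rw [norm_div, div_le_one (norm_pos_iff.mpr (hden z hz))]
    exact (sq_le_sq₀ (norm_nonneg _) (norm_nonneg _)).mp (hsq z hz)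
  have hschw := Complex.dist_le_div_mul_dist_of_mapsTo_ball hd hmaps hyb
  have hx0 : h x = 0 := by simp [hh, hw]
  rw [hx0, dist_zero_right, dist_eq_norm] at hschw
  have hρ : ‖h y‖ ≤ t := by
    refine hschw.trans ?_
    rw [one_div_mul_eq_div, div_le_iff₀ hR]
    exact hy
  simp only [hh] at hρ
  rw [norm_div, div_le_iff₀ (norm_pos_iff.mpr (hden y hyb))] at hρ
  have h3 : ‖g y - w‖ ^ 2 ≤ (t * ‖g y + (starRingEnd ℂ) w‖) ^ 2 :=
    pow_le_pow_left₀ (norm_nonneg _) hρ 2
  rw [mul_pow, ← Complex.normSq_eq_norm_sq, ← Complex.normSq_eq_norm_sq, Complex.normSq_apply,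
    Complex.normSq_apply] at h3
  simp only [Complex.sub_re, Complex.sub_im, Complex.add_re, Complex.add_im, Complex.conj_re,
      Complex.conj_im] at h3
  have hy0 := hpos y hyb
  rw [← hre x hx, ← hre y hyb]
  have h4 : 0 ≤ (1 - t ^ 2) * ((g y).im - w.im) ^ 2 :=
    mul_nonneg (by nlinarith) (sq_nonneg _)
  have h5 : ((g y).re - w.re) ^ 2 ≤ (t * ((g y).re + w.re)) ^ 2 := by nlinarith
  have h6 := (abs_le_of_sq_le_sq' h5 (by positivity)).2
  rw [div_mul_eq_mul_div, le_div_iff₀ (by linarith)]
  nlinarith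

end Pool.Agent.Work.MP_500150_lc.LC
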